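import Mathlib.FieldTheory.IntermediateField.Basic
import Mathlib.Algebra.Algebra.Operations
import Mathlib.LinearAlgebra.Complex.Module
import Mathlib.Algebra.Algebra.Rat
import Mathlib.LinearAlgebra.FiniteDimensional.Basic
import Mathlib.LinearAlgebra.FiniteDimensional.Lemmas
import Mathlib.LinearAlgebra.Dimension.FreeAndStrongRankCondition
import Mathlib.RingTheory.AlgebraTower
import Mathlib.RingTheory.Finiteness.Basic
import Mathlib.RingTheory.Finiteness.Subalgebra
import Mathlib.Data.Nat.Choose.Sum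
import Mathlib.Analysis.SpecialFunctions.Log.Basic

/-!
# Transcendence degree with bounded degrees (ALGT)
-/

namespace MP60829e.GF

section aux

open Module Submodule

variable {F A : Type*} [Field F] [Field A] [Algebra F A]

private theorem fr_mono {V W : Submodule F A} (h : V ≤ W) (hW : W.FG) :
    finrank F V ≤ finrank F W := by
  have : Module.Finite F W := Module.Finite.iff_fg.2 hW
  exact Submodule.finrank_mono h

private theorem span_mul_map (x : A) (V : Submodule F A) :
    span F {x} * V = V.map (LinearMap.mulLeft F x) := by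
  ext y
  rw [mem_span_singleton_mul, Submodule.mem_map]
  rfl

private theorem fr_span_mul (x : A) (V : Submodule F A) (hV : V.FG) :
    finrank F ↥(span F {x} * V) ≤ finrank F V := by
  have : Module.Finite F V := Module.Finite.iff_fg.2 hV
  rw [span_mul_map]
  exact Submodule.finrank_map_le _ _

private theorem fr_span_mul_eq {x : A} (hx : x ≠ 0) (V : Submodule F A) :
    finrank F V = finrank F ↥(span F {x} * V) := by
  rw [span_mul_map]
  exact (Submodule.equivMapOfInjective (LinearMap.mulLeft F x)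
    (fun a b h => mul_left_cancel₀ hx h) V).finrank_eq

private theorem fg_span_mul (x : A) {V : Submodule F A} (hV : V.FG) :
    (span F {x} * V).FG := (fg_span_singleton x).mul hV

private theorem fg_sum {ι : Type*} (s : Finset ι) (W : ι → Submodule F A)
    (hW : ∀ i ∈ s, (W i).FG) : (∑ i ∈ s, W i).FG := by
  classical
  induction s using Finset.induction_on with
  | empty =>
    rw [Finset.sum_empty]
    exact fg_bot
  | insert a s ha ih =>
    rw [Finset.sum_insert ha]
    exact (hW a (Finset.mem_insert_self a s)).sup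
      (ih fun i hi => hW i (Finset.mem_insert_of_mem hi))

private theorem fr_sum {ι : Type*} (s : Finset ι) (W : ι → Submodule F A)
    (hW : ∀ i ∈ s, (W i).FG) :
    finrank F ↥(∑ i ∈ s, W i) ≤ ∑ i ∈ s, finrank F (W i) := by
  classical
  induction s using Finset.induction_on with
  | empty =>
    rw [Finset.sum_empty, Finset.sum_empty]
    exact (finrank_bot F A).le
  | insert a s ha ih =>
    rw [Finset.sum_insert ha, Finset.sum_insert ha]
    have h1 : Module.Finite F (W a) := Module.Finite.iff_fg.2 (hW a (Finset.mem_insert_self a s))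
    have h2 : Module.Finite F ↥(∑ i ∈ s, W i) := Module.Finite.iff_fg.2
      (fg_sum s W fun i hi => hW i (Finset.mem_insert_of_mem hi))
    exact (Submodule.finrank_add_le_finrank_add_finrank _ _).trans
      (Nat.add_le_add_left (ih fun i hi => hW i (Finset.mem_insert_of_mem hi)) _)

private theorem natCast_le_one (n : ℕ) : (n : Submodule F A) ≤ 1 := by
  induction n with
  | zero =>
    rw [Nat.cast_zero]
    exact bot_le
  | succ n ih =>
    rw [Nat.cast_succ]
    exact sup_le ih le_rfl

private theorem sum_le_of {ι : Type*} (s : Finset ι) (W : ι → Submodule F A) (U : Submodule F A)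
    (h : ∀ i ∈ s, W i ≤ U) : ∑ i ∈ s, W i ≤ U := by
  classical
  induction s using Finset.induction_on with
  | empty =>
    rw [Finset.sum_empty]
    exact bot_le
  | insert a s ha ih =>
    rw [Finset.sum_insert ha]
    exact sup_le (h a (Finset.mem_insert_self a s))
      (ih fun i hi => h i (Finset.mem_insert_of_mem hi))

private theorem prod_mem {n : ℕ} (W : Submodule F A) (f : Fin n → A) (h : ∀ i, f i ∈ W) :
    ∏ i, f i ∈ W ^ n := by
  induction n with
  | zero =>
    rw [Finset.univ_eq_empty, Finset.prod_empty, pow_zero]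
    exact Submodule.one_le.1 le_rfl
  | succ n ih =>
    rw [Fin.prod_univ_succ, pow_succ']
    exact Submodule.mul_mem_mul (h 0) (ih _ fun i => h _)

private theorem span_pow_singleton (x : A) (n : ℕ) : span F {x} ^ n = span F {x ^ n} := by
  rw [span_pow, Set.singleton_pow]

private theorem pow_mono_left {V : Submodule F A} (hV : 1 ≤ V) {m n : ℕ} (h : m ≤ n) :
    V ^ m ≤ V ^ n := pow_le_pow_right₀ hV h

private theorem sup_pow_le (V : Submodule F A) (x : A) (c : ℕ) :
    (V ⊔ span F {x}) ^ c ≤ ∑ m ∈ Finset.range (c + 1), V ^ m * span F {x ^ (c - m)} := by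
  have h : (V ⊔ span F {x}) ^ c = (V + span F {x}) ^ c := rfl
  rw [h, add_pow]
  refine Finset.sum_le_sum fun m _ => ?_
  rw [span_pow_singleton]
  calc V ^ m * span F {x ^ (c - m)} * ((c.choose m : ℕ) : Submodule F A)
      ≤ V ^ m * span F {x ^ (c - m)} * 1 := mul_le_mul_right (natCast_le_one _) _
    _ = _ := mul_one _

end aux

/-- `Tower K D t M V`: `V = span_K(1, ζ_1.., x_1..)`, built from `K·1` by adding `t` arbitrary complex numbers and `M`
numbers `x` that are roots of a polynomial of degree `e`, `1 ≤ e ≤ D`, with coefficients in `V^D` and nonzero leading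
coefficient. -/
inductive Tower (K : IntermediateField ℚ ℂ) (D : ℕ) : ℕ → ℕ → Submodule K ℂ → Prop
  | base : Tower K D 0 0 1
  | free {t M : ℕ} {V : Submodule K ℂ} (ζ : ℂ) (h : Tower K D t M V) :
      Tower K D (t + 1) M (V ⊔ Submodule.span K {ζ})
  | alg {t M : ℕ} {V : Submodule K ℂ} (x : ℂ) (e : ℕ) (c : ℕ → ℂ) (he1 : 1 ≤ e) (heD : e ≤ D)
      (hc : ∀ j ≤ e, c j ∈ V ^ D) (hce : c e ≠ 0)
      (hx : ∑ j ∈ Finset.range (e + 1), c j * x ^ j = 0) (h : Tower K D t M V) :
      Tower K D t (M + 1) (V ⊔ Submodule.span K {x})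

theorem Tower.one_le {K : IntermediateField ℚ ℂ} {D t M : ℕ} {V : Submodule K ℂ}
    (h : Tower K D t M V) : 1 ≤ V := by
  induction h with
  | base => exact le_rfl
  | free ζ h ih => exact le_sup_of_le_left ih
  | alg x e c he1 heD hc hce hx h ih => exact le_sup_of_le_left ih

theorem Tower.fg {K : IntermediateField ℚ ℂ} {D t M : ℕ} {V : Submodule K ℂ}
    (h : Tower K D t M V) : V.FG := by
  induction h with
  | base =>
    rw [Submodule.one_eq_span]
    exact Submodule.fg_span_singleton 1
  | free ζ h ih => exact ih.sup (Submodule.fg_span_singleton ζ)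
  | alg x e c he1 heD hc hce hx h ih => exact ih.sup (Submodule.fg_span_singleton x)

/-- `(V + K ζ)^c ≤ ∑_(k ≤ c) ζ^k V^c`. -/
theorem finrank_free {K : IntermediateField ℚ ℂ} (V : Submodule K ℂ) (hV : 1 ≤ V) (hfg : V.FG)
    (ζ : ℂ) (c : ℕ) :
    Module.finrank K ↥((V ⊔ Submodule.span K {ζ}) ^ c) ≤ (c + 1) * Module.finrank K ↥(V ^ c) := by
  have h1 : (V ⊔ Submodule.span K {ζ}) ^ c ≤
      ∑ m ∈ Finset.range (c + 1), Submodule.span K {ζ ^ (c - m)} * V ^ c := by
    refine (sup_pow_le V ζ c).trans (Finset.sum_le_sum fun m hm => ?_)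
    rw [mul_comm]
    exact mul_le_mul_right (pow_mono_left hV (Nat.lt_succ_iff.1 (Finset.mem_range.1 hm))) _
  have hfc : (V ^ c).FG := hfg.pow c
  have hW : ∀ m ∈ Finset.range (c + 1), (Submodule.span K {ζ ^ (c - m)} * V ^ c).FG :=
    fun m _ => fg_span_mul _ hfc
  refine (fr_mono h1 (fg_sum _ _ hW)).trans ((fr_sum _ _ hW).trans ?_)
  refine (Finset.sum_le_card_nsmul _ _ (Module.finrank K ↥(V ^ c))
    fun m _ => fr_span_mul _ _ hfc).trans ?_
  rw [Finset.card_range, smul_eq_mul]

/-- `b = c_e`; `b^k x^k ∈ E_k = ∑_(j<e) x^j V^(Dk)`; `b^c (V + K x)^c ≤ ∑_(j<e) x^j V^((D+1)c)`; multiplication by `b^c` is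
injective. -/
theorem finrank_alg {K : IntermediateField ℚ ℂ} (V : Submodule K ℂ) (hV : 1 ≤ V) (hfg : V.FG)
    (D : ℕ) (x : ℂ) (e : ℕ) (cf : ℕ → ℂ) (he1 : 1 ≤ e) (heD : e ≤ D)
    (hc : ∀ j ≤ e, cf j ∈ V ^ D) (hce : cf e ≠ 0)
    (hx : ∑ j ∈ Finset.range (e + 1), cf j * x ^ j = 0) (c : ℕ) :
    Module.finrank K ↥((V ⊔ Submodule.span K {x}) ^ c)
      ≤ D * Module.finrank K ↥(V ^ ((D + 1) * c)) := by
  set T : Submodule K ℂ := ∑ j ∈ Finset.range e, Submodule.span K {x ^ j} with hT
  have hTx : ∀ j < e, Submodule.span K {x ^ j} ≤ T := fun j hj =>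
    Finset.single_le_sum_of_canonicallyOrdered (f := fun j => Submodule.span K {x ^ j})
      (Finset.mem_range.2 hj)
  have hT1 : 1 ≤ T := by
    have h := hTx 0 he1
    rwa [pow_zero, ← Submodule.one_eq_span] at h
  have hcs : ∀ j ≤ e, Submodule.span K {cf j} ≤ V ^ D := fun j hj => by
    rw [Submodule.span_singleton_le_iff_mem]
    exact hc j hj
  -- multiplication by `b x`
  have hbx : Submodule.span K {cf e * x} * T ≤ T * V ^ D := by
    rw [hT, Finset.mul_sum, ← hT]
    refine sum_le_of _ _ _ fun j hj => ?_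
    have hj' := Finset.mem_range.1 hj
    rw [Submodule.span_mul_span, Set.singleton_mul_singleton, Submodule.span_singleton_le_iff_mem]
    rcases Nat.lt_or_ge (j + 1) e with h1 | h1
    · have h2 : cf e * x * x ^ j = x ^ (j + 1) * cf e := by ring
      rw [h2]
      exact Submodule.mul_mem_mul (hTx _ h1 (Submodule.mem_span_singleton_self _)) (hc e le_rfl)
    · have h3 : j + 1 = e := by omega
      have h2 : cf e * x * x ^ j = -∑ i ∈ Finset.range e, x ^ i * cf i := by
        rw [Finset.sum_range_succ] at hx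
        have h4 : ∑ i ∈ Finset.range e, x ^ i * cf i = ∑ i ∈ Finset.range e, cf i * x ^ i :=
          Finset.sum_congr rfl fun i _ => mul_comm _ _
        rw [h4, ← h3]
        rw [← h3] at hx
        linear_combination hx
      rw [h2]
      refine Submodule.neg_mem _ (Submodule.sum_mem _ fun i hi => ?_)
      have hi' := Finset.mem_range.1 hi
      exact Submodule.mul_mem_mul (hTx _ hi' (Submodule.mem_span_singleton_self _)) (hc i hi'.le)
  have hk : ∀ k : ℕ, Submodule.span K {cf e * x} ^ k ≤ T * V ^ (D * k) := by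
    intro k
    induction k with
    | zero =>
      rw [pow_zero, mul_zero, pow_zero, mul_one]
      exact hT1
    | succ k ih =>
      calc Submodule.span K {cf e * x} ^ (k + 1)
          = Submodule.span K {cf e * x} ^ k * Submodule.span K {cf e * x} := pow_succ _ _
        _ ≤ T * V ^ (D * k) * Submodule.span K {cf e * x} := mul_le_mul_left ih _
        _ = Submodule.span K {cf e * x} * T * V ^ (D * k) := by ring
        _ ≤ T * V ^ D * V ^ (D * k) := mul_le_mul_left hbx _
        _ = T * V ^ (D * (k + 1)) := by ring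
  have hmain : Submodule.span K {cf e ^ c} * (V ⊔ Submodule.span K {x}) ^ c ≤
      T * V ^ ((D + 1) * c) := by
    refine (mul_le_mul_right (sup_pow_le V x c) _).trans ?_
    rw [Finset.mul_sum]
    refine sum_le_of _ _ _ fun m hm => ?_
    have hm' : m ≤ c := Nat.lt_succ_iff.1 (Finset.mem_range.1 hm)
    have e1 : Submodule.span K {cf e ^ c} * (V ^ m * Submodule.span K {x ^ (c - m)}) =
        V ^ m * Submodule.span K {cf e} ^ m * Submodule.span K {cf e * x} ^ (c - m) := by
      rw [span_pow_singleton, span_pow_singleton, mul_left_comm, mul_assoc,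
        Submodule.span_mul_span, Submodule.span_mul_span, Set.singleton_mul_singleton,
        Set.singleton_mul_singleton]
      congr 3
      rw [mul_pow, ← mul_assoc, ← pow_add, Nat.add_sub_cancel' hm']
    rw [e1]
    calc V ^ m * Submodule.span K {cf e} ^ m * Submodule.span K {cf e * x} ^ (c - m)
        ≤ V ^ m * (V ^ D) ^ m * (T * V ^ (D * (c - m))) :=
          mul_le_mul' (mul_le_mul_right (pow_le_pow_left₀ bot_le (hcs e le_rfl) m) _) (hk _)
      _ = T * V ^ (m + D * m + D * (c - m)) := by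
          rw [pow_add, pow_add, pow_mul]
          ring
      _ ≤ T * V ^ ((D + 1) * c) := by
          refine mul_le_mul_right (pow_mono_left hV ?_) _
          obtain ⟨r, rfl⟩ := Nat.exists_eq_add_of_le hm'
          rw [Nat.add_sub_cancel_left]
          nlinarith
  have hfc : (V ^ ((D + 1) * c)).FG := hfg.pow _
  have hTV : T * V ^ ((D + 1) * c) =
      ∑ j ∈ Finset.range e, Submodule.span K {x ^ j} * V ^ ((D + 1) * c) := by
    rw [hT, Finset.sum_mul]
  have hW : ∀ j ∈ Finset.range e, (Submodule.span K {x ^ j} * V ^ ((D + 1) * c)).FG :=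
    fun j _ => fg_span_mul _ hfc
  rw [fr_span_mul_eq (pow_ne_zero c hce)]
  rw [hTV] at hmain
  refine (fr_mono hmain (fg_sum _ _ hW)).trans ((fr_sum _ _ hW).trans ?_)
  refine (Finset.sum_le_card_nsmul _ _ (Module.finrank K ↥(V ^ ((D + 1) * c)))
    fun m _ => fr_span_mul _ _ hfc).trans ?_
  rw [Finset.card_range, smul_eq_mul]
  exact Nat.mul_le_mul_right _ heD

theorem Tower.finrank_le {K : IntermediateField ℚ ℂ} {D t M : ℕ} {V : Submodule K ℂ}
    (h : Tower K D t M V) (c : ℕ) :
    Module.finrank K ↥(V ^ c) ≤ D ^ M * (c * (D + 1) ^ M + 1) ^ t := by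
  induction h generalizing c with
  | base =>
    rw [one_pow, pow_zero, pow_zero, mul_one, Submodule.one_eq_span]
    exact (finrank_span_le_card _).trans (by simp)
  | @free t M V ζ h ih =>
    refine (finrank_free V h.one_le h.fg ζ c).trans ?_
    refine (Nat.mul_le_mul_left _ (ih c)).trans ?_
    have h1 : c + 1 ≤ c * (D + 1) ^ M + 1 := by
      have : 1 ≤ (D + 1) ^ M := Nat.one_le_pow _ _ (Nat.succ_pos _)
      nlinarith
    calc (c + 1) * (D ^ M * (c * (D + 1) ^ M + 1) ^ t)
        ≤ (c * (D + 1) ^ M + 1) * (D ^ M * (c * (D + 1) ^ M + 1) ^ t) := Nat.mul_le_mul_right _ h1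
      _ = _ := by ring
  | @alg t M V x e cf he1 heD hc hce hx h ih =>
    refine (finrank_alg V h.one_le h.fg D x e cf he1 heD hc hce hx c).trans ?_
    refine (Nat.mul_le_mul_left _ (ih _)).trans ?_
    apply le_of_eq
    ring

/-- ALGT: more than `t` elements of `V` satisfy a relation over `ℚ` of degree `≤ h` in each.
`(h+1)^(t+1) > δ D^M ((t+1) h (D+1)^M + 1)^t`: the products `∏ ω_j^(α_j)`, `α ∈ {0..h}^(t+1)`, lie in `V^((t+1)h)`,
a `ℚ`-space of dimension `[K:ℚ] · finrank_K`. -/
theorem algt {K : IntermediateField ℚ ℂ} [FiniteDimensional ℚ K] {D t M : ℕ} {V : Submodule K ℂ}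
    (hT : Tower K D t M V) (δ h : ℕ) (hδ : Module.finrank ℚ K ≤ δ)
    (hh : δ * D ^ M * ((t + 1) * (D + 1) ^ M + 1) ^ t ≤ h) (ω : Fin (t + 1) → ℂ)
    (hω : ∀ i, ω i ∈ V) :
    ¬ LinearIndependent ℚ (fun α : Fin (t + 1) → Fin (h + 1) => ∏ i, ω i ^ (α i : ℕ)) := by
  intro hli
  have hV := hT.one_le
  have hfg := hT.fg
  set W : Submodule K ℂ := V ^ ((t + 1) * h) with hW
  have hWf : Module.Finite K W := Module.Finite.iff_fg.2 (hfg.pow _)
  have hWQ : Module.Finite ℚ W := Module.Finite.trans K W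
  have hmem : ∀ α : Fin (t + 1) → Fin (h + 1), ∏ i, ω i ^ (α i : ℕ) ∈ W := by
    intro α
    have h1 : ∏ i, ω i ^ (α i : ℕ) ∈ (V ^ h) ^ (t + 1) := prod_mem _ _ fun i =>
      pow_mono_left hV (Nat.lt_succ_iff.1 (α i).2) (Submodule.pow_mem_pow _ (hω i) _)
    rw [← pow_mul, mul_comm h] at h1
    exact h1
  have hli' : LinearIndependent ℚ (fun α : Fin (t + 1) → Fin (h + 1) =>
      (⟨∏ i, ω i ^ (α i : ℕ), hmem α⟩ : W)) := by
    refine LinearIndependent.of_comp (W.subtype.restrictScalars ℚ) ?_
    exact hli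
  have h1 := hli'.fintype_card_le_finrank
  rw [Fintype.card_pi, Finset.prod_const, Fintype.card_fin, Finset.card_univ, Fintype.card_fin,
    ← Module.finrank_mul_finrank ℚ K W] at h1
  have h2 := hT.finrank_le ((t + 1) * h)
  have h3 : (t + 1) * h * (D + 1) ^ M + 1 ≤ (h + 1) * ((t + 1) * (D + 1) ^ M + 1) := by
    have : (t + 1) * h * (D + 1) ^ M = h * ((t + 1) * (D + 1) ^ M) := by ring
    rw [this]
    nlinarith [Nat.zero_le ((t + 1) * (D + 1) ^ M)]
  have h4 : (h + 1) ^ (t + 1) ≤ h * (h + 1) ^ t := by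
    calc (h + 1) ^ (t + 1) ≤ _ := h1
      _ ≤ δ * (D ^ M * ((t + 1) * h * (D + 1) ^ M + 1) ^ t) := Nat.mul_le_mul hδ h2
      _ ≤ δ * (D ^ M * ((h + 1) * ((t + 1) * (D + 1) ^ M + 1)) ^ t) := by gcongr
      _ = (δ * D ^ M * ((t + 1) * (D + 1) ^ M + 1) ^ t) * (h + 1) ^ t := by
          rw [mul_pow]
          ring
      _ ≤ h * (h + 1) ^ t := Nat.mul_le_mul_right _ hh
  have h5 : h * (h + 1) ^ t < (h + 1) ^ (t + 1) := by
    rw [pow_succ, mul_comm ((h + 1) ^ t)]
    exact Nat.mul_lt_mul_of_pos_right (Nat.lt_succ_self h) (pow_pos (Nat.succ_pos h) t)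
  omega

end MP60829e.GF
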