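import Pool.Agent.Lib.MP_60829e_nt.GF.Siegel
import Mathlib.Analysis.SpecificLimits.Normed
import Mathlib.Analysis.Complex.ExponentialBounds

/-!
# Exponential growth rates
-/

namespace MP60829e.GF

/-- `f g ≤ C (g+1)^e R^g` for all `g`. -/
def Gr (f : ℕ → ℝ) (R : ℝ) : Prop :=
  (∀ g, 0 ≤ f g) ∧ 0 ≤ R ∧ ∃ (C : ℝ) (e : ℕ), 0 < C ∧ ∀ g : ℕ, f g ≤ C * ((g : ℝ) + 1) ^ e * R ^ g

theorem Gr.mul {f1 f2 : ℕ → ℝ} {R1 R2 : ℝ} (h1 : Gr f1 R1) (h2 : Gr f2 R2) :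
    Gr (fun g => f1 g * f2 g) (R1 * R2) := by
  obtain ⟨h1a, h1b, C1, e1, hC1, h1⟩ := h1
  obtain ⟨h2a, h2b, C2, e2, hC2, h2⟩ := h2
  refine ⟨fun g => mul_nonneg (h1a g) (h2a g), mul_nonneg h1b h2b, C1 * C2, e1 + e2,
    mul_pos hC1 hC2, fun g => ?_⟩
  calc f1 g * f2 g ≤ (C1 * ((g : ℝ) + 1) ^ e1 * R1 ^ g) * (C2 * ((g : ℝ) + 1) ^ e2 * R2 ^ g) :=
        mul_le_mul (h1 g) (h2 g) (h2a g) (by positivity)
    _ = C1 * C2 * ((g : ℝ) + 1) ^ (e1 + e2) * (R1 * R2) ^ g := by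
        rw [pow_add, mul_pow]
        ring

theorem Gr.pow {f : ℕ → ℝ} {R : ℝ} (h : Gr f R) (k : ℕ) : Gr (fun g => f g ^ k) (R ^ k) := by
  induction k with
  | zero =>
    refine ⟨fun g => by simp, by simp, 1, 0, one_pos, fun g => by simp⟩
  | succ k ih =>
    have h1 := ih.mul h
    simpa only [pow_succ] using h1

theorem Gr.const {c : ℝ} (hc : 0 ≤ c) : Gr (fun _ => c) 1 := by
  refine ⟨fun _ => hc, zero_le_one, c + 1, 0, by linarith, fun g => ?_⟩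
  rw [pow_zero, one_pow]
  linarith

/-- `c * g + d`. -/
theorem Gr.lin (c d : ℕ) : Gr (fun g => (c : ℝ) * g + d) 1 := by
  refine ⟨fun g => by positivity, zero_le_one, (c : ℝ) + d + 1, 1, by positivity, fun g => ?_⟩
  rw [pow_one, one_pow, mul_one]
  have h1 : (0 : ℝ) ≤ c := Nat.cast_nonneg c
  have h2 : (0 : ℝ) ≤ d := Nat.cast_nonneg d
  have h3 : (0 : ℝ) ≤ g := Nat.cast_nonneg g
  nlinarith [mul_nonneg h2 h3]

theorem Gr.mono {f1 f2 : ℕ → ℝ} {R1 R2 : ℝ} (h : Gr f2 R1) (h0 : ∀ g, 0 ≤ f1 g)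
    (hf : ∀ g, f1 g ≤ f2 g) (hR : R1 ≤ R2) : Gr f1 R2 := by
  obtain ⟨-, hb, C, e, hC, h1⟩ := h
  refine ⟨h0, hb.trans hR, C, e, hC, fun g => (hf g).trans ((h1 g).trans ?_)⟩
  exact mul_le_mul_of_nonneg_left (pow_le_pow_left₀ hb hR g) (by positivity)

/-- `b^(k g + l)`. -/
theorem Gr.exp {b : ℝ} (hb : 0 ≤ b) (k l : ℕ) : Gr (fun g => b ^ (k * g + l)) (b ^ k) := by
  refine ⟨fun g => pow_nonneg hb _, pow_nonneg hb _, b ^ l + 1, 0, by positivity, fun g => ?_⟩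
  have h1 : 0 ≤ (b ^ k) ^ g := by positivity
  show b ^ (k * g + l) ≤ _
  rw [pow_add, pow_mul, pow_zero, mul_one]
  nlinarith

/-- If the rate is `< 1` then some (indeed every large) `g` has `f g < 1`. -/
theorem Gr.exists_lt {f : ℕ → ℝ} {R : ℝ} (h : Gr f R) (hR : R < 1) :
    ∃ g0 : ℕ, ∀ g ≥ g0, f g < 1 := by
  obtain ⟨-, hR0, C, e, hC, h1⟩ := h
  have h2 := tendsto_pow_const_mul_const_pow_of_lt_one e hR0 hR
  have h3 : 0 < 1 / (C * 2 ^ e) := by positivity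
  obtain ⟨g0, hg0⟩ := Filter.eventually_atTop.1 ((tendsto_order.1 h2).2 _ h3)
  refine ⟨max g0 1, fun g hg => ?_⟩
  have h4 := hg0 g ((le_max_left _ _).trans hg)
  have h5 : (1 : ℝ) ≤ g := by exact_mod_cast (le_max_right _ _).trans hg
  have h6 : ((g : ℝ) + 1) ^ e ≤ 2 ^ e * (g : ℝ) ^ e := by
    rw [← mul_pow]
    exact pow_le_pow_left₀ (by positivity) (by linarith) e
  have h7 : 0 ≤ R ^ g := pow_nonneg hR0 g
  calc f g ≤ C * ((g : ℝ) + 1) ^ e * R ^ g := h1 g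
    _ ≤ C * (2 ^ e * (g : ℝ) ^ e) * R ^ g :=
        mul_le_mul_of_nonneg_right (mul_le_mul_of_nonneg_left h6 hC.le) h7
    _ = (C * 2 ^ e) * ((g : ℝ) ^ e * R ^ g) := by ring
    _ < (C * 2 ^ e) * (1 / (C * 2 ^ e)) := mul_lt_mul_of_pos_left h4 (by positivity)
    _ = 1 := mul_one_div_cancel (by positivity)

/-- `lcm(1..t) ≤ e^(6 t)` (`Chebyshev.psi_eq_log_lcmUpto`, `psi_le_const_mul_self`, `log 4 + 4 ≤ 6`); we use `e ≤ 3`:
`lcm(1..t) ≤ 3^(6t)`. -/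
theorem lcmUpto_le (t : ℕ) : (Nat.lcmUpto t : ℝ) ≤ 3 ^ (6 * t) := by
  have h0 : (0 : ℝ) < (Nat.lcmUpto t : ℝ) := by exact_mod_cast Nat.lcmUpto_pos t
  have h1 := Chebyshev.psi_eq_log_lcmUpto t
  have h2 := Chebyshev.psi_le_const_mul_self (x := (t : ℝ)) (Nat.cast_nonneg t)
  have h3 : Real.log 4 ≤ 2 := by
    have e : (4 : ℝ) = 2 ^ 2 := by norm_num
    rw [e, Real.log_pow]
    have := Real.log_two_lt_d9
    push_cast
    linarith
  have h4 : Real.log (Nat.lcmUpto t : ℝ) ≤ ((6 * t : ℕ) : ℝ) := by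
    rw [← h1]
    refine h2.trans ?_
    push_cast
    exact mul_le_mul_of_nonneg_right (by linarith) (Nat.cast_nonneg t)
  calc (Nat.lcmUpto t : ℝ) = Real.exp (Real.log (Nat.lcmUpto t : ℝ)) := (Real.exp_log h0).symm
    _ ≤ Real.exp ((6 * t : ℕ) : ℝ) := Real.exp_le_exp.2 h4
    _ = Real.exp 1 ^ (6 * t) := by rw [← Real.exp_nat_mul, mul_one]
    _ ≤ 3 ^ (6 * t) := pow_le_pow_left₀ (Real.exp_pos 1).le
        (by have := Real.exp_one_lt_d9; linarith) _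

theorem Asym_sg_le (n D E g : ℕ) : sg n D E g ≤ (D + 1) ^ n * E * g := by
  rw [sg, mul_assoc]
  exact Nat.sub_le _ _

/-- Rate of `L^(nD)`, `L = lcmUpto (sg n D E g)`, `sg ≤ m E g`. -/
theorem Gr.L (n D E : ℕ) :
    Gr (fun g => (Nat.lcmUpto (sg n D E g) : ℝ) ^ (n * D))
      ((3 : ℝ) ^ (6 * ((D + 1) ^ n * E) * (n * D))) := by
  refine (Gr.exp (b := 3) (by norm_num) (6 * ((D + 1) ^ n * E) * (n * D)) 0).mono
    (fun g => by positivity) (fun g => ?_) le_rfl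
  calc (Nat.lcmUpto (sg n D E g) : ℝ) ^ (n * D)
      ≤ ((3 : ℝ) ^ (6 * sg n D E g)) ^ (n * D) :=
        pow_le_pow_left₀ (Nat.cast_nonneg _) (lcmUpto_le _) _
    _ = (3 : ℝ) ^ (6 * sg n D E g * (n * D)) := (pow_mul _ _ _).symm
    _ ≤ (3 : ℝ) ^ (6 * ((D + 1) ^ n * E) * (n * D) * g + 0) := by
        refine pow_le_pow_right₀ (by norm_num) ?_
        have h1 := Nat.mul_le_mul_left (6 * (n * D)) (Asym_sg_le n D E g)
        calc 6 * sg n D E g * (n * D) = 6 * (n * D) * sg n D E g := by ring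
          _ ≤ 6 * (n * D) * ((D + 1) ^ n * E * g) := h1
          _ = 6 * ((D + 1) ^ n * E) * (n * D) * g + 0 := by ring

/-- Rate of the bound `Hs` of Siegel's lemma. -/
theorem Gr.Hs (n D A E : ℕ) (hA : 1 ≤ A) :
    Gr (fun g => Hs n D A E g)
      (((3 : ℝ) ^ (6 * ((D + 1) ^ n * E) * (n * D)) * (A : ℝ) ^ ((D + 1) ^ n * E))
        ^ ((D + 1) ^ n * E)) := by
  have hA' : (1 : ℝ) ≤ A := by exact_mod_cast hA
  have h1 := Gr.lin ((D + 1) ^ n * E) ((D + 1) ^ n)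
  have h2 := Gr.L n D E
  have h3 : Gr (fun g => (A : ℝ) ^ sg n D E g) ((A : ℝ) ^ ((D + 1) ^ n * E)) := by
    refine (Gr.exp (b := (A : ℝ)) (by positivity) ((D + 1) ^ n * E) 0).mono
      (fun g => by positivity) (fun g => ?_) le_rfl
    exact pow_le_pow_right₀ hA' (by have := Asym_sg_le n D E g; omega)
  have h4 : Gr (fun g => ((sg n D E g : ℝ) + 1) ^ (n * (D + 2))) 1 := by
    have h5 : Gr (fun g => (sg n D E g : ℝ) + 1) 1 := by
      refine (Gr.lin ((D + 1) ^ n * E) 1).mono (fun g => by positivity) (fun g => ?_) le_rfl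
      have h6 : (sg n D E g : ℝ) ≤ (((D + 1) ^ n * E : ℕ) : ℝ) * g := by
        exact_mod_cast Asym_sg_le n D E g
      have h7 : ((1 : ℕ) : ℝ) = 1 := Nat.cast_one
      linarith
    have h6 := h5.pow (n * (D + 2))
    rwa [one_pow] at h6
  have h5 := (((h1.mul h2).mul h3).mul h4).pow ((D + 1) ^ n * E)
  rw [one_mul, mul_one] at h5
  refine h5.mono (fun g => ?_) (fun g => le_of_eq ?_) le_rfl
  · rw [GF.Hs]
    positivity
  · rw [GF.Hs]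
    congr 4
    push_cast
    ring

end MP60829e.GF
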