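import Pool.Agent.Lib.MP_60829e_nt.GF.Short
import Mathlib.Analysis.SpecialFunctions.Pow.Real

/-!
# THEOREM T (counting) and the shifts
-/

namespace MP60829e.GF
open MvPolynomial
open scoped Classical

theorem KG_mono {n n' D D' : ℕ} (hn : n ≤ n') (hD : D ≤ D') : KG n D ≤ KG n' D' := by
  unfold KG
  refine Nat.mul_le_mul (Nat.mul_le_mul le_rfl (Nat.pow_le_pow_left hn 3)) ?_
  exact (Nat.pow_le_pow_left (Nat.add_le_add_right hD 1) _).trans
    (Nat.pow_le_pow_right (by omega) (by omega))

theorem hS_mono {n n' k k' : ℕ} (D d : ℕ) (hD : 1 ≤ D) (hd : 1 ≤ d) (hn : n ≤ n') (hk : k ≤ k') :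
    hS n k D d ≤ hS n' k' D d := by
  unfold hS
  have h1 : n * (k + 2) ≤ n' * (k' + 2) := Nat.mul_le_mul hn (by omega)
  have h2 : (D + 1) ^ (k + 2) ≤ (D + 1) ^ (k' + 2) := Nat.pow_le_pow_right (by omega) (by omega)
  refine Nat.mul_le_mul (Nat.mul_le_mul (Nat.pow_le_pow_right hd (by omega))
    (Nat.pow_le_pow_right hD (by omega))) ?_
  exact (Nat.pow_le_pow_left (Nat.add_le_add_right (Nat.mul_le_mul h1 h2) 1) _).trans
    (Nat.pow_le_pow_right (by omega) h1)

theorem KS_mono {n n' k k' : ℕ} (D d : ℕ) (hD : 1 ≤ D) (hd : 1 ≤ d) (hn : n ≤ n') (hk : k ≤ k') :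
    KS n k D d ≤ KS n' k' D d := by
  unfold KS
  exact KG_mono (Nat.mul_le_mul hn (by omega)) (hS_mono D d hD hd hn hk)

theorem one_le_KS {n k D d : ℕ} (hn : 1 ≤ n) (_hD : 1 ≤ D) (_hd : 1 ≤ d) : 1 ≤ KS n k D d := by
  unfold KS KG
  have h1 : 0 < n * (k + 2) := Nat.mul_pos hn (by omega)
  have h2 : 0 < (n * (k + 2)) ^ 3 := Nat.pow_pos h1
  have h3 : 0 < (hS n k D d + 1) ^ (5 * (n * (k + 2)) + 1) := Nat.pow_pos (by omega)
  have h4 : 0 < 1000 * (n * (k + 2)) ^ 3 * (hS n k D d + 1) ^ (5 * (n * (k + 2)) + 1) :=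
    Nat.mul_pos (Nat.mul_pos (by norm_num) h2) h3
  exact h4

/-- A set of integers `≤ B` which has at most `e` elements in each `[x, x+h]`, `x ≥ X0`, where `X0 h ≤ B`, `h ≤ B`, has at most
`4 e B / h` elements (`e ≥ 1`): `X0 ≤ B/h` small ones and `≤ B/(h+1) + 1 ≤ 2B/h` blocks. -/
theorem card_blocks (Z : Finset ℕ) (B h X0 e : ℕ) (hh : 1 ≤ h) (he : 1 ≤ e) (hX : X0 * h ≤ B) (hB : h ≤ B)
    (hZ : Z ⊆ Finset.Icc 1 B)
    (hblock : ∀ x, X0 ≤ x → (Z ∩ Finset.Icc x (x + h)).card ≤ e) :
    h * Z.card ≤ 4 * e * B := by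
  have hsub : Z ⊆ Finset.Icc 1 X0 ∪ (Finset.range (B / h + 1)).biUnion
      (fun i => Z ∩ Finset.Icc (X0 + i * h) (X0 + i * h + h)) := by
    intro u hu
    have h1 := Finset.mem_Icc.mp (hZ hu)
    rw [Finset.mem_union]
    by_cases hux : u ≤ X0
    · exact Or.inl (Finset.mem_Icc.mpr ⟨h1.1, hux⟩)
    · right
      rw [Finset.mem_biUnion]
      refine ⟨(u - X0) / h, ?_, ?_⟩
      · rw [Finset.mem_range]
        exact Nat.lt_succ_of_le (Nat.div_le_div_right (by omega))
      · rw [Finset.mem_inter, Finset.mem_Icc]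
        have h2 := Nat.div_mul_le_self (u - X0) h
        have h3 := Nat.lt_div_mul_add (a := u - X0) (b := h) (by omega)
        exact ⟨hu, by omega, by omega⟩
  have hcard : Z.card ≤ X0 + (B / h + 1) * e := by
    refine (Finset.card_le_card hsub).trans ((Finset.card_union_le _ _).trans ?_)
    refine Nat.add_le_add ?_ ?_
    · simp
    · refine (Finset.card_biUnion_le).trans ?_
      refine (Finset.sum_le_sum fun i _ => hblock (X0 + i * h) (by omega)).trans ?_
      simp
  have h4 : h * (B / h) ≤ B := Nat.mul_div_le B h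
  calc h * Z.card ≤ h * (X0 + (B / h + 1) * e) := Nat.mul_le_mul_left _ hcard
    _ = X0 * h + (h * (B / h) + h) * e := by ring
    _ ≤ B + (B + B) * e := by gcongr
    _ ≤ 4 * e * B := by nlinarith

/-- One variable: the `b ≤ B` whose logarithm is bad relative to `θ`. -/
theorem count_one {k : ℕ} (D d : ℕ) (hD : 1 ≤ D) (hd : 1 ≤ d) (θ : Fin k → ℂ) (h B : ℕ)
    (hh : 1 ≤ h) (hB : (4 * h) ^ (2 * KS 1 k D d) ≤ B) :
    h * ((Finset.Icc 1 B).filter
      (fun b => ¬ Good d D θ (fun _ : Unit => (Real.log (b : ℕ) : ℂ)))).card ≤ 4 * (k + 1) * B := by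
  have hK : 1 ≤ KS 1 k D d := one_le_KS le_rfl hD hd
  have hpow : h ≤ (4 * h) ^ KS 1 k D d := by
    calc h ≤ 4 * h := by omega
      _ = (4 * h) ^ 1 := (pow_one _).symm
      _ ≤ (4 * h) ^ KS 1 k D d := Nat.pow_le_pow_right (by omega) hK
  have hXB : (4 * h) ^ KS 1 k D d * h ≤ B := by
    refine le_trans (Nat.mul_le_mul_left _ hpow) ?_
    rw [← pow_add, ← two_mul]
    exact hB
  have hhB : h ≤ B := by
    refine le_trans ?_ hXB
    exact Nat.le_mul_of_pos_left _ (Nat.pow_pos (by omega))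
  refine card_blocks _ B h ((4 * h) ^ KS 1 k D d) (k + 1) hh (by omega) hXB hhB
    (Finset.filter_subset _ _) ?_
  intro x hx
  obtain ⟨E, hE, hgood⟩ := theoremS 1 k D d le_rfl hD hd h hh x hx θ
  refine le_trans (Finset.card_le_card ?_) hE
  intro b hb
  rw [Finset.mem_inter, Finset.mem_filter] at hb
  by_contra hbE
  apply hb.1.2
  have h1 := hgood {b} (by
    intro c hc
    rw [Finset.mem_singleton] at hc
    subst hc
    exact Finset.mem_sdiff.mpr ⟨hb.2, hbE⟩) (by simp)
  exact h1.comp (fun _ : Unit => (⟨b, Finset.mem_singleton_self b⟩ : ({b} : Finset ℕ)))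
    (fun _ _ _ => rfl)

/-- THEOREM T, integral form: induction on `n` (`bad_snoc`, `count_one` relative to `(θ, log b_1, ..)`). -/
theorem count_tuples (n : ℕ) {k : ℕ} (D d : ℕ) (hD : 1 ≤ D) (hd : 1 ≤ d) (θ : Fin k → ℂ) (h B : ℕ)
    (hh : 1 ≤ h) (hB : (4 * h) ^ (2 * KS 1 (k + n) D d) ≤ B) (S : Finset ℕ)
    (hS : S ⊆ Finset.Icc 1 B) :
    h * ((Fintype.piFinset (fun _ : Fin n => S)).filter
      (fun b => ¬ Good d D θ (fun i => (Real.log (b i : ℕ) : ℂ)))).card
      ≤ 4 * n * (k + n) * S.card ^ (n - 1) * B := by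
  induction n with
  | zero =>
    have h0 : ((Fintype.piFinset (fun _ : Fin 0 => S)).filter
      (fun b => ¬ Good d D θ (fun i => (Real.log (b i : ℕ) : ℂ)))) = ∅ := by
      rw [Finset.filter_eq_empty_iff]
      intro b _ hb
      exact hb (Good.empty θ _)
    rw [h0]
    simp
  | succ n ih =>
    have hB' : (4 * h) ^ (2 * KS 1 (k + n) D d) ≤ B := by
      refine le_trans (Nat.pow_le_pow_right (by omega) ?_) hB
      exact Nat.mul_le_mul_left _ (KS_mono D d hD hd le_rfl (by omega))
    have ih' := ih hB'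
    set Bad := (Fintype.piFinset (fun _ : Fin n => S)).filter
      (fun b => ¬ Good d D θ (fun i => (Real.log (b i : ℕ) : ℂ))) with hBad
    set All := Fintype.piFinset (fun _ : Fin n => S) with hAll
    have hAllcard : All.card = S.card ^ n := by
      rw [hAll, Fintype.card_piFinset]
      simp
    let one : (Fin n → ℕ) → Finset ℕ := fun b' => S.filter
      (fun c => ¬ Good d D (Fin.append θ (fun i => (Real.log (b' i : ℕ) : ℂ)))
        (fun _ : Unit => (Real.log (c : ℕ) : ℂ)))
    have hone : ∀ b', h * (one b').card ≤ 4 * (k + n + 1) * B := by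
      intro b'
      have h1 := count_one D d hD hd (Fin.append θ (fun i => (Real.log (b' i : ℕ) : ℂ))) h B hh hB'
      refine le_trans (Nat.mul_le_mul_left _ (Finset.card_le_card ?_)) h1
      exact Finset.filter_subset_filter _ hS
    have hcover : ((Fintype.piFinset (fun _ : Fin (n + 1) => S)).filter
        (fun b => ¬ Good d D θ (fun i => (Real.log (b i : ℕ) : ℂ))))
        ⊆ ((Bad ×ˢ S).image fun p => (Fin.snoc p.1 p.2 : Fin (n + 1) → ℕ))
          ∪ All.biUnion (fun b' => (one b').image fun c => (Fin.snoc b' c : Fin (n + 1) → ℕ)) := by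
      intro b hb
      rw [Finset.mem_filter, Fintype.mem_piFinset] at hb
      obtain ⟨hbS, hbad⟩ := hb
      have hsplit : (Fin.snoc (Fin.init b) (b (Fin.last n)) : Fin (n + 1) → ℕ) = b := Fin.snoc_init_self b
      have hinit : Fin.init b ∈ All := by
        rw [hAll, Fintype.mem_piFinset]
        intro i
        exact hbS _
      rw [Finset.mem_union]
      by_cases hg : Good d D θ (fun i => (Real.log ((Fin.init b : Fin n → ℕ) i : ℕ) : ℂ))
      · right
        rw [Finset.mem_biUnion]
        refine ⟨Fin.init b, hinit, ?_⟩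
        rw [Finset.mem_image]
        refine ⟨b (Fin.last n), ?_, hsplit⟩
        rw [Finset.mem_filter]
        refine ⟨hbS _, ?_⟩
        refine bad_snoc _ _ hg ?_
        have hfun : (Fin.snoc (fun i => (Real.log ((Fin.init b : Fin n → ℕ) i : ℕ) : ℂ))
            (Real.log (b (Fin.last n) : ℕ) : ℂ) : Fin (n + 1) → ℂ)
            = fun i => (Real.log (b i : ℕ) : ℂ) := by
          funext i
          refine Fin.lastCases ?_ (fun i => ?_) i
          · simp
          · simp [Fin.init]
        rw [hfun]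
        exact hbad
      · left
        rw [Finset.mem_image]
        refine ⟨(Fin.init b, b (Fin.last n)), ?_, hsplit⟩
        rw [Finset.mem_product]
        exact ⟨Finset.mem_filter.mpr ⟨hinit, hg⟩, hbS _⟩
    have hcard := Finset.card_le_card hcover
    have h1 : h * ((Bad ×ˢ S).image fun p => (Fin.snoc p.1 p.2 : Fin (n + 1) → ℕ)).card
        ≤ 4 * n * (k + n) * S.card ^ n * B := by
      refine le_trans (Nat.mul_le_mul_left _ Finset.card_image_le) ?_
      rw [Finset.card_product, ← mul_assoc]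
      rcases Nat.eq_zero_or_pos n with hn | hn
      · subst hn
        simp only [mul_zero, zero_mul] at ih' ⊢
        have : h * Bad.card = 0 := by omega
        rw [this, zero_mul]
      · calc h * Bad.card * S.card ≤ 4 * n * (k + n) * S.card ^ (n - 1) * B * S.card :=
              Nat.mul_le_mul_right _ ih'
          _ = 4 * n * (k + n) * (S.card ^ (n - 1) * S.card) * B := by ring
          _ = 4 * n * (k + n) * S.card ^ n * B := by
              rw [← pow_succ, Nat.sub_add_cancel hn]
    have h2 : h * (All.biUnion (fun b' => (one b').image fun c => (Fin.snoc b' c : Fin (n + 1) → ℕ))).card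
        ≤ S.card ^ n * (4 * (k + n + 1) * B) := by
      refine le_trans (Nat.mul_le_mul_left _ Finset.card_biUnion_le) ?_
      rw [Finset.mul_sum]
      refine le_trans (Finset.sum_le_sum (g := fun _ => 4 * (k + n + 1) * B) fun b' _ => ?_) ?_
      · exact le_trans (Nat.mul_le_mul_left _ Finset.card_image_le) (hone b')
      · rw [Finset.sum_const, hAllcard, smul_eq_mul]
    calc h * _ ≤ h * _ := Nat.mul_le_mul_left _ (hcard.trans (Finset.card_union_le _ _))
      _ ≤ 4 * n * (k + n) * S.card ^ n * B + S.card ^ n * (4 * (k + n + 1) * B) := by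
          rw [mul_add]
          exact Nat.add_le_add h1 h2
      _ = S.card ^ n * B * (4 * (n * (k + n) + (k + n + 1))) := by ring
      _ ≤ S.card ^ n * B * (4 * ((n + 1) * (k + (n + 1)))) := by
          refine Nat.mul_le_mul_left _ (Nat.mul_le_mul_left _ ?_)
          nlinarith
      _ = 4 * (n + 1) * (k + (n + 1)) * S.card ^ (n + 1 - 1) * B := by
          rw [Nat.add_sub_cancel]
          ring

/-- Shifts: `t_1, ..., t_n ≤ h` distinct; `x ≤ B` with `(log (x + t_i))_i` bad. For `x ∈ [X, X+h]` the set `{x + t_i}` lies in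
`[X, X + 2h]` and, being bad, meets the set `E` of Theorem S for `[X, X+2h]`; each `x` with `x + t_i = e` is determined by
`(i, e)`: at most `n (k+1)` bad `x` in the block. -/
theorem count_shifts {n k : ℕ} (hn : 1 ≤ n) (D d : ℕ) (hD : 1 ≤ D) (hd : 1 ≤ d) (θ : Fin k → ℂ)
    (t : Fin n → ℕ) (ht : Function.Injective t) (h B : ℕ) (hh : 1 ≤ h) (hth : ∀ i, t i ≤ h)
    (hB : (8 * h) ^ (2 * KS n k D d) ≤ B) :
    h * ((Finset.Icc 1 B).filter
      (fun x => ¬ Good d D θ (fun i => (Real.log ((x + t i : ℕ) : ℝ) : ℂ)))).card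
      ≤ 4 * (n * (k + 1)) * B := by
  have hK : 1 ≤ KS n k D d := one_le_KS hn hD hd
  have hpow : h ≤ (8 * h) ^ KS n k D d := by
    calc h ≤ 8 * h := by omega
      _ = (8 * h) ^ 1 := (pow_one _).symm
      _ ≤ (8 * h) ^ KS n k D d := Nat.pow_le_pow_right (by omega) hK
  have hXB : (8 * h) ^ KS n k D d * h ≤ B := by
    refine le_trans (Nat.mul_le_mul_left _ hpow) ?_
    rw [← pow_add, ← two_mul]
    exact hB
  have hhB : h ≤ B := by
    refine le_trans ?_ hXB
    exact Nat.le_mul_of_pos_left _ (Nat.pow_pos (by omega))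
  refine card_blocks _ B h ((8 * h) ^ KS n k D d) (n * (k + 1)) hh (Nat.mul_pos hn (by omega)) hXB hhB
    (Finset.filter_subset _ _) ?_
  intro x hx
  obtain ⟨E, hE, hgood⟩ := theoremS n k D d hn hD hd (2 * h) (by omega) x
    (by rw [← mul_assoc]; exact hx) θ
  have hsub : ((Finset.Icc 1 B).filter
      (fun x => ¬ Good d D θ (fun i => (Real.log ((x + t i : ℕ) : ℝ) : ℂ)))) ∩ Finset.Icc x (x + h)
      ⊆ (Finset.univ ×ˢ E).image (fun p : Fin n × ℕ => p.2 - t p.1) := by
    intro u hu
    simp only [Finset.mem_inter, Finset.mem_filter, Finset.mem_Icc] at hu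
    obtain ⟨⟨-, hbad⟩, hux, huh⟩ := hu
    by_contra hcon
    apply hbad
    have hA := hgood (Finset.univ.image (fun i => u + t i)) (by
      intro c hc
      rw [Finset.mem_image] at hc
      obtain ⟨i, -, rfl⟩ := hc
      rw [Finset.mem_sdiff, Finset.mem_Icc]
      have := hth i
      refine ⟨⟨by omega, by omega⟩, fun hE' => hcon ?_⟩
      rw [Finset.mem_image]
      exact ⟨(i, u + t i), Finset.mem_product.mpr ⟨Finset.mem_univ _, hE'⟩, by simp⟩)
      (Finset.card_image_le.trans (by simp))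
    exact hA.comp (fun i : Fin n => (⟨u + t i, Finset.mem_image_of_mem _ (Finset.mem_univ i)⟩ :
      (Finset.univ.image (fun i => u + t i) : Finset ℕ)))
      (by
        intro i j hij
        have h1 := congrArg Subtype.val hij
        simp only at h1
        exact ht (by omega))
  refine (Finset.card_le_card hsub).trans (Finset.card_image_le.trans ?_)
  rw [Finset.card_product, Finset.card_univ, Fintype.card_fin]
  exact Nat.mul_le_mul_left _ hE

end MP60829e.GF
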