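import Mathlib.RingTheory.PowerSeries.Derivative
import Mathlib.RingTheory.Polynomial.Basic
import Mathlib.Algebra.Polynomial.Derivative
import Mathlib.Data.Matrix.Mul
import Mathlib.LinearAlgebra.Matrix.Determinant.Basic

/-!
# G-functions and logarithms of integers: definitions
(MP_60829e_nt, blueprint `h44_GF.md`)

`a_1, ..., a_n` distinct nonzero integers, `T = ∏ (1 + a_i X)`, `T_i = T / (1 + a_i X)`.
`M_i` matrices over `ℚ` acting on (column) vectors `κ : ι → ℚ`, all words of some length being `0`.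
`F : ι → ℚ[X]` is a ROW vector (a linear map `ℚ^ι → ℚ[X]`).
`Dn a M F j = T^j ∂^j F`, `∂ = d/dX + ∑ a_i / (1 + a_i X) · M_i` acting on rows.
-/

namespace MP60829e.GF
open Polynomial

/-- `T = ∏ (1 + a_i X)`. -/
noncomputable def T {n : ℕ} (a : Fin n → ℤ) : ℚ[X] := ∏ i, (1 + C (a i : ℚ) * X)

/-- `T_i = T / (1 + a_i X)`. -/
noncomputable def Ti {n : ℕ} (a : Fin n → ℤ) (i : Fin n) : ℚ[X] :=
  ∏ j ∈ Finset.univ.erase i, (1 + C (a j : ℚ) * X)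

/-- `D_0 F = F`, `D_(j+1) F = T (D_j F)' - j T' D_j F + ∑ a_i T_i (D_j F) M_i`. -/
noncomputable def Dn {n : ℕ} {ι : Type*} [Fintype ι] (a : Fin n → ℤ)
    (M : Fin n → Matrix ι ι ℚ) (F : ι → ℚ[X]) : ℕ → ι → ℚ[X]
  | 0 => F
  | (j + 1) => fun b =>
      T a * derivative (Dn a M F j b) - (j : ℚ[X]) * derivative (T a) * Dn a M F j b
        + ∑ i, C (a i : ℚ) * Ti a i * ∑ b', C (M i b' b) * Dn a M F j b'

/-- The dual operator on column vectors of polynomials: `T v' - ∑ a_i T_i M_i v`. -/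
noncomputable def Ds {n : ℕ} {ι : Type*} [Fintype ι] (a : Fin n → ℤ)
    (M : Fin n → Matrix ι ι ℚ) (v : ι → ℚ[X]) : ι → ℚ[X] := fun b =>
  T a * derivative (v b) - ∑ i, C (a i : ℚ) * Ti a i * ∑ b', C (M i b b') * v b'

/-- The `r × r` matrix of the `D_j F`, `j < r`. -/
noncomputable def Wr {n r : ℕ} (a : Fin n → ℤ) (M : Fin n → Matrix (Fin r) (Fin r) ℚ)
    (F : Fin r → ℚ[X]) : Matrix (Fin r) (Fin r) ℚ[X] :=
  Matrix.of fun j b => Dn a M F (j : ℕ) b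

/-- The power series `z_0 + c s`. -/
noncomputable def zz (z0 c : ℚ) : PowerSeries ℚ :=
  PowerSeries.C z0 + PowerSeries.C c * PowerSeries.X

/-- The pairing `⟨G, u⟩ = ∑ G_b(z_0 + c s) u_b(s)`. -/
noncomputable def pr {ι : Type*} [Fintype ι] (z0 c : ℚ) (G : ι → ℚ[X]) (u : ι → PowerSeries ℚ) :
    PowerSeries ℚ := ∑ b, aeval (zz z0 c) (G b) * u b

/-- `u` is horizontal above `z = z_0 + c s`: `T(z) u' = c ∑ a_i T_i(z) M_i u`. -/
def Hor {n : ℕ} {ι : Type*} [Fintype ι] (a : Fin n → ℤ) (M : Fin n → Matrix ι ι ℚ) (z0 c : ℚ)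
    (u : ι → PowerSeries ℚ) : Prop :=
  ∀ b, aeval (zz z0 c) (T a) * PowerSeries.derivative ℚ (u b)
    = PowerSeries.C c * ∑ i, aeval (zz z0 c) (C (a i : ℚ) * Ti a i)
        * ∑ b', PowerSeries.C (M i b b') * u b'

/-- The power series of `log (1 + b s)`. -/
noncomputable def lg (b : ℤ) : PowerSeries ℚ :=
  PowerSeries.mk fun k => (-1) ^ (k + 1) * (b : ℚ) ^ k / k

/-- The concrete system on `{0..D}^n`: `(M_i κ)_μ = μ_i κ_(μ - e_i)`. -/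
noncomputable def Mc (n D : ℕ) (i : Fin n) : Matrix (Fin n → Fin (D + 1)) (Fin n → Fin (D + 1)) ℚ :=
  Matrix.of fun μ ν => if ν = Function.update μ i (μ i - 1) then ((μ i : ℕ) : ℚ) else 0

/-- `Ec l ν μ = ∏ binom(μ_i, ν_i) l_i^(μ_i - ν_i)`. -/
noncomputable def Ec {n D : ℕ} {R : Type*} [CommSemiring R] (l : Fin n → R)
    (ν μ : Fin n → Fin (D + 1)) : R :=
  ∏ i, ((Nat.choose (μ i) (ν i) : ℕ) : R) * l i ^ ((μ i : ℕ) - (ν i : ℕ))

/-- `u_μ = ∑_ν κ_ν Ec l ν μ` (that is `κ[(X + l)^μ]`). -/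
noncomputable def uc {n D : ℕ} (l : Fin n → PowerSeries ℚ) (κ : (Fin n → Fin (D + 1)) → ℚ) :
    (Fin n → Fin (D + 1)) → PowerSeries ℚ := fun μ => ∑ ν, PowerSeries.C (κ ν) * Ec l ν μ

/-- `q = ∏ (x + a_i)`. -/
def qq {n : ℕ} (a : Fin n → ℤ) (x : ℤ) : ℤ := ∏ i, (x + a i)

/-- `q_i = ∏_(j ≠ i) (x + a_j)`. -/
def qi {n : ℕ} (a : Fin n → ℤ) (x : ℤ) (i : Fin n) : ℤ := ∏ j ∈ Finset.univ.erase i, (x + a j)

/-- The series `W_ν(s) = x^N ∑_μ F_μ((1 + q s)/x) Ec Λ ν μ`, `Λ_i = log (1 + a_i q_i s)`. -/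
noncomputable def Wf {n D : ℕ} (a : Fin n → ℤ) (F : (Fin n → Fin (D + 1)) → ℚ[X]) (N : ℕ) (x : ℤ)
    (ν : Fin n → Fin (D + 1)) : PowerSeries ℚ :=
  ∑ μ, PowerSeries.C ((x : ℚ) ^ N) * aeval (zz (1 / (x : ℚ)) ((qq a x : ℚ) / x)) (F μ)
    * Ec (fun i => lg (a i * qi a x i)) ν μ

/-- `R = ∑ F_μ(z) ∏ log(1 + a_i z)^(μ_i)` as a power series. -/
noncomputable def RR {n D : ℕ} (a : Fin n → ℤ) (F : (Fin n → Fin (D + 1)) → ℚ[X]) : PowerSeries ℚ :=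
  ∑ μ, (F μ : PowerSeries ℚ) * ∏ i, lg (a i) ^ (μ i : ℕ)

end MP60829e.GF
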