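import Mathlib.LinearAlgebra.Matrix.Adjugate
import Mathlib.LinearAlgebra.Matrix.NonsingularInverse
import Mathlib.LinearAlgebra.Basis.VectorSpace
import Mathlib.LinearAlgebra.Dimension.OrzechProperty
import Mathlib.Data.Real.Basic
import Mathlib.LinearAlgebra.Matrix.Rank
import Mathlib.LinearAlgebra.Matrix.ToLinearEquiv
import Mathlib.LinearAlgebra.Matrix.Dual
import Mathlib.LinearAlgebra.Dual.Lemmas
import Mathlib.Tactic.FieldSimp
import Mathlib.Tactic.Linarith
import Mathlib.Tactic.Positivity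

/-!
# The determinant argument (G5, algebraic part)
-/

namespace MP60829e.GF
open scoped Matrix

/-- `|A_(ρ i)| ≤ r_ρ c_i` gives `|det A| ≤ m! ∏ r ∏ c`. -/
theorem abs_det_le {α : Type*} [Fintype α] [DecidableEq α] (B : Matrix α α ℝ) (r c : α → ℝ)
    (h : ∀ i j, |B i j| ≤ r i * c j) :
    |B.det| ≤ (Fintype.card α).factorial * ((∏ i, r i) * ∏ i, c i) := by
  rw [Matrix.det_apply]
  refine (Finset.abs_sum_le_sum_abs _ _).trans ?_
  have h1 : ∀ σ ∈ (Finset.univ : Finset (Equiv.Perm α)),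
      |Equiv.Perm.sign σ • ∏ i, B (σ i) i| ≤ (∏ i, r i) * ∏ i, c i := by
    intro σ _
    have h2 : |Equiv.Perm.sign σ • ∏ i, B (σ i) i| = ∏ i, |B (σ i) i| := by
      rw [← Finset.abs_prod]
      rcases Int.units_eq_one_or (Equiv.Perm.sign σ) with h3 | h3
      · rw [h3, one_smul]
      · rw [h3, Units.neg_smul, one_smul, abs_neg]
    rw [h2]
    refine (Finset.prod_le_prod (fun i _ => abs_nonneg _) (fun i _ => h (σ i) i)).trans ?_
    rw [Finset.prod_mul_distrib, Equiv.prod_comp σ r]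
  refine (Finset.sum_le_card_nsmul _ _ _ h1).trans ?_
  rw [Finset.card_univ, Fintype.card_perm, nsmul_eq_mul]

/-- a nonsingular integral matrix with row `c` and all other rows among the `w_j` -/
private theorem detB_matrix {α : Type*} [Fintype α] [DecidableEq α] {β : Type*} (w : β → α → ℤ)
    (hw : ∀ κ : α → ℚ, (∀ j, ∑ ν, κ ν * (w j ν : ℚ) = 0) → κ = 0)
    (c : α → ℤ) (hc : c ≠ 0) :
    ∃ (B : Matrix α α ℤ) (i1 : α), B.det ≠ 0 ∧ B i1 = c ∧ ∀ i, i ≠ i1 → ∃ j, B i = w j := by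
  classical
  obtain ⟨vc, hvc⟩ : ∃ vc : α → ℚ, vc = fun ν => (c ν : ℚ) := ⟨_, rfl⟩
  obtain ⟨vw, hvw⟩ : ∃ vw : β → α → ℚ, vw = fun j ν => (w j ν : ℚ) := ⟨_, rfl⟩
  have hvc0 : vc ≠ 0 := by
    intro h
    apply hc
    funext ν
    have h1 := congrFun h ν
    rw [hvc] at h1
    have h2 : ((c ν : ℤ) : ℚ) = 0 := h1
    exact_mod_cast h2
  have hspan : Submodule.span ℚ (Set.range vw) = ⊤ := by
    by_contra hne
    obtain ⟨f, hf0, hf⟩ := Submodule.exists_le_ker_of_lt_top _ (lt_top_iff_ne_top.2 hne)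
    apply hf0
    have h1 : (fun ν => f (Pi.single ν 1)) = 0 := by
      apply hw
      intro j
      have h2 : f (vw j) = 0 := hf (Submodule.subset_span ⟨j, rfl⟩)
      have h3 : vw j = ∑ ν, (w j ν : ℚ) • (Pi.single ν (1 : ℚ) : α → ℚ) := by
        funext μ
        rw [hvw, Finset.sum_apply, Finset.sum_eq_single μ]
        · simp
        · intro ν _ hν
          simp [hν.symm]
        · intro h4
          exact absurd (Finset.mem_univ μ) h4
      rw [h3, map_sum] at h2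
      rw [← h2]
      refine Finset.sum_congr rfl fun ν _ => ?_
      rw [map_smul, smul_eq_mul, mul_comm]
    refine LinearMap.pi_ext' fun ν => LinearMap.ext_ring ?_
    have h2 := congrFun h1 ν
    exact h2
  have hli : LinearIndepOn ℚ id ({vc} : Set (α → ℚ)) := LinearIndepOn.singleton hvc0
  obtain ⟨b, hb1, hb2, hb3, hb4⟩ := exists_linearIndepOn_id_extension
    (t := insert vc (Set.range vw)) hli
    (Set.singleton_subset_iff.2 (Set.mem_insert _ _))
  have hbtop : Submodule.span ℚ b = ⊤ := by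
    rw [eq_top_iff, ← hspan]
    exact Submodule.span_le.2 ((Set.subset_insert _ _).trans hb3)
  have hbli : LinearIndependent ℚ ((↑) : b → α → ℚ) := hb4
  let bas : Module.Basis b ℚ (α → ℚ) := Module.Basis.mk hbli (by rw [Subtype.range_coe, hbtop])
  have hfin : Finite b := Module.Finite.finite_basis bas
  have : Fintype b := Fintype.ofFinite b
  have hcard : Fintype.card α = Fintype.card b := by
    rw [← Module.finrank_eq_card_basis bas, Module.finrank_pi]
  obtain ⟨e⟩ : Nonempty (α ≃ b) := Fintype.card_eq.1 hcard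
  have hrow : ∀ i, ∃ z : α → ℤ, (∀ ν, ((z ν : ℤ) : ℚ) = (e i : α → ℚ) ν) ∧
      ((e i : α → ℚ) = vc → z = c) ∧ ((e i : α → ℚ) ≠ vc → ∃ j, z = w j) := by
    intro i
    by_cases h1 : (e i : α → ℚ) = vc
    · refine ⟨c, fun ν => ?_, fun _ => rfl, fun h2 => absurd h1 h2⟩
      rw [h1, hvc]
    · rcases hb1 (e i).2 with h2 | ⟨j, hj⟩
      · exact absurd h2 h1
      · refine ⟨w j, fun ν => ?_, fun h2 => absurd h2 h1, fun _ => ⟨j, rfl⟩⟩
        rw [← hj, hvw]
  choose B hB1 hB2 hB3 using hrow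
  refine ⟨Matrix.of B, e.symm ⟨vc, hb2 rfl⟩, ?_, ?_, ?_⟩
  · intro hdet
    have h1 : LinearIndependent ℚ (fun i => (e i : α → ℚ)) := hbli.comp e e.injective
    have h2 : IsUnit (Matrix.of (fun i => (e i : α → ℚ))) :=
      Matrix.linearIndependent_rows_iff_isUnit.1 h1
    have h3 : (Matrix.of (fun i => (e i : α → ℚ))).det ≠ 0 :=
      ((Matrix.isUnit_iff_isUnit_det _).1 h2).ne_zero
    apply h3
    have h4 : (Int.castRingHom ℚ).mapMatrix (Matrix.of B) =
        Matrix.of (fun i => (e i : α → ℚ)) := by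
      ext i ν
      exact hB1 i ν
    rw [← h4, ← RingHom.map_det, hdet, map_zero]
  · change B _ = c
    apply hB2
    rw [Equiv.apply_symm_apply]
  · intro i hi
    change ∃ j, B i = w j
    apply hB3
    intro h1
    apply hi
    rw [Equiv.eq_symm_apply]
    exact Subtype.ext h1

/-- DETERMINANT ARGUMENT. `c ∈ ℤ^α` nonzero, `∑ c_ν η_ν = 0`, `η_0 = 1`, `|c_ν| ≤ Cc`; integral vectors `w_j`, `j ∈ S`,
such that no nonzero rational vector is orthogonal to all of them; `|w_(jν)| ≤ Ω` (`Ω > 0`), `|∑ w_(jν) η_ν| ≤ δ`. Then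
`1 ≤ m! Cc Ω^(m-2) δ`, `m = card α ≥ 2`.
Proof: the `w_j` span `ℚ^α`; extend `{c}` to a basis inside `{c} ∪ {w_j}` (`exists_linearIndependent_extension`): an integral
matrix `B` with nonzero determinant, one row `ρ_0` being `c`, the others `w`'s. `det B = det B'`, `B'` = `B` with
column `0` replaced by `B η` (`Matrix.cramer`: `cramer B (B η) = det B • η`). Apply `abs_det_le` to `B'` with row weights
`r_(ρ_0) = Cc`, `r_ρ = Ω` and column weights `c_0 = δ/Ω`, `c_i = 1`. -/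
theorem one_le_of_relation {α : Type*} [Fintype α] [DecidableEq α] (i0 : α)
    (hcard : 2 ≤ Fintype.card α) {β : Type*} (w : β → α → ℤ)
    (hw : ∀ κ : α → ℚ, (∀ j, ∑ ν, κ ν * (w j ν : ℚ) = 0) → κ = 0)
    (c : α → ℤ) (hc : c ≠ 0) (η : α → ℝ) (hη0 : η i0 = 1) (hη : ∑ ν, (c ν : ℝ) * η ν = 0)
    (Cc Ω δ : ℝ) (hCc : ∀ ν, |(c ν : ℝ)| ≤ Cc) (hΩ0 : 0 < Ω) (hΩ : ∀ j ν, |(w j ν : ℝ)| ≤ Ω)
    (hδ : ∀ j, |∑ ν, (w j ν : ℝ) * η ν| ≤ δ) :
    1 ≤ (Fintype.card α).factorial * (Cc * Ω ^ (Fintype.card α - 2) * δ) := by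
  obtain ⟨B, i1, hdet, hB1, hB2⟩ := detB_matrix w hw c hc
  have hCc0 : 0 ≤ Cc := (abs_nonneg _).trans (hCc i0)
  have hδ0 : 0 ≤ δ := by
    obtain ⟨i2, hi2⟩ : ∃ i2 : α, i2 ≠ i1 := by
      have : Nontrivial α := Fintype.one_lt_card_iff_nontrivial.1 hcard
      exact exists_ne i1
    obtain ⟨j, _⟩ := hB2 i2 hi2
    exact (abs_nonneg _).trans (hδ j)
  obtain ⟨A, hA⟩ : ∃ A : Matrix α α ℝ, A = (Int.castRingHom ℝ).mapMatrix B := ⟨_, rfl⟩
  have hA1 : ∀ i j, A i j = (B i j : ℝ) := by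
    intro i j
    rw [hA]
    rfl
  have hAdet : A.det = (B.det : ℝ) := by
    rw [hA, ← RingHom.map_det]
    rfl
  have h1 : (1 : ℝ) ≤ |A.det| := by
    rw [hAdet, ← Int.cast_abs]
    exact_mod_cast Int.one_le_abs hdet
  have h2 : A.det = (A.updateCol i0 (A *ᵥ η)).det := by
    rw [← Matrix.cramer_apply, Matrix.cramer_eq_adjugate_mulVec, Matrix.mulVec_mulVec,
      Matrix.adjugate_mul, Matrix.smul_mulVec, Matrix.one_mulVec, Pi.smul_apply, hη0,
      smul_eq_mul, mul_one]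
  have h3 : |(A.updateCol i0 (A *ᵥ η)).det| ≤ (Fintype.card α).factorial *
      ((∏ i, (if i = i1 then Cc else Ω)) * ∏ j, (if j = i0 then δ / Ω else 1)) := by
    refine abs_det_le _ _ _ fun i j => ?_
    by_cases hj : j = i0
    · rw [if_pos hj, hj, Matrix.updateCol_self]
      have h4 : (A *ᵥ η) i = ∑ ν, (B i ν : ℝ) * η ν := by
        rw [Matrix.mulVec, dotProduct]
        exact Finset.sum_congr rfl fun ν _ => by rw [hA1]
      rw [h4]
      by_cases hi : i = i1
      · rw [if_pos hi, hi, hB1, hη, abs_zero]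
        positivity
      · rw [if_neg hi, mul_div_cancel₀ _ hΩ0.ne']
        obtain ⟨l, hl⟩ := hB2 i hi
        rw [hl]
        exact hδ l
    · rw [if_neg hj, mul_one, Matrix.updateCol_ne hj, hA1]
      by_cases hi : i = i1
      · rw [if_pos hi, hi, hB1]
        exact hCc j
      · rw [if_neg hi]
        obtain ⟨l, hl⟩ := hB2 i hi
        rw [hl]
        exact hΩ l j
  have h4 : (∏ i : α, (if i = i1 then Cc else Ω)) = Cc * Ω ^ (Fintype.card α - 1) := by
    rw [← Finset.mul_prod_erase Finset.univ _ (Finset.mem_univ i1), if_pos rfl]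
    congr 1
    rw [Finset.prod_congr rfl (g := fun _ => Ω) fun i hi => if_neg (Finset.ne_of_mem_erase hi),
      Finset.prod_const, Finset.card_erase_of_mem (Finset.mem_univ _), Finset.card_univ]
  have h5 : (∏ j : α, (if j = i0 then δ / Ω else 1)) = δ / Ω := by
    rw [Finset.prod_ite_eq' Finset.univ i0 (fun _ => δ / Ω), if_pos (Finset.mem_univ _)]
  rw [h4, h5] at h3
  have h6 : Cc * Ω ^ (Fintype.card α - 1) * (δ / Ω) = Cc * Ω ^ (Fintype.card α - 2) * δ := by
    have h7 : Fintype.card α - 1 = (Fintype.card α - 2) + 1 := by omega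
    rw [h7, pow_succ]
    field_simp
  rw [h6] at h3
  rw [h2] at h1
  exact h1.trans h3

end MP60829e.GF
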