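import Pool.Agent.Lib.MP_60829e_nt.GF.Count
import Mathlib.Analysis.SpecialFunctions.Complex.Log
import Mathlib.Analysis.SpecialFunctions.Pow.Real

/-!
# Final forms: real exponents, all branches, `K ≤ (c D d)^c`
-/

namespace MP60829e.GF
open scoped Classical

theorem goodL_of {d D k : ℕ} {θ : Fin k → ℂ} {ι : Type*} (b : ι → ℕ) (hb : ∀ i, b i ≠ 0)
    (h : Good d D (Fin.snoc θ (2 * Real.pi * Complex.I) : Fin (k + 1) → ℂ)
      (fun i => (Real.log (b i : ℕ) : ℂ))) : GoodL d D θ b := by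
  intro l hl
  have key : ∀ i, ∃ m : ℤ, l i = (Real.log (b i : ℕ) : ℂ) + m * (2 * Real.pi * Complex.I) := by
    intro i
    have hpos : (0 : ℝ) < (b i : ℕ) := by exact_mod_cast Nat.pos_of_ne_zero (hb i)
    have h1 : Complex.exp (l i) = Complex.exp ((Real.log (b i : ℕ) : ℝ) : ℂ) := by
      rw [hl i, ← Complex.ofReal_exp, Real.exp_log hpos]; simp
    obtain ⟨m, hm⟩ := Complex.exp_eq_exp_iff_exists_int.1 h1
    exact ⟨m, hm⟩
  choose m hm using key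
  exact Good.branch l _ m _ hm h

/-- Monotonicity of `(c D d)^c` in `c`. -/
theorem cpow_mono {c c' D d : ℕ} (hc : 1 ≤ c) (hcc : c ≤ c') (hD : 1 ≤ D) (hd : 1 ≤ d) :
    (c * D * d) ^ c ≤ (c' * D * d) ^ c' := by
  have h1 : 1 ≤ c * D * d := Nat.one_le_iff_ne_zero.2 (by positivity)
  calc (c * D * d) ^ c ≤ (c * D * d) ^ c' := Nat.pow_le_pow_right h1 hcc
    _ ≤ (c' * D * d) ^ c' := Nat.pow_le_pow_left (by gcongr) _

/-- The degree of ALGT is polynomially bounded. -/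
theorem hS_bound (n k : ℕ) : ∃ b e : ℕ, 1 ≤ b ∧ ∀ D d : ℕ, 1 ≤ D → 1 ≤ d →
    hS n k D d + 1 ≤ (b * D * d) ^ e := by
  obtain ⟨s, hs⟩ : ∃ s, s = k + 2 := ⟨_, rfl⟩
  obtain ⟨N, hN⟩ : ∃ N, N = n * s := ⟨_, rfl⟩
  obtain ⟨b0, hb0⟩ : ∃ b0, b0 = (N + 1) * 2 ^ s := ⟨_, rfl⟩
  have hb1 : 1 ≤ b0 := by rw [hb0]; exact Nat.one_le_iff_ne_zero.2 (by positivity)
  refine ⟨2 * b0, s * N + s + N + 1, by omega, ?_⟩
  intro D d hD hd
  have h1 : N * (D + 1) ^ s + 1 ≤ b0 * D ^ s := by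
    have h2 : (D + 1) ^ s ≤ 2 ^ s * D ^ s := by
      rw [← mul_pow]; exact Nat.pow_le_pow_left (by omega) _
    have h3 : 1 ≤ 2 ^ s * D ^ s := Nat.one_le_iff_ne_zero.2 (by positivity)
    calc N * (D + 1) ^ s + 1 ≤ N * (2 ^ s * D ^ s) + 2 ^ s * D ^ s := by gcongr
      _ = b0 * D ^ s := by rw [hb0]; ring
  have h5 : hS n k D d ≤ d ^ s * D ^ s * (b0 * D ^ s) ^ N := by
    unfold hS
    rw [← hs, ← hN]
    gcongr
  have h6 : 1 ≤ d ^ s * D ^ s * (b0 * D ^ s) ^ N :=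
    Nat.one_le_iff_ne_zero.2 (by positivity)
  have g1 : 2 * b0 ^ N ≤ (2 * b0) ^ (s * N + s + N + 1) := by
    calc 2 * b0 ^ N ≤ (2 * b0) * (2 * b0) ^ N := by
          have : b0 ≤ 2 * b0 := by omega
          have h2b : 2 ≤ 2 * b0 := by omega
          gcongr
      _ = (2 * b0) ^ (N + 1) := by rw [pow_succ]; ring
      _ ≤ (2 * b0) ^ (s * N + s + N + 1) := Nat.pow_le_pow_right (by omega) (by omega)
  have g2 : d ^ s ≤ d ^ (s * N + s + N + 1) := Nat.pow_le_pow_right hd (by omega)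
  have g3 : D ^ (s * N + s) ≤ D ^ (s * N + s + N + 1) := Nat.pow_le_pow_right hD (by omega)
  calc hS n k D d + 1
      ≤ 2 * (d ^ s * D ^ s * (b0 * D ^ s) ^ N) := by omega
    _ = (2 * b0 ^ N) * (d ^ s * D ^ (s * N + s)) := by
        rw [mul_pow, ← pow_mul, pow_add]; ring
    _ ≤ ((2 * b0) ^ (s * N + s + N + 1)) * (d ^ (s * N + s + N + 1) * D ^ (s * N + s + N + 1)) := by
        gcongr
    _ = (2 * b0 * D * d) ^ (s * N + s + N + 1) := by
        rw [mul_pow (2 * b0 * D) d, mul_pow (2 * b0) D]; ring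

theorem KS_bound (n k : ℕ) : ∃ c : ℕ, 1 ≤ c ∧ ∀ D d : ℕ, 1 ≤ D → 1 ≤ d →
    4 * KS n k D d ≤ (c * D * d) ^ c := by
  obtain ⟨b, e, hb, hbe⟩ := hS_bound n k
  obtain ⟨N, hN⟩ : ∃ N, N = n * (k + 2) := ⟨_, rfl⟩
  obtain ⟨f, hf⟩ : ∃ f, f = e * (5 * N + 1) := ⟨_, rfl⟩
  obtain ⟨a, ha⟩ : ∃ a, a = 4000 * N ^ 3 := ⟨_, rfl⟩
  refine ⟨a + b + f + 2, by omega, ?_⟩
  intro D d hD hd
  obtain ⟨c, hc⟩ : ∃ c, c = a + b + f + 2 := ⟨_, rfl⟩
  rw [← hc]
  have h8 : KS n k D d ≤ 1000 * N ^ 3 * ((b * D * d) ^ e) ^ (5 * N + 1) := by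
    unfold KS KG
    rw [← hN]
    have := hbe D d hD hd
    gcongr
  have g0 : b ≤ c := by omega
  have g1 : a ≤ c * D * d := by
    calc a ≤ c := by omega
      _ ≤ c * (D * d) := Nat.le_mul_of_pos_right _ (Nat.mul_pos (by omega) (by omega))
      _ = c * D * d := by ring
  calc 4 * KS n k D d ≤ 4 * (1000 * N ^ 3 * ((b * D * d) ^ e) ^ (5 * N + 1)) := by gcongr
    _ = a * (b * D * d) ^ f := by rw [← pow_mul, ha, hf]; ring
    _ ≤ (c * D * d) * (c * D * d) ^ f := by gcongr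
    _ = (c * D * d) ^ (f + 1) := by rw [pow_succ]; ring
    _ ≤ (c * D * d) ^ c := by
        refine Nat.pow_le_pow_right (Nat.one_le_iff_ne_zero.2 ?_) (by omega)
        have : 1 ≤ c := by omega
        positivity

/-- THEOREM S with all branches, `(2h)^K ≤ x`. -/
theorem S_all (n k D d : ℕ) (hn : 1 ≤ n) (hD : 1 ≤ D) (hd : 1 ≤ d) (K : ℕ)
    (hK : 4 * KS n (k + 1) D d ≤ K) (h : ℕ) (hh : 1 ≤ h) (x : ℕ) (hx : (2 * h) ^ K ≤ x)
    (θ : Fin k → ℂ) :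
    ∃ E : Finset ℕ, E.card ≤ k + 2 ∧
      ∀ A ⊆ Finset.Icc x (x + h) \ E, A.card ≤ n → GoodL d D θ (fun a : A => (a : ℕ)) := by
  have h1 : (4 * h) ^ KS n (k + 1) D d ≤ x := by
    calc (4 * h) ^ KS n (k + 1) D d ≤ ((2 * h) ^ 2) ^ KS n (k + 1) D d := by
          refine Nat.pow_le_pow_left ?_ _
          nlinarith
      _ = (2 * h) ^ (2 * KS n (k + 1) D d) := by rw [← pow_mul]
      _ ≤ (2 * h) ^ K := Nat.pow_le_pow_right (by omega) (by omega)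
      _ ≤ x := hx
  have hx1 : 1 ≤ x := le_trans (Nat.one_le_iff_ne_zero.2 (by positivity)) hx
  obtain ⟨E, hE, hE2⟩ := theoremS n (k + 1) D d hn hD hd h hh x h1
    (Fin.snoc θ (2 * Real.pi * Complex.I) : Fin (k + 1) → ℂ)
  refine ⟨E, by omega, fun A hA hAn => goodL_of _ ?_ (hE2 A hA hAn)⟩
  intro a ha
  have := Finset.mem_Icc.1 (Finset.mem_sdiff.1 (hA a.2)).1
  have h0 : (a : ℕ) = 0 := ha
  omega

/-- The choice of `h` from `B`. -/
theorem floor_choice (B K κ : ℕ) (hB : 1 ≤ B) (hK1 : 1 ≤ K) (hK : 4 * κ ≤ K) (c0 : ℕ) (hc0 : 1 ≤ c0)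
    (hy : (c0 : ℝ) ≤ (B : ℝ) ^ (1 / (K : ℝ))) :
    (c0 * ⌊(B : ℝ) ^ (1 / (K : ℝ))⌋₊) ^ (2 * κ) ≤ B := by
  set y := (B : ℝ) ^ (1 / (K : ℝ)) with hydef
  have hB0 : (0 : ℝ) ≤ B := Nat.cast_nonneg _
  have hyK : y ^ K = B := by
    rw [hydef, ← Real.rpow_natCast, ← Real.rpow_mul hB0, one_div,
      inv_mul_cancel₀ (by positivity), Real.rpow_one]
  have hy1 : 1 ≤ y := le_trans (by exact_mod_cast hc0) hy
  have hfl : (⌊y⌋₊ : ℝ) ≤ y := Nat.floor_le (by linarith)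
  have : (((c0 * ⌊y⌋₊) ^ (2 * κ) : ℕ) : ℝ) ≤ B := by
    push_cast
    calc ((c0 : ℝ) * ⌊y⌋₊) ^ (2 * κ) ≤ (y * y) ^ (2 * κ) := by gcongr
      _ = y ^ (4 * κ) := by rw [← pow_two, ← pow_mul]; ring_nf
      _ ≤ y ^ K := pow_le_pow_right₀ hy1 hK
      _ = B := hyK
  exact_mod_cast this

/-- From the integral form to the real form. -/
theorem real_form (B K : ℕ) (hB : 1 ≤ B) (hK1 : 1 ≤ K) (c0 : ℕ) (hc0 : 2 ≤ c0) (bad Q G : ℝ)
    (hQ : 0 ≤ Q) (hG : 1 ≤ G) (hbad : bad ≤ Q * B)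
    (h : (c0 : ℝ) ≤ (B : ℝ) ^ (1 / (K : ℝ)) →
      (⌊(B : ℝ) ^ (1 / (K : ℝ))⌋₊ : ℝ) * bad ≤ 4 * G * Q * B) :
    bad ≤ c0 * 8 * G * Q * (B : ℝ) ^ (1 - 1 / (K : ℝ)) := by
  set y := (B : ℝ) ^ (1 / (K : ℝ)) with hydef
  have hBpos : (0 : ℝ) < B := by exact_mod_cast hB
  have hypos : 0 < y := Real.rpow_pos_of_pos hBpos _
  have hz : (B : ℝ) ^ (1 - 1 / (K : ℝ)) = B / y := by
    rw [Real.rpow_sub hBpos, Real.rpow_one]
  rw [hz]
  have hc0' : (2 : ℝ) ≤ c0 := by exact_mod_cast hc0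
  by_cases hc : (c0 : ℝ) ≤ y
  · have h1 := h hc
    have hfl : y / 2 ≤ (⌊y⌋₊ : ℝ) := by
      have := (Nat.lt_floor_add_one y).le
      have h2 : (2 : ℝ) ≤ y := le_trans hc0' hc
      have h3 : (1 : ℝ) ≤ (⌊y⌋₊ : ℝ) := by
        have : 1 ≤ ⌊y⌋₊ := Nat.le_floor (by push_cast; linarith)
        exact_mod_cast this
      linarith
    by_cases hb : bad ≤ 0
    · refine le_trans hb (by positivity)
    · have hb' : 0 < bad := not_le.1 hb
      have h4 : y / 2 * bad ≤ 4 * G * Q * B := le_trans (by gcongr) h1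
      have h5 : bad ≤ 8 * G * Q * B / y := by
        rw [le_div_iff₀ hypos]; linarith
      refine le_trans h5 ?_
      have h6 : 0 ≤ 8 * G * Q * B / y := by positivity
      calc 8 * G * Q * B / y ≤ c0 * (8 * G * Q * B / y) := by nlinarith
        _ = c0 * 8 * G * Q * (B / y) := by ring
  · have hc' : y < c0 := not_le.1 hc
    refine le_trans hbad ?_
    have h1 : (B : ℝ) ≤ c0 * (B / y) := by
      rw [mul_div_assoc', le_div_iff₀ hypos]; nlinarith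
    have h2 : 0 ≤ B / y := by positivity
    calc Q * B ≤ Q * (c0 * (B / y)) := by gcongr
      _ = 1 * (c0 * Q * (B / y)) := by ring
      _ ≤ (8 * G) * (c0 * Q * (B / y)) := by
          refine mul_le_mul_of_nonneg_right (by linarith) (by positivity)
      _ = c0 * 8 * G * Q * (B / y) := by ring

/-- THEOREM T. -/
theorem T_real (n : ℕ) (hn : 1 ≤ n) {k : ℕ} (D d : ℕ) (hD : 1 ≤ D) (hd : 1 ≤ d) (K : ℕ)
    (hK : 4 * KS 1 (k + 1 + n) D d ≤ K) (θ : Fin k → ℂ) (B : ℕ) (hB : 1 ≤ B) (S : Finset ℕ)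
    (hS : S ⊆ Finset.Icc 1 B) :
    (((Fintype.piFinset (fun _ : Fin n => S)).filter (fun b => ¬ GoodL d D θ b)).card : ℝ)
      ≤ 32 * n * (k + 1 + n) * (S.card : ℝ) ^ (n - 1) * (B : ℝ) ^ (1 - 1 / (K : ℝ)) := by
  have hKS := one_le_KS (k := k + 1 + n) (le_refl 1) hD hd
  have hsub : ((Fintype.piFinset (fun _ : Fin n => S)).filter (fun b => ¬ GoodL d D θ b)) ⊆
      ((Fintype.piFinset (fun _ : Fin n => S)).filter
        (fun b => ¬ Good d D (Fin.snoc θ (2 * Real.pi * Complex.I) : Fin (k + 1) → ℂ)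
          (fun i => (Real.log (b i : ℕ) : ℂ)))) := by
    intro b hb
    rw [Finset.mem_filter] at hb ⊢
    refine ⟨hb.1, fun hg => hb.2 (goodL_of b ?_ hg)⟩
    intro i
    have := Finset.mem_Icc.1 (hS (Fintype.mem_piFinset.1 hb.1 i))
    omega
  have hScard : (S.card : ℝ) ≤ B := by
    have := Finset.card_le_card hS
    simp at this
    exact_mod_cast this
  have hGn : (1 : ℝ) ≤ n * (k + 1 + n) := by
    have : 1 ≤ n * (k + 1 + n) := Nat.one_le_iff_ne_zero.2 (by positivity)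
    exact_mod_cast this
  have key := real_form B K hB (by omega) 4 (by norm_num)
    (((Fintype.piFinset (fun _ : Fin n => S)).filter (fun b => ¬ GoodL d D θ b)).card : ℝ)
    ((S.card : ℝ) ^ (n - 1)) (n * (k + 1 + n)) (by positivity) hGn ?_ ?_
  · refine le_trans key (le_of_eq ?_)
    push_cast; ring
  · have h1 : ((Fintype.piFinset (fun _ : Fin n => S)).filter (fun b => ¬ GoodL d D θ b)).card
        ≤ S.card ^ n := by
      refine le_trans (Finset.card_le_card (Finset.filter_subset _ _)) ?_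
      simp
    have h2 : (((Fintype.piFinset (fun _ : Fin n => S)).filter
        (fun b => ¬ GoodL d D θ b)).card : ℝ) ≤ (S.card : ℝ) ^ n := by exact_mod_cast h1
    refine le_trans h2 ?_
    obtain ⟨m, rfl⟩ : ∃ m, n = m + 1 := ⟨n - 1, by omega⟩
    rw [pow_succ]; simp only [Nat.add_sub_cancel]
    gcongr
  · intro hy
    have hB2 := floor_choice B K (KS 1 (k + 1 + n) D d) hB (by omega) hK 4 (by norm_num) hy
    have hfl1 : 1 ≤ ⌊(B : ℝ) ^ (1 / (K : ℝ))⌋₊ := by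
      refine Nat.le_floor (le_trans ?_ hy); norm_num
    have h3 := count_tuples n D d hD hd
      (Fin.snoc θ (2 * Real.pi * Complex.I) : Fin (k + 1) → ℂ)
      ⌊(B : ℝ) ^ (1 / (K : ℝ))⌋₊ B hfl1 hB2 S hS
    have h4 : ((⌊(B : ℝ) ^ (1 / (K : ℝ))⌋₊ : ℕ) : ℝ) * (((Fintype.piFinset (fun _ : Fin n => S)).filter
        (fun b => ¬ Good d D (Fin.snoc θ (2 * Real.pi * Complex.I) : Fin (k + 1) → ℂ)
          (fun i => (Real.log (b i : ℕ) : ℂ)))).card : ℝ)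
        ≤ 4 * n * (k + 1 + n) * (S.card : ℝ) ^ (n - 1) * B := by exact_mod_cast h3
    refine le_trans ?_ (le_trans h4 (le_of_eq ?_))
    · have := Finset.card_le_card hsub
      gcongr
    · ring

/-- The shifts. -/
theorem U_real (n : ℕ) (hn : 1 ≤ n) {k : ℕ} (D d : ℕ) (hD : 1 ≤ D) (hd : 1 ≤ d) (K : ℕ)
    (hK : 4 * KS n (k + 1) D d ≤ K) (θ : Fin k → ℂ) (B : ℕ) (hB : 1 ≤ B) (t : Fin n → ℕ)
    (ht : Function.Injective t) (htB : ∀ i, (t i : ℝ) ≤ (B : ℝ) ^ (1 / (K : ℝ))) :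
    (((Finset.Icc 1 B).filter (fun x => ¬ GoodL d D θ (fun i => x + t i))).card : ℝ)
      ≤ 64 * (n * (k + 2)) * (B : ℝ) ^ (1 - 1 / (K : ℝ)) := by
  have hKS := one_le_KS (n := n) (k := k + 1) hn hD hd
  have hsub : ((Finset.Icc 1 B).filter (fun x => ¬ GoodL d D θ (fun i => x + t i))) ⊆
      ((Finset.Icc 1 B).filter
        (fun x => ¬ Good d D (Fin.snoc θ (2 * Real.pi * Complex.I) : Fin (k + 1) → ℂ)
          (fun i => (Real.log ((x + t i : ℕ) : ℝ) : ℂ)))) := by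
    intro x hx
    rw [Finset.mem_filter] at hx ⊢
    refine ⟨hx.1, fun hg => hx.2 (goodL_of _ ?_ hg)⟩
    intro i
    have := Finset.mem_Icc.1 hx.1
    omega
  have hGn : (1 : ℝ) ≤ n * (k + 2) := by
    have : 1 ≤ n * (k + 2) := Nat.one_le_iff_ne_zero.2 (by positivity)
    exact_mod_cast this
  have key := real_form B K hB (by omega) 8 (by norm_num)
    (((Finset.Icc 1 B).filter (fun x => ¬ GoodL d D θ (fun i => x + t i))).card : ℝ)
    1 (n * (k + 2)) (by positivity) hGn ?_ ?_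
  · refine le_trans key (le_of_eq ?_)
    push_cast; ring
  · have h1 : ((Finset.Icc 1 B).filter (fun x => ¬ GoodL d D θ (fun i => x + t i))).card ≤ B := by
      refine le_trans (Finset.card_le_card (Finset.filter_subset _ _)) ?_
      simp
    rw [one_mul]; exact_mod_cast h1
  · intro hy
    have hB2 := floor_choice B K (KS n (k + 1) D d) hB (by omega) hK 8 (by norm_num) hy
    have hfl1 : 1 ≤ ⌊(B : ℝ) ^ (1 / (K : ℝ))⌋₊ := by
      refine Nat.le_floor (le_trans ?_ hy); norm_num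
    have h3 := count_shifts hn D d hD hd
      (Fin.snoc θ (2 * Real.pi * Complex.I) : Fin (k + 1) → ℂ) t ht
      ⌊(B : ℝ) ^ (1 / (K : ℝ))⌋₊ B hfl1 (fun i => Nat.le_floor (htB i)) hB2
    have h4 : ((⌊(B : ℝ) ^ (1 / (K : ℝ))⌋₊ : ℕ) : ℝ) * (((Finset.Icc 1 B).filter
        (fun x => ¬ Good d D (Fin.snoc θ (2 * Real.pi * Complex.I) : Fin (k + 1) → ℂ)
          (fun i => (Real.log ((x + t i : ℕ) : ℝ) : ℂ)))).card : ℝ)
        ≤ 4 * (n * (k + 1 + 1)) * B := by exact_mod_cast h3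
    refine le_trans ?_ (le_trans h4 (le_of_eq ?_))
    · have := Finset.card_le_card hsub
      gcongr
    · ring

end MP60829e.GF
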