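import Pool.Agent.Lib.MP_60829e_nt.GF.Fin
import Mathlib.NumberTheory.Chebyshev

/-!
# The primes
-/

namespace MP60829e.GF
open scoped Classical

/-- Chebyshev's lower bound in the form `B ≤ 2 (log B) π(B)` for `B ≥ 256`. -/
theorem cheb (B : ℕ) (hB : 256 ≤ B) : (B : ℝ) ≤ 2 * Real.log B * ((Nat.primesLE B).card : ℝ) := by
  have h := Chebyshev.pi_ge B
  rw [← Nat.primesLE_card_eq_primeCounting] at h
  have hBr : (256 : ℝ) ≤ B := by exact_mod_cast hB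
  have hlog : 0 < Real.log B := Real.log_pos (by linarith)
  rw [div_le_iff₀ hlog] at h
  have hl2 : (0.6931471803 : ℝ) < Real.log 2 := Real.log_two_gt_d9
  -- log (B+1) ≤ B * 0.19
  have h3 : Real.log ((B : ℝ) + 1) ≤ 0.19 * B := by
    have h4 : Real.log ((B : ℝ) + 1) = Real.log (((B : ℝ) + 1) / 256) + 8 * Real.log 2 := by
      rw [Real.log_div (by positivity) (by norm_num)]
      have : Real.log (256 : ℝ) = 8 * Real.log 2 := by
        rw [show (256 : ℝ) = 2 ^ 8 by norm_num, Real.log_pow]; norm_num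
      linarith
    have h5 := Real.log_le_sub_one_of_pos (show 0 < ((B : ℝ) + 1) / 256 by positivity)
    have h6 : Real.log 2 < 0.6931471808 := Real.log_two_lt_d9
    rw [h4]
    linarith
  nlinarith

/-- `D, d ≤ (log B)^δ`: the proportion of bad `n`-tuples of primes is at most `exp(-(log B)^(1/2))`. -/
theorem primes_real (n : ℕ) (hn : 1 ≤ n) (k : ℕ) (c : ℕ) (hc : 1 ≤ c) (C : ℝ) (hC : 0 ≤ C)
    (hT : ∀ D d : ℕ, 1 ≤ D → 1 ≤ d → ∀ (θ : Fin k → ℂ) (B : ℕ), 1 ≤ B → ∀ S ⊆ Finset.Icc 1 B,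
      (((Fintype.piFinset (fun _ : Fin n => S)).filter (fun b => ¬ GoodL d D θ b)).card : ℝ)
        ≤ C * (S.card : ℝ) ^ (n - 1) * (B : ℝ) ^ (1 - 1 / (((c * D * d) ^ c : ℕ) : ℝ))) :
    ∃ (δ : ℝ) (B0 : ℕ), 0 < δ ∧ ∀ B : ℕ, B0 ≤ B → ∀ D d : ℕ, 1 ≤ D → 1 ≤ d →
      (D : ℝ) ≤ Real.log B ^ δ → (d : ℝ) ≤ Real.log B ^ δ → ∀ θ : Fin k → ℂ,
      (((Fintype.piFinset (fun _ : Fin n => Nat.primesLE B)).filter
        (fun b => ¬ GoodL d D θ b)).card : ℝ)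
        ≤ Real.exp (-√(Real.log B)) * ((Nat.primesLE B).card : ℝ) ^ n := by
  have hc0 : (0 : ℝ) < c := by exact_mod_cast hc
  set w0 : ℝ := 2 * C + 10 + (c : ℝ) ^ c with hw0
  refine ⟨1 / (16 * c), max 256 ⌈Real.exp (w0 ^ 8)⌉₊, by positivity, ?_⟩
  intro B hB D d hD hd hDB hdB θ
  have hB256 : 256 ≤ B := le_trans (le_max_left _ _) hB
  have hBe : Real.exp (w0 ^ 8) ≤ B := by
    refine le_trans (Nat.le_ceil _) ?_
    exact_mod_cast le_trans (le_max_right _ _) hB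
  have hBpos : (0 : ℝ) < B := by
    have : (256 : ℝ) ≤ B := by exact_mod_cast hB256
    linarith
  have hw0pos : 10 ≤ w0 := by
    rw [hw0]; have : (0 : ℝ) ≤ (c : ℝ) ^ c := by positivity
    linarith
  set L := Real.log B with hL
  have hLw : w0 ^ 8 ≤ L := by
    rw [hL, Real.le_log_iff_exp_le hBpos]; exact hBe
  have hLpos : 0 < L := lt_of_lt_of_le (by positivity) hLw
  -- w = L^(1/8)
  set w := L ^ (1 / 8 : ℝ) with hw
  have hwpos : 0 < w := Real.rpow_pos_of_pos hLpos _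
  have hw8 : w ^ 8 = L := by
    rw [hw, ← Real.rpow_natCast, ← Real.rpow_mul hLpos.le]; norm_num
  have hww0 : w0 ≤ w := by
    have : w0 ^ 8 ≤ w ^ 8 := by rw [hw8]; exact hLw
    exact le_of_pow_le_pow_left₀ (by norm_num) hwpos.le this
  -- (D d)^c ≤ w
  have hDd : ((D : ℝ) * d) ^ c ≤ w := by
    have h1 : (D : ℝ) * d ≤ L ^ (1 / (8 * (c : ℝ))) := by
      calc (D : ℝ) * d ≤ L ^ (1 / (16 * (c : ℝ))) * L ^ (1 / (16 * (c : ℝ))) := by gcongr
        _ = L ^ (1 / (8 * (c : ℝ))) := by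
            rw [← Real.rpow_add hLpos]; congr 1; field_simp; norm_num
    calc ((D : ℝ) * d) ^ c ≤ (L ^ (1 / (8 * (c : ℝ)))) ^ c := by gcongr
      _ = w := by
          rw [hw, ← Real.rpow_natCast, ← Real.rpow_mul hLpos.le]
          congr 1; field_simp
  have hK : (((c * D * d) ^ c : ℕ) : ℝ) ≤ w ^ 2 := by
    push_cast
    calc ((c : ℝ) * D * d) ^ c = (c : ℝ) ^ c * ((D : ℝ) * d) ^ c := by rw [← mul_pow]; ring
      _ ≤ w * w := by
          have : (c : ℝ) ^ c ≤ w := by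
            refine le_trans ?_ hww0
            rw [hw0]; linarith
          gcongr
      _ = w ^ 2 := by ring
  have hK0 : (0 : ℝ) < (((c * D * d) ^ c : ℕ) : ℝ) := by
    have : 0 < (c * D * d) ^ c := by positivity
    exact_mod_cast this
  have h1 := hT D d hD hd θ B (by omega) (Nat.primesLE B) (by
    intro p hp
    rw [Finset.mem_Icc]
    exact ⟨(Nat.prime_of_mem_primesLE hp).one_le, Nat.le_of_mem_primesLE hp⟩)
  refine le_trans h1 ?_
  set P : ℝ := ((Nat.primesLE B).card : ℝ) with hP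
  have hP0 : 0 ≤ P := Nat.cast_nonneg _
  have hch := cheb B hB256
  -- B^(1-1/K) ≤ B exp(-w^6)
  have h2 : (B : ℝ) ^ (1 - 1 / (((c * D * d) ^ c : ℕ) : ℝ)) ≤ B * Real.exp (-w ^ 6) := by
    rw [Real.rpow_sub hBpos, Real.rpow_one, div_eq_mul_inv, ← Real.rpow_neg hBpos.le]
    refine mul_le_mul_of_nonneg_left ?_ hBpos.le
    rw [Real.rpow_def_of_pos hBpos]
    refine Real.exp_le_exp.2 ?_
    have h3 : w ^ 6 ≤ L / (((c * D * d) ^ c : ℕ) : ℝ) := by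
      rw [le_div_iff₀ hK0, ← hw8]
      calc w ^ 6 * (((c * D * d) ^ c : ℕ) : ℝ) ≤ w ^ 6 * w ^ 2 := by gcongr
        _ = w ^ 8 := by ring
    have h4 : Real.log B * -(1 / (((c * D * d) ^ c : ℕ) : ℝ))
        = -(L / (((c * D * d) ^ c : ℕ) : ℝ)) := by rw [← hL]; ring
    rw [h4]; linarith
  have hsq : √L = w ^ 4 := by
    rw [← hw8, show w ^ 8 = (w ^ 4) ^ 2 by ring]
    exact Real.sqrt_sq (by positivity)
  -- 2 C w^8 exp(-w^6) ≤ exp(-w^4)
  have h5 : 2 * C * w ^ 8 * Real.exp (-w ^ 6) ≤ Real.exp (-w ^ 4) := by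
    have hwC : 2 * C + 10 ≤ w := by
      refine le_trans ?_ hww0
      rw [hw0]; have : (0 : ℝ) ≤ (c : ℝ) ^ c := by positivity
      linarith
    have h6 : 2 * C * w ^ 8 ≤ Real.exp (w ^ 5) := by
      have e1 : w ≤ Real.exp w := by linarith [Real.add_one_le_exp w]
      have e2 : 2 * C * w ^ 8 ≤ w ^ 9 := by
        have : 2 * C ≤ w := by linarith
        calc 2 * C * w ^ 8 ≤ w * w ^ 8 := by gcongr
          _ = w ^ 9 := by ring
      have e3 : w ^ 9 ≤ Real.exp (9 * w) := by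
        rw [show (9 : ℝ) * w = ((9 : ℕ) : ℝ) * w by norm_num, Real.exp_nat_mul]
        gcongr
      have e4 : 9 * w ≤ w ^ 5 := by
        have : (9 : ℝ) ≤ w ^ 4 := by
          calc (9 : ℝ) ≤ 10 ^ 4 := by norm_num
            _ ≤ w ^ 4 := by gcongr; linarith
        calc 9 * w ≤ w ^ 4 * w := by gcongr
          _ = w ^ 5 := by ring
      exact le_trans e2 (le_trans e3 (Real.exp_le_exp.2 e4))
    have h7 : w ^ 5 + w ^ 4 ≤ w ^ 6 := by
      have hw10 : 10 ≤ w := le_trans hw0pos hww0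
      have : w ^ 4 ≤ w ^ 5 := by
        calc w ^ 4 = w ^ 4 * 1 := by ring
          _ ≤ w ^ 4 * w := by gcongr; linarith
          _ = w ^ 5 := by ring
      calc w ^ 5 + w ^ 4 ≤ 2 * w ^ 5 := by linarith
        _ ≤ w * w ^ 5 := by gcongr; linarith
        _ = w ^ 6 := by ring
    calc 2 * C * w ^ 8 * Real.exp (-w ^ 6) ≤ Real.exp (w ^ 5) * Real.exp (-w ^ 6) := by gcongr
      _ = Real.exp (w ^ 5 + -w ^ 6) := by rw [Real.exp_add]
      _ ≤ Real.exp (-w ^ 4) := Real.exp_le_exp.2 (by linarith)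
  obtain ⟨m, rfl⟩ : ∃ m, n = m + 1 := ⟨n - 1, by omega⟩
  simp only [Nat.add_sub_cancel]
  rw [hsq]
  calc C * P ^ m * (B : ℝ) ^ (1 - 1 / (((c * D * d) ^ c : ℕ) : ℝ))
      ≤ C * P ^ m * (B * Real.exp (-w ^ 6)) := by gcongr
    _ ≤ C * P ^ m * ((2 * L * P) * Real.exp (-w ^ 6)) := by gcongr
    _ = (2 * C * w ^ 8 * Real.exp (-w ^ 6)) * P ^ (m + 1) := by rw [hw8]; ring
    _ ≤ Real.exp (-w ^ 4) * P ^ (m + 1) := by gcongr

/-- All together. -/
theorem main (n k : ℕ) (hn : 1 ≤ n) : ∃ (c : ℕ) (δ : ℝ), 1 ≤ c ∧ 0 < δ ∧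
    ∀ D d : ℕ, 1 ≤ D → 1 ≤ d → ∀ θ : Fin k → ℂ,
      (∀ h x : ℕ, 1 ≤ h → (2 * h) ^ ((c * D * d) ^ c) ≤ x →
        ∃ E : Finset ℕ, E.card ≤ k + 1 ∧ ∀ A ⊆ Finset.Icc x (x + h) \ E, A.card ≤ n →
          Good d D θ (fun a : A => (Real.log (a : ℕ) : ℂ))) ∧
      (∀ B : ℕ, 1 ≤ B → ∀ S ⊆ Finset.Icc 1 B,
        (((Fintype.piFinset (fun _ : Fin n => S)).filter (fun b => ¬ GoodL d D θ b)).card : ℝ)
          ≤ c * (S.card : ℝ) ^ (n - 1) * (B : ℝ) ^ (1 - 1 / (((c * D * d) ^ c : ℕ) : ℝ))) ∧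
      (∀ B : ℕ, 1 ≤ B → ∀ t : Fin n → ℕ, Function.Injective t →
        (∀ i, (t i : ℝ) ≤ (B : ℝ) ^ (1 / (((c * D * d) ^ c : ℕ) : ℝ))) →
        (((Finset.Icc 1 B).filter (fun x => ¬ GoodL d D θ (fun i => x + t i))).card : ℝ)
          ≤ c * (B : ℝ) ^ (1 - 1 / (((c * D * d) ^ c : ℕ) : ℝ))) ∧
      (∀ B : ℕ, c ≤ B → (D : ℝ) ≤ Real.log B ^ δ → (d : ℝ) ≤ Real.log B ^ δ →
        (((Fintype.piFinset (fun _ : Fin n => Nat.primesLE B)).filter
          (fun b => ¬ GoodL d D θ b)).card : ℝ)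
          ≤ Real.exp (-√(Real.log B)) * ((Nat.primesLE B).card : ℝ) ^ n) := by
  obtain ⟨c1, hc1, h1⟩ := KS_bound n k
  obtain ⟨c2, hc2, h2⟩ := KS_bound 1 (k + 1 + n)
  obtain ⟨c3, hc3, h3⟩ := KS_bound n (k + 1)
  -- the constant for (T)
  obtain ⟨cT, hcT⟩ : ∃ cT, cT = c2 + 32 * n * (k + 1 + n) := ⟨_, rfl⟩
  have hT : ∀ D d : ℕ, 1 ≤ D → 1 ≤ d → ∀ c : ℕ, cT ≤ c → ∀ (θ : Fin k → ℂ) (B : ℕ), 1 ≤ B →
      ∀ S ⊆ Finset.Icc 1 B,
      (((Fintype.piFinset (fun _ : Fin n => S)).filter (fun b => ¬ GoodL d D θ b)).card : ℝ)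
        ≤ c * (S.card : ℝ) ^ (n - 1) * (B : ℝ) ^ (1 - 1 / (((c * D * d) ^ c : ℕ) : ℝ)) := by
    intro D d hD hd c hc θ B hB S hS
    have hK : 4 * KS 1 (k + 1 + n) D d ≤ (c * D * d) ^ c :=
      le_trans (h2 D d hD hd) (cpow_mono hc2 (by omega) hD hd)
    refine le_trans (T_real n hn D d hD hd _ hK θ B hB S hS) ?_
    have : (32 * n * (k + 1 + n) : ℝ) ≤ c := by
      have : 32 * n * (k + 1 + n) ≤ c := by omega
      exact_mod_cast this
    gcongr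
  obtain ⟨δ, B0, hδ, hP⟩ := primes_real n hn k cT (by omega) cT (Nat.cast_nonneg _)
    (fun D d hD hd θ B hB S hS => hT D d hD hd cT le_rfl θ B hB S hS)
  refine ⟨c1 + cT + c3 + 64 * (n * (k + 2)) + B0, δ, by omega, hδ, ?_⟩
  obtain ⟨c, hc⟩ : ∃ c, c = c1 + cT + c3 + 64 * (n * (k + 2)) + B0 := ⟨_, rfl⟩
  rw [← hc]
  intro D d hD hd θ
  refine ⟨?_, ?_, ?_, ?_⟩
  · intro h x hh hx
    have hK : 4 * KS n k D d ≤ (c * D * d) ^ c :=
      le_trans (h1 D d hD hd) (cpow_mono hc1 (by omega) hD hd)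
    refine theoremS n k D d hn hD hd h hh x ?_ θ
    calc (4 * h) ^ KS n k D d ≤ ((2 * h) ^ 2) ^ KS n k D d := by
          refine Nat.pow_le_pow_left ?_ _
          nlinarith
      _ = (2 * h) ^ (2 * KS n k D d) := by rw [← pow_mul]
      _ ≤ (2 * h) ^ ((c * D * d) ^ c) := Nat.pow_le_pow_right (by omega) (by omega)
      _ ≤ x := hx
  · intro B hB S hS
    exact hT D d hD hd c (by omega) θ B hB S hS
  · intro B hB t ht htB
    have hK : 4 * KS n (k + 1) D d ≤ (c * D * d) ^ c :=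
      le_trans (h3 D d hD hd) (cpow_mono hc3 (by omega) hD hd)
    refine le_trans (U_real n hn D d hD hd _ hK θ B hB t ht htB) ?_
    have : (64 * (n * (k + 2)) : ℝ) ≤ c := by
      have : 64 * (n * (k + 2)) ≤ c := by omega
      exact_mod_cast this
    gcongr
  · intro B hB hDB hdB
    exact hP B (by omega) D d hD hd hDB hdB θ

end MP60829e.GF
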