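import Pool.Agent.Lib.MP_60829e_nt.GF.Lg

/-!
# The forms `W_ν`: denominators and sizes (G3)
-/

namespace MP60829e.GF
open Polynomial

/-- `x^N F((1+qs)/x) = ∑_k F_k x^(N-k) (1+qs)^k`. -/
private theorem forms_phi (F : ℤ[X]) (N : ℕ) (hN : F.natDegree ≤ N) (x q : ℤ) (hx : x ≠ 0) :
    PowerSeries.C ((x : ℚ) ^ N)
      * aeval (zz (1 / (x : ℚ)) ((q : ℚ) / x)) (F.map (Int.castRingHom ℚ)) =
    ∑ k ∈ Finset.range (N + 1), PowerSeries.C ((F.coeff k * x ^ (N - k) : ℤ) : ℚ) *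
      (1 + PowerSeries.C (q : ℚ) * PowerSeries.X) ^ k := by
  have hx' : (x : ℚ) ≠ 0 := Int.cast_ne_zero.2 hx
  have h1 : (F.map (Int.castRingHom ℚ)).natDegree < N + 1 :=
    Nat.lt_succ_of_le (natDegree_map_le.trans hN)
  rw [aeval_eq_sum_range' h1, Finset.mul_sum]
  refine Finset.sum_congr rfl fun k hk => ?_
  have hk' : k ≤ N := Nat.lt_succ_iff.1 (Finset.mem_range.1 hk)
  have h2 : zz (1 / (x : ℚ)) ((q : ℚ) / x) =
      PowerSeries.C (1 / (x : ℚ)) * (1 + PowerSeries.C (q : ℚ) * PowerSeries.X) := by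
    rw [zz, mul_add, mul_one, ← mul_assoc, ← map_mul]
    congr 3
    ring
  have h3 : (x : ℚ) ^ N * (F.coeff k : ℚ) * (1 / (x : ℚ)) ^ k =
      ((F.coeff k * x ^ (N - k) : ℤ) : ℚ) := by
    push_cast
    rw [one_div, inv_pow, mul_comm ((x : ℚ) ^ N), mul_assoc, ← div_eq_mul_inv,
      pow_sub₀ _ hx' hk', div_eq_mul_inv]
  rw [h2, mul_pow, coeff_map, eq_intCast, PowerSeries.smul_eq_C_mul, ← map_pow, ← h3, map_mul,
    map_mul]
  ring

/-- the coefficients of `(1 + q s) ^ k` -/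
private theorem forms_coeff (q : ℤ) (k : ℕ) : ∀ j : ℕ, ∃ z : ℤ,
    PowerSeries.coeff j ((1 + PowerSeries.C (q : ℚ) * PowerSeries.X) ^ k) = (z : ℚ) ∧
      ∀ B : ℝ, |(q : ℝ)| ≤ B → |(z : ℝ)| ≤ 2 ^ k * B ^ j := by
  induction k with
  | zero =>
    intro j
    by_cases hj : j = 0
    · subst hj
      refine ⟨1, by simp, fun B hB => ?_⟩
      simp
    · refine ⟨0, by rw [pow_zero, PowerSeries.coeff_one, if_neg hj, Int.cast_zero],
        fun B hB => ?_⟩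
      have h0 : 0 ≤ B := (abs_nonneg _).trans hB
      simp only [Int.cast_zero, abs_zero]
      positivity
  | succ k ih =>
    intro j
    have h1 : (1 + PowerSeries.C (q : ℚ) * PowerSeries.X) ^ (k + 1) =
        (1 + PowerSeries.C (q : ℚ) * PowerSeries.X) ^ k +
          PowerSeries.C (q : ℚ) * ((1 + PowerSeries.C (q : ℚ) * PowerSeries.X) ^ k *
            PowerSeries.X) := by
      rw [pow_succ]
      ring
    rw [h1, map_add, PowerSeries.coeff_C_mul]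
    cases j with
    | zero =>
      obtain ⟨z, hz, hzB⟩ := ih 0
      refine ⟨z, by rw [hz, PowerSeries.coeff_zero_mul_X, mul_zero, add_zero], fun B hB => ?_⟩
      have h2 := hzB B hB
      rw [pow_zero, mul_one] at h2 ⊢
      refine h2.trans ?_
      rw [pow_succ]
      linarith [pow_pos (show (0 : ℝ) < 2 by norm_num) k]
    | succ j =>
      obtain ⟨z, hz, hzB⟩ := ih (j + 1)
      obtain ⟨w, hw, hwB⟩ := ih j
      refine ⟨z + q * w, ?_, fun B hB => ?_⟩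
      · rw [hz, PowerSeries.coeff_succ_mul_X, hw]
        push_cast
        ring
      · have h0 : 0 ≤ B := (abs_nonneg _).trans hB
        push_cast
        calc |(z : ℝ) + q * w| ≤ |(z : ℝ)| + |(q : ℝ) * w| := abs_add_le _ _
          _ ≤ 2 ^ k * B ^ (j + 1) + B * (2 ^ k * B ^ j) := by
            rw [abs_mul]
            exact add_le_add (hzB B hB) (mul_le_mul hB (hwB B hB) (abs_nonneg _) h0)
          _ = 2 ^ (k + 1) * B ^ (j + 1) := by ring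

/-- `x^N F((1+qs)/x) = ∑_k F_k x^(N-k) (1+qs)^k` has integral coefficients. -/
theorem Den.phi (F : ℤ[X]) (N : ℕ) (hN : F.natDegree ≤ N) (x q : ℤ) (hx : x ≠ 0) (L t : ℕ) :
    Den L 0 t (PowerSeries.C ((x : ℚ) ^ N)
      * aeval (zz (1 / (x : ℚ)) ((q : ℚ) / x)) (F.map (Int.castRingHom ℚ))) := by
  rw [forms_phi F N hN x q hx]
  refine Den.of_int fun j _ => ?_
  choose z hz _ using fun k => forms_coeff q k j
  refine ⟨∑ k ∈ Finset.range (N + 1), F.coeff k * x ^ (N - k) * z k, ?_⟩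
  rw [map_sum, Int.cast_sum]
  refine Finset.sum_congr rfl fun k _ => ?_
  rw [PowerSeries.coeff_C_mul, hz]
  push_cast
  ring

theorem Bd.phi (F : ℤ[X]) (N : ℕ) (hN : F.natDegree ≤ N) (H : ℝ)
    (hH : ∀ k, |((F.coeff k : ℤ) : ℝ)| ≤ H) (x q : ℤ) (hx : 1 ≤ x) (B : ℝ) (hB : |(q : ℝ)| ≤ B) :
    Bd (((N : ℝ) + 1) * H * (2 * (x : ℝ)) ^ N) B 0 (PowerSeries.C ((x : ℚ) ^ N)
      * aeval (zz (1 / (x : ℚ)) ((q : ℚ) / x)) (F.map (Int.castRingHom ℚ))) := by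
  intro j
  have h0 : 0 ≤ B := (abs_nonneg _).trans hB
  have hH0 : 0 ≤ H := (abs_nonneg _).trans (hH 0)
  have hx1 : (1 : ℝ) ≤ x := by exact_mod_cast hx
  rw [forms_phi F N hN x q (by omega), map_sum]
  push_cast
  calc |∑ k ∈ Finset.range (N + 1), ((PowerSeries.coeff j (PowerSeries.C
        ((F.coeff k : ℚ) * (x : ℚ) ^ (N - k)) *
        (1 + PowerSeries.C (q : ℚ) * PowerSeries.X) ^ k) : ℚ) : ℝ)|
      ≤ ∑ k ∈ Finset.range (N + 1), |((PowerSeries.coeff j (PowerSeries.C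
        ((F.coeff k : ℚ) * (x : ℚ) ^ (N - k)) *
        (1 + PowerSeries.C (q : ℚ) * PowerSeries.X) ^ k) : ℚ) : ℝ)| :=
        Finset.abs_sum_le_sum_abs _ _
    _ ≤ ∑ k ∈ Finset.range (N + 1), H * (2 * (x : ℝ)) ^ N * B ^ j := by
        refine Finset.sum_le_sum fun k hk => ?_
        have hk' : k ≤ N := Nat.lt_succ_iff.1 (Finset.mem_range.1 hk)
        obtain ⟨z, hz, hzB⟩ := forms_coeff q k j
        rw [PowerSeries.coeff_C_mul, hz]
        push_cast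
        rw [abs_mul, abs_mul, abs_of_nonneg (pow_nonneg (by linarith : (0 : ℝ) ≤ x) _)]
        have h2 : (x : ℝ) ^ (N - k) ≤ (x : ℝ) ^ N := pow_le_pow_right₀ hx1 (Nat.sub_le _ _)
        have h3 : (2 : ℝ) ^ k ≤ 2 ^ N := pow_le_pow_right₀ (by norm_num) hk'
        calc |((F.coeff k : ℤ) : ℝ)| * (x : ℝ) ^ (N - k) * |(z : ℝ)|
            ≤ H * (x : ℝ) ^ N * (2 ^ N * B ^ j) := by
              refine mul_le_mul (mul_le_mul (hH k) h2 (by positivity) hH0)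
                ((hzB B hB).trans ?_) (abs_nonneg _) (by positivity)
              exact mul_le_mul_of_nonneg_right h3 (by positivity)
          _ = H * (2 * (x : ℝ)) ^ N * B ^ j := by
              rw [mul_pow]
              ring
    _ = ((N : ℝ) + 1) * H * (2 * (x : ℝ)) ^ N * B ^ j * ((j : ℝ) + 1) ^ 0 := by
        rw [Finset.sum_const, Finset.card_range, nsmul_eq_mul]
        push_cast
        ring

private theorem forms_abs {A : ℕ} {b : ℤ} (hb : |b| ≤ A) {x : ℤ} (hx : (A : ℤ) ≤ x) :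
    |((x + b : ℤ) : ℝ)| ≤ 2 * (x : ℝ) := by
  have h1 : |x + b| ≤ 2 * x := by
    rw [abs_le] at hb ⊢
    constructor <;> omega
  have h2 : ((|x + b| : ℤ) : ℝ) ≤ ((2 * x : ℤ) : ℝ) := Int.cast_le.2 h1
  push_cast at h2 ⊢
  exact h2

theorem abs_qq_le {n : ℕ} (a : Fin n → ℤ) (A : ℕ) (hA : ∀ i, |a i| ≤ A) (x : ℤ) (hx : (A : ℤ) ≤ x) :
    |(qq a x : ℝ)| ≤ (2 * (x : ℝ)) ^ n := by
  rw [qq, Int.cast_prod, Finset.abs_prod]
  calc ∏ i, |((x + a i : ℤ) : ℝ)| ≤ ∏ _i : Fin n, (2 * (x : ℝ)) :=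
        Finset.prod_le_prod (fun i _ => abs_nonneg _) fun i _ => forms_abs (hA i) hx
    _ = (2 * (x : ℝ)) ^ n := by rw [Finset.prod_const, Finset.card_univ, Fintype.card_fin]

theorem abs_qi_le {n : ℕ} (a : Fin n → ℤ) (A : ℕ) (hA1 : 1 ≤ A) (hA : ∀ i, |a i| ≤ A) (x : ℤ)
    (hx : (A : ℤ) ≤ x) (i : Fin n) :
    |((a i * qi a x i : ℤ) : ℝ)| ≤ A * (2 * (x : ℝ)) ^ n := by
  have hx1 : (1 : ℝ) ≤ x := by
    have : (1 : ℤ) ≤ x := by omega
    exact_mod_cast this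
  have h1 : |((qi a x i : ℤ) : ℝ)| ≤ (2 * (x : ℝ)) ^ n := by
    rw [qi, Int.cast_prod, Finset.abs_prod]
    calc ∏ j ∈ Finset.univ.erase i, |((x + a j : ℤ) : ℝ)|
        ≤ ∏ _j ∈ Finset.univ.erase i, (2 * (x : ℝ)) :=
          Finset.prod_le_prod (fun j _ => abs_nonneg _) fun j _ => forms_abs (hA j) hx
      _ = (2 * (x : ℝ)) ^ (Finset.univ.erase i).card := by rw [Finset.prod_const]
      _ ≤ (2 * (x : ℝ)) ^ n := by
          refine pow_le_pow_right₀ (by linarith) ?_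
          have h2 := Finset.card_le_univ (Finset.univ.erase i)
          rwa [Fintype.card_fin] at h2
  rw [Int.cast_mul, abs_mul]
  have h2 : |((a i : ℤ) : ℝ)| ≤ A := by
    have h3 : ((|a i| : ℤ) : ℝ) ≤ ((A : ℤ) : ℝ) := Int.cast_le.2 (hA i)
    push_cast at h3
    exact h3
  exact mul_le_mul h2 h1 (abs_nonneg _) (Nat.cast_nonneg _)

/-- Integrality. -/
theorem forms_den {n D : ℕ} (a : Fin n → ℤ) (F : (Fin n → Fin (D + 1)) → ℤ[X]) (N : ℕ)
    (hN : ∀ μ, (F μ).natDegree ≤ N) (x : ℤ) (hx : x ≠ 0) (t t' : ℕ) (ht : t ≤ t')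
    (ν : Fin n → Fin (D + 1)) :
    Den (Nat.lcmUpto t') (n * D) t (Wf a (fun μ => (F μ).map (Int.castRingHom ℚ)) N x ν) := by
  refine Den.sum _ _ fun μ _ => ?_
  have h1 := (Den.phi (F μ) N (hN μ) x (qq a x) hx (Nat.lcmUpto t') t).mul
    (Den.Ecs ht (fun i => a i * qi a x i) ν μ)
  rwa [zero_add] at h1

/-- Size. -/
theorem forms_bd {n D : ℕ} (a : Fin n → ℤ) (A : ℕ) (hA1 : 1 ≤ A) (hA : ∀ i, |a i| ≤ A)
    (F : (Fin n → Fin (D + 1)) → ℤ[X]) (N : ℕ) (hN : ∀ μ, (F μ).natDegree ≤ N) (H : ℝ)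
    (hH : ∀ μ k, |(((F μ).coeff k : ℤ) : ℝ)| ≤ H) (x : ℤ) (hx : (A : ℤ) ≤ x)
    (ν : Fin n → Fin (D + 1)) :
    Bd (((D + 1) ^ n : ℕ) * (((N : ℝ) + 1) * H * (2 * (x : ℝ)) ^ N) * 2 ^ (n * D))
      (A * (2 * (x : ℝ)) ^ n) (n * (D + 2) + 1)
      (Wf a (fun μ => (F μ).map (Int.castRingHom ℚ)) N x ν) := by
  have hx1 : (1 : ℤ) ≤ x := by omega
  have hx1' : (1 : ℝ) ≤ x := by exact_mod_cast hx1
  have hA1' : (1 : ℝ) ≤ A := by exact_mod_cast hA1
  have hB : (0 : ℝ) ≤ A * (2 * (x : ℝ)) ^ n := by positivity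
  have hq : |(qq a x : ℝ)| ≤ A * (2 * (x : ℝ)) ^ n := by
    refine (abs_qq_le a A hA x hx).trans ?_
    exact le_mul_of_one_le_left (by positivity) hA1'
  have h1 : ∀ μ ∈ (Finset.univ : Finset (Fin n → Fin (D + 1))),
      Bd ((((N : ℝ) + 1) * H * (2 * (x : ℝ)) ^ N) * 2 ^ (n * D)) (A * (2 * (x : ℝ)) ^ n)
        (n * (D + 2) + 1) (PowerSeries.C ((x : ℚ) ^ N) *
          aeval (zz (1 / (x : ℚ)) ((qq a x : ℚ) / x)) ((F μ).map (Int.castRingHom ℚ)) *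
            Ec (fun i => lg (a i * qi a x i)) ν μ) := by
    intro μ _
    have hH0 : 0 ≤ H := (abs_nonneg _).trans (hH μ 0)
    have h2 := Bd.mul hB (by positivity) (by positivity)
      (Bd.phi (F μ) N (hN μ) H (hH μ) x (qq a x) hx1 _ hq)
      (Bd.Ecs (fun i => a i * qi a x i) (fun i => abs_qi_le a A hA1 hA x hx i) hB ν μ)
    rwa [zero_add] at h2
  have h3 := Bd.sum _ _ _ h1
  rw [Finset.sum_const, Finset.card_univ, Fintype.card_fun, Fintype.card_fin, Fintype.card_fin,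
    nsmul_eq_mul, ← mul_assoc] at h3
  exact h3

end MP60829e.GF
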