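import Pool.Agent.Lib.MP_60829e_nt.GF.GoodDef
import Mathlib.FieldTheory.IntermediateField.Basic
import Mathlib.LinearAlgebra.FiniteDimensional.Basic
import Mathlib.Algebra.MvPolynomial.Degrees
import Mathlib.Algebra.MvPolynomial.Eval
import Mathlib.Analysis.SpecialFunctions.Log.Basic
import Mathlib.LinearAlgebra.Complex.Module
import Mathlib.Algebra.Algebra.Rat
import Mathlib.Algebra.Algebra.Operations
import Mathlib.Tactic

/-!
# Good families of complex numbers
-/

namespace MP60829e.GF
open MvPolynomial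

/-- Reindexing: an injective subfamily of a good family is good (rename the variables of `P`). -/
theorem Good.comp {d D k : ℕ} {θ : Fin k → ℂ} {ι κ : Type*} {l : ι → ℂ} (h : Good d D θ l)
    (f : κ → ι) (hf : Function.Injective f) : Good d D θ (l ∘ f) := by
  intro K hK hKd P hP h0 y
  have h1 := h K hK hKd (rename (Sum.map id f) P) ((totalDegree_rename_le _ _).trans hP)
  rw [aeval_rename] at h1
  have e1 : Sum.elim θ l ∘ Sum.map id f = Sum.elim θ (l ∘ f) := by
    ext (i | i) <;> simp
  rw [e1] at h1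
  have h2 := h1 h0 (Function.extend f y 0)
  rw [aeval_rename] at h2
  have e2 : Sum.elim θ (Function.extend f y 0) ∘ Sum.map id f = Sum.elim θ y := by
    ext (i | i)
    · simp
    · simp [hf.extend_apply]
  rwa [e2] at h2

/-- The empty family is good. -/
theorem Good.empty {d D k : ℕ} (θ : Fin k → ℂ) {ι : Type*} [IsEmpty ι] (l : ι → ℂ) :
    Good d D θ l := by
  intro K _ _ P _ h0 y
  have : y = l := Subsingleton.elim _ _
  rw [this]
  exact h0

theorem Good.mono {d d' D D' k : ℕ} (hd : d' ≤ d) (hD : D' ≤ D) {θ : Fin k → ℂ} {ι : Type*} {l : ι → ℂ}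
    (h : Good d D θ l) : Good d' D' θ l :=
  fun K hK hKd P hP => h K hK (hKd.trans hd) P (hP.trans hD)

theorem eval_aeval {σ K : Type*} [CommSemiring K] [Algebra K ℂ] (f : σ → Polynomial ℂ)
    (z : ℂ) (P : MvPolynomial σ K) :
    Polynomial.eval z (aeval f P) = aeval (fun v => Polynomial.eval z (f v)) P := by
  induction P using MvPolynomial.induction_on with
  | C a => simp [Polynomial.algebraMap_apply]
  | add p q hp hq => simp [hp, hq]
  | mul_X p n hp => simp [hp]

/-- total degree of a substitution by polynomials of degree at most one -/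
theorem totalDegree_subst {σ τ K : Type*} [CommRing K] (f : σ → MvPolynomial τ K)
    (hf : ∀ v, (f v).totalDegree ≤ 1) (P : MvPolynomial σ K) :
    (aeval f P).totalDegree ≤ P.totalDegree := by
  classical
  rw [aeval_def, eval₂_eq]
  refine totalDegree_finsetSum_le fun m hm => ?_
  refine (totalDegree_mul _ _).trans ?_
  have h1 : (algebraMap K (MvPolynomial τ K) (coeff m P)).totalDegree = 0 := totalDegree_C _
  rw [h1, zero_add]
  refine (totalDegree_finsetProd _ _).trans ?_
  refine le_trans (Finset.sum_le_sum fun i _ => ?_) (le_totalDegree hm)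
  exact (totalDegree_pow _ _).trans (by nlinarith [hf i])

/-- one variable: a relation valid for all rational values of one variable is valid for all values -/
theorem rat_all {σ K : Type*} [DecidableEq σ] [CommSemiring K] [Algebra K ℂ] (P : MvPolynomial σ K)
    (v : σ → ℂ) (e : σ) (h : ∀ c : ℚ, aeval (Function.update v e (c : ℂ)) P = 0) (z : ℂ) :
    aeval (Function.update v e z) P = 0 := by
  let f : σ → Polynomial ℂ := fun i => if i = e then Polynomial.X else Polynomial.C (v i)
  have hf : ∀ z : ℂ, (fun i => Polynomial.eval z (f i)) = Function.update v e z := by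
    intro z
    ext i
    by_cases hi : i = e
    · subst hi; simp [f]
    · simp [f, hi]
  have hq : aeval f P = (0 : Polynomial ℂ) := by
    apply Polynomial.eq_zero_of_infinite_isRoot
    refine Set.Infinite.mono ?_ (Set.infinite_range_of_injective
      (Rat.cast_injective (α := ℂ)))
    rintro _ ⟨c, rfl⟩
    change Polynomial.eval (c : ℂ) (aeval f P) = 0
    rw [eval_aeval, hf]
    exact h c
  have := congrArg (Polynomial.eval z) hq
  rwa [eval_aeval, hf, Polynomial.eval_zero] at this

/-- the substitution of a rational constant for the variable `e` -/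
noncomputable def specE {κ ι : Type*} [DecidableEq ι] (K : IntermediateField ℚ ℂ) (e : ι) (c : ℚ) :
    κ ⊕ ι → MvPolynomial (κ ⊕ {i : ι // i ≠ e}) K
  | .inl i => X (.inl i)
  | .inr j => if h : j = e then C (c : K) else X (.inr ⟨j, h⟩)

theorem aeval_specE {κ ι : Type*} [DecidableEq ι] (K : IntermediateField ℚ ℂ) (e : ι) (c : ℚ) (θ : κ → ℂ)
    (y : {i : ι // i ≠ e} → ℂ) (P : MvPolynomial (κ ⊕ ι) K) :
    aeval (Sum.elim θ y) (aeval (specE (κ := κ) K e c) P)
      = aeval (Sum.elim θ (fun i => if h : i = e then (c : ℂ) else y ⟨i, h⟩)) P := by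
  induction P using MvPolynomial.induction_on with
  | C a => simp [algebraMap_eq]
  | add p q hp hq => simp only [map_add, hp, hq]
  | mul_X p n hp =>
    simp only [map_mul, hp, aeval_X]
    congr 1
    rcases n with i | j
    · simp [specE]
    · by_cases hj : j = e
      · simp [specE, hj]
      · simp [specE, hj]

theorem totalDegree_specE {κ ι : Type*} [DecidableEq ι] (K : IntermediateField ℚ ℂ) (e : ι) (c : ℚ)
    (v : κ ⊕ ι) : (specE (κ := κ) K e c v).totalDegree ≤ 1 := by
  rcases v with i | j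
  · simp [specE]
  · by_cases hj : j = e
    · simp only [specE, hj, dif_pos]
      rw [totalDegree_C]
      exact Nat.zero_le _
    · simp [specE, hj]

/-- If every relation between the `l i`, `i ≠ e`, is an identity, then a relation valid at `l` for all values of
the variable `e` is an identity. -/
theorem Good.erase {d D k : ℕ} {θ : Fin k → ℂ} {ι : Type*} [DecidableEq ι] {l : ι → ℂ} (e : ι)
    (h : Good d D θ (fun i : {i : ι // i ≠ e} => l i)) (K : IntermediateField ℚ ℂ)
    (hK : FiniteDimensional ℚ K) (hKd : Module.finrank ℚ K ≤ d) (P : MvPolynomial (Fin k ⊕ ι) K)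
    (hP : P.totalDegree ≤ D)
    (h0 : ∀ z : ℂ, aeval (Sum.elim θ (Function.update l e z)) P = 0) (y : ι → ℂ) :
    aeval (Sum.elim θ y) P = 0 := by
  have h1 : ∀ c : ℚ, aeval (Function.update (Sum.elim θ y) (Sum.inr e) (c : ℂ)) P = 0 := by
    intro c
    have h2 := h K hK hKd (aeval (specE (κ := Fin k) K e c) P)
      ((totalDegree_subst _ (totalDegree_specE K e c) P).trans hP)
    rw [aeval_specE] at h2
    have h3 : (fun i => if h : i = e then (c : ℂ) else (fun i : {i : ι // i ≠ e} => l i) ⟨i, h⟩)
        = Function.update l e (c : ℂ) := by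
      ext i
      by_cases hi : i = e
      · subst hi; simp
      · simp [hi]
    rw [h3] at h2
    have h4 := h2 (h0 c) (fun i => y i)
    rw [aeval_specE] at h4
    have h5 : Function.update (Sum.elim θ y) (Sum.inr e) (c : ℂ)
        = Sum.elim θ (fun i => if h : i = e then (c : ℂ) else (fun i : {i : ι // i ≠ e} => y i) ⟨i, h⟩) := by
      ext (i | i)
      · simp
      · by_cases hi : i = e
        · subst hi; simp
        · simp [hi]
    rw [h5]
    exact h4
  have h6 := rat_all P (Sum.elim θ y) (Sum.inr e) h1 (y e)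
  have h7 : Function.update (Sum.elim θ y) (Sum.inr e) (y e) = Sum.elim θ y := by
    ext (i | i)
    · simp
    · by_cases hi : i = e
      · subst hi; simp
      · simp [hi]
  rwa [h7] at h6

/-! ### The relation as a polynomial in the variable `i0` -/

/-- degree at most `p` and coefficients of total degree at most `p` -/
def CD {τ K : Type*} [CommRing K] (p : ℕ) (g : Polynomial (MvPolynomial τ K)) : Prop :=
  g.natDegree ≤ p ∧ ∀ i, (g.coeff i).totalDegree ≤ p

section CD

variable {τ K : Type*} [CommRing K]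

theorem CD.one : CD 0 (1 : Polynomial (MvPolynomial τ K)) := by
  refine ⟨by simp, fun i => ?_⟩
  rw [Polynomial.coeff_one]
  split_ifs
  · simp
  · simp

theorem CD.mul {p q : ℕ} {f g : Polynomial (MvPolynomial τ K)} (hf : CD p f) (hg : CD q g) :
    CD (p + q) (f * g) := by
  refine ⟨Polynomial.natDegree_mul_le.trans (add_le_add hf.1 hg.1), fun i => ?_⟩
  rw [Polynomial.coeff_mul]
  refine totalDegree_finsetSum_le fun x _ => ?_
  exact (totalDegree_mul _ _).trans (add_le_add (hf.2 _) (hg.2 _))

theorem CD.mono {p q : ℕ} (h : p ≤ q) {f : Polynomial (MvPolynomial τ K)} (hf : CD p f) : CD q f :=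
  ⟨hf.1.trans h, fun i => (hf.2 i).trans h⟩

theorem CD.pow {f : Polynomial (MvPolynomial τ K)} (hf : CD 1 f) (n : ℕ) : CD n (f ^ n) := by
  induction n with
  | zero => simpa using CD.one
  | succ n ih =>
    rw [pow_succ]
    exact ih.mul hf

theorem CD.prod {σ : Type*} (S : Finset σ) (f : σ → Polynomial (MvPolynomial τ K)) (hf : ∀ v, CD 1 (f v))
    (m : σ → ℕ) : CD (∑ v ∈ S, m v) (∏ v ∈ S, f v ^ m v) := by
  classical
  induction S using Finset.induction_on with
  | empty => simpa using CD.one
  | insert a S ha ih =>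
    rw [Finset.prod_insert ha, Finset.sum_insert ha]
    exact ((hf a).pow _).mul ih

theorem CD.aeval {σ : Type*} (f : σ → Polynomial (MvPolynomial τ K))
    (hf : ∀ v, CD 1 (f v)) (P : MvPolynomial σ K) {D : ℕ} (hP : P.totalDegree ≤ D) :
    CD D (MvPolynomial.aeval f P) := by
  classical
  have h1 : ∀ m ∈ P.support,
      CD D (algebraMap K (Polynomial (MvPolynomial τ K)) (coeff m P) * ∏ i ∈ m.support, f i ^ m i) := by
    intro m hm
    have h2 : CD D (∏ i ∈ m.support, f i ^ m i) :=
      (CD.prod m.support f hf m).mono ((le_totalDegree hm).trans hP)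
    have h3 : algebraMap K (Polynomial (MvPolynomial τ K)) (coeff m P)
        = Polynomial.C (C (coeff m P)) := rfl
    rw [h3]
    refine ⟨(Polynomial.natDegree_C_mul_le _ _).trans h2.1, fun i => ?_⟩
    rw [Polynomial.coeff_C_mul]
    refine (totalDegree_mul _ _).trans ?_
    rw [totalDegree_C, zero_add]
    exact h2.2 i
  rw [aeval_def, eval₂_eq]
  refine ⟨Polynomial.natDegree_sum_le_of_forall_le _ _ fun m hm => (h1 m hm).1, fun i => ?_⟩
  rw [Polynomial.finsetSum_coeff]
  exact totalDegree_finsetSum_le fun m hm => (h1 m hm).2 i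

end CD

/-- the variable `i0` as the variable of a polynomial -/
noncomputable def splitE {κ ι : Type*} [DecidableEq ι] (K : IntermediateField ℚ ℂ) (i0 : ι) :
    κ ⊕ ι → Polynomial (MvPolynomial (κ ⊕ {i : ι // i ≠ i0}) K)
  | .inl i => Polynomial.C (X (.inl i))
  | .inr j => if h : j = i0 then Polynomial.X else Polynomial.C (X (.inr ⟨j, h⟩))

theorem CD_splitE {κ ι : Type*} [DecidableEq ι] (K : IntermediateField ℚ ℂ) (i0 : ι) (v : κ ⊕ ι) :
    CD 1 (splitE (κ := κ) K i0 v) := by
  have hC : ∀ w : κ ⊕ {i : ι // i ≠ i0},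
      CD 1 (Polynomial.C (X w) : Polynomial (MvPolynomial (κ ⊕ {i : ι // i ≠ i0}) K)) := by
    intro w
    refine ⟨by simp, fun i => ?_⟩
    rw [Polynomial.coeff_C]
    split_ifs
    · simp
    · simp
  rcases v with i | j
  · exact hC _
  · by_cases hj : j = i0
    · simp only [splitE, hj, dif_pos]
      refine ⟨Polynomial.natDegree_X_le, fun i => ?_⟩
      rw [Polynomial.coeff_X]
      split_ifs
      · simp
      · simp
    · simp only [splitE, hj, not_false_eq_true, dif_neg]
      exact hC _

theorem map_splitE {κ ι : Type*} [DecidableEq ι] (K : IntermediateField ℚ ℂ) (i0 : ι) (θ : κ → ℂ) (l : ι → ℂ)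
    (P : MvPolynomial (κ ⊕ ι) K) :
    (aeval (splitE (κ := κ) K i0) P).map
        (aeval (Sum.elim θ (fun i : {i : ι // i ≠ i0} => l i)) :
          MvPolynomial (κ ⊕ {i : ι // i ≠ i0}) K →ₐ[K] ℂ).toRingHom
      = aeval (Sum.elim (fun i => Polynomial.C (θ i))
          (fun j => if j = i0 then Polynomial.X else Polynomial.C (l j)) : κ ⊕ ι → Polynomial ℂ) P := by
  induction P using MvPolynomial.induction_on with
  | C a =>
    simp only [algHom_C]
    rw [Polynomial.algebraMap_apply, Polynomial.map_C, Polynomial.algebraMap_apply]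
    simp [algebraMap_eq]
  | add p q hp hq => simp only [map_add, Polynomial.map_add, hp, hq]
  | mul_X p n hp =>
    simp only [map_mul, Polynomial.map_mul, hp, aeval_X]
    congr 1
    rcases n with i | j
    · simp [splitE]
    · by_cases hj : j = i0
      · simp [splitE, hj]
      · simp [splitE, hj]

/-- MINIMALITY. If `(l_i)_(i ∈ ι)` is not good but `(l_i)_(i ≠ i0)` is, then `l_(i0)` is a root of a nonzero polynomial of degree
`e`, `1 ≤ e ≤ D`, whose coefficients are values at `(θ, (l_i)_(i ≠ i0))` of polynomials of total degree `≤ D` over a field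
`K` of degree `≤ d`.
(`q(Y) = P(θ, l', Y)`; `q ≠ 0`: otherwise `P(θ, l', c) = 0` for all rational `c`, so `P(θ, y', c) = 0` for all `y'`, as `l'` is
good, so `P(θ, y) = 0` for all `y`.) -/
theorem exists_root {d D k : ℕ} {θ : Fin k → ℂ} {ι : Type*} (l : ι → ℂ) (i0 : ι)
    (h : ¬ Good d D θ l) (h' : Good d D θ (fun i : {i // i ≠ i0} => l i)) :
    ∃ (K : IntermediateField ℚ ℂ) (e : ℕ) (Q : ℕ → MvPolynomial (Fin k ⊕ {i // i ≠ i0}) K),
      FiniteDimensional ℚ K ∧ Module.finrank ℚ K ≤ d ∧ 1 ≤ e ∧ e ≤ D ∧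
      (∀ j, (Q j).totalDegree ≤ D) ∧
      aeval (Sum.elim θ (fun i : {i // i ≠ i0} => l i)) (Q e) ≠ 0 ∧
      ∑ j ∈ Finset.range (e + 1), aeval (Sum.elim θ (fun i : {i // i ≠ i0} => l i)) (Q j) * l i0 ^ j = 0 := by
  classical
  unfold Good at h
  push Not at h
  obtain ⟨K, hK, hKd, P, hP, h0, y, hy⟩ := h
  let f : Fin k ⊕ ι → Polynomial ℂ :=
    Sum.elim (fun i => Polynomial.C (θ i)) (fun j => if j = i0 then Polynomial.X else Polynomial.C (l j))
  have hf : ∀ z : ℂ, (fun v => Polynomial.eval z (f v)) = Sum.elim θ (Function.update l i0 z) := by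
    intro z
    ext (i | i)
    · simp [f]
    · by_cases hi : i = i0
      · subst hi; simp [f]
      · simp [f, hi]
  set q := MvPolynomial.aeval f P with hqdef
  set Φ := aeval (splitE (κ := Fin k) K i0) P with hΦ
  have hCD : CD D Φ := CD.aeval _ (CD_splitE K i0) P hP
  have hmap : Φ.map (aeval (Sum.elim θ (fun i : {i : ι // i ≠ i0} => l i)) :
      MvPolynomial (Fin k ⊕ {i : ι // i ≠ i0}) K →ₐ[K] ℂ).toRingHom = q := map_splitE K i0 θ l P
  have hcoeff : ∀ j, aeval (Sum.elim θ (fun i : {i : ι // i ≠ i0} => l i)) (Φ.coeff j) = q.coeff j := by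
    intro j
    rw [← hmap, Polynomial.coeff_map]
    rfl
  have hq0 : q ≠ 0 := by
    intro hzero
    apply hy
    refine Good.erase i0 h' K hK hKd P hP (fun z => ?_) y
    rw [← hf z, ← eval_aeval, ← hqdef, hzero, Polynomial.eval_zero]
  have hroot : q.eval (l i0) = 0 := by
    rw [hqdef, eval_aeval, hf, Function.update_eq_self]
    exact h0
  have he1 : 1 ≤ q.natDegree := by
    by_contra hcon
    have hz : q.natDegree = 0 := by omega
    rw [Polynomial.eq_C_of_natDegree_eq_zero hz] at hroot hq0
    simp only [Polynomial.eval_C] at hroot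
    exact hq0 (by rw [hroot, Polynomial.C_0])
  refine ⟨K, q.natDegree, fun j => Φ.coeff j, hK, hKd, he1, ?_, hCD.2, ?_, ?_⟩
  · rw [← hmap]
    exact Polynomial.natDegree_map_le.trans hCD.1
  · rw [hcoeff]
    exact Polynomial.leadingCoeff_ne_zero.mpr hq0
  · simp only [hcoeff]
    rw [← Polynomial.eval_eq_sum_range]
    exact hroot

/-- The numbers `(l', c)` are good relative to `θ` if `l'` is and `c` is good relative to `(θ, l')`. -/
theorem good_snoc {d D k r : ℕ} {θ : Fin k → ℂ} (l : Fin r → ℂ) (c : ℂ) (h : Good d D θ l)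
    (h1 : Good d D (Fin.append θ l) (fun _ : Unit => c)) :
    Good d D θ (Fin.snoc l c : Fin (r + 1) → ℂ) := by
  intro K hK hKd P hP h0 y
  have hl : (fun i : {i : Fin (r + 1) // i ≠ Fin.last r} => (Fin.snoc l c : Fin (r + 1) → ℂ) i)
      = l ∘ (fun i : {i : Fin (r + 1) // i ≠ Fin.last r} => i.1.castPred i.2) := by
    funext i
    obtain ⟨i, hi⟩ := i
    simp only [Function.comp]
    conv_lhs => rw [← Fin.castSucc_castPred i hi]
    rw [Fin.snoc_castSucc]
  have h' : Good d D θ (fun i : {i : Fin (r + 1) // i ≠ Fin.last r} => (Fin.snoc l c : Fin (r + 1) → ℂ) i) := by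
    rw [hl]
    refine h.comp _ ?_
    intro i j hij
    apply Subtype.ext
    have := congrArg Fin.castSucc hij
    simpa using this
  refine Good.erase (Fin.last r) h' K hK hKd P hP (fun z => ?_) y
  let g : Fin k ⊕ Fin (r + 1) → Fin (k + r) ⊕ Unit :=
    Sum.elim (fun i => Sum.inl (Fin.castAdd r i))
      (fun j => Fin.lastCases (Sum.inr ()) (fun j => Sum.inl (Fin.natAdd k j)) j)
  have hg : ∀ z : ℂ, Sum.elim (Fin.append θ l) (fun _ : Unit => z) ∘ g
      = Sum.elim θ (Fin.snoc l z : Fin (r + 1) → ℂ) := by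
    intro z
    ext (i | i)
    · simp [g]
    · refine Fin.lastCases ?_ (fun i => ?_) i
      · simp [g]
      · simp [g]
  have h2 := h1 K hK hKd (rename g P) ((totalDegree_rename_le _ _).trans hP)
  rw [aeval_rename, hg] at h2
  have h3 := h2 h0 (fun _ => z)
  rw [aeval_rename, hg] at h3
  have h4 : Function.update (Fin.snoc l c : Fin (r + 1) → ℂ) (Fin.last r) z
      = (Fin.snoc l z : Fin (r + 1) → ℂ) := by
    rw [Fin.update_snoc_last]
  rw [h4]
  exact h3

/-- A number `c` is bad relative to `θ' = (θ, l')` as a family with one element, if `(l', c)` is bad and `l'` is good. -/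
theorem bad_snoc {d D k r : ℕ} {θ : Fin k → ℂ} (l : Fin r → ℂ) (c : ℂ) (h : Good d D θ l)
    (h' : ¬ Good d D θ (Fin.snoc l c : Fin (r + 1) → ℂ)) :
    ¬ Good d D (Fin.append θ l) (fun _ : Unit => c) :=
  fun h1 => h' (good_snoc l c h h1)

/-- the substitution `X_i + m_i Θ_0` -/
noncomputable def brS (K : IntermediateField ℚ ℂ) {k : ℕ} {ι : Type*} (m : ι → ℤ) :
    Fin k ⊕ ι → MvPolynomial (Fin (k + 1) ⊕ ι) K
  | .inl i => X (Sum.inl i.castSucc)
  | .inr i => X (Sum.inr i) + C ((m i : ℤ) : K) * X (Sum.inl (Fin.last k))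

theorem totalDegree_brS (K : IntermediateField ℚ ℂ) {k : ℕ} {ι : Type*} (m : ι → ℤ) (v : Fin k ⊕ ι) :
    (brS K m v).totalDegree ≤ 1 := by
  rcases v with i | i
  · simp [brS]
  · simp only [brS]
    refine (totalDegree_add _ _).trans (max_le ?_ ?_)
    · simp
    · refine (totalDegree_mul _ _).trans ?_
      rw [totalDegree_C, zero_add]
      simp

theorem aeval_brS (K : IntermediateField ℚ ℂ) {k : ℕ} {ι : Type*} (m : ι → ℤ) (θ : Fin k → ℂ) (τ : ℂ)
    (w : ι → ℂ) (P : MvPolynomial (Fin k ⊕ ι) K) :
    aeval (Sum.elim (Fin.snoc θ τ : Fin (k + 1) → ℂ) w) (aeval (brS K m) P)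
      = aeval (Sum.elim θ (fun i => w i + m i * τ)) P := by
  induction P using MvPolynomial.induction_on with
  | C a => simp [algebraMap_eq]
  | add p q hp hq => simp only [map_add, hp, hq]
  | mul_X p n hp =>
    simp only [map_mul, hp, aeval_X]
    congr 1
    rcases n with i | i
    · simp [brS]
    · simp [brS]

/-- Adding `2πi`: if `l_i - l'_i ∈ 2πi ℤ` and `l'` is good relative to `(θ, 2πi)`, then `l` is good relative to `θ`
(substitute `X_i + m_i Θ_0`; the total degree does not increase). -/
theorem Good.branch {d D k : ℕ} {θ : Fin k → ℂ} {ι : Type*} (l l' : ι → ℂ) (m : ι → ℤ) (τ : ℂ)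
    (hl : ∀ i, l i = l' i + m i * τ) (h : Good d D (Fin.snoc θ τ : Fin (k + 1) → ℂ) l') :
    Good d D θ l := by
  intro K hK hKd P hP h0 y
  have h1 := h K hK hKd (aeval (brS K m) P) ((totalDegree_subst _ (totalDegree_brS K m) P).trans hP)
  have e1 : (fun i => l' i + m i * τ) = l := by
    funext i
    exact (hl i).symm
  rw [aeval_brS, e1] at h1
  have h2 := h1 h0 (fun i => y i - m i * τ)
  rw [aeval_brS] at h2
  have e2 : (fun i => y i - m i * τ + m i * τ) = y := by
    funext i
    ring
  rwa [e2] at h2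

end MP60829e.GF
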