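import Mathlib.FieldTheory.IntermediateField.Basic
import Mathlib.LinearAlgebra.FiniteDimensional.Basic
import Mathlib.Algebra.MvPolynomial.Degrees
import Mathlib.Algebra.MvPolynomial.Eval
import Mathlib.Analysis.SpecialFunctions.Complex.Log
import Mathlib.LinearAlgebra.Complex.Module
import Mathlib.Algebra.Algebra.Rat

/-!
# Good families of complex numbers: the definitions
-/

namespace MP60829e.GF
open MvPolynomial

/-- `l` is GOOD relative to `θ`: every relation `P(θ, l) = 0`, `P` a polynomial of total degree `≤ D` over a field `K ⊂ ℂ` with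
`[K : ℚ] ≤ d`, holds identically in `l`: `P(θ, y) = 0` for all `y`. -/
def Good (d D : ℕ) {k : ℕ} (θ : Fin k → ℂ) {ι : Type*} (l : ι → ℂ) : Prop :=
  ∀ (K : IntermediateField ℚ ℂ), FiniteDimensional ℚ K → Module.finrank ℚ K ≤ d →
    ∀ P : MvPolynomial (Fin k ⊕ ι) K, P.totalDegree ≤ D →
      aeval (Sum.elim θ l) P = 0 → ∀ y : ι → ℂ, aeval (Sum.elim θ y) P = 0

/-- All choices of logarithms of the `b_i` are good. -/
def GoodL (d D : ℕ) {k : ℕ} (θ : Fin k → ℂ) {ι : Type*} (b : ι → ℕ) : Prop :=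
  ∀ l : ι → ℂ, (∀ i, Complex.exp (l i) = b i) → Good d D θ l

end MP60829e.GF
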