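import Pool.Agent.Lib.MP_60829e_nt.GF.Asym

/-!
# The rate in the proof of THEOREM G is smaller than one
-/

namespace MP60829e.GF

/-- The exponent of Theorem G. -/
def KG (n D : ℕ) : ℕ := 1000 * n ^ 3 * (D + 1) ^ (5 * n + 1)

/-- The number whose being `< 1` makes the argument work (see `rate_lt_one`). -/
noncomputable def rate (n D A : ℕ) (x : ℤ) : ℝ :=
  let m := (D + 1) ^ n
  let E := m * n + 3
  let L : ℝ := 3 ^ (6 * (m * E) * (n * D))
  let H : ℝ := (L * (A : ℝ) ^ (m * E)) ^ (m * E)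
  (L * H * (2 * (x : ℝ)) ^ E * (A * (2 * (x : ℝ)) ^ n)) ^ (m - 2)
    * (L * (x : ℝ) ^ E * (4 * A / x) ^ (m * E - 1) * H * (2 * (x : ℝ)) ^ n)

/-- The size of the exponent of the constants. -/
theorem Rate_exp {m n D : ℕ} (hm : 2 ≤ m) (hn : 1 ≤ n) (hD : 1 ≤ D) :
    (6 * (m * (m * n + 3)) * (n * D) +
        (6 * (m * (m * n + 3)) * (n * D) + m * (m * n + 3)) * (m * (m * n + 3)) +
        (m * n + 3) + 1 + n) * (m - 2) +
      (6 * (m * (m * n + 3)) * (n * D) + (m * (m * n + 3) - 1) +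
        (6 * (m * (m * n + 3)) * (n * D) + m * (m * n + 3)) * (m * (m * n + 3)) + n) ≤
      1000 * n ^ 3 * (m ^ 5 * (D + 1)) := by
  have h1 : m * n + 3 ≤ 3 * (m * n) := by nlinarith
  have h2 : m * (m * n + 3) ≤ 3 * (m ^ 2 * n) := by
    calc m * (m * n + 3) ≤ m * (3 * (m * n)) := Nat.mul_le_mul_left _ h1
      _ = 3 * (m ^ 2 * n) := by ring
  have h3 : 6 * (m * (m * n + 3)) * (n * D) ≤ 18 * (m ^ 2 * n ^ 2 * D) := by
    calc 6 * (m * (m * n + 3)) * (n * D) ≤ 6 * (3 * (m ^ 2 * n)) * (n * D) := by gcongr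
      _ = 18 * (m ^ 2 * n ^ 2 * D) := by ring
  have h4 : m ^ 2 * n ≤ m ^ 2 * n ^ 2 * D := by
    calc m ^ 2 * n = m ^ 2 * n * 1 := (mul_one _).symm
      _ ≤ m ^ 2 * n * (n * D) := Nat.mul_le_mul_left _ (Nat.mul_pos hn hD)
      _ = m ^ 2 * n ^ 2 * D := by ring
  have h5 : (6 * (m * (m * n + 3)) * (n * D) + m * (m * n + 3)) * (m * (m * n + 3)) ≤
      63 * (m ^ 4 * n ^ 3 * D) := by
    calc (6 * (m * (m * n + 3)) * (n * D) + m * (m * n + 3)) * (m * (m * n + 3))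
        ≤ (21 * (m ^ 2 * n ^ 2 * D)) * (3 * (m ^ 2 * n)) := by
          refine Nat.mul_le_mul ?_ h2
          omega
      _ = 63 * (m ^ 4 * n ^ 3 * D) := by ring
  have hm1 : 1 ≤ m := by omega
  have h6 : m ^ 2 * n ^ 2 * D ≤ m ^ 4 * n ^ 3 * D := by
    gcongr <;> omega
  have h7 : m * n ≤ m ^ 4 * n ^ 3 * D := by
    calc m * n = m ^ 1 * n ^ 1 * 1 := by ring
      _ ≤ m ^ 4 * n ^ 3 * D := by gcongr <;> omega
  have h8 : n ≤ m ^ 4 * n ^ 3 * D := by
    calc n = 1 * n := (one_mul _).symm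
      _ ≤ m * n := Nat.mul_le_mul_right _ hm1
      _ ≤ _ := h7
  have h9 : m ^ 2 * n ≤ m * (m ^ 4 * n ^ 3 * D) := by
    calc m ^ 2 * n = m * (m * n) := by ring
      _ ≤ _ := Nat.mul_le_mul_left _ h7
  set Q := m ^ 4 * n ^ 3 * D with hQ
  obtain ⟨k, rfl⟩ : ∃ k, m = k + 2 := ⟨m - 2, by omega⟩
  have hsub : k + 2 - 2 = k := by omega
  rw [hsub]
  have h10 : (6 * ((k + 2) * ((k + 2) * n + 3)) * (n * D) +
        (6 * ((k + 2) * ((k + 2) * n + 3)) * (n * D) + (k + 2) * ((k + 2) * n + 3)) *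
          ((k + 2) * ((k + 2) * n + 3)) + ((k + 2) * n + 3) + 1 + n) ≤ 86 * Q := by
    omega
  have h11 : (6 * ((k + 2) * ((k + 2) * n + 3)) * (n * D) + ((k + 2) * ((k + 2) * n + 3) - 1) +
        (6 * ((k + 2) * ((k + 2) * n + 3)) * (n * D) + (k + 2) * ((k + 2) * n + 3)) *
          ((k + 2) * ((k + 2) * n + 3)) + n) ≤ 86 * Q + 3 * ((k + 2) * Q) := by
    omega
  calc _ ≤ 86 * Q * k + (86 * Q + 3 * ((k + 2) * Q)) :=
        Nat.add_le_add (Nat.mul_le_mul_right _ h10) h11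
    _ ≤ 1000 * ((k + 2) * Q) := by nlinarith
    _ = 1000 * n ^ 3 * ((k + 2) ^ 5 * D) := by rw [hQ]; ring
    _ ≤ 1000 * n ^ 3 * ((k + 2) ^ 5 * (D + 1)) := by gcongr; omega

/-- The exponent of `x` is `(E + n)(m-2) + E - (mE - 1) + n = -(n+2)`, the constants are at most `(4A)^K`. -/
theorem rate_lt_one (n D A : ℕ) (hn : 1 ≤ n) (hD : 1 ≤ D) (hA : 1 ≤ A) (x : ℤ)
    (hx : ((4 * A : ℕ) : ℤ) ^ KG n D ≤ x) : rate n D A x < 1 := by
  have hm : 2 ≤ (D + 1) ^ n := by
    calc 2 ≤ D + 1 := by omega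
      _ = (D + 1) ^ 1 := (pow_one _).symm
      _ ≤ (D + 1) ^ n := Nat.pow_le_pow_right (by omega) hn
  have hK : KG n D = 1000 * n ^ 3 * (((D + 1) ^ n) ^ 5 * (D + 1)) := by
    rw [KG, ← pow_mul, ← pow_succ, mul_comm n 5]
  simp only [rate]
  generalize hmm : (D + 1) ^ n = m at *
  have hK1 := Rate_exp hm hn hD
  rw [← hK] at hK1
  set E := m * n + 3 with hE
  set l := 6 * (m * E) * (n * D) with hl
  set h := (l + m * E) * (m * E) with hh
  set B : ℝ := 4 * (A : ℝ) with hB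
  set X : ℝ := (x : ℝ) with hX
  have hA1 : (1 : ℝ) ≤ A := by exact_mod_cast hA
  have hB4 : 4 ≤ B := by rw [hB]; linarith
  have hxB : B ^ KG n D ≤ X := by
    rw [hB, hX]
    have h1 : (((((4 * A : ℕ) : ℤ) ^ KG n D : ℤ)) : ℝ) ≤ (x : ℝ) := by exact_mod_cast hx
    push_cast at h1
    exact h1
  have hKpos : KG n D ≠ 0 := by
    rw [KG]
    positivity
  have hX4 : 4 ≤ X := by
    calc (4 : ℝ) ≤ B := hB4
      _ ≤ B ^ KG n D := le_self_pow₀ (by linarith) hKpos
      _ ≤ X := hxB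
  have hB0 : 0 < B := by linarith
  have hX0 : 0 < X := by linarith
  have hL : (3 : ℝ) ^ l ≤ B ^ l := pow_le_pow_left₀ (by norm_num) (by linarith) _
  have hAB : (A : ℝ) ≤ B := by rw [hB]; linarith
  have hH : ((3 : ℝ) ^ l * (A : ℝ) ^ (m * E)) ^ (m * E) ≤ B ^ h := by
    rw [hh, pow_mul B (l + m * E) (m * E), pow_add B l (m * E)]
    refine pow_le_pow_left₀ (by positivity) ?_ _
    exact mul_le_mul hL (pow_le_pow_left₀ (by positivity) hAB _) (by positivity) (by positivity)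
  have h2X : ∀ k : ℕ, (2 * X) ^ k ≤ B ^ k * X ^ k := by
    intro k
    rw [← mul_pow]
    exact pow_le_pow_left₀ (by positivity)
      (mul_le_mul_of_nonneg_right (by linarith) hX0.le) _
  have hF1 : (3 : ℝ) ^ l * ((3 : ℝ) ^ l * (A : ℝ) ^ (m * E)) ^ (m * E) * (2 * X) ^ E *
      (A * (2 * X) ^ n) ≤ B ^ (l + h + E + 1 + n) * X ^ (E + n) := by
    calc _ ≤ B ^ l * B ^ h * (B ^ E * X ^ E) * (B * (B ^ n * X ^ n)) := by
          refine mul_le_mul (mul_le_mul (mul_le_mul hL hH (by positivity) (by positivity))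
            (h2X E) (by positivity) (by positivity)) ?_ (by positivity) (by positivity)
          exact mul_le_mul hAB (h2X n) (by positivity) (by positivity)
      _ = B ^ (l + h + E + 1 + n) * X ^ (E + n) := by
          rw [pow_add, pow_add, pow_add, pow_add, pow_add, pow_one]
          ring
  have hF2 : (3 : ℝ) ^ l * X ^ E * (B / X) ^ (m * E - 1) *
      ((3 : ℝ) ^ l * (A : ℝ) ^ (m * E)) ^ (m * E) * (2 * X) ^ n ≤
      B ^ (l + (m * E - 1) + h + n) * X ^ (E + n) / X ^ (m * E - 1) := by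
    calc _ ≤ B ^ l * X ^ E * (B / X) ^ (m * E - 1) * B ^ h * (B ^ n * X ^ n) := by
          refine mul_le_mul (mul_le_mul ?_ hH (by positivity) (by positivity)) (h2X n)
            (by positivity) (by positivity)
          exact mul_le_mul_of_nonneg_right (mul_le_mul_of_nonneg_right hL (by positivity))
            (by positivity)
      _ = B ^ (l + (m * E - 1) + h + n) * X ^ (E + n) / X ^ (m * E - 1) := by
          rw [div_pow, pow_add, pow_add, pow_add, pow_add]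
          ring
  have hF3 : (B ^ (l + h + E + 1 + n) * X ^ (E + n)) ^ (m - 2) *
      (B ^ (l + (m * E - 1) + h + n) * X ^ (E + n) / X ^ (m * E - 1)) =
      B ^ ((l + h + E + 1 + n) * (m - 2) + (l + (m * E - 1) + h + n)) / X ^ (n + 2) := by
    have e1 : (E + n) * (m - 2) + (E + n) + (n + 2) = m * E - 1 := by
      obtain ⟨k, hk⟩ : ∃ k, m = k + 2 := ⟨m - 2, by omega⟩
      have e2 : m - 2 = k := by omega
      rw [e2, hE, hk]
      have e3 : (k + 2) * ((k + 2) * n + 3) =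
          (((k + 2) * n + 3 + n) * k + ((k + 2) * n + 3 + n) + (n + 2)) + 1 := by ring
      rw [e3]
      rfl
    rw [mul_pow, ← pow_mul, ← pow_mul, pow_add B ((l + h + E + 1 + n) * (m - 2)), ← e1,
      pow_add X ((E + n) * (m - 2) + (E + n)), pow_add X ((E + n) * (m - 2)) (E + n)]
    field_simp
  calc _ ≤ (B ^ (l + h + E + 1 + n) * X ^ (E + n)) ^ (m - 2) *
      (B ^ (l + (m * E - 1) + h + n) * X ^ (E + n) / X ^ (m * E - 1)) := by
        refine mul_le_mul (pow_le_pow_left₀ (by positivity) hF1 _) hF2 (by positivity)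
          (by positivity)
    _ = B ^ ((l + h + E + 1 + n) * (m - 2) + (l + (m * E - 1) + h + n)) / X ^ (n + 2) := hF3
    _ ≤ B ^ KG n D / X ^ (n + 2) :=
        div_le_div_of_nonneg_right (pow_le_pow_right₀ (by linarith) hK1) (by positivity)
    _ ≤ X / X ^ (n + 2) := div_le_div_of_nonneg_right hxB (by positivity)
    _ < 1 := by
        rw [div_lt_one (by positivity)]
        calc X = X ^ 1 := (pow_one X).symm
          _ < X ^ (n + 2) := pow_lt_pow_right₀ (by linarith) (by omega)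

end MP60829e.GF
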