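import Pool.Agent.Lib.MP_60829e_nt.GF.Lg
import Mathlib.NumberTheory.SiegelsLemma

/-!
# The auxiliary function (G1): Siegel's lemma
-/

namespace MP60829e.GF
open Polynomial

/-- `σ = m N - g`, `m = (D+1)^n`, `N = E g`. -/
def sg (n D E g : ℕ) : ℕ := (D + 1) ^ n * (E * g) - g

/-- The bound for the coefficients of the auxiliary polynomials. -/
noncomputable def Hs (n D A E g : ℕ) : ℝ :=
  (((D + 1) ^ n : ℕ) * (E * g + 1) * (Nat.lcmUpto (sg n D E g) : ℝ) ^ (n * D)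
    * (A : ℝ) ^ sg n D E g * ((sg n D E g : ℝ) + 1) ^ (n * (D + 2))) ^ ((D + 1) ^ n * E)

/-- Denominators and size of the products of logarithms. -/
private theorem prod_lg {n D : ℕ} (a : Fin n → ℤ) (A : ℕ) (hA : ∀ i, |a i| ≤ A) (s : ℕ)
    (μ : Fin n → Fin (D + 1)) :
    Den (Nat.lcmUpto s) (n * D) s (∏ i, lg (a i) ^ (μ i : ℕ)) ∧
      Bd 1 A (n * (D + 1)) (∏ i, lg (a i) ^ (μ i : ℕ)) := by
  have hle : ∀ i, (μ i : ℕ) ≤ D := fun i => Nat.lt_succ_iff.1 (μ i).2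
  constructor
  · refine Den.mono (Den.prod Finset.univ (fun i => 1 * (μ i : ℕ)) _
      fun i _ => (Den.lgs le_rfl (a i)).pow (μ i : ℕ)) ?_ le_rfl
    calc ∑ i, 1 * (μ i : ℕ) ≤ ∑ _i : Fin n, D := Finset.sum_le_sum fun i _ => by
          rw [one_mul]
          exact hle i
      _ = n * D := by simp
  · have hA0 : (0 : ℝ) ≤ A := Nat.cast_nonneg A
    have h := Bd.prod (B := A) (e := D) hA0 Finset.univ (fun _ : Fin n => (1 : ℝ))
      (fun _ _ => zero_le_one) (fun i => lg (a i) ^ (μ i : ℕ)) (fun i _ =>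
        Bd.mono hA0 le_rfl zero_le_one le_rfl (hle i)
          (Bd.pow hA0 (Bd.lgs (a i) (by exact_mod_cast hA i)) (μ i : ℕ)))
    rw [Finset.prod_const_one, Finset.card_univ, Fintype.card_fin] at h
    exact h

attribute [local instance] Matrix.seminormedAddCommGroup

/-- G1. Unknowns: the `m (N+1)` coefficients `F_(μ,k)`; equations: `L^(nD)` times the coefficient of index `j < σ` of
`∑ F_μ ∏ lg(a_i)^(μ_i)`; entries `L^(nD) coeff (j-k) (∏ lg^(μ_i))` integral (`Den.Ec` with `ν = 0` or `Den.prod`) and bounded by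
`L^(nD) A^σ (σ+1)^(n(D+2))` (`Bd`); `Int.Matrix.exists_ne_zero_int_vec_norm_le` with exponent
`σ/(m(N+1) - σ) = σ/(m+g) ≤ m E`, the base being `≥ 1`. -/
theorem siegel {n D : ℕ} (hn : 1 ≤ n) (hD : 1 ≤ D) (a : Fin n → ℤ) (A : ℕ) (hA1 : 1 ≤ A)
    (hA : ∀ i, |a i| ≤ A) (E g : ℕ) (hg : 1 ≤ g) (hE : 2 ≤ E) :
    ∃ F : (Fin n → Fin (D + 1)) → ℤ[X], F ≠ 0 ∧ (∀ μ, (F μ).natDegree ≤ E * g) ∧
      (∀ μ k, |(((F μ).coeff k : ℤ) : ℝ)| ≤ Hs n D A E g) ∧
      (PowerSeries.X : PowerSeries ℚ) ^ sg n D E g ∣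
        RR a (fun μ => (F μ).map (Int.castRingHom ℚ)) := by
  classical
  set s := sg n D E g with hs
  set L := Nat.lcmUpto s with hL
  set m := (D + 1) ^ n with hm
  have hL1 : 1 ≤ L := Nat.lcmUpto_pos s
  have hm1 : 1 ≤ m := Nat.one_le_pow _ _ (Nat.succ_pos _)
  have h2g : 1 * (2 * g) ≤ m * (E * g) := Nat.mul_le_mul hm1 (Nat.mul_le_mul_right g hE)
  have hsle : s + g = m * (E * g) := by
    rw [hs, sg, ← hm]
    apply Nat.sub_add_cancel
    omega
  have hs0 : 0 < s := by omega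
  have hch : ∀ (j : Fin s) (μ : Fin n → Fin (D + 1)) (k : Fin (E * g + 1)),
      ∃ z : ℤ, (z : ℚ) = (L : ℚ) ^ (n * D) *
        (if (k : ℕ) ≤ j then PowerSeries.coeff ((j : ℕ) - k) (∏ i, lg (a i) ^ (μ i : ℕ)) else 0) := by
    intro j μ k
    split_ifs with h
    · obtain ⟨z, hz⟩ := (prod_lg a A hA s μ).1 ((j : ℕ) - k) (by omega)
      exact ⟨z, hz.symm⟩
    · exact ⟨0, by simp⟩
  choose z hz using hch
  let MA : Matrix (Fin s) ((Fin n → Fin (D + 1)) × Fin (E * g + 1)) ℤ :=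
    Matrix.of fun j p => z j p.1 p.2
  have hcb : Fintype.card ((Fin n → Fin (D + 1)) × Fin (E * g + 1)) = m * (E * g + 1) := by
    simp [hm]
  have hlt : Fintype.card (Fin s) <
      Fintype.card ((Fin n → Fin (D + 1)) × Fin (E * g + 1)) := by
    rw [hcb, Fintype.card_fin]
    nlinarith
  obtain ⟨t, ht0, hMt, htn⟩ := Int.Matrix.exists_ne_zero_int_vec_norm_le MA hlt (by
    rw [Fintype.card_fin]
    exact hs0)
  -- the bound
  set Q : ℝ := (L : ℝ) ^ (n * D) * (A : ℝ) ^ s * ((s : ℝ) + 1) ^ (n * (D + 2)) with hQ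
  have hL1' : (1 : ℝ) ≤ L := by exact_mod_cast hL1
  have hA1' : (1 : ℝ) ≤ A := by exact_mod_cast hA1
  have hs1' : (1 : ℝ) ≤ (s : ℝ) + 1 := by
    have : (0 : ℝ) ≤ s := Nat.cast_nonneg s
    linarith
  have hQ1 : 1 ≤ Q := by
    rw [hQ]
    exact one_le_mul_of_one_le_of_one_le (one_le_mul_of_one_le_of_one_le (one_le_pow₀ hL1')
      (one_le_pow₀ hA1')) (one_le_pow₀ hs1')
  have hMA : ‖MA‖ ≤ Q := by
    rw [Matrix.norm_le_iff (zero_le_one.trans hQ1)]
    intro j p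
    have h1 := hz j p.1 p.2
    have h2 : ‖MA j p‖ = |((z j p.1 p.2 : ℤ) : ℝ)| := by
      rw [Int.norm_eq_abs]
      rfl
    have h3 : ((z j p.1 p.2 : ℤ) : ℝ) = (((z j p.1 p.2 : ℤ) : ℚ) : ℝ) := by norm_cast
    rw [h2, h3, h1]
    split_ifs with hk
    · have h4 := (prod_lg a A hA s p.1).2 ((j : ℕ) - p.2)
      push_cast
      rw [abs_mul, abs_of_nonneg (pow_nonneg (Nat.cast_nonneg _) _), hQ, mul_assoc]
      refine mul_le_mul_of_nonneg_left (h4.trans ?_) (pow_nonneg (Nat.cast_nonneg _) _)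
      rw [one_mul]
      have h5 : (((j : ℕ) - (p.2 : ℕ) : ℕ) : ℝ) ≤ s := by
        have : (j : ℕ) - (p.2 : ℕ) ≤ s := by omega
        exact_mod_cast this
      refine mul_le_mul (pow_le_pow_right₀ hA1' (by omega)) ?_ (by positivity) (by positivity)
      calc ((((j : ℕ) - (p.2 : ℕ) : ℕ) : ℝ) + 1) ^ (n * (D + 1))
          ≤ ((s : ℝ) + 1) ^ (n * (D + 1)) := by gcongr
        _ ≤ ((s : ℝ) + 1) ^ (n * (D + 2)) :=
          pow_le_pow_right₀ hs1' (Nat.mul_le_mul_left n (by omega))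
    · rw [mul_zero, Rat.cast_zero, abs_zero]
      exact zero_le_one.trans hQ1
  have hbound : ‖t‖ ≤ Hs n D A E g := by
    refine htn.trans ?_
    rw [Fintype.card_fin, hcb]
    have hbase : ((m * (E * g + 1) : ℕ) : ℝ) * max 1 ‖MA‖ ≤ ((m * (E * g + 1) : ℕ) : ℝ) * Q :=
      mul_le_mul_of_nonneg_left (max_le hQ1 hMA) (Nat.cast_nonneg _)
    have hc1 : (1 : ℝ) ≤ ((m * (E * g + 1) : ℕ) : ℝ) := by
      have : 1 ≤ m * (E * g + 1) := Nat.mul_pos hm1 (Nat.succ_pos _)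
      exact_mod_cast this
    have hb1 : 1 ≤ ((m * (E * g + 1) : ℕ) : ℝ) * Q := one_le_mul_of_one_le_of_one_le hc1 hQ1
    have hden : ((m * (E * g + 1) : ℕ) : ℝ) - (s : ℝ) = m + g := by
      have h1 : m * (E * g + 1) = s + g + m := by rw [hsle]; ring
      rw [h1]
      push_cast
      ring
    have hg' : (1 : ℝ) ≤ g := by exact_mod_cast hg
    have hm' : (1 : ℝ) ≤ m := by exact_mod_cast hm1
    have hexp : (s : ℝ) / (((m * (E * g + 1) : ℕ) : ℝ) - (s : ℝ)) ≤ ((m * E : ℕ) : ℝ) := by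
      rw [hden, div_le_iff₀ (by linarith)]
      have h1 : ((s : ℝ) + g) = m * (E * g) := by exact_mod_cast hsle
      push_cast
      have h2 : (0 : ℝ) ≤ m * E * m := by positivity
      nlinarith
    have hpos : (0 : ℝ) ≤ (s : ℝ) / (((m * (E * g + 1) : ℕ) : ℝ) - (s : ℝ)) := by
      rw [hden]
      positivity
    calc (((m * (E * g + 1) : ℕ) : ℝ) * max 1 ‖MA‖) ^
          ((s : ℝ) / (((m * (E * g + 1) : ℕ) : ℝ) - (s : ℝ)))
        ≤ (((m * (E * g + 1) : ℕ) : ℝ) * Q) ^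
          ((s : ℝ) / (((m * (E * g + 1) : ℕ) : ℝ) - (s : ℝ))) :=
          Real.rpow_le_rpow (by positivity) hbase hpos
      _ ≤ (((m * (E * g + 1) : ℕ) : ℝ) * Q) ^ (((m * E : ℕ) : ℝ)) :=
          Real.rpow_le_rpow_of_exponent_le hb1 hexp
      _ = Hs n D A E g := by
          rw [Real.rpow_natCast, Hs, ← hs, ← hL, ← hm, hQ]
          congr 1
          push_cast
          ring
  -- the polynomials
  refine ⟨fun μ => ∑ k : Fin (E * g + 1), C (t (μ, k)) * X ^ (k : ℕ), ?_, ?_, ?_, ?_⟩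
  · intro h
    apply ht0
    funext p
    have h1 := congrArg (fun F : (Fin n → Fin (D + 1)) → ℤ[X] => (F p.1).coeff (p.2 : ℕ)) h
    simp only [Pi.zero_apply, coeff_zero, finsetSum_coeff, coeff_C_mul, coeff_X_pow] at h1
    rw [Finset.sum_eq_single p.2] at h1
    · simpa using h1
    · intro k _ hk
      rw [if_neg (fun h => hk (Fin.ext h.symm)), mul_zero]
    · intro h
      exact absurd (Finset.mem_univ _) h
  · intro μ
    refine natDegree_sum_le_of_forall_le _ _ fun k _ => ?_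
    exact (natDegree_C_mul_X_pow_le _ _).trans (Nat.lt_succ_iff.1 k.2)
  · intro μ k
    have h0 : (0 : ℝ) ≤ Hs n D A E g := (norm_nonneg t).trans hbound
    simp only [finsetSum_coeff, coeff_C_mul, coeff_X_pow]
    by_cases hk : k < E * g + 1
    · rw [Finset.sum_eq_single ⟨k, hk⟩]
      · rw [if_pos rfl, mul_one]
        refine le_trans ?_ hbound
        have h1 := norm_le_pi_norm t (μ, ⟨k, hk⟩)
        rwa [Int.norm_eq_abs] at h1
      · intro k' _ hk'
        rw [if_neg (fun h => hk' (Fin.ext h.symm)), mul_zero]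
      · intro h
        exact absurd (Finset.mem_univ _) h
    · rw [Finset.sum_eq_zero]
      · simpa using h0
      · intro k' _
        rw [if_neg (fun h : k = (k' : ℕ) => hk (h ▸ k'.2)), mul_zero]
  · rw [PowerSeries.X_pow_dvd_iff]
    intro j hj
    have hL0 : (L : ℚ) ^ (n * D) ≠ 0 := by
      have : (L : ℚ) ≠ 0 := by
        have : L ≠ 0 := by omega
        exact_mod_cast this
      exact pow_ne_zero _ this
    have h1 := congrFun hMt ⟨j, hj⟩
    rw [Pi.zero_apply, Matrix.mulVec, dotProduct, Fintype.sum_prod_type] at h1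
    have h2 : ((∑ μ, ∑ k, MA ⟨j, hj⟩ (μ, k) * t (μ, k) : ℤ) : ℚ) = 0 := by
      rw [h1, Int.cast_zero]
    apply mul_left_cancel₀ hL0
    rw [mul_zero, ← h2, RR, map_sum, Finset.mul_sum]
    push_cast
    refine Finset.sum_congr rfl fun μ _ => ?_
    have h3 : (((∑ k : Fin (E * g + 1), C (t (μ, k)) * X ^ (k : ℕ)).map (Int.castRingHom ℚ) :
        ℚ[X]) : PowerSeries ℚ) =
        ∑ k : Fin (E * g + 1), PowerSeries.C ((t (μ, k) : ℤ) : ℚ) * PowerSeries.X ^ (k : ℕ) := by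
      rw [Polynomial.map_sum]
      have h4 : ∀ (u : Finset (Fin (E * g + 1))) (f : Fin (E * g + 1) → ℚ[X]),
          ((∑ k ∈ u, f k : ℚ[X]) : PowerSeries ℚ) = ∑ k ∈ u, (f k : PowerSeries ℚ) := fun u f =>
        map_sum (Polynomial.coeToPowerSeries.ringHom (R := ℚ)) f u
      rw [h4]
      refine Finset.sum_congr rfl fun k _ => ?_
      rw [Polynomial.map_mul, Polynomial.map_pow, map_C, map_X, coe_mul, coe_C, coe_pow, coe_X]
      rfl
    rw [h3, Finset.sum_mul, map_sum, Finset.mul_sum]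
    refine Finset.sum_congr rfl fun k _ => ?_
    have h5 : MA ⟨j, hj⟩ (μ, k) = z ⟨j, hj⟩ μ k := rfl
    rw [h5, hz, mul_assoc (PowerSeries.C _), PowerSeries.coeff_C_mul,
      PowerSeries.coeff_X_pow_mul']
    ring

end MP60829e.GF
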