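import Pool.Agent.Lib.MP_60829e_nt.GF.SysA
import Mathlib.Data.Nat.Choose.Basic

/-!
# The concrete system on `{0..D}^n`
-/

namespace MP60829e.GF
open Polynomial
open scoped Matrix

private theorem Sys_deriv_prod {ι : Type*} [DecidableEq ι] (s : Finset ι)
    (f : ι → PowerSeries ℚ) :
    PowerSeries.derivative ℚ (∏ i ∈ s, f i)
      = ∑ i ∈ s, (∏ j ∈ s.erase i, f j) * PowerSeries.derivative ℚ (f i) := by
  induction s using Finset.induction_on with
  | empty => simp
  | insert a s ha ih =>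
    rw [Finset.prod_insert ha, Derivation.leibniz, ih, Finset.sum_insert ha,
      Finset.erase_insert ha, smul_eq_mul, smul_eq_mul, add_comm, Finset.mul_sum]
    congr 1
    refine Finset.sum_congr rfl fun i hi => ?_
    have hai : a ≠ i := fun h => ha (h ▸ hi)
    rw [Finset.erase_insert_of_ne hai, Finset.prod_insert (fun h => ha (Finset.mem_of_mem_erase h)),
      mul_assoc]

private theorem Sys_choose (m k : ℕ) : m.choose k * (m - k) = m * (m - 1).choose k := by
  cases m with
  | zero => simp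
  | succ m =>
    rw [Nat.add_sub_cancel]
    have := Nat.choose_mul_succ_eq m k
    rw [← this, mul_comm]

private theorem Sys_deriv_factor (l : PowerSeries ℚ) (m k : ℕ) :
    PowerSeries.derivative ℚ (((m.choose k : ℕ) : PowerSeries ℚ) * l ^ (m - k))
      = (m : PowerSeries ℚ) * ((((m - 1).choose k : ℕ) : PowerSeries ℚ) * l ^ (m - 1 - k))
        * PowerSeries.derivative ℚ l := by
  rw [Derivation.leibniz, Derivation.leibniz_pow, Derivation.map_natCast, smul_zero, add_zero,
    smul_eq_mul, smul_eq_mul, nsmul_eq_mul]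
  have h := congrArg (Nat.cast : ℕ → PowerSeries ℚ) (Sys_choose m k)
  push_cast at h
  have h2 : m - k - 1 = m - 1 - k := by omega
  rw [h2]
  calc ((m.choose k : ℕ) : PowerSeries ℚ) * ((((m - k : ℕ)) : PowerSeries ℚ)
        * (l ^ (m - 1 - k) * PowerSeries.derivative ℚ l))
      = (((m.choose k : ℕ) : PowerSeries ℚ) * (((m - k : ℕ)) : PowerSeries ℚ))
        * (l ^ (m - 1 - k) * PowerSeries.derivative ℚ l) := by ring
    _ = _ := by rw [h]; ring

private theorem Sys_deriv_Ec {n D : ℕ} (l : Fin n → PowerSeries ℚ) (ν μ : Fin n → Fin (D + 1)) :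
    PowerSeries.derivative ℚ (Ec l ν μ)
      = ∑ i, ((μ i : ℕ) : PowerSeries ℚ) * Ec l ν (Function.update μ i (μ i - 1))
        * PowerSeries.derivative ℚ (l i) := by
  classical
  unfold Ec
  rw [Sys_deriv_prod]
  refine Finset.sum_congr rfl fun i _ => ?_
  rw [Sys_deriv_factor]
  by_cases hx : (μ i : ℕ) = 0
  · rw [hx]; simp
  · have hx1 : μ i ≠ 0 := by
      intro h
      exact hx (by rw [h]; rfl)
    rw [← Finset.mul_prod_erase Finset.univ
      (fun j => (((Nat.choose (Function.update μ i (μ i - 1) j : Fin (D + 1)) (ν j) : ℕ))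
        : PowerSeries ℚ) * l j ^ (((Function.update μ i (μ i - 1) j : Fin (D + 1)) : ℕ) - (ν j : ℕ)))
      (Finset.mem_univ i)]
    have h1 : ∏ j ∈ Finset.univ.erase i,
        (((Nat.choose (Function.update μ i (μ i - 1) j : Fin (D + 1)) (ν j) : ℕ))
        : PowerSeries ℚ) * l j ^ (((Function.update μ i (μ i - 1) j : Fin (D + 1)) : ℕ) - (ν j : ℕ))
        = ∏ j ∈ Finset.univ.erase i,
          (((Nat.choose (μ j) (ν j) : ℕ)) : PowerSeries ℚ) * l j ^ ((μ j : ℕ) - (ν j : ℕ)) := by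
      refine Finset.prod_congr rfl fun j hj => ?_
      rw [Function.update_of_ne (Finset.ne_of_mem_erase hj)]
    rw [h1, Function.update_self, Fin.val_sub_one_of_ne_zero hx1]
    ring

/-- The section `uc l κ` is horizontal if `(1 + a_i z) l_i' = c a_i`.
`d (Ec l ν μ) = ∑ l_i' μ_i Ec l ν (μ - e_i)`, from `(μ - ν) binom(μ,ν) = μ binom(μ-1,ν)`. -/
theorem uc_hor {n D : ℕ} (a : Fin n → ℤ) (z0 c : ℚ) (l : Fin n → PowerSeries ℚ)
    (hl : ∀ i, aeval (zz z0 c) (1 + C (a i : ℚ) * X) * PowerSeries.derivative ℚ (l i)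
      = PowerSeries.C (c * (a i : ℚ))) (κ : (Fin n → Fin (D + 1)) → ℚ) :
    Hor a (Mc n D) z0 c (uc l κ) := by
  classical
  intro μ
  have hM : ∀ i, ∑ b', PowerSeries.C (Mc n D i μ b') * uc l κ b'
      = ((μ i : ℕ) : PowerSeries ℚ) * uc l κ (Function.update μ i (μ i - 1)) := by
    intro i
    rw [Finset.sum_eq_single (Function.update μ i (μ i - 1))]
    · simp only [Mc, Matrix.of_apply, if_true]
      rw [map_natCast]
    · intro b _ hb
      simp only [Mc, Matrix.of_apply, if_neg hb, map_zero, zero_mul]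
    · intro h; exact absurd (Finset.mem_univ _) h
  have hd : PowerSeries.derivative ℚ (uc l κ μ)
      = ∑ i, ((μ i : ℕ) : PowerSeries ℚ) * uc l κ (Function.update μ i (μ i - 1))
        * PowerSeries.derivative ℚ (l i) := by
    simp only [uc]
    rw [map_sum]
    have : ∀ ν, PowerSeries.derivative ℚ (PowerSeries.C (κ ν) * Ec l ν μ)
        = ∑ i, ((μ i : ℕ) : PowerSeries ℚ) * (PowerSeries.C (κ ν)
          * Ec l ν (Function.update μ i (μ i - 1))) * PowerSeries.derivative ℚ (l i) := by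
      intro ν
      rw [Derivation.leibniz, PowerSeries.derivative_C, smul_zero, add_zero, Sys_deriv_Ec,
        smul_eq_mul, Finset.mul_sum]
      refine Finset.sum_congr rfl fun i _ => ?_
      ring
    rw [Finset.sum_congr rfl fun ν _ => this ν, Finset.sum_comm]
    refine Finset.sum_congr rfl fun i _ => ?_
    rw [Finset.mul_sum, Finset.sum_mul]
  rw [hd, Finset.mul_sum, Finset.mul_sum]
  refine Finset.sum_congr rfl fun i _ => ?_
  rw [hM i, T_eq a i, map_mul]
  have h2 := hl i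
  calc aeval (zz z0 c) (1 + C (a i : ℚ) * X) * aeval (zz z0 c) (Ti a i)
        * (((μ i : ℕ) : PowerSeries ℚ) * uc l κ (Function.update μ i (μ i - 1))
          * PowerSeries.derivative ℚ (l i))
      = (aeval (zz z0 c) (1 + C (a i : ℚ) * X) * PowerSeries.derivative ℚ (l i))
        * (aeval (zz z0 c) (Ti a i) * (((μ i : ℕ) : PowerSeries ℚ)
          * uc l κ (Function.update μ i (μ i - 1)))) := by ring
    _ = PowerSeries.C c * (aeval (zz z0 c) (C (a i : ℚ) * Ti a i)
        * (((μ i : ℕ) : PowerSeries ℚ) * uc l κ (Function.update μ i (μ i - 1)))) := by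
      have h3 : aeval (zz z0 c) (C (a i : ℚ)) = PowerSeries.C (a i : ℚ) := by
        rw [aeval_C]; rfl
      rw [h2, map_mul, map_mul, h3]
      ring

theorem uc_const {n D : ℕ} (l : Fin n → PowerSeries ℚ)
    (hl : ∀ i, PowerSeries.constantCoeff (l i) = 0) (κ : (Fin n → Fin (D + 1)) → ℚ)
    (μ : Fin n → Fin (D + 1)) : PowerSeries.constantCoeff (uc l κ μ) = κ μ := by
  classical
  unfold uc Ec
  rw [map_sum, Finset.sum_eq_single μ]
  · rw [map_mul, map_prod]
    simp
  · intro ν _ hν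
    rw [map_mul, map_prod]
    obtain ⟨i, hi⟩ := Function.ne_iff.mp hν
    rw [Finset.prod_eq_zero (Finset.mem_univ i), mul_zero]
    rw [map_mul, map_pow, hl i, map_natCast]
    rcases Nat.lt_or_ge (μ i : ℕ) (ν i : ℕ) with h | h
    · rw [Nat.choose_eq_zero_of_lt h]; simp
    · have h2 : (ν i : ℕ) ≠ (μ i : ℕ) := fun h3 => hi (Fin.ext h3)
      rw [zero_pow (by omega), mul_zero]
  · intro h; exact absurd (Finset.mem_univ _) h

/-- For `κ = δ_0`: `u_μ = ∏ l_i^(μ_i)`. -/
theorem uc_single {n D : ℕ} (l : Fin n → PowerSeries ℚ) (μ : Fin n → Fin (D + 1)) :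
    uc l (Pi.single 0 1) μ = ∏ i, l i ^ (μ i : ℕ) := by
  classical
  unfold uc Ec
  rw [Finset.sum_eq_single 0]
  · simp
  · intro ν _ hν
    rw [Pi.single_eq_of_ne hν, map_zero, zero_mul]
  · intro h; exact absurd (Finset.mem_univ _) h

theorem lg_const (b : ℤ) : PowerSeries.constantCoeff (lg b) = 0 := by
  rw [← PowerSeries.coeff_zero_eq_constantCoeff_apply, lg, PowerSeries.coeff_mk]
  simp

/-- `(1 + b s) (lg b)' = b`. -/
theorem lg_ode (b : ℤ) : (1 + PowerSeries.C (b : ℚ) * PowerSeries.X)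
    * PowerSeries.derivative ℚ (lg b) = PowerSeries.C (b : ℚ) := by
  have hc : ∀ k, PowerSeries.coeff k (PowerSeries.derivative ℚ (lg b)) = (-1) ^ k * (b : ℚ) ^ (k + 1) := by
    intro k
    rw [PowerSeries.coeff_derivative, lg, PowerSeries.coeff_mk]
    have : ((k : ℚ) + 1) ≠ 0 := by positivity
    push_cast
    field_simp
    ring
  ext k
  rw [add_mul, one_mul, map_add, mul_assoc, PowerSeries.coeff_C_mul]
  cases k with
  | zero =>
    rw [hc, PowerSeries.coeff_zero_X_mul, PowerSeries.coeff_zero_C]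
    ring
  | succ k =>
    rw [hc, PowerSeries.coeff_succ_X_mul, hc, PowerSeries.coeff_C, if_neg (Nat.succ_ne_zero k)]
    ring

/-- At `z_0 = 0`, `c = 1`. -/
theorem lg_hor0 {n : ℕ} (a : Fin n → ℤ) (i : Fin n) :
    aeval (zz 0 1) (1 + C (a i : ℚ) * X) * PowerSeries.derivative ℚ (lg (a i))
      = PowerSeries.C (1 * (a i : ℚ)) := by
  have h1 : aeval (zz 0 1) (1 + C (a i : ℚ) * X)
      = 1 + PowerSeries.C (a i : ℚ) * PowerSeries.X := by
    rw [map_add, map_one, map_mul, aeval_C, aeval_X, zz, map_zero, map_one, zero_add, one_mul]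
    rfl
  rw [h1, lg_ode, one_mul]

/-- At `z_0 = 1/x`, `c = q/x`: `1 + a_i z = ((x + a_i)/x) (1 + a_i q_i s)`. -/
theorem lg_hor1 {n : ℕ} (a : Fin n → ℤ) (x : ℤ) (hx : x ≠ 0) (i : Fin n) :
    aeval (zz (1 / (x : ℚ)) ((qq a x : ℚ) / x)) (1 + C (a i : ℚ) * X)
        * PowerSeries.derivative ℚ (lg (a i * qi a x i))
      = PowerSeries.C ((qq a x : ℚ) / x * (a i : ℚ)) := by
  have hx' : (x : ℚ) ≠ 0 := by exact_mod_cast hx
  have hq : (qq a x : ℚ) = ((x : ℚ) + a i) * (qi a x i : ℚ) := by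
    unfold qq qi
    rw [← Finset.mul_prod_erase Finset.univ (fun j => x + a j) (Finset.mem_univ i)]
    push_cast
    ring
  have h1 : aeval (zz (1 / (x : ℚ)) ((qq a x : ℚ) / x)) (1 + C (a i : ℚ) * X)
      = PowerSeries.C (((x : ℚ) + a i) / x)
        * (1 + PowerSeries.C ((a i * qi a x i : ℤ) : ℚ) * PowerSeries.X) := by
    rw [map_add, map_one, map_mul, aeval_C, aeval_X, zz]
    have h2 : (algebraMap ℚ (PowerSeries ℚ)) (a i : ℚ) = PowerSeries.C (a i : ℚ) := rfl
    rw [h2, mul_add, ← mul_assoc, ← map_mul, ← map_mul, mul_add, ← mul_assoc, ← map_mul, mul_one,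
      ← add_assoc]
    have h3 : (1 : PowerSeries ℚ) + PowerSeries.C ((a i : ℚ) * (1 / (x : ℚ)))
        = PowerSeries.C (((x : ℚ) + a i) / x) := by
      rw [← map_one (PowerSeries.C : ℚ →+* PowerSeries ℚ), ← map_add]
      congr 1
      field_simp
    rw [h3]
    congr 2
    congr 1
    rw [hq]
    push_cast
    field_simp
  rw [h1, mul_assoc, lg_ode, ← map_mul]
  congr 1
  rw [hq]
  push_cast
  field_simp

end MP60829e.GF
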