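import Pool.Agent.Lib.MP_60829e_nt.GF.Tay
import Pool.Agent.Lib.MP_60829e_nt.GF.Sys
import Pool.Agent.Lib.MP_60829e_nt.GF.Forms
import Mathlib.Analysis.Complex.Schwarz
import Mathlib.Analysis.Complex.Liouville
import Mathlib.Analysis.Calculus.Deriv.Polynomial
import Mathlib.Analysis.SpecialFunctions.Complex.LogBounds

/-!
# The values of the forms are small (G4)
-/

namespace MP60829e.GF
open Polynomial

/-- The analytic function `R(z) = ∑ F_μ(z) ∏ log(1 + a_i z)^(μ_i)`. -/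
noncomputable def Ra {n D : ℕ} (a : Fin n → ℤ) (F : (Fin n → Fin (D + 1)) → ℚ[X]) (z : ℂ) : ℂ :=
  ∑ μ, Polynomial.aeval z (F μ) * ∏ i, Complex.log (1 + a i * z) ^ (μ i : ℕ)

private theorem Val_map_aeval (p : PowerSeries ℚ) (G : ℚ[X]) :
    (aeval p G).map (algebraMap ℚ ℂ) = aeval (p.map (algebraMap ℚ ℂ)) G := by
  rw [aeval_def, aeval_def, Polynomial.hom_eval₂]
  congr 1

private theorem Val_map_Ec {n D : ℕ} (l : Fin n → PowerSeries ℚ) (ν μ : Fin n → Fin (D + 1)) :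
    (Ec l ν μ).map (algebraMap ℚ ℂ) = Ec (fun i => (l i).map (algebraMap ℚ ℂ)) ν μ := by
  simp only [Ec, map_prod, map_mul, map_natCast, map_pow]

private theorem Val_tay_Ec {n D : ℕ} (f : Fin n → ℂ → ℂ) (p : Fin n → PowerSeries ℂ)
    (h : ∀ i, Tay (f i) (p i)) (ν μ : Fin n → Fin (D + 1)) :
    Tay (fun s => Ec (fun i => f i s) ν μ) (Ec p ν μ) := by
  refine Tay.prod _ _ _ fun i _ => Tay.mul ?_ ((h i).pow _)
  rw [← map_natCast PowerSeries.C]
  exact Tay.const _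

/-- `∏ (y_i + l_i)^(μ_i) = ∑_ν y^ν Ec l ν μ`. -/
private theorem Val_binom {n D : ℕ} (y l : Fin n → ℂ) (μ : Fin n → Fin (D + 1)) :
    ∏ i, (y i + l i) ^ (μ i : ℕ)
      = ∑ ν : Fin n → Fin (D + 1), (∏ i, y i ^ (ν i : ℕ)) * Ec l ν μ := by
  have h1 : ∀ i, (y i + l i) ^ (μ i : ℕ) = ∑ b : Fin (D + 1),
      y i ^ (b : ℕ) * (((Nat.choose (μ i) b : ℕ) : ℂ) * l i ^ ((μ i : ℕ) - (b : ℕ))) := by
    intro i
    rw [add_pow, Fin.sum_univ_eq_sum_range
      (fun b => y i ^ b * (((Nat.choose (μ i) b : ℕ) : ℂ) * l i ^ ((μ i : ℕ) - b))) (D + 1)]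
    refine Finset.sum_subset_zero_on_sdiff ?_ ?_ ?_
    · intro b hb
      have := (μ i).2
      rw [Finset.mem_range] at hb ⊢
      omega
    · intro b hb
      rw [Finset.mem_sdiff, Finset.mem_range, Finset.mem_range] at hb
      rw [Nat.choose_eq_zero_of_lt (by omega)]
      simp
    · intro b hb
      ring
  simp only [h1]
  rw [Finset.prod_univ_sum]
  simp only [Fintype.piFinset_univ]
  refine Finset.sum_congr rfl fun ν _ => ?_
  rw [Ec, ← Finset.prod_mul_distrib]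

/-- Taylor series of `s ↦ x^N R((1 + q s)/x)` at `s = 0`: near `s = 0`,
`log(1 + a_i (1+qs)/x) = y_i + log(1 + a_i q_i s)`, and `∏ (y_i + Λ_i)^(μ_i) = ∑_ν y^ν Ec Λ ν μ`. -/
theorem tay_forms {n D : ℕ} (a : Fin n → ℤ) (F : (Fin n → Fin (D + 1)) → ℚ[X]) (N : ℕ) (x : ℤ)
    (hx : 1 ≤ x) (hxa : ∀ i, 1 ≤ x + a i) :
    Tay (fun s => (x : ℂ) ^ N * Ra a F ((1 + (qq a x : ℂ) * s) / x))
      (∑ ν, PowerSeries.C (∏ i, ((Real.log (1 + (a i : ℝ) / x) : ℝ) : ℂ) ^ (ν i : ℕ))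
        * (Wf a F N x ν).map (algebraMap ℚ ℂ)) := by
  have hx0 : (x : ℂ) ≠ 0 := by
    have : x ≠ 0 := by omega
    exact_mod_cast this
  -- the model function
  have h1 : Tay (fun s => ∑ ν : Fin n → Fin (D + 1),
      (∏ i, ((Real.log (1 + (a i : ℝ) / x) : ℝ) : ℂ) ^ (ν i : ℕ)) *
        ∑ μ, (x : ℂ) ^ N * aeval ((1 / (x : ℂ)) + ((qq a x : ℂ) / x) * s) (F μ)
          * Ec (fun i => Complex.log (1 + (a i * qi a x i : ℤ) * s)) ν μ)
      (∑ ν, PowerSeries.C (∏ i, ((Real.log (1 + (a i : ℝ) / x) : ℝ) : ℂ) ^ (ν i : ℕ))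
        * (Wf a F N x ν).map (algebraMap ℚ ℂ)) := by
    refine Tay.sum _ _ _ fun ν _ => (Tay.const _).mul ?_
    rw [Wf, map_sum]
    refine Tay.sum _ _ _ fun μ _ => ?_
    rw [map_mul, map_mul, Val_map_Ec, Val_map_aeval]
    refine (Tay.mul ?_ ?_).mul (Val_tay_Ec _ _ (fun i => Tay.lgs _) ν μ)
    · have h2 : (PowerSeries.C ((x : ℚ) ^ N)).map (algebraMap ℚ ℂ)
          = PowerSeries.C ((x : ℂ) ^ N) := by
        rw [PowerSeries.map_C]
        simp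
      rw [h2]
      exact Tay.const _
    · refine Tay.aevals ?_ (F μ)
      have h2 : (zz (1 / (x : ℚ)) ((qq a x : ℚ) / x)).map (algebraMap ℚ ℂ)
          = PowerSeries.C (1 / (x : ℂ)) + PowerSeries.C ((qq a x : ℂ) / x) * PowerSeries.X := by
        rw [zz, map_add, map_mul, PowerSeries.map_C, PowerSeries.map_C, PowerSeries.map_X]
        simp
      rw [h2]
      exact (Tay.const _).add ((Tay.const _).mul Tay.id)
  refine h1.congr ?_
  have h3 : ∀ i, ∀ᶠ s : ℂ in nhds 0, 1 + ((a i * qi a x i : ℤ) : ℂ) * s ≠ 0 := by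
    intro i
    have h4 : ContinuousAt (fun s : ℂ => 1 + ((a i * qi a x i : ℤ) : ℂ) * s) 0 := by fun_prop
    exact h4.eventually_ne (by simp)
  filter_upwards [Filter.eventually_all.2 h3] with s hs
  have h5 : ∀ i, Complex.log (1 + a i * ((1 + (qq a x : ℂ) * s) / x))
      = ((Real.log (1 + (a i : ℝ) / x) : ℝ) : ℂ)
        + Complex.log (1 + (a i * qi a x i : ℤ) * s) := by
    intro i
    have hpos : (0 : ℝ) < 1 + (a i : ℝ) / x := by
      have h6 : (0 : ℝ) < x := by exact_mod_cast (by omega : 0 < x)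
      have h7 : (1 : ℝ) ≤ (x : ℝ) + a i := by exact_mod_cast hxa i
      have h8 : 1 + (a i : ℝ) / x = ((x : ℝ) + a i) / x := by field_simp
      rw [h8]
      positivity
    rw [← Complex.log_ofReal_mul hpos (hs i)]
    congr 1
    have hq : qq a x = (x + a i) * qi a x i := by
      rw [qq, qi, Finset.mul_prod_erase Finset.univ (fun j => x + a j) (Finset.mem_univ i)]
    rw [hq]
    push_cast
    field_simp
    ring
  simp only [Ra, h5, Val_binom, Finset.mul_sum]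
  rw [Finset.sum_comm]
  refine Finset.sum_congr rfl fun μ _ => ?_
  refine Finset.sum_congr rfl fun ν _ => ?_
  have h9 : (1 / (x : ℂ)) + ((qq a x : ℂ) / x) * s = (1 + (qq a x : ℂ) * s) / x := by
    field_simp
  rw [h9]
  ring

private theorem Val_log_le (A : ℕ) (hA1 : 1 ≤ A) {b : ℤ} (hb : |b| ≤ A) {z : ℂ}
    (hz : ‖z‖ < 1 / (2 * A)) : ‖Complex.log (1 + b * z)‖ ≤ 1 := by
  have hA0 : (0 : ℝ) < A := by exact_mod_cast hA1
  have hbR : |(b : ℝ)| ≤ A := by exact_mod_cast hb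
  have h1 : ‖(b : ℂ) * z‖ ≤ 1 / 2 := by
    rw [norm_mul, Complex.norm_intCast]
    calc |(b : ℝ)| * ‖z‖ ≤ A * (1 / (2 * A)) :=
          mul_le_mul hbR hz.le (norm_nonneg _) hA0.le
      _ = 1 / 2 := by field_simp
  have h2 := Complex.norm_log_one_add_half_le_self h1
  linarith

private theorem Val_poly_le (G : ℤ[X]) (N : ℕ) (hN : G.natDegree ≤ N) (H : ℝ)
    (hH : ∀ k, |((G.coeff k : ℤ) : ℝ)| ≤ H) {z : ℂ} (hz : ‖z‖ ≤ 1) :
    ‖aeval z (G.map (Int.castRingHom ℚ))‖ ≤ ((N : ℝ) + 1) * H := by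
  have h0 : (G.map (Int.castRingHom ℚ)).natDegree ≤ N := natDegree_map_le.trans hN
  rw [aeval_eq_sum_range' (n := N + 1) (by omega)]
  refine (norm_sum_le _ _).trans ?_
  have h1 : ∀ k ∈ Finset.range (N + 1),
      ‖(G.map (Int.castRingHom ℚ)).coeff k • z ^ k‖ ≤ H := by
    intro k _
    rw [coeff_map, Algebra.smul_def, norm_mul, norm_pow]
    have h2 : ‖algebraMap ℚ ℂ ((Int.castRingHom ℚ) (G.coeff k))‖ = |((G.coeff k : ℤ) : ℝ)| := by
      simp
    rw [h2]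
    calc |((G.coeff k : ℤ) : ℝ)| * ‖z‖ ^ k ≤ |((G.coeff k : ℤ) : ℝ)| * 1 :=
          mul_le_mul_of_nonneg_left (pow_le_one₀ (norm_nonneg _) hz) (abs_nonneg _)
      _ ≤ H := by rw [mul_one]; exact hH k
  refine (Finset.sum_le_sum h1).trans ?_
  rw [Finset.sum_const, Finset.card_range, nsmul_eq_mul]
  push_cast
  exact le_rfl

private theorem Val_Ra_le {n D : ℕ} (a : Fin n → ℤ) (A : ℕ) (hA1 : 1 ≤ A) (hA : ∀ i, |a i| ≤ A)
    (F : (Fin n → Fin (D + 1)) → ℤ[X]) (N : ℕ) (hN : ∀ μ, (F μ).natDegree ≤ N) (H : ℝ)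
    (hH : ∀ μ k, |(((F μ).coeff k : ℤ) : ℝ)| ≤ H)
    (z : ℂ) (hz : ‖z‖ < 1 / (2 * A)) :
    ‖Ra a (fun μ => (F μ).map (Int.castRingHom ℚ)) z‖
      ≤ ((D + 1) ^ n : ℕ) * (((N : ℝ) + 1) * H) := by
  have hA0 : (1 : ℝ) ≤ A := by exact_mod_cast hA1
  have hz1 : ‖z‖ ≤ 1 := by
    refine hz.le.trans ?_
    rw [div_le_one (by linarith)]
    linarith
  refine (norm_sum_le _ _).trans ?_
  have h1 : ∀ μ ∈ (Finset.univ : Finset (Fin n → Fin (D + 1))),
      ‖aeval z ((F μ).map (Int.castRingHom ℚ)) * ∏ i, Complex.log (1 + a i * z) ^ (μ i : ℕ)‖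
        ≤ ((N : ℝ) + 1) * H := by
    intro μ _
    have h2 := Val_poly_le (F μ) N (hN μ) H (hH μ) hz1
    have h3 : ‖∏ i, Complex.log (1 + a i * z) ^ (μ i : ℕ)‖ ≤ 1 := by
      rw [norm_prod]
      refine Finset.prod_le_one (fun _ _ => norm_nonneg _) fun i _ => ?_
      rw [norm_pow]
      exact pow_le_one₀ (norm_nonneg _) (Val_log_le A hA1 (hA i) hz)
    rw [norm_mul]
    calc _ ≤ (((N : ℝ) + 1) * H) * 1 :=
          mul_le_mul h2 h3 (norm_nonneg _) ((norm_nonneg _).trans h2)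
      _ = _ := mul_one _
  refine (Finset.sum_le_sum h1).trans ?_
  rw [Finset.sum_const, Finset.card_univ, Fintype.card_fun, Fintype.card_fin, Fintype.card_fin,
    nsmul_eq_mul]

private theorem Val_slit (A : ℕ) (hA1 : 1 ≤ A) {b : ℤ} (hb : |b| ≤ A) {z : ℂ}
    (hz : ‖z‖ < 1 / (2 * A)) : 1 + (b : ℂ) * z ∈ Complex.slitPlane := by
  have hA0 : (0 : ℝ) < A := by exact_mod_cast hA1
  have hbR : |(b : ℝ)| ≤ A := by exact_mod_cast hb
  refine Complex.mem_slitPlane_of_norm_lt_one ?_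
  rw [norm_mul, Complex.norm_intCast]
  have h1 : |(b : ℝ)| * ‖z‖ ≤ A * (1 / (2 * A)) :=
    mul_le_mul hbR hz.le (norm_nonneg _) hA0.le
  have h2 : (A : ℝ) * (1 / (2 * A)) = 1 / 2 := by field_simp
  linarith

private theorem Val_diff {n D : ℕ} (a : Fin n → ℤ) (A : ℕ) (hA1 : 1 ≤ A) (hA : ∀ i, |a i| ≤ A)
    (G : (Fin n → Fin (D + 1)) → ℚ[X]) {z : ℂ} (hz : ‖z‖ < 1 / (2 * A)) :
    DifferentiableAt ℂ (Ra a G) z := by
  unfold Ra
  refine DifferentiableAt.fun_sum fun μ _ => DifferentiableAt.mul ?_ ?_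
  · exact (Polynomial.differentiable_aeval (G μ)).differentiableAt
  · refine DifferentiableAt.fun_finsetProd fun i _ => DifferentiableAt.pow ?_ _
    exact DifferentiableAt.clog (by fun_prop) (Val_slit A hA1 (hA i) hz)

private theorem Val_tay_R {n D : ℕ} (a : Fin n → ℤ) (G : (Fin n → Fin (D + 1)) → ℚ[X]) :
    Tay (Ra a G) ((RR a G).map (algebraMap ℚ ℂ)) := by
  unfold Ra RR
  rw [map_sum]
  refine Tay.sum _ _ _ fun μ _ => ?_
  rw [map_mul, map_prod]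
  refine Tay.mul ?_ (Tay.prod _ _ _ fun i _ => ?_)
  · have h1 : ((G μ : PowerSeries ℚ)).map (algebraMap ℚ ℂ) = aeval (PowerSeries.X) (G μ) := by
      have h2 : (G μ : PowerSeries ℚ) = aeval (PowerSeries.X) (G μ) := by
        have h3 := Polynomial.hom_eval₂ (G μ) (C : ℚ →+* ℚ[X])
          (Polynomial.coeToPowerSeries.ringHom) X
        rw [Polynomial.eval₂_C_X] at h3
        rw [aeval_def]
        refine h3.trans ?_
        congr 1
        · exact RingHom.ext_rat _ _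
        · exact Polynomial.coe_X
      rw [h2, Val_map_aeval, PowerSeries.map_X]
    rw [h1]
    exact Tay.aevals Tay.id _
  · rw [map_pow]
    exact (Tay.lgs _).pow _

/-- `|R(z)| ≤ m (N+1) H` for `|z| ≤ 1/(2A)` and `|R(z)| ≤ m(N+1)H (2A|z|)^σ` there by Schwarz. -/
theorem Ra_bound {n D : ℕ} (a : Fin n → ℤ) (A : ℕ) (hA1 : 1 ≤ A) (hA : ∀ i, |a i| ≤ A)
    (F : (Fin n → Fin (D + 1)) → ℤ[X]) (N σ : ℕ) (hN : ∀ μ, (F μ).natDegree ≤ N) (H : ℝ)
    (hH : ∀ μ k, |(((F μ).coeff k : ℤ) : ℝ)| ≤ H)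
    (hσ : (PowerSeries.X : PowerSeries ℚ) ^ σ ∣ RR a (fun μ => (F μ).map (Int.castRingHom ℚ)))
    (z : ℂ) (hz : ‖z‖ < 1 / (2 * A)) :
    ‖Ra a (fun μ => (F μ).map (Int.castRingHom ℚ)) z‖
      ≤ ((D + 1) ^ n : ℕ) * (((N : ℝ) + 1) * H) * (2 * A * ‖z‖) ^ σ := by
  have hA0 : (0 : ℝ) < A := by exact_mod_cast hA1
  have hb := Val_Ra_le a A hA1 hA F N hN H hH
  set G : (Fin n → Fin (D + 1)) → ℚ[X] := fun μ => (F μ).map (Int.castRingHom ℚ) with hG
  set C0 : ℝ := ((D + 1) ^ n : ℕ) * (((N : ℝ) + 1) * H) with hC0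
  rcases Nat.eq_zero_or_pos σ with rfl | hσ0
  · rw [pow_zero, mul_one]
    exact hb z hz
  obtain ⟨k, rfl⟩ : ∃ k, σ = k + 1 := ⟨σ - 1, by omega⟩
  have hT := Val_tay_R a G
  have hd : (PowerSeries.X : PowerSeries ℂ) ^ (k + 1) ∣ (RR a G).map (algebraMap ℚ ℂ) := by
    have h1 := map_dvd (PowerSeries.map (algebraMap ℚ ℂ)) hσ
    rwa [map_pow, PowerSeries.map_X] at h1
  have hO := hT.isBigO (k + 1) hd
  have h0 : Ra a G 0 = 0 := by
    have h1 := hT.2 0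
    rw [iteratedDeriv_zero] at h1
    rw [h1, PowerSeries.X_pow_dvd_iff.1 hd 0 (by omega), mul_zero]
  have hdiff : DifferentiableOn ℂ (Ra a G) (Metric.ball 0 (1 / (2 * A))) := by
    intro w hw
    rw [mem_ball_zero_iff] at hw
    exact (Val_diff a A hA1 hA G hw).differentiableWithinAt
  have hmaps : Set.MapsTo (Ra a G) (Metric.ball 0 (1 / (2 * A))) (Metric.closedBall (Ra a G 0) C0) := by
    intro w hw
    rw [mem_ball_zero_iff] at hw
    rw [h0, mem_closedBall_zero_iff]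
    exact hb w hw
  have hlit : (fun w => Ra a G w - Ra a G 0) =o[nhds 0] fun w : ℂ => ‖w - 0‖ ^ k := by
    simp only [h0, sub_zero]
    refine hO.trans_isLittleO ?_
    have h1 : (fun w : ℂ => w ^ (k + 1)) =o[nhds 0] fun w : ℂ => w ^ k :=
      Asymptotics.isLittleO_pow_pow (by omega)
    simpa using h1.norm_right
  have hzb : z ∈ Metric.ball (0 : ℂ) (1 / (2 * A)) := by rwa [mem_ball_zero_iff]
  have key := Complex.dist_le_mul_div_pow_of_mapsTo_ball_of_isLittleO hdiff hmaps hlit hzb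
  rw [h0, dist_zero_right, dist_zero_right] at key
  have h2 : ‖z‖ / (1 / (2 * A)) = 2 * A * ‖z‖ := by field_simp
  rwa [h2] at key

/-- G4. Cauchy's estimate on `|z - 1/x| ≤ 1/x` (`|z| ≤ 2/x < 1/(2A)`), i.e. `|s| ≤ 1/|q|`. -/
theorem val_bound {n D : ℕ} (a : Fin n → ℤ) (A : ℕ) (hA1 : 1 ≤ A) (hA : ∀ i, |a i| ≤ A)
    (F : (Fin n → Fin (D + 1)) → ℤ[X]) (N σ : ℕ) (hN : ∀ μ, (F μ).natDegree ≤ N) (H : ℝ)
    (hH : ∀ μ k, |(((F μ).coeff k : ℤ) : ℝ)| ≤ H)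
    (hσ : (PowerSeries.X : PowerSeries ℚ) ^ σ ∣ RR a (fun μ => (F μ).map (Int.castRingHom ℚ)))
    (x : ℤ) (hx : 8 * (A : ℤ) ≤ x) (j : ℕ) :
    |∑ ν, ((PowerSeries.coeff j (Wf a (fun μ => (F μ).map (Int.castRingHom ℚ)) N x ν) : ℚ) : ℝ)
        * ∏ i, Real.log (1 + (a i : ℝ) / x) ^ (ν i : ℕ)|
      ≤ (x : ℝ) ^ N * (4 * A / x) ^ σ * (((D + 1) ^ n : ℕ) * (((N : ℝ) + 1) * H))
        * |(qq a x : ℝ)| ^ j := by
  have hRa := Ra_bound a A hA1 hA F N σ hN H hH hσ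
  set G : (Fin n → Fin (D + 1)) → ℚ[X] := fun μ => (F μ).map (Int.castRingHom ℚ) with hG
  set C0 : ℝ := ((D + 1) ^ n : ℕ) * (((N : ℝ) + 1) * H) with hC0
  have hA0 : (1 : ℝ) ≤ A := by exact_mod_cast hA1
  have hA1' : (1 : ℤ) ≤ A := by exact_mod_cast hA1
  have hxR : 8 * (A : ℝ) ≤ x := by exact_mod_cast hx
  have hx1 : 1 ≤ x := by omega
  have hxa : ∀ i, 1 ≤ x + a i := by
    intro i
    have := (abs_le.1 (hA i)).1
    omega
  have hx0 : (0 : ℝ) < x := by linarith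
  have hC00 : 0 ≤ C0 := by
    have hH0 : 0 ≤ H := (abs_nonneg _).trans (hH 0 0)
    positivity
  have hq0 : 0 < qq a x := Finset.prod_pos fun i _ => by have := hxa i; omega
  have hq : (0 : ℝ) < qq a x := by exact_mod_cast hq0
  have hqc : ‖(qq a x : ℂ)‖ = (qq a x : ℝ) := by
    rw [Complex.norm_intCast, abs_of_pos hq]
  have hxc : ‖(x : ℂ)‖ = (x : ℝ) := by
    rw [Complex.norm_intCast, abs_of_pos hx0]
  have hball : ∀ s : ℂ, ‖s‖ ≤ 1 / (qq a x : ℝ) → ‖(1 + (qq a x : ℂ) * s) / x‖ ≤ 2 / x := by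
    intro s hs
    rw [norm_div, hxc]
    refine div_le_div_of_nonneg_right ?_ hx0.le
    refine (norm_add_le _ _).trans ?_
    rw [norm_one, norm_mul, hqc]
    have h1 : (qq a x : ℝ) * ‖s‖ ≤ qq a x * (1 / (qq a x : ℝ)) :=
      mul_le_mul_of_nonneg_left hs hq.le
    have h2 : (qq a x : ℝ) * (1 / (qq a x : ℝ)) = 1 := by field_simp
    linarith
  have h2x : 2 / (x : ℝ) < 1 / (2 * A) := by
    rw [div_lt_div_iff₀ hx0 (by linarith)]
    linarith
  have hT := tay_forms a G N x hx1 hxa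
  set f : ℂ → ℂ := fun s => (x : ℂ) ^ N * Ra a G ((1 + (qq a x : ℂ) * s) / x) with hf
  have hR : (0 : ℝ) < 1 / (qq a x : ℝ) := by positivity
  have hdiff : DifferentiableOn ℂ f (Metric.closedBall 0 (1 / (qq a x : ℝ))) := by
    intro s hs
    rw [mem_closedBall_zero_iff] at hs
    refine DifferentiableAt.differentiableWithinAt ?_
    refine DifferentiableAt.const_mul ?_ _
    have h1 := Val_diff a A hA1 hA G ((hball s hs).trans_lt h2x)
    exact DifferentiableAt.comp (g := Ra a G) (f := fun s : ℂ => (1 + (qq a x : ℂ) * s) / x) s h1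
      (by fun_prop)
  have hC : ∀ s ∈ Metric.sphere (0 : ℂ) (1 / (qq a x : ℝ)),
      ‖f s‖ ≤ (x : ℝ) ^ N * (C0 * (4 * A / x) ^ σ) := by
    intro s hs
    rw [mem_sphere_zero_iff_norm] at hs
    have h1 := hball s hs.le
    rw [hf]
    simp only []
    rw [norm_mul, norm_pow, hxc]
    refine mul_le_mul_of_nonneg_left ?_ (by positivity)
    refine (hRa _ (h1.trans_lt h2x)).trans ?_
    refine mul_le_mul_of_nonneg_left ?_ hC00
    refine pow_le_pow_left₀ (by positivity) ?_ _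
    calc 2 * (A : ℝ) * ‖(1 + (qq a x : ℂ) * s) / x‖ ≤ 2 * A * (2 / x) :=
          mul_le_mul_of_nonneg_left h1 (by positivity)
      _ = 4 * A / x := by ring
  have hcau := Complex.norm_iteratedDeriv_le_of_forall_mem_sphere_norm_le j hR
    (hdiff.diffContOnCl_ball subset_rfl) hC
  rw [hT.2 j, norm_mul] at hcau
  have hfac : ‖((j.factorial : ℕ) : ℂ)‖ = (j.factorial : ℝ) := by simp
  rw [hfac] at hcau
  have hcoef : PowerSeries.coeff j (∑ ν, PowerSeries.C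
        (∏ i, ((Real.log (1 + (a i : ℝ) / x) : ℝ) : ℂ) ^ (ν i : ℕ))
        * (Wf a G N x ν).map (algebraMap ℚ ℂ))
      = ((∑ ν, ((PowerSeries.coeff j (Wf a G N x ν) : ℚ) : ℝ)
        * ∏ i, Real.log (1 + (a i : ℝ) / x) ^ (ν i : ℕ) : ℝ) : ℂ) := by
    rw [map_sum]
    push_cast
    refine Finset.sum_congr rfl fun ν _ => ?_
    rw [PowerSeries.coeff_C_mul, PowerSeries.coeff_map, mul_comm]
    congr 1
  rw [hcoef, Complex.norm_real, Real.norm_eq_abs] at hcau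
  have hfac0 : (0 : ℝ) < j.factorial := by exact_mod_cast j.factorial_pos
  have h3 : (j.factorial : ℝ) * ((x : ℝ) ^ N * (C0 * (4 * A / x) ^ σ)) / (1 / (qq a x : ℝ)) ^ j
      = j.factorial * ((x : ℝ) ^ N * (4 * A / x) ^ σ * C0 * (qq a x : ℝ) ^ j) := by
    rw [one_div, inv_pow, div_inv_eq_mul]
    ring
  rw [h3] at hcau
  rw [abs_of_pos hq]
  exact le_of_mul_le_mul_left hcau hfac0

end MP60829e.GF
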