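import Pool.Agent.Lib.MP_60829e_nt.GF.Span
import Pool.Agent.Lib.MP_60829e_nt.GF.Siegel
import Pool.Agent.Lib.MP_60829e_nt.GF.Val
import Pool.Agent.Lib.MP_60829e_nt.GF.DetB
import Pool.Agent.Lib.MP_60829e_nt.GF.Asym
import Pool.Agent.Lib.MP_60829e_nt.GF.Rate

/-!
# THEOREM G
-/

namespace MP60829e.GF
open Polynomial

/-- A rational relation gives an integral one. -/
private theorem Gthm_int {α : Type*} [Fintype α] (η : α → ℝ) (h : ¬ LinearIndependent ℚ η) :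
    ∃ c : α → ℤ, c ≠ 0 ∧ ∑ ν, (c ν : ℝ) * η ν = 0 := by
  classical
  rw [Fintype.not_linearIndependent_iff] at h
  obtain ⟨c0, hc0, i1, hi1⟩ := h
  obtain ⟨P, hP⟩ : ∃ P : ℕ, P = ∏ ν, (c0 ν).den := ⟨_, rfl⟩
  have hP0 : (P : ℚ) ≠ 0 := by
    rw [hP, Nat.cast_ne_zero]
    exact Finset.prod_ne_zero_iff.2 fun ν _ => (c0 ν).den_nz
  have h1 : ∀ ν, ∃ z : ℤ, (z : ℚ) = c0 ν * P := by
    intro ν
    obtain ⟨k, hk⟩ : (c0 ν).den ∣ P := hP ▸ Finset.dvd_prod_of_mem _ (Finset.mem_univ ν)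
    refine ⟨(c0 ν).num * k, ?_⟩
    rw [hk]
    push_cast
    rw [← mul_assoc, Rat.mul_den_eq_num]
  choose c hc using h1
  refine ⟨c, fun h0 => ?_, ?_⟩
  · have h2 := hc i1
    rw [h0, Pi.zero_apply, Int.cast_zero] at h2
    exact mul_ne_zero hi1 hP0 h2.symm
  · have h2 : ∀ ν, (c ν : ℝ) * η ν = (P : ℝ) * (c0 ν • η ν) := by
      intro ν
      have h3 : (c ν : ℝ) = ((c0 ν : ℚ) : ℝ) * P := by
        have h4 := congrArg (fun q : ℚ => (q : ℝ)) (hc ν)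
        simpa using h4
      rw [h3, Rat.smul_def]
      ring
    rw [Finset.sum_congr rfl fun ν _ => h2 ν, ← Finset.mul_sum, hc0, mul_zero]

/-- The main inequality: sizes of the forms. -/
noncomputable def Gthm_Om (n D A E c1 : ℕ) (x : ℤ) (g : ℕ) : ℝ :=
  (Nat.lcmUpto (sg n D E g) : ℝ) ^ (n * D) *
    ((((D + 1) ^ n : ℕ) : ℝ) * (((E : ℝ) * g + 1) * Hs n D A E g * (2 * (x : ℝ)) ^ (E * g)) *
      2 ^ (n * D)) * (A * (2 * (x : ℝ)) ^ n) ^ (1 * g + c1) *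
    ((1 : ℕ) * (g : ℝ) + ((c1 + 1 : ℕ) : ℝ)) ^ (n * (D + 2) + 1)

/-- The main inequality: sizes of the values. -/
noncomputable def Gthm_de (n D A E c1 : ℕ) (x : ℤ) (g : ℕ) : ℝ :=
  (Nat.lcmUpto (sg n D E g) : ℝ) ^ (n * D) *
    ((x : ℝ) ^ (E * g) * (4 * A / x) ^ (((D + 1) ^ n * E - 1) * g) *
      ((((D + 1) ^ n : ℕ) : ℝ) * (((E : ℝ) * g + 1) * Hs n D A E g)) *
      ((2 * (x : ℝ)) ^ n) ^ (1 * g + c1))

private theorem Gthm_gr (n D A c1 : ℕ) (hA : 1 ≤ A) (x : ℤ) (hx : 1 ≤ x) (Cc : ℝ) (hCc : 0 ≤ Cc) :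
    Gr (fun g => (((D + 1) ^ n).factorial : ℝ) *
      (Cc * Gthm_Om n D A ((D + 1) ^ n * n + 3) c1 x g ^ ((D + 1) ^ n - 2) *
        Gthm_de n D A ((D + 1) ^ n * n + 3) c1 x g)) (rate n D A x) := by
  obtain ⟨E, hE⟩ : ∃ E, E = (D + 1) ^ n * n + 3 := ⟨_, rfl⟩
  have hx0 : (0 : ℝ) ≤ x := by exact_mod_cast (by omega : (0 : ℤ) ≤ x)
  have hx1 : (0 : ℝ) ≤ 2 * (x : ℝ) := by positivity
  have hL := Gr.L n D E
  have hH := Gr.Hs n D A E hA
  have hlin : Gr (fun g => (E : ℝ) * g + 1) 1 := by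
    have := Gr.lin E 1
    simpa using this
  have hm : Gr (fun _ => (((D + 1) ^ n : ℕ) : ℝ)) 1 := Gr.const (Nat.cast_nonneg _)
  have h2 : Gr (fun _ => (2 : ℝ) ^ (n * D)) 1 := Gr.const (by positivity)
  have hxE : Gr (fun g => (2 * (x : ℝ)) ^ (E * g)) ((2 * (x : ℝ)) ^ E) := Gr.exp hx1 E 0
  have hxE' : Gr (fun g => ((x : ℝ)) ^ (E * g)) ((x : ℝ) ^ E) := Gr.exp hx0 E 0
  have hAx : Gr (fun g => ((A : ℝ) * (2 * (x : ℝ)) ^ n) ^ (1 * g + c1))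
      (((A : ℝ) * (2 * (x : ℝ)) ^ n) ^ 1) := Gr.exp (by positivity) 1 c1
  have hAx' : Gr (fun g => ((2 * (x : ℝ)) ^ n) ^ (1 * g + c1)) (((2 * (x : ℝ)) ^ n) ^ 1) :=
    Gr.exp (by positivity) 1 c1
  have hl2 := (Gr.lin 1 (c1 + 1)).pow (n * (D + 2) + 1)
  have h4 : Gr (fun g => (4 * (A : ℝ) / x) ^ (((D + 1) ^ n * E - 1) * g))
      ((4 * (A : ℝ) / x) ^ ((D + 1) ^ n * E - 1)) := Gr.exp (by positivity) _ 0
  have hOm : Gr (Gthm_Om n D A E c1 x) _ :=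
    (((hL).mul ((hm.mul ((hlin.mul hH).mul hxE)).mul h2)).mul hAx).mul hl2
  have hde : Gr (Gthm_de n D A E c1 x) _ :=
    hL.mul (((hxE'.mul h4).mul (hm.mul (hlin.mul hH))).mul hAx')
  have hf : Gr (fun _ => (((D + 1) ^ n).factorial : ℝ)) 1 := Gr.const (Nat.cast_nonneg _)
  have hC : Gr (fun _ => Cc) 1 := Gr.const hCc
  have hall := hf.mul ((hC.mul (hOm.pow ((D + 1) ^ n - 2))).mul hde)
  rw [← hE]
  refine hall.mono hall.1 (fun g => le_rfl) (le_of_eq ?_)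
  rw [rate, ← hE]
  ring

/-- The inequality for one `g`. -/
private theorem Gthm_one (n D : ℕ) (hn : 1 ≤ n) (hD : 1 ≤ D) (A : ℕ) (hA1 : 1 ≤ A) (a : Fin n → ℤ)
    (ha : ∀ i, a i ≠ 0) (hinj : Function.Injective a) (hA : ∀ i, |a i| ≤ A) (x : ℤ)
    (hx : 8 * (A : ℤ) ≤ x) (c : (Fin n → Fin (D + 1)) → ℤ) (hc : c ≠ 0)
    (hη : ∑ ν : Fin n → Fin (D + 1), (c ν : ℝ) *
      ∏ i, Real.log (1 + (a i : ℝ) / x) ^ (ν i : ℕ) = 0)
    (c1 : ℕ) (hc1 : c1 = n * ((D + 1) ^ n) ^ 2 + 2 * (D + 1) ^ n) (g : ℕ) (hg1 : 1 ≤ g)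
    (hg : c1 ≤ g) :
    1 ≤ (((D + 1) ^ n).factorial : ℝ) *
      ((∑ ν, |(c ν : ℝ)|) * Gthm_Om n D A ((D + 1) ^ n * n + 3) c1 x g ^ ((D + 1) ^ n - 2) *
        Gthm_de n D A ((D + 1) ^ n * n + 3) c1 x g) := by
  classical
  obtain ⟨m, hm⟩ : ∃ m, m = (D + 1) ^ n := ⟨_, rfl⟩
  obtain ⟨E, hE⟩ : ∃ E, E = m * n + 3 := ⟨_, rfl⟩
  have hm2 : 2 ≤ m := by
    rw [hm]
    calc 2 ≤ D + 1 := by omega
      _ = (D + 1) ^ 1 := (pow_one _).symm
      _ ≤ (D + 1) ^ n := Nat.pow_le_pow_right (by omega) hn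
  have hE3 : 3 ≤ E := by omega
  have hx1 : 1 ≤ x := by
    have : (1 : ℤ) ≤ A := by exact_mod_cast hA1
    omega
  have hxA : (A : ℤ) ≤ x := by omega
  have hxa : ∀ i, 1 ≤ x + a i := by
    intro i
    have h1 := (abs_le.1 (hA i)).1
    have : (1 : ℤ) ≤ A := by exact_mod_cast hA1
    omega
  have hX1 : (1 : ℝ) ≤ x := by exact_mod_cast hx1
  have hX2 : (1 : ℝ) ≤ 2 * (x : ℝ) := by linarith
  have hX2n : (1 : ℝ) ≤ (2 * (x : ℝ)) ^ n := one_le_pow₀ hX2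
  have hAR : (1 : ℝ) ≤ A := by exact_mod_cast hA1
  have hAX : (1 : ℝ) ≤ A * (2 * (x : ℝ)) ^ n := by nlinarith
  -- σ
  have hσ : sg n D E g = (m * E - 1) * g := by
    rw [sg, ← hm, Nat.sub_mul, one_mul, mul_assoc]
  have hmE : m * E * g = (m * E - 1) * g + g := by
    obtain ⟨w, hw⟩ : ∃ w, m * E = w + 1 := ⟨m * E - 1, by
      have : 0 < m * E := by positivity
      omega⟩
    rw [hw, Nat.add_sub_cancel]
    ring
  obtain ⟨F, hF0, hFdeg, hFH, hFσ⟩ := siegel hn hD a A hA1 hA E g hg1 (by omega)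
  have hH0 : 0 ≤ Hs n D A E g := (Gr.Hs n D A E hA1).1 g
  obtain ⟨FQ, hFQ⟩ : ∃ FQ : (Fin n → Fin (D + 1)) → ℚ[X],
    FQ = fun μ => (F μ).map (Int.castRingHom ℚ) := ⟨_, rfl⟩
  rw [← hFQ] at hFσ
  have hFQ0 : FQ ≠ 0 := by
    intro h0
    apply hF0
    funext μ
    have h1 := congrFun h0 μ
    rw [hFQ, Pi.zero_apply] at h1
    exact (Polynomial.map_eq_zero_iff (Int.cast_injective : Function.Injective
      (Int.castRingHom ℚ))).1 h1
  have hFQdeg : ∀ μ, (FQ μ).natDegree ≤ E * g := fun μ => by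
    rw [hFQ]
    exact (Polynomial.natDegree_map_le).trans (hFdeg μ)
  obtain ⟨J, hJ⟩ : ∃ J, J = 1 * g + c1 := ⟨_, rfl⟩
  have hJσ : J ≤ sg n D E g := by
    rw [hσ, hJ]
    have h1 : 3 ≤ m * E - 1 := by
      have : 2 * 3 ≤ m * E := Nat.mul_le_mul hm2 hE3
      omega
    calc 1 * g + c1 ≤ 3 * g := by omega
      _ ≤ (m * E - 1) * g := Nat.mul_le_mul_right _ h1
  -- the integral vectors
  have hden : ∀ (j : Fin (J + 1)) (ν : Fin n → Fin (D + 1)), ∃ z : ℤ,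
      ((Nat.lcmUpto (sg n D E g) : ℕ) : ℚ) ^ (n * D) *
        PowerSeries.coeff (j : ℕ) (Wf a FQ (E * g) x ν) = z := by
    intro j ν
    have h1 := forms_den a F (E * g) hFdeg x (by omega) J (sg n D E g) hJσ ν
    rw [← hFQ] at h1
    exact h1 j (by omega)
  choose w hw using hden
  have hLpos : 0 < Nat.lcmUpto (sg n D E g) := Nat.lcmUpto_pos _
  have hL0 : ((Nat.lcmUpto (sg n D E g) : ℕ) : ℚ) ^ (n * D) ≠ 0 :=
    pow_ne_zero _ (by exact_mod_cast hLpos.ne')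
  have hLR : (0 : ℝ) < (Nat.lcmUpto (sg n D E g) : ℝ) := by exact_mod_cast hLpos
  have hEg : 3 * g ≤ E * g := Nat.mul_le_mul_right _ hE3
  have hm1 : (m - 1) * (E * g) + E * g = m * E * g := by
    obtain ⟨m', hm'⟩ : ∃ m', m = m' + 1 := ⟨m - 1, by omega⟩
    rw [hm', Nat.add_sub_cancel]
    ring
  have hspan : ∀ κ : (Fin n → Fin (D + 1)) → ℚ, (∀ j, ∑ ν, κ ν * (w j ν : ℚ) = 0) → κ = 0 := by
    intro κ hκ
    refine span_forms a ha hinj FQ hFQ0 (E * g) (sg n D E g) J hFQdeg hFσ ?_ ?_ x (by omega)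
      (fun i => by have := hxa i; omega) κ fun j hj => ?_
    · rw [hσ, ← hm]
      rw [← hm] at hc1
      generalize n * m ^ 2 = u at *
      generalize (m - 1) * (E * g) = u1 at *
      generalize m * E * g = u2 at *
      generalize (m * E - 1) * g = u3 at *
      generalize E * g = u4 at *
      omega
    · rw [hσ, ← hm, ← mul_assoc]
      rw [← hm] at hc1
      generalize n * m ^ 2 = u at *
      generalize m * E * g = u2 at *
      generalize (m * E - 1) * g = u3 at *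
      omega
    · have h1 := hκ ⟨j, by omega⟩
      have h2 : ∑ ν, κ ν * (w ⟨j, by omega⟩ ν : ℚ) =
          ((Nat.lcmUpto (sg n D E g) : ℕ) : ℚ) ^ (n * D) *
            ∑ ν, κ ν * PowerSeries.coeff j (Wf a FQ (E * g) x ν) := by
        rw [Finset.mul_sum]
        refine Finset.sum_congr rfl fun ν _ => ?_
        rw [← hw]
        ring
      rw [h2] at h1
      exact (mul_eq_zero.1 h1).resolve_left hL0
  have hcard : Fintype.card (Fin n → Fin (D + 1)) = (D + 1) ^ n := by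
    rw [Fintype.card_fun, Fintype.card_fin, Fintype.card_fin]
  have hHs : 0 < Hs n D A E g := by
    rw [Hs]
    positivity
  have hwR : ∀ j ν, ((w j ν : ℤ) : ℝ) = (Nat.lcmUpto (sg n D E g) : ℝ) ^ (n * D) *
      ((PowerSeries.coeff (j : ℕ) (Wf a FQ (E * g) x ν) : ℚ) : ℝ) := by
    intro j ν
    have h1 := congrArg (fun q : ℚ => (q : ℝ)) (hw j ν)
    push_cast at h1
    exact h1.symm
  have hqq := abs_qq_le a A hA x hxA
  have key := one_le_of_relation (0 : Fin n → Fin (D + 1)) (by rw [hcard, ← hm]; exact hm2) w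
    hspan c hc (fun ν => ∏ i, Real.log (1 + (a i : ℝ) / x) ^ (ν i : ℕ)) ?_ hη
    (∑ ν, |(c ν : ℝ)|) (Gthm_Om n D A E c1 x g) (Gthm_de n D A E c1 x g) ?_ ?_ ?_ ?_
  · rw [hcard, ← hm] at key
    rw [← hm, ← hE]
    exact key
  · refine Finset.prod_eq_one fun i _ => ?_
    rw [Pi.zero_apply]
    exact pow_zero _
  · intro ν
    exact Finset.single_le_sum (f := fun ν => |(c ν : ℝ)|) (fun ν _ => abs_nonneg _)
      (Finset.mem_univ ν)
  · rw [Gthm_Om]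
    have h1 : (0 : ℝ) < A := by linarith
    have h2 : (0 : ℝ) < x := by linarith
    positivity
  · intro j ν
    have h1 := forms_bd a A hA1 hA F (E * g) hFdeg (Hs n D A E g) hFH x hxA ν
    rw [← hFQ] at h1
    have h2 := h1 j
    rw [hwR, abs_mul, abs_of_nonneg (by positivity : (0 : ℝ) ≤
      (Nat.lcmUpto (sg n D E g) : ℝ) ^ (n * D)), Gthm_Om, mul_assoc, mul_assoc]
    refine mul_le_mul_of_nonneg_left ?_ (by positivity)
    refine h2.trans ?_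
    rw [mul_assoc]
    have h3 : ((E * g : ℕ) : ℝ) = (E : ℝ) * g := by push_cast; ring
    rw [h3]
    have hjJ : (j : ℕ) ≤ J := by omega
    refine mul_le_mul_of_nonneg_left ?_ ?_
    · refine mul_le_mul (pow_le_pow_right₀ hAX (by omega)) ?_ (by positivity) (by positivity)
      refine pow_le_pow_left₀ (by positivity) ?_ _
      have h4 : ((j : ℕ) : ℝ) ≤ (J : ℝ) := by exact_mod_cast hjJ
      have h5 : (J : ℝ) = g + c1 := by
        rw [hJ]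
        push_cast
        ring
      push_cast
      linarith
    · positivity
  · intro j
    have h1 := val_bound a A hA1 hA F (E * g) (sg n D E g) hFdeg (Hs n D A E g) hFH
      (hFQ ▸ hFσ) x hx j
    rw [← hFQ] at h1
    have h2 : ∑ ν, ((w j ν : ℤ) : ℝ) * ∏ i, Real.log (1 + (a i : ℝ) / x) ^ (ν i : ℕ) =
        (Nat.lcmUpto (sg n D E g) : ℝ) ^ (n * D) *
        ∑ ν, ((PowerSeries.coeff (j : ℕ) (Wf a FQ (E * g) x ν) : ℚ) : ℝ) *
          ∏ i, Real.log (1 + (a i : ℝ) / x) ^ (ν i : ℕ) := by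
      rw [Finset.mul_sum]
      refine Finset.sum_congr rfl fun ν _ => ?_
      rw [hwR]
      ring
    rw [h2, abs_mul, abs_of_nonneg (by positivity : (0 : ℝ) ≤
      (Nat.lcmUpto (sg n D E g) : ℝ) ^ (n * D)), Gthm_de]
    refine mul_le_mul_of_nonneg_left ?_ (by positivity)
    refine h1.trans ?_
    have h3 : ((E * g : ℕ) : ℝ) = (E : ℝ) * g := by push_cast; ring
    rw [h3, hσ, hm]
    refine mul_le_mul_of_nonneg_left ?_ ?_
    · calc |((qq a x : ℤ) : ℝ)| ^ (j : ℕ) ≤ ((2 * (x : ℝ)) ^ n) ^ (j : ℕ) :=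
            pow_le_pow_left₀ (abs_nonneg _) hqq _
        _ ≤ ((2 * (x : ℝ)) ^ n) ^ (1 * g + c1) := pow_le_pow_right₀ hX2n (by omega)
    · have h2 : (0 : ℝ) < x := by linarith
      positivity

/-- THEOREM G. Suppose the monomials are dependent: an integral vector `c ≠ 0` with `∑ c_ν η_ν = 0`,
`η_ν = ∏ log(1 + a_i/x)^(ν_i)`. For each `g ≥ 1` with `g ≥ n m^2 + 2 m`, `E = m n + 3`, `N = E g`, `σ = m N - g`,
`J = g + n m^2 + 2 m`, take `F` from `siegel`, `w_j = L^(nD) coeff_j (Wf ν)`, `j ≤ J ≤ σ`, integral by `forms_den`,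
no rational vector orthogonal to all by `span_forms`; sizes `forms_bd`, `val_bound`. `one_le_of_relation` gives
`1 ≤ m! Cc Ω^(m-2) δ`, and the right side has rate `rate n D A x < 1`. -/
theorem theoremG (n D : ℕ) (hn : 1 ≤ n) (hD : 1 ≤ D) (A : ℕ) (hA1 : 1 ≤ A) (a : Fin n → ℤ)
    (ha : ∀ i, a i ≠ 0) (hinj : Function.Injective a) (hA : ∀ i, |a i| ≤ A) (x : ℤ)
    (hx : ((4 * A : ℕ) : ℤ) ^ KG n D ≤ x) :
    LinearIndependent ℚ
      (fun ν : Fin n → Fin (D + 1) => ∏ i, Real.log (1 + (a i : ℝ) / x) ^ (ν i : ℕ)) := by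
  classical
  by_contra hdep
  obtain ⟨c, hc, hη⟩ := Gthm_int _ hdep
  have hK : 2 ≤ KG n D := by
    have h1 : 1 ≤ n ^ 3 := Nat.one_le_pow _ _ hn
    have h2 : 1 ≤ (D + 1) ^ (5 * n + 1) := Nat.one_le_pow _ _ (by omega)
    rw [KG]
    nlinarith [Nat.mul_le_mul h1 h2]
  have hA' : (1 : ℤ) ≤ A := by exact_mod_cast hA1
  have h8 : 8 * (A : ℤ) ≤ x := by
    have h1 : ((4 * A : ℕ) : ℤ) ^ 2 ≤ ((4 * A : ℕ) : ℤ) ^ KG n D :=
      pow_le_pow_right₀ (by push_cast; omega) hK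
    have h2 : 8 * (A : ℤ) ≤ ((4 * A : ℕ) : ℤ) ^ 2 := by
      push_cast
      nlinarith
    exact h2.trans (h1.trans hx)
  obtain ⟨c1, hc1⟩ : ∃ c1, c1 = n * ((D + 1) ^ n) ^ 2 + 2 * (D + 1) ^ n := ⟨_, rfl⟩
  obtain ⟨g0, hg0⟩ := (Gthm_gr n D A c1 hA1 x (by omega) (∑ ν, |(c ν : ℝ)|)
    (Finset.sum_nonneg fun _ _ => abs_nonneg _)).exists_lt (rate_lt_one n D A hn hD hA1 x hx)
  have h1 := hg0 (g0 + c1 + 1) (by omega)
  have h2 := Gthm_one n D hn hD A hA1 a ha hinj hA x h8 c hc hη c1 hc1 (g0 + c1 + 1) (by omega)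
    (by omega)
  exact absurd h1 (not_lt.2 h2)

end MP60829e.GF
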