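import Pool.Agent.Lib.MP_60829e_nt.GF.Defs
import Mathlib.NumberTheory.Chebyshev

/-!
# Denominators and sizes of coefficients of power series
-/

namespace MP60829e.GF
open Polynomial

/-- `L^e` clears the denominators of the coefficients of index `≤ t`. -/
def Den (L e t : ℕ) (f : PowerSeries ℚ) : Prop :=
  ∀ j ≤ t, ∃ z : ℤ, (L : ℚ) ^ e * PowerSeries.coeff j f = z

/-- `|f_j| ≤ K B^j (j+1)^e`. -/
def Bd (K B : ℝ) (e : ℕ) (f : PowerSeries ℚ) : Prop :=
  ∀ j, |((PowerSeries.coeff j f : ℚ) : ℝ)| ≤ K * B ^ j * ((j : ℝ) + 1) ^ e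

private theorem Lg_sum_int {α : Type*} (s : Finset α) (g : α → ℚ)
    (h : ∀ i ∈ s, ∃ z : ℤ, g i = z) : ∃ z : ℤ, ∑ i ∈ s, g i = z := by
  classical
  induction s using Finset.induction_on with
  | empty => exact ⟨0, by simp⟩
  | insert a s ha ih =>
    obtain ⟨z1, h1⟩ := h a (Finset.mem_insert_self a s)
    obtain ⟨z2, h2⟩ := ih fun i hi => h i (Finset.mem_insert_of_mem hi)
    exact ⟨z1 + z2, by rw [Finset.sum_insert ha, h1, h2]; push_cast; ring⟩

theorem Den.mul {L e1 e2 t : ℕ} {f g : PowerSeries ℚ} (hf : Den L e1 t f) (hg : Den L e2 t g) :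
    Den L (e1 + e2) t (f * g) := by
  intro j hj
  rw [PowerSeries.coeff_mul, Finset.mul_sum]
  apply Lg_sum_int
  intro p hp
  rw [Finset.mem_antidiagonal] at hp
  obtain ⟨z1, h1⟩ := hf p.1 (by omega)
  obtain ⟨z2, h2⟩ := hg p.2 (by omega)
  refine ⟨z1 * z2, ?_⟩
  push_cast
  rw [← h1, ← h2]
  ring

theorem Den.mono {L e1 e2 t1 t2 : ℕ} {f : PowerSeries ℚ} (hf : Den L e1 t1 f) (he : e1 ≤ e2)
    (ht : t2 ≤ t1) : Den L e2 t2 f := by
  intro j hj
  obtain ⟨z, hz⟩ := hf j (hj.trans ht)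
  refine ⟨(L : ℤ) ^ (e2 - e1) * z, ?_⟩
  push_cast
  rw [← hz, ← mul_assoc, ← pow_add, Nat.sub_add_cancel he]

/-- A series with integral coefficients. -/
theorem Den.of_int {L t : ℕ} {f : PowerSeries ℚ}
    (hf : ∀ j ≤ t, ∃ z : ℤ, PowerSeries.coeff j f = z) : Den L 0 t f := by
  intro j hj
  obtain ⟨z, hz⟩ := hf j hj
  exact ⟨z, by rw [pow_zero, one_mul, hz]⟩

theorem Den.natCast (L t c : ℕ) : Den L 0 t (c : PowerSeries ℚ) := by
  apply Den.of_int
  intro j _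
  rw [show (c : PowerSeries ℚ) = PowerSeries.C (c : ℚ) from (map_natCast _ c).symm,
    PowerSeries.coeff_C]
  by_cases h : j = 0
  · exact ⟨c, by simp [h]⟩
  · exact ⟨0, by simp [h]⟩

private theorem Lg_den_one (L t : ℕ) : Den L 0 t (1 : PowerSeries ℚ) := by
  have := Den.natCast L t 1
  simpa using this

theorem Den.pow {L e t : ℕ} {f : PowerSeries ℚ} (hf : Den L e t f) (k : ℕ) :
    Den L (e * k) t (f ^ k) := by
  induction k with
  | zero => rw [pow_zero, mul_zero]; exact Lg_den_one L t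
  | succ k ih => rw [pow_succ, mul_add, mul_one]; exact ih.mul hf

theorem Den.prod {α : Type*} {L t : ℕ} (s : Finset α) (e : α → ℕ) (f : α → PowerSeries ℚ)
    (hf : ∀ i ∈ s, Den L (e i) t (f i)) : Den L (∑ i ∈ s, e i) t (∏ i ∈ s, f i) := by
  classical
  induction s using Finset.induction_on with
  | empty => simpa using Lg_den_one L t
  | insert a s ha ih =>
    rw [Finset.sum_insert ha, Finset.prod_insert ha]
    exact (hf a (Finset.mem_insert_self a s)).mul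
      (ih fun i hi => hf i (Finset.mem_insert_of_mem hi))

theorem Den.sum {α : Type*} {L e t : ℕ} (s : Finset α) (f : α → PowerSeries ℚ)
    (hf : ∀ i ∈ s, Den L e t (f i)) : Den L e t (∑ i ∈ s, f i) := by
  intro j hj
  rw [map_sum, Finset.mul_sum]
  exact Lg_sum_int s _ fun i hi => hf i hi j hj

/-- `lg b` has the denominators `k ≤ t`, which divide `lcmUpto t'` for `t ≤ t'`. -/
theorem Den.lgs {t t' : ℕ} (ht : t ≤ t') (b : ℤ) : Den (Nat.lcmUpto t') 1 t (lg b) := by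
  intro j hj
  rw [lg, PowerSeries.coeff_mk, pow_one]
  rcases Nat.eq_zero_or_pos j with h | h
  · exact ⟨0, by simp [h]⟩
  · have hdvd : j ∣ Nat.lcmUpto t' := by
      rw [Nat.lcmUpto]
      exact Finset.dvd_lcm (f := id) (Finset.mem_Icc.2 ⟨h, hj.trans ht⟩)
    obtain ⟨m, hm⟩ := hdvd
    refine ⟨(m : ℤ) * ((-1) ^ (j + 1) * b ^ j), ?_⟩
    rw [hm]
    have hj0 : (j : ℚ) ≠ 0 := Nat.cast_ne_zero.2 h.ne'
    push_cast
    field_simp

theorem Bd.mul {K1 K2 B : ℝ} {e1 e2 : ℕ} {f g : PowerSeries ℚ} (hB : 0 ≤ B) (h1 : 0 ≤ K1)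
    (h2 : 0 ≤ K2) (hf : Bd K1 B e1 f) (hg : Bd K2 B e2 g) :
    Bd (K1 * K2) B (e1 + e2 + 1) (f * g) := by
  intro j
  rw [PowerSeries.coeff_mul]
  push_cast
  calc |∑ x ∈ Finset.antidiagonal j, ((PowerSeries.coeff x.1 f : ℚ) : ℝ)
        * ((PowerSeries.coeff x.2 g : ℚ) : ℝ)|
      ≤ ∑ x ∈ Finset.antidiagonal j, |((PowerSeries.coeff x.1 f : ℚ) : ℝ)
        * ((PowerSeries.coeff x.2 g : ℚ) : ℝ)| := Finset.abs_sum_le_sum_abs _ _
    _ ≤ ∑ x ∈ Finset.antidiagonal j, K1 * K2 * B ^ j * ((j : ℝ) + 1) ^ (e1 + e2) := by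
        apply Finset.sum_le_sum
        intro x hx
        rw [Finset.mem_antidiagonal] at hx
        have hx1 : (x.1 : ℝ) + 1 ≤ (j : ℝ) + 1 := by
          have : x.1 ≤ j := by omega
          have : (x.1 : ℝ) ≤ j := by exact_mod_cast this
          linarith
        have hx2 : (x.2 : ℝ) + 1 ≤ (j : ℝ) + 1 := by
          have : x.2 ≤ j := by omega
          have : (x.2 : ℝ) ≤ j := by exact_mod_cast this
          linarith
        have p1 : (0 : ℝ) ≤ (x.1 : ℝ) + 1 := by positivity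
        have p2 : (0 : ℝ) ≤ (x.2 : ℝ) + 1 := by positivity
        rw [abs_mul]
        calc |((PowerSeries.coeff x.1 f : ℚ) : ℝ)| * |((PowerSeries.coeff x.2 g : ℚ) : ℝ)|
            ≤ (K1 * B ^ x.1 * ((x.1 : ℝ) + 1) ^ e1) * (K2 * B ^ x.2 * ((x.2 : ℝ) + 1) ^ e2) :=
              mul_le_mul (hf _) (hg _) (abs_nonneg _) (by positivity)
          _ ≤ (K1 * B ^ x.1 * ((j : ℝ) + 1) ^ e1) * (K2 * B ^ x.2 * ((j : ℝ) + 1) ^ e2) := by
              gcongr
          _ = K1 * K2 * B ^ j * ((j : ℝ) + 1) ^ (e1 + e2) := by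
              rw [← hx, pow_add B, pow_add]; ring
    _ = K1 * K2 * B ^ j * ((j : ℝ) + 1) ^ (e1 + e2 + 1) := by
        rw [Finset.sum_const, Finset.Nat.card_antidiagonal, nsmul_eq_mul, pow_succ]
        push_cast
        ring

theorem Bd.mono {K1 K2 B1 B2 : ℝ} {e1 e2 : ℕ} {f : PowerSeries ℚ} (hB : 0 ≤ B1) (hB' : B1 ≤ B2)
    (h1 : 0 ≤ K1) (h2 : K1 ≤ K2) (he : e1 ≤ e2) (hf : Bd K1 B1 e1 f) : Bd K2 B2 e2 f := by
  intro j
  have hj : (1 : ℝ) ≤ (j : ℝ) + 1 := by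
    have : (0 : ℝ) ≤ j := by positivity
    linarith
  have hK2 : 0 ≤ K2 := h1.trans h2
  have hB2 : 0 ≤ B2 := hB.trans hB'
  calc |((PowerSeries.coeff j f : ℚ) : ℝ)| ≤ K1 * B1 ^ j * ((j : ℝ) + 1) ^ e1 := hf j
    _ ≤ K2 * B2 ^ j * ((j : ℝ) + 1) ^ e1 := by gcongr
    _ ≤ K2 * B2 ^ j * ((j : ℝ) + 1) ^ e2 := by
        have := pow_le_pow_right₀ hj he
        gcongr

theorem Bd.natCast {B : ℝ} (hB : 0 ≤ B) (c : ℕ) : Bd c B 0 (c : PowerSeries ℚ) := by
  intro j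
  rw [show (c : PowerSeries ℚ) = PowerSeries.C (c : ℚ) from (map_natCast _ c).symm,
    PowerSeries.coeff_C]
  by_cases h : j = 0
  · simp [h]
  · simp only [h, if_false, Rat.cast_zero, abs_zero]
    positivity

theorem Bd.one {B : ℝ} (hB : 0 ≤ B) : Bd 1 B 0 (1 : PowerSeries ℚ) := by
  have := Bd.natCast hB 1
  simpa using this

theorem Bd.pow {B : ℝ} {f : PowerSeries ℚ} (hB : 0 ≤ B) (hf : Bd 1 B 0 f) (k : ℕ) :
    Bd 1 B k (f ^ k) := by
  induction k with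
  | zero => rw [pow_zero]; exact Bd.one hB
  | succ k ih =>
    rw [pow_succ]
    have := ih.mul hB zero_le_one zero_le_one hf
    simpa using this

theorem Bd.prod {α : Type*} {B : ℝ} {e : ℕ} (hB : 0 ≤ B) (s : Finset α) (K : α → ℝ)
    (hK : ∀ i ∈ s, 0 ≤ K i) (f : α → PowerSeries ℚ) (hf : ∀ i ∈ s, Bd (K i) B e (f i)) :
    Bd (∏ i ∈ s, K i) B (s.card * (e + 1)) (∏ i ∈ s, f i) := by
  classical
  induction s using Finset.induction_on with
  | empty => simpa using Bd.one hB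
  | insert a s ha ih =>
    rw [Finset.prod_insert ha, Finset.prod_insert ha, Finset.card_insert_of_notMem ha]
    have h1 := (hf a (Finset.mem_insert_self a s)).mul hB
      (hK a (Finset.mem_insert_self a s))
      (Finset.prod_nonneg fun i hi => hK i (Finset.mem_insert_of_mem hi))
      (ih (fun i hi => hK i (Finset.mem_insert_of_mem hi))
        fun i hi => hf i (Finset.mem_insert_of_mem hi))
    rwa [show (s.card + 1) * (e + 1) = e + s.card * (e + 1) + 1 by ring]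

theorem Bd.sum {α : Type*} {B : ℝ} {e : ℕ} (s : Finset α) (K : α → ℝ) (f : α → PowerSeries ℚ)
    (hf : ∀ i ∈ s, Bd (K i) B e (f i)) : Bd (∑ i ∈ s, K i) B e (∑ i ∈ s, f i) := by
  intro j
  rw [map_sum]
  push_cast
  calc |∑ i ∈ s, ((PowerSeries.coeff j (f i) : ℚ) : ℝ)|
      ≤ ∑ i ∈ s, |((PowerSeries.coeff j (f i) : ℚ) : ℝ)| := Finset.abs_sum_le_sum_abs _ _
    _ ≤ ∑ i ∈ s, K i * B ^ j * ((j : ℝ) + 1) ^ e := Finset.sum_le_sum fun i hi => hf i hi j
    _ = (∑ i ∈ s, K i) * B ^ j * ((j : ℝ) + 1) ^ e := by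
        rw [Finset.sum_mul, Finset.sum_mul]

theorem Bd.lgs {B : ℝ} (b : ℤ) (hb : |(b : ℝ)| ≤ B) : Bd 1 B 0 (lg b) := by
  intro j
  rw [lg, PowerSeries.coeff_mk]
  push_cast
  rw [pow_zero, mul_one, one_mul, abs_div, abs_mul, abs_pow, abs_pow, abs_neg, abs_one, one_pow,
    one_mul, Nat.abs_cast]
  have hB : 0 ≤ B := (abs_nonneg _).trans hb
  rcases Nat.eq_zero_or_pos j with h | h
  · simp [h]
  · have hj : (1 : ℝ) ≤ j := by exact_mod_cast h
    calc |(b : ℝ)| ^ j / j ≤ |(b : ℝ)| ^ j := div_le_self (by positivity) hj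
      _ ≤ B ^ j := pow_le_pow_left₀ (abs_nonneg _) hb j

/-- `Ec` of logarithms. -/
theorem Den.Ecs {n D t t' : ℕ} (ht : t ≤ t') (b : Fin n → ℤ) (ν μ : Fin n → Fin (D + 1)) :
    Den (Nat.lcmUpto t') (n * D) t (Ec (fun i => lg (b i)) ν μ) := by
  rw [Ec]
  have h := Den.prod (L := Nat.lcmUpto t') (t := t) Finset.univ
    (fun i => 0 + 1 * ((μ i : ℕ) - (ν i : ℕ)))
    (fun i => ((Nat.choose (μ i) (ν i) : ℕ) : PowerSeries ℚ)
      * (lg (b i)) ^ ((μ i : ℕ) - (ν i : ℕ)))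
    (fun i _ => (Den.natCast _ _ _).mul ((Den.lgs ht (b i)).pow _))
  refine h.mono ?_ le_rfl
  calc ∑ i : Fin n, (0 + 1 * ((μ i : ℕ) - (ν i : ℕ))) ≤ ∑ _i : Fin n, D := by
        apply Finset.sum_le_sum
        intro i _
        have := (μ i).2
        omega
    _ = n * D := by simp

theorem Bd.Ecs {n D : ℕ} {B : ℝ} (b : Fin n → ℤ) (hb : ∀ i, |(b i : ℝ)| ≤ B) (hB : 0 ≤ B)
    (ν μ : Fin n → Fin (D + 1)) :
    Bd (2 ^ (n * D)) B (n * (D + 2)) (Ec (fun i => lg (b i)) ν μ) := by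
  rw [Ec]
  have h := Bd.prod (e := D + 1) hB Finset.univ (fun _ => (2 : ℝ) ^ D)
    (fun i _ => by positivity)
    (fun i => ((Nat.choose (μ i) (ν i) : ℕ) : PowerSeries ℚ)
      * (lg (b i)) ^ ((μ i : ℕ) - (ν i : ℕ)))
    (fun i _ => by
      have h1 := (Bd.natCast hB (Nat.choose (μ i) (ν i))).mul hB (Nat.cast_nonneg _) zero_le_one
        ((Bd.lgs (b i) (hb i)).pow hB ((μ i : ℕ) - (ν i : ℕ)))
      refine h1.mono hB le_rfl (by positivity) ?_ ?_
      · rw [mul_one]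
        have h2 : Nat.choose (μ i) (ν i) ≤ 2 ^ D :=
          (Nat.choose_le_two_pow _ _).trans (Nat.pow_le_pow_right (by norm_num)
            (by have := (μ i).2; omega))
        exact_mod_cast h2
      · have := (μ i).2
        omega)
  have e1 : ∏ _i : Fin n, (2 : ℝ) ^ D = 2 ^ (n * D) := by
    rw [Finset.prod_const, Finset.card_univ, Fintype.card_fin, ← pow_mul, mul_comm]
  rw [e1, Finset.card_univ, Fintype.card_fin] at h
  exact h

end MP60829e.GF
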