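import Pool.Agent.Lib.MP_60829e_nt.GF.Res
import Mathlib.LinearAlgebra.Matrix.Adjugate
import Mathlib.RingTheory.PowerSeries.Order
import Mathlib.RingTheory.PowerSeries.Inverse
import Mathlib.Algebra.Polynomial.Degree.Lemmas

/-!
# Orders of the determinant at a point (AL2), degree of the determinant
-/

namespace MP60829e.GF
open Polynomial
open scoped Matrix

theorem Ord_deriv_zz (z0 c : ℚ) :
    PowerSeries.derivative ℚ (zz z0 c) = PowerSeries.C c := by
  rw [zz, map_add, Derivation.leibniz]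
  have h1 : PowerSeries.derivative ℚ (PowerSeries.C z0 : PowerSeries ℚ) = 0 :=
    PowerSeries.derivative_C
  have h2 : PowerSeries.derivative ℚ (PowerSeries.C c : PowerSeries ℚ) = 0 :=
    PowerSeries.derivative_C
  have h3 : PowerSeries.derivative ℚ (PowerSeries.X : PowerSeries ℚ) = 1 :=
    PowerSeries.derivative_X
  rw [h1, h2, h3, smul_zero, add_zero, zero_add, smul_eq_mul, mul_one]

theorem Ord_deriv_aeval (z0 c : ℚ) (p : ℚ[X]) :
    PowerSeries.derivative ℚ (aeval (zz z0 c) p) =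
      PowerSeries.C c * aeval (zz z0 c) (derivative p) := by
  rw [Derivation.map_aeval, Ord_deriv_zz, smul_eq_mul, mul_comm]

/-- `T(z) ⟨D_jF,u⟩' = c ⟨D_(j+1)F,u⟩ + c j T'(z) ⟨D_jF,u⟩` for horizontal `u`
(chain rule `Derivation.map_aeval`, `(zz z0 c)' = c`). -/
theorem deriv_pr {n : ℕ} {ι : Type*} [Fintype ι] (a : Fin n → ℤ) (M : Fin n → Matrix ι ι ℚ)
    (F : ι → ℚ[X]) (z0 c : ℚ) (u : ι → PowerSeries ℚ) (hu : Hor a M z0 c u) (j : ℕ) :
    aeval (zz z0 c) (T a) * PowerSeries.derivative ℚ (pr z0 c (Dn a M F j) u)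
      = PowerSeries.C c * pr z0 c (Dn a M F (j + 1)) u
        + PowerSeries.C c * aeval (zz z0 c) ((j : ℚ[X]) * derivative (T a))
          * pr z0 c (Dn a M F j) u := by
  have e1 : aeval (zz z0 c) (T a) * PowerSeries.derivative ℚ (pr z0 c (Dn a M F j) u) =
      ∑ b, (PowerSeries.C c * (aeval (zz z0 c) (T a) *
        aeval (zz z0 c) (derivative (Dn a M F j b)) * u b) +
        PowerSeries.C c * ∑ i, ∑ b', aeval (zz z0 c) (C (a i : ℚ) * Ti a i) *
          PowerSeries.C (M i b b') * aeval (zz z0 c) (Dn a M F j b) * u b') := by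
    rw [pr, map_sum, Finset.mul_sum]
    refine Finset.sum_congr rfl fun b _ => ?_
    rw [Derivation.leibniz, Ord_deriv_aeval, smul_eq_mul, smul_eq_mul]
    have h1 := hu b
    have h2 : aeval (zz z0 c) (T a) * (aeval (zz z0 c) (Dn a M F j b) *
        PowerSeries.derivative ℚ (u b) + u b * (PowerSeries.C c *
          aeval (zz z0 c) (derivative (Dn a M F j b)))) =
        PowerSeries.C c * (aeval (zz z0 c) (T a) *
          aeval (zz z0 c) (derivative (Dn a M F j b)) * u b) +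
        aeval (zz z0 c) (Dn a M F j b) * (aeval (zz z0 c) (T a) *
          PowerSeries.derivative ℚ (u b)) := by ring
    rw [h2, h1]
    refine congrArg (HAdd.hAdd _) ?_
    rw [mul_left_comm, Finset.mul_sum]
    refine congrArg (HMul.hMul _) ?_
    refine Finset.sum_congr rfl fun i _ => ?_
    rw [Finset.mul_sum, Finset.mul_sum]
    refine Finset.sum_congr rfl fun b' _ => ?_
    ring
  have e2 : PowerSeries.C c * pr z0 c (Dn a M F (j + 1)) u
        + PowerSeries.C c * aeval (zz z0 c) ((j : ℚ[X]) * derivative (T a))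
          * pr z0 c (Dn a M F j) u =
      ∑ b, (PowerSeries.C c * (aeval (zz z0 c) (T a) *
        aeval (zz z0 c) (derivative (Dn a M F j b)) * u b) +
        PowerSeries.C c * ∑ i, ∑ b', aeval (zz z0 c) (C (a i : ℚ) * Ti a i) *
          PowerSeries.C (M i b' b) * aeval (zz z0 c) (Dn a M F j b') * u b) := by
    rw [pr, pr, Finset.mul_sum, Finset.mul_sum, ← Finset.sum_add_distrib]
    refine Finset.sum_congr rfl fun b _ => ?_
    have h1 : aeval (zz z0 c) (Dn a M F (j + 1) b) = aeval (zz z0 c) (T a) *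
        aeval (zz z0 c) (derivative (Dn a M F j b)) -
        aeval (zz z0 c) ((j : ℚ[X]) * derivative (T a)) * aeval (zz z0 c) (Dn a M F j b) +
        ∑ i, ∑ b', aeval (zz z0 c) (C (a i : ℚ) * Ti a i) *
          PowerSeries.C (M i b' b) * aeval (zz z0 c) (Dn a M F j b') := by
      rw [Dn, map_add, map_sub, map_mul, map_mul, map_sum]
      refine congrArg (HAdd.hAdd _) ?_
      refine Finset.sum_congr rfl fun i _ => ?_
      rw [map_mul, map_sum, Finset.mul_sum]
      refine Finset.sum_congr rfl fun b' _ => ?_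
      rw [map_mul (aeval (zz z0 c)) (C (M i b' b)), aeval_C, mul_assoc]
      rfl
    have h2 : (∑ i, ∑ b', aeval (zz z0 c) (C (a i : ℚ) * Ti a i) *
          PowerSeries.C (M i b' b) * aeval (zz z0 c) (Dn a M F j b') * u b) =
        (∑ i, ∑ b', aeval (zz z0 c) (C (a i : ℚ) * Ti a i) *
          PowerSeries.C (M i b' b) * aeval (zz z0 c) (Dn a M F j b')) * u b := by
      rw [Finset.sum_mul]
      refine Finset.sum_congr rfl fun i _ => ?_
      rw [Finset.sum_mul]
    rw [h1, h2]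
    ring
  rw [e1, e2, Finset.sum_add_distrib, Finset.sum_add_distrib]
  refine congrArg (HAdd.hAdd _) ?_
  rw [← Finset.mul_sum, ← Finset.mul_sum]
  refine congrArg (HMul.hMul _) ?_
  rw [Finset.sum_comm, Finset.sum_comm (s := Finset.univ (α := ι)) (t := Finset.univ (α := Fin n))]
  refine Finset.sum_congr rfl fun i _ => ?_
  rw [Finset.sum_comm]

theorem Ord_dvd_deriv (m : ℕ) {p : PowerSeries ℚ} (h : (PowerSeries.X : PowerSeries ℚ) ^ m ∣ p) :
    (PowerSeries.X : PowerSeries ℚ) ^ (m - 1) ∣ PowerSeries.derivative ℚ p := by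
  obtain ⟨q, rfl⟩ := h
  rw [Derivation.leibniz, Derivation.leibniz_pow]
  refine dvd_add ?_ ?_
  · exact (pow_dvd_pow _ (Nat.sub_le m 1)).trans (dvd_mul_right _ _)
  · rw [smul_eq_mul]
    refine Dvd.dvd.mul_left ?_ _
    rw [nsmul_eq_mul, smul_eq_mul]
    exact Dvd.dvd.mul_left (dvd_mul_right _ _) _

theorem pow_dvd_pr {n : ℕ} {ι : Type*} [Fintype ι] (a : Fin n → ℤ) (M : Fin n → Matrix ι ι ℚ)
    (F : ι → ℚ[X]) (z0 c : ℚ) (hc : c ≠ 0) (u : ι → PowerSeries ℚ) (hu : Hor a M z0 c u) (k : ℕ)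
    (hk : (PowerSeries.X : PowerSeries ℚ) ^ k ∣ pr z0 c F u) (j : ℕ) :
    (PowerSeries.X : PowerSeries ℚ) ^ (k - j) ∣ pr z0 c (Dn a M F j) u := by
  induction j with
  | zero => exact hk
  | succ j ih =>
    have h1 := deriv_pr a M F z0 c u hu j
    have h2 := Ord_dvd_deriv _ ih
    have h3 : (PowerSeries.X : PowerSeries ℚ) ^ (k - (j + 1)) ∣
        PowerSeries.C c * pr z0 c (Dn a M F (j + 1)) u := by
      rw [eq_sub_iff_add_eq.2 h1.symm, ← Nat.sub_sub]
      refine dvd_sub (Dvd.dvd.mul_left h2 _) (Dvd.dvd.mul_left ?_ _)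
      exact (pow_dvd_pow _ (Nat.sub_le _ 1)).trans ih
    have h4 : IsUnit (PowerSeries.C c : PowerSeries ℚ) :=
      (IsUnit.mk0 c hc).map (PowerSeries.C : ℚ →+* PowerSeries ℚ)
    exact h4.dvd_mul_left.1 h3

/-- ADJUGATE LEMMA. `adj(B) (B u) = det(B) u`. -/
theorem adj_dvd {r : ℕ} {R : Type*} [CommRing R] (B : Matrix (Fin r) (Fin r) R) (u : Fin r → R)
    (x : R) (h : ∀ j, x ∣ (B *ᵥ u) j) (b : Fin r) (hb : IsUnit (u b)) : x ∣ B.det := by
  have h1 : (B.adjugate *ᵥ (B *ᵥ u)) b = B.det * u b := by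
    rw [Matrix.mulVec_mulVec, Matrix.adjugate_mul, Matrix.smul_mulVec, Matrix.one_mulVec,
      Pi.smul_apply, smul_eq_mul]
  have h2 : x ∣ B.det * u b := by
    rw [← h1]
    rw [Matrix.mulVec, dotProduct]
    exact Finset.dvd_sum fun j _ => Dvd.dvd.mul_left (h j) _
  exact hb.dvd_mul_right.1 h2

theorem Ord_const (z0 c : ℚ) (Δ : ℚ[X]) :
    PowerSeries.constantCoeff (aeval (zz z0 c) Δ) = Δ.eval z0 := by
  rw [aeval_def, hom_eval₂]
  have h1 : PowerSeries.constantCoeff (zz z0 c) = z0 := by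
    rw [zz, map_add, map_mul, PowerSeries.constantCoeff_C, PowerSeries.constantCoeff_X, mul_zero,
      add_zero]
  have h2 : (PowerSeries.constantCoeff : PowerSeries ℚ →+* ℚ).comp
      (algebraMap ℚ (PowerSeries ℚ)) = RingHom.id ℚ := Subsingleton.elim _ _
  rw [h1, h2]
  rfl

/-- `s^k ∣ Δ(z_0 + c s)` implies `(X - z_0)^k ∣ Δ`. -/
theorem dvd_of_aeval (z0 c : ℚ) (hc : c ≠ 0) (k : ℕ) (Δ : ℚ[X])
    (h : (PowerSeries.X : PowerSeries ℚ) ^ k ∣ aeval (zz z0 c) Δ) : (X - C z0) ^ k ∣ Δ := by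
  induction k generalizing Δ with
  | zero => rw [pow_zero]; exact one_dvd _
  | succ k ih =>
    have h1 : Δ.eval z0 = 0 := by
      rw [← Ord_const z0 c, ← PowerSeries.X_dvd_iff]
      exact (dvd_pow_self _ (Nat.succ_ne_zero k)).trans h
    obtain ⟨Δ', rfl⟩ := dvd_iff_isRoot.2 h1
    have h2 : aeval (zz z0 c) (X - C z0 : ℚ[X]) = PowerSeries.C c * PowerSeries.X := by
      rw [map_sub, aeval_X, aeval_C]
      show zz z0 c - PowerSeries.C z0 = _
      rw [zz]
      ring
    have h3 : (PowerSeries.X : PowerSeries ℚ) ^ k ∣ PowerSeries.C c * aeval (zz z0 c) Δ' := by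
      rw [map_mul, h2, pow_succ, mul_assoc, mul_comm PowerSeries.X, ← mul_assoc] at h
      exact (mul_dvd_mul_iff_right PowerSeries.X_ne_zero).1 h
    have h4 : IsUnit (PowerSeries.C c : PowerSeries ℚ) :=
      (IsUnit.mk0 c hc).map (PowerSeries.C : ℚ →+* PowerSeries ℚ)
    rw [pow_succ, mul_comm]
    exact mul_dvd_mul_left _ (ih Δ' (h4.dvd_mul_left.1 h3))

/-- (AL2): from `deriv_pr`, `pow_dvd_pr`, `adj_dvd` (for the matrix `aeval (zz z0 c)` of `Wr`) and `dvd_of_aeval`. -/
theorem pow_dvd_det {n r : ℕ} (a : Fin n → ℤ) (M : Fin n → Matrix (Fin r) (Fin r) ℚ)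
    (F : Fin r → ℚ[X]) (z0 c : ℚ) (hc : c ≠ 0) (u : Fin r → PowerSeries ℚ)
    (hu : Hor a M z0 c u) (b : Fin r) (hb : PowerSeries.constantCoeff (u b) ≠ 0) (k : ℕ)
    (hk : (PowerSeries.X : PowerSeries ℚ) ^ k ∣ pr z0 c F u) :
    (X - C z0) ^ (k - (r - 1)) ∣ (Wr a M F).det := by
  refine dvd_of_aeval z0 c hc _ _ ?_
  rw [AlgHom.map_det]
  refine adj_dvd _ u _ (fun j => ?_) b ?_
  · have h1 : (((aeval (zz z0 c) : ℚ[X] →ₐ[ℚ] PowerSeries ℚ).mapMatrix (Wr a M F)) *ᵥ u) j =
        pr z0 c (Dn a M F (j : ℕ)) u := rfl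
    rw [h1]
    refine (pow_dvd_pow _ ?_).trans (pow_dvd_pr a M F z0 c hc u hu k hk j)
    have := j.2
    omega
  · exact PowerSeries.isUnit_iff_constantCoeff.2 (IsUnit.mk0 _ hb)

theorem natDegree_Dn_le {n : ℕ} {ι : Type*} [Fintype ι] (a : Fin n → ℤ)
    (M : Fin n → Matrix ι ι ℚ) (F : ι → ℚ[X]) (N : ℕ) (hF : ∀ b, (F b).natDegree ≤ N) (j : ℕ)
    (b : ι) : (Dn a M F j b).natDegree ≤ N + j * n := by
  induction j generalizing b with
  | zero => rw [zero_mul, add_zero]; exact hF b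
  | succ j ih =>
    have hT := natDegree_T_le a
    rw [Dn]
    refine natDegree_add_le_of_degree_le
      ((natDegree_sub_le _ _).trans (max_le ?_ ?_)) ?_
    · refine natDegree_mul_le.trans ?_
      have h1 := natDegree_derivative_le (Dn a M F j b)
      have h2 := ih b
      rw [add_mul, one_mul]
      omega
    · refine natDegree_mul_le.trans ?_
      have h1 : ((j : ℚ[X]) * derivative (T a)).natDegree ≤ n := by
        refine natDegree_mul_le.trans ?_
        have h2 := natDegree_derivative_le (T a)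
        rw [natDegree_natCast]
        omega
      have h2 := ih b
      rw [add_mul, one_mul]
      omega
    · refine natDegree_sum_le_of_forall_le _ _ fun i _ => ?_
      refine natDegree_mul_le.trans ?_
      have h1 : (C (a i : ℚ) * Ti a i).natDegree ≤ n := by
        refine natDegree_mul_le.trans ?_
        have h2 := natDegree_Ti_le a i
        rw [natDegree_C]
        omega
      have h2 : (∑ b', C (M i b' b) * Dn a M F j b').natDegree ≤ N + j * n := by
        refine natDegree_sum_le_of_forall_le _ _ fun b' _ => ?_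
        exact (natDegree_C_mul_le _ _).trans (ih b')
      rw [add_mul, one_mul]
      omega

theorem natDegree_det_le {n r : ℕ} (a : Fin n → ℤ) (M : Fin n → Matrix (Fin r) (Fin r) ℚ)
    (F : Fin r → ℚ[X]) (N : ℕ) (hF : ∀ b, (F b).natDegree ≤ N) :
    (Wr a M F).det.natDegree ≤ r * N + n * r ^ 2 := by
  rw [Matrix.det_apply]
  refine natDegree_sum_le_of_forall_le _ _ fun σ _ => ?_
  refine (natDegree_smul_le _ _).trans ?_
  refine (natDegree_prod_le _ _).trans ?_
  have h1 : ∀ i ∈ (Finset.univ : Finset (Fin r)), (Wr a M F (σ i) i).natDegree ≤ N + n * r := by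
    intro i _
    refine (natDegree_Dn_le a M F N hF (σ i : ℕ) i).trans ?_
    rw [mul_comm]
    exact Nat.add_le_add_left (Nat.mul_le_mul_left n (σ i).2.le) N
  refine (Finset.sum_le_card_nsmul _ _ _ h1).trans (le_of_eq ?_)
  rw [Finset.card_univ, Fintype.card_fin, smul_eq_mul]
  ring

end MP60829e.GF
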