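import Pool.Agent.Lib.MP_60829e_nt.GF.Defs
import Mathlib.LinearAlgebra.Matrix.ToLin
import Mathlib.LinearAlgebra.FiniteDimensional.Basic
import Mathlib.LinearAlgebra.Dimension.Free
import Mathlib.LinearAlgebra.Dimension.RankNullity
import Mathlib.LinearAlgebra.Dimension.DivisionRing

/-!
# Passing to the quotient by the largest stable subspace in the kernel of `F`
-/

namespace MP60829e.GF
open Polynomial
open scoped Matrix

section quot

variable {n : ℕ} {ι : Type*} [Fintype ι] [DecidableEq ι]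

/-- The map `κ ↦ F(κ)`. -/
noncomputable def quotPhi (F : ι → ℚ[X]) : (ι → ℚ) →ₗ[ℚ] ℚ[X] where
  toFun κ := ∑ b, C (κ b) * F b
  map_add' κ κ' := by
    simp only [Pi.add_apply, map_add, add_mul, Finset.sum_add_distrib]
  map_smul' c κ := by
    simp only [Pi.smul_apply, smul_eq_mul, map_mul, mul_assoc, RingHom.id_apply,
      Finset.smul_sum, smul_eq_C_mul]

omit [DecidableEq ι] in
theorem quotPhi_apply (F : ι → ℚ[X]) (κ : ι → ℚ) : quotPhi F κ = ∑ b, C (κ b) * F b := rfl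

/-- The largest stable subspace in the kernel. -/
noncomputable def quotK (M : Fin n → Matrix ι ι ℚ) (F : ι → ℚ[X]) : Submodule ℚ (ι → ℚ) :=
  ⨅ w : List (Fin n), LinearMap.ker ((quotPhi F).comp ((w.map M).prod).mulVecLin)

theorem mem_quotK {M : Fin n → Matrix ι ι ℚ} {F : ι → ℚ[X]} {κ : ι → ℚ} :
    κ ∈ quotK M F ↔ ∀ w : List (Fin n), quotPhi F ((w.map M).prod *ᵥ κ) = 0 := by
  simp only [quotK, Submodule.mem_iInf, LinearMap.mem_ker, LinearMap.comp_apply,
    Matrix.mulVecLin_apply]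

theorem quotK_stable {M : Fin n → Matrix ι ι ℚ} {F : ι → ℚ[X]} {κ : ι → ℚ}
    (h : κ ∈ quotK M F) (i : Fin n) : M i *ᵥ κ ∈ quotK M F := by
  rw [mem_quotK] at h ⊢
  intro w
  have h1 := h (w ++ [i])
  rw [List.map_append, List.prod_append, List.map_singleton, List.prod_singleton] at h1
  rwa [Matrix.mulVec_mulVec]

/-- Membership in `K` from the kernel of all `M i`. -/
theorem quotK_of {M : Fin n → Matrix ι ι ℚ} {F : ι → ℚ[X]} {κ : ι → ℚ}
    (h : ∀ i, M i *ᵥ κ ∈ quotK M F) (h0 : quotPhi F κ = 0) : κ ∈ quotK M F := by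
  rw [mem_quotK]
  intro w
  rcases List.eq_nil_or_concat' w with rfl | ⟨w', i, rfl⟩
  · rw [List.map_nil, List.prod_nil, Matrix.one_mulVec]
    exact h0
  · rw [List.map_append, List.prod_append, List.map_singleton, List.prod_singleton,
      ← Matrix.mulVec_mulVec]
    exact mem_quotK.1 (h i) w'

omit [DecidableEq ι] in
theorem quotPhi_deg {F : ι → ℚ[X]} {N : ℕ} (hN : ∀ b, (F b).natDegree ≤ N) (κ : ι → ℚ) :
    (quotPhi F κ).natDegree ≤ N := by
  rw [quotPhi_apply]
  refine natDegree_sum_le_of_forall_le _ _ fun b _ => ?_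
  exact (natDegree_C_mul_le _ _).trans (hN b)

end quot

/-- `K = {κ : F(M^w κ) = 0 for all words w}`, `U' = ℚ^ι / K`, a basis of `U'` (`Module.finBasis`), `P` the matrix of the
quotient map, `M'` the matrices of the induced maps, `F'` the induced row vector. Then `M' P = P M`,
`F = F' P`, words of length `p` are `0`, `(*)` holds for `(M', F')`, `P κ_0 ≠ 0` if `κ_0 ∉ K`, and if `r = card ι`
then `K = 0` and `(*)` holds for `(M, F)`. -/
theorem exists_quot {n : ℕ} {ι : Type*} [Fintype ι] [DecidableEq ι]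
    (M : Fin n → Matrix ι ι ℚ) (p : ℕ)
    (hM : ∀ w : List (Fin n), w.length = p → (w.map M).prod = 0) (F : ι → ℚ[X]) (N : ℕ)
    (hN : ∀ b, (F b).natDegree ≤ N) (κ0 : ι → ℚ) (w0 : List (Fin n))
    (hκ0 : ∑ b, C (((w0.map M).prod *ᵥ κ0) b) * F b ≠ 0) :
    ∃ (r : ℕ) (M' : Fin n → Matrix (Fin r) (Fin r) ℚ) (F' : Fin r → ℚ[X]) (P : Matrix (Fin r) ι ℚ),
      r ≤ Fintype.card ι ∧ (∀ i, M' i * P = P * M i) ∧ (∀ b, F b = ∑ b', C (P b' b) * F' b') ∧
      (∀ w : List (Fin n), w.length = p → (w.map M').prod = 0) ∧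
      (∀ b, (F' b).natDegree ≤ N) ∧ P *ᵥ κ0 ≠ 0 ∧
      (∀ κ : Fin r → ℚ, (∀ i, M' i *ᵥ κ = 0) → (∑ b, C (κ b) * F' b) = 0 → κ = 0) ∧
      (r = Fintype.card ι →
        ∀ κ : ι → ℚ, (∀ i, M i *ᵥ κ = 0) → (∑ b, C (κ b) * F b) = 0 → κ = 0) := by
  classical
  set K := quotK M F with hK
  let B := Module.finBasis ℚ ((ι → ℚ) ⧸ K)
  have hker : K ≤ LinearMap.ker (quotPhi F) := by
    intro κ hκ
    have h1 := mem_quotK.1 hκ []
    rwa [List.map_nil, List.prod_nil, Matrix.one_mulVec] at h1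
  let φ' : ((ι → ℚ) ⧸ K) →ₗ[ℚ] ℚ[X] := K.liftQ (quotPhi F) hker
  have hφ' : ∀ v, φ' (K.mkQ v) = quotPhi F v := fun v => K.liftQ_apply _ v
  have hst : ∀ i, K ≤ K.comap (M i).mulVecLin := fun i κ hκ => quotK_stable hκ i
  let N' : Fin n → ((ι → ℚ) ⧸ K) →ₗ[ℚ] ((ι → ℚ) ⧸ K) := fun i => K.mapQ K (M i).mulVecLin (hst i)
  have hN' : ∀ i v, N' i (K.mkQ v) = K.mkQ (M i *ᵥ v) := fun i v => rfl
  let M' : Fin n → Matrix (Fin _) (Fin _) ℚ := fun i => LinearMap.toMatrix B B (N' i)
  let P : Matrix (Fin _) ι ℚ := LinearMap.toMatrix (Pi.basisFun ℚ ι) B K.mkQ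
  let F' : Fin _ → ℚ[X] := fun b => φ' (B b)
  have hP : ∀ v : ι → ℚ, P *ᵥ v = B.repr (K.mkQ v) := by
    intro v
    have h1 := LinearMap.toMatrix_mulVec_repr (Pi.basisFun ℚ ι) B K.mkQ v
    have h2 : ((Pi.basisFun ℚ ι).repr v : ι → ℚ) = v := by
      funext b
      exact Pi.basisFun_repr _ _ v b
    rw [h2] at h1
    exact h1
  have hM' : ∀ i (x : (ι → ℚ) ⧸ K), M' i *ᵥ (B.repr x) = B.repr (N' i x) :=
    fun i x => LinearMap.toMatrix_mulVec_repr B B (N' i) x
  have hsurj : ∀ u : Fin _ → ℚ, ∃ v : ι → ℚ, P *ᵥ v = u := by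
    intro u
    obtain ⟨v, hv⟩ := K.mkQ_surjective (B.equivFun.symm u)
    refine ⟨v, ?_⟩
    rw [hP, hv, ← Module.Basis.equivFun_apply, LinearEquiv.apply_symm_apply]
  have hF' : ∀ v : ι → ℚ, (∑ b, C ((P *ᵥ v) b) * F' b) = quotPhi F v := by
    intro v
    rw [← hφ', ← B.sum_repr (K.mkQ v), map_sum, hP]
    refine Finset.sum_congr rfl fun b _ => ?_
    rw [map_smul, smul_eq_C_mul]
  have hMP : ∀ i, M' i * P = P * M i := by
    intro i
    refine Matrix.ext_of_mulVec_single fun b => ?_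
    rw [← Matrix.mulVec_mulVec, ← Matrix.mulVec_mulVec, hP, hM', hN', hP]
  have hword : ∀ w : List (Fin n), (w.map M').prod * P = P * (w.map M).prod := by
    intro w
    induction w with
    | nil => simp
    | cons i w ih =>
      rw [List.map_cons, List.prod_cons, List.map_cons, List.prod_cons, Matrix.mul_assoc, ih,
        ← Matrix.mul_assoc, hMP, Matrix.mul_assoc]
  refine ⟨_, M', F', P, ?_, hMP, ?_, ?_, ?_, ?_, ?_, ?_⟩
  · have h1 := Submodule.finrank_quotient_add_finrank K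
    rw [Module.finrank_fintype_fun_eq_card] at h1
    omega
  · intro b
    have h1 := hF' (Pi.single b 1)
    rw [Matrix.mulVec_single_one] at h1
    rw [quotPhi_apply] at h1
    have h2 : ∑ b_1, C ((Pi.single b (1 : ℚ) : ι → ℚ) b_1) * F b_1 = F b := by
      rw [Finset.sum_eq_single b]
      · rw [Pi.single_eq_same, map_one, one_mul]
      · intro b' _ hb'
        rw [Pi.single_eq_of_ne hb', map_zero, zero_mul]
      · intro h
        exact absurd (Finset.mem_univ b) h
    rw [h2] at h1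
    exact h1.symm
  · intro w hw
    have h1 := hword w
    rw [hM w hw, Matrix.mul_zero] at h1
    refine Matrix.ext_of_mulVec_single fun b => ?_
    obtain ⟨v, hv⟩ := hsurj (Pi.single b 1)
    rw [← hv, Matrix.mulVec_mulVec, h1, Matrix.zero_mulVec, Matrix.zero_mulVec]
  · intro b
    obtain ⟨v, hv⟩ := K.mkQ_surjective (B b)
    change (φ' (B b)).natDegree ≤ N
    rw [← hv, hφ']
    exact quotPhi_deg hN v
  · intro h
    rw [hP] at h
    have h1 : K.mkQ κ0 = 0 := by
      apply B.repr.injective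
      rw [map_zero]
      exact DFunLike.coe_injective h
    rw [Submodule.mkQ_apply, Submodule.Quotient.mk_eq_zero] at h1
    exact hκ0 (mem_quotK.1 h1 w0)
  · intro κ h1 h2
    obtain ⟨v, rfl⟩ := hsurj κ
    rw [hF'] at h2
    have h3 : v ∈ K := by
      refine quotK_of (fun i => ?_) h2
      have h4 := h1 i
      rw [hP, hM', hN'] at h4
      have h5 : K.mkQ (M i *ᵥ v) = 0 := by
        apply B.repr.injective
        rw [map_zero]
        exact DFunLike.coe_injective h4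
      rwa [Submodule.mkQ_apply, Submodule.Quotient.mk_eq_zero] at h5
    rw [hP]
    have h6 : K.mkQ v = 0 := by rwa [Submodule.mkQ_apply, Submodule.Quotient.mk_eq_zero]
    rw [h6, map_zero]
    rfl
  · intro hr κ h1 h2
    have h3 := Submodule.finrank_quotient_add_finrank K
    rw [Module.finrank_fintype_fun_eq_card, hr] at h3
    have h4 : K = ⊥ := Submodule.finrank_eq_zero.1 (by omega)
    have h5 : κ ∈ K := by
      refine quotK_of (fun i => ?_) h2
      rw [h1 i]
      exact Submodule.zero_mem _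
    rw [h4] at h5
    exact (Submodule.mem_bot ℚ).1 h5

end MP60829e.GF
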