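import Pool.Agent.Lib.MP_60829e_nt.GF.Defs
import Mathlib.Algebra.Polynomial.FieldDivision
import Mathlib.Algebra.Polynomial.BigOperators
import Mathlib.Algebra.Polynomial.Degree.Lemmas
import Mathlib.Tactic.LinearCombination
import Mathlib.Tactic.FieldSimp
import Mathlib.Tactic.Linarith
import Mathlib.Tactic.Ring

/-!
# Polynomial lemmas: the product `T`, the equation `g x' = g' x`, the residue lemma
-/

namespace MP60829e.GF
open Polynomial

theorem T_eq {n : ℕ} (a : Fin n → ℤ) (i : Fin n) : T a = (1 + C (a i : ℚ) * X) * Ti a i :=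
  (Finset.mul_prod_erase Finset.univ (fun i => (1 + C (a i : ℚ) * X : ℚ[X]))
    (Finset.mem_univ i)).symm

private theorem res_factor_ne (c : ℚ) : (1 + C c * X : ℚ[X]) ≠ 0 := by
  intro h
  have h1 := congrArg (fun p : ℚ[X] => p.coeff 0) h
  simp at h1

private theorem res_factor_deg (c : ℚ) : (1 + C c * X : ℚ[X]).natDegree ≤ 1 := by
  refine (natDegree_add_le _ _).trans (max_le ?_ ((natDegree_C_mul_le c X).trans natDegree_X_le))
  rw [natDegree_one]
  exact Nat.zero_le 1

theorem T_ne_zero {n : ℕ} (a : Fin n → ℤ) : T a ≠ 0 := by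
  unfold T
  rw [Finset.prod_ne_zero_iff]
  exact fun i _ => res_factor_ne _

theorem natDegree_T_le {n : ℕ} (a : Fin n → ℤ) : (T a).natDegree ≤ n := by
  unfold T
  refine (natDegree_prod_le _ _).trans ?_
  refine (Finset.sum_le_card_nsmul _ _ 1 fun i _ => ?_).trans ?_
  · exact res_factor_deg _
  · rw [Finset.card_univ, Fintype.card_fin, smul_eq_mul, mul_one]

theorem natDegree_Ti_le {n : ℕ} (a : Fin n → ℤ) (i : Fin n) : (Ti a i).natDegree ≤ n - 1 := by
  unfold Ti
  refine (natDegree_prod_le _ _).trans ?_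
  refine (Finset.sum_le_card_nsmul _ _ 1 fun i _ => ?_).trans ?_
  · exact res_factor_deg _
  · rw [Finset.card_erase_of_mem (Finset.mem_univ i), Finset.card_univ, Fintype.card_fin,
      smul_eq_mul, mul_one]

private theorem res_lc {p : ℚ[X]} (hp : 0 < p.natDegree) :
    (derivative p).natDegree = p.natDegree - 1 ∧
      (derivative p).leadingCoeff = p.leadingCoeff * p.natDegree := by
  have h1 : (derivative p).natDegree = p.natDegree - 1 :=
    natDegree_eq_of_degree_eq_some (degree_derivative hp.ne')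
  refine ⟨h1, ?_⟩
  rw [leadingCoeff, h1, coeff_derivative, leadingCoeff]
  have h2 : p.natDegree - 1 + 1 = p.natDegree := by omega
  rw [h2]
  congr 1
  exact_mod_cast congrArg (Nat.cast : ℕ → ℚ) h2

private theorem res_deg {g x : ℚ[X]} (hg : g ≠ 0) (hx : x ≠ 0)
    (h : g * derivative x = derivative g * x) : x.natDegree = g.natDegree := by
  rcases Nat.eq_zero_or_pos x.natDegree with h1 | h1
  · have h2 : derivative x = 0 := by
      rw [eq_C_of_natDegree_eq_zero h1, derivative_C]
    rw [h2, mul_zero] at h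
    have h3 : derivative g = 0 := by
      rcases mul_eq_zero.1 h.symm with h4 | h4
      · exact h4
      · exact absurd h4 hx
    rw [h1, derivative_eq_zero.1 h3]
  · rcases Nat.eq_zero_or_pos g.natDegree with h2 | h2
    · have h3 : derivative g = 0 := by
        rw [eq_C_of_natDegree_eq_zero h2, derivative_C]
      rw [h3, zero_mul] at h
      have h4 : derivative x = 0 := by
        rcases mul_eq_zero.1 h with h4 | h4
        · exact absurd h4 hg
        · exact h4
      rw [h2, derivative_eq_zero.1 h4]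
    · have h3 := congrArg leadingCoeff h
      rw [leadingCoeff_mul, leadingCoeff_mul, (res_lc h1).2, (res_lc h2).2] at h3
      have h4 : g.leadingCoeff * x.leadingCoeff ≠ 0 :=
        mul_ne_zero (leadingCoeff_ne_zero.2 hg) (leadingCoeff_ne_zero.2 hx)
      have h5 : g.leadingCoeff * x.leadingCoeff * (x.natDegree : ℚ) =
          g.leadingCoeff * x.leadingCoeff * (g.natDegree : ℚ) := by
        linear_combination h3
      exact_mod_cast mul_left_cancel₀ h4 h5

/-- `g x' = g' x`, `g ≠ 0` imply `x = c g` with `c` constant.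
Proof: comparing leading coefficients, every nonzero solution has `natDegree x = natDegree g`
(lc of `g x'` is `deg x · lc lc`, of `g' x` is `deg g · lc lc`; also if one degree is `0` then both);
apply this to `x` and to `x - C (lc x / lc g) * g`, which is a solution of smaller degree. -/
theorem ode_const {g x : ℚ[X]} (hg : g ≠ 0) (h : g * derivative x = derivative g * x) :
    ∃ c : ℚ, x = C c * g := by
  by_cases hx : x = 0
  · exact ⟨0, by rw [hx, C_0, zero_mul]⟩
  refine ⟨x.leadingCoeff / g.leadingCoeff, ?_⟩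
  by_contra hne
  obtain ⟨c, hc⟩ : ∃ c : ℚ, c = x.leadingCoeff / g.leadingCoeff := ⟨_, rfl⟩
  rw [← hc] at hne
  have hy : x - C c * g ≠ 0 := sub_ne_zero.2 hne
  have hdx := res_deg hg hx h
  have hyeq : g * derivative (x - C c * g) = derivative g * (x - C c * g) := by
    rw [derivative_sub, derivative_C_mul]
    linear_combination h
  have hdy := res_deg hg hy hyeq
  have hlg : g.leadingCoeff ≠ 0 := leadingCoeff_ne_zero.2 hg
  apply hy
  rw [← leadingCoeff_eq_zero, leadingCoeff, hdy, coeff_sub, coeff_C_mul]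
  have h1 : x.coeff g.natDegree = x.leadingCoeff := by rw [leadingCoeff, hdx]
  have h2 : g.coeff g.natDegree = g.leadingCoeff := rfl
  rw [h1, h2, hc, div_mul_cancel₀ _ hlg, sub_self]

private theorem res_aux (r : ℚ) (Tt S : ℚ[X]) (hT : Tt.eval r ≠ 0) (hS : S.eval r ≠ 0) :
    ∀ (N : ℕ) (g h : ℚ[X]), g ≠ 0 → g.natDegree ≤ N →
      (X - C r) * Tt * (g * derivative h - derivative g * h) = g ^ 2 * S → False := by
  intro N
  induction N with
  | zero =>
    intro g h hg hN he
    have h1 := congrArg (eval r) he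
    rw [eval_mul, eval_mul, eval_sub, eval_X, eval_C, sub_self, zero_mul, zero_mul, eval_mul,
      eval_pow] at h1
    have h2 : g.eval r = 0 := by
      rcases mul_eq_zero.1 h1.symm with h3 | h3
      · exact pow_eq_zero_iff two_ne_zero |>.1 h3
      · exact absurd h3 hS
    rw [eq_C_of_natDegree_eq_zero (Nat.le_zero.1 hN), eval_C] at h2
    apply hg
    rw [eq_C_of_natDegree_eq_zero (Nat.le_zero.1 hN), h2, C_0]
  | succ N ih =>
    intro g h hg hN he
    have h1 := congrArg (eval r) he
    rw [eval_mul, eval_mul, eval_sub, eval_X, eval_C, sub_self, zero_mul, zero_mul, eval_mul,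
      eval_pow] at h1
    have h2 : g.eval r = 0 := by
      rcases mul_eq_zero.1 h1.symm with h3 | h3
      · exact pow_eq_zero_iff two_ne_zero |>.1 h3
      · exact absurd h3 hS
    have hXne : (X - C r : ℚ[X]) ≠ 0 := X_sub_C_ne_zero r
    by_cases hh : h.eval r = 0
    · obtain ⟨g1, hg1⟩ := dvd_iff_isRoot.2 h2
      obtain ⟨h1', hh1⟩ := dvd_iff_isRoot.2 hh
      have hg10 : g1 ≠ 0 := by
        rintro rfl
        exact hg (by rw [hg1, mul_zero])
      refine ih g1 h1' hg10 ?_ ?_
      · rw [hg1, natDegree_mul hXne hg10, natDegree_X_sub_C] at hN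
        omega
      · apply mul_left_cancel₀ (pow_ne_zero 2 hXne)
        rw [hg1, hh1, derivative_mul, derivative_mul, derivative_X_sub_C] at he
        linear_combination he
    · obtain ⟨g0, hg0, hnd⟩ := exists_eq_pow_rootMultiplicity_mul_and_not_dvd g hg r
      have hpos : 0 < g.rootMultiplicity r := (rootMultiplicity_pos hg).2 h2
      obtain ⟨e, hee⟩ : ∃ e, g.rootMultiplicity r = e + 1 := ⟨g.rootMultiplicity r - 1, by omega⟩
      rw [hee] at hg0
      have hg0r : g0.eval r ≠ 0 := fun h3 => hnd (dvd_iff_isRoot.2 h3)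
      have hd : derivative ((X - C r : ℚ[X]) ^ (e + 1)) = C ((e + 1 : ℕ) : ℚ) * (X - C r) ^ e := by
        rw [derivative_X_sub_C_pow, Nat.add_sub_cancel]
      have key : Tt * ((X - C r) * g0 * derivative h - C ((e + 1 : ℕ) : ℚ) * g0 * h -
          (X - C r) * derivative g0 * h) = (X - C r) ^ (e + 1) * g0 ^ 2 * S := by
        apply mul_left_cancel₀ (pow_ne_zero (e + 1) hXne)
        rw [hg0, derivative_mul, hd] at he
        linear_combination he
      have h4 := congrArg (eval r) key
      simp only [eval_mul, eval_sub, eval_X, eval_C, sub_self, zero_mul, eval_pow,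
        ne_eq, Nat.add_eq_zero_iff, one_ne_zero, and_false, not_false_eq_true, zero_pow,
        zero_sub, sub_zero, mul_neg, neg_eq_zero, mul_eq_zero] at h4
      rcases h4 with h5 | (h5 | h5) | h5
      · exact hT h5
      · exact absurd h5 (by exact_mod_cast Nat.succ_ne_zero e)
      · exact hg0r h5
      · exact hh h5

/-- RESIDUE LEMMA: a rational function `h/g` with `(h/g)' = ∑ c_i a_i/(1 + a_i X)` forces `c = 0`.
Proof: suppose `c_i ≠ 0`, `r = -1/a_i`, `S = ∑ a_j c_j T_j`, `S(r) ≠ 0` since `T_j(r) = 0` for `j ≠ i` and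
`T_i(r) ≠ 0`. Evaluating at `r`: `g(r) = 0`. If `h(r) = 0` divide `g` and `h` by `X - r` (induction on the degree
of `g`; the equation is homogeneous of degree 2 in `(g,h)`). If `h(r) ≠ 0` write `g = (X-r)^e g_0`, `e ≥ 1`,
`g_0(r) ≠ 0`, `T = (X-r) T~`: dividing by `(X-r)^e`,
`T~ ((X-r) g_0 h' - e g_0 h - (X-r) g_0' h) = (X-r)^e g_0^2 S`, and at `r`: `e T~(r) g_0(r) h(r) = 0`, absurd. -/
theorem residue {n : ℕ} (a : Fin n → ℤ) (ha : ∀ i, a i ≠ 0) (hinj : Function.Injective a)
    (c : Fin n → ℚ) {g h : ℚ[X]} (hg : g ≠ 0)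
    (he : T a * (g * derivative h - derivative g * h)
      = g ^ 2 * ∑ i, C (a i : ℚ) * Ti a i * C (c i)) : ∀ i, c i = 0 := by
  classical
  intro i
  by_contra hci
  have hai : (a i : ℚ) ≠ 0 := by exact_mod_cast ha i
  obtain ⟨r, hr⟩ : ∃ r : ℚ, r = -1 / (a i : ℚ) := ⟨_, rfl⟩
  have hfac : ∀ j, (1 + C (a j : ℚ) * X : ℚ[X]).eval r = 1 + (a j : ℚ) * r := by
    intro j
    simp
  have hzero : 1 + (a i : ℚ) * r = 0 := by
    rw [hr]
    field_simp
    ring
  have hnz : ∀ j, j ≠ i → 1 + (a j : ℚ) * r ≠ 0 := by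
    intro j hj h1
    rw [hr] at h1
    have h2 : (a j : ℚ) = a i := by
      field_simp at h1
      linarith
    exact hj (hinj (by exact_mod_cast h2))
  have hTi : (Ti a i).eval r ≠ 0 := by
    unfold Ti
    rw [eval_prod, Finset.prod_ne_zero_iff]
    intro j hj
    rw [hfac]
    exact hnz j (Finset.ne_of_mem_erase hj)
  have hTj : ∀ j, j ≠ i → (Ti a j).eval r = 0 := by
    intro j hj
    unfold Ti
    rw [eval_prod]
    refine Finset.prod_eq_zero (Finset.mem_erase.2 ⟨hj.symm, Finset.mem_univ i⟩) ?_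
    rw [hfac, hzero]
  have hS : (∑ i, C (a i : ℚ) * Ti a i * C (c i)).eval r ≠ 0 := by
    rw [eval_finsetSum, Finset.sum_eq_single i]
    · rw [eval_mul, eval_mul, eval_C, eval_C]
      exact mul_ne_zero (mul_ne_zero hai hTi) hci
    · intro j _ hj
      rw [eval_mul, eval_mul, hTj j hj, mul_zero, zero_mul]
    · intro h1
      exact absurd (Finset.mem_univ i) h1
  have hTT : (C (a i : ℚ) * Ti a i).eval r ≠ 0 := by
    rw [eval_mul, eval_C]
    exact mul_ne_zero hai hTi
  refine res_aux r (C (a i : ℚ) * Ti a i) _ hTT hS g.natDegree g h hg le_rfl ?_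
  rw [← he, T_eq a i]
  have h1 : (1 + C (a i : ℚ) * X : ℚ[X]) = (X - C r) * C (a i : ℚ) := by
    rw [sub_mul, ← C_mul, hr, div_mul_cancel₀ _ hai, C_neg, C_1]
    ring
  rw [h1]
  ring

end MP60829e.GF
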