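import Mathlib.FieldTheory.IntermediateField.Adjoin.Basic
import Pool.Agent.Lib.MP_60829e_nt.GF.AlgT
import Pool.Agent.Lib.MP_60829e_nt.GF.Good

/-!
# Towers from minimal bad sets: the pieces
-/

namespace MP60829e.GF
open MvPolynomial

/-- Greedy choice of minimal bad sets. -/
theorem shortA_chain {α : Type*} [DecidableEq α] (I : Finset α) (bad : Finset α → Prop) (hb : ¬ bad ∅)
    (s : ℕ) (h : ∀ E : Finset α, E.card < s → ∃ A ⊆ I \ E, bad A) :
    ∃ (A : Fin s → Finset α) (e : Fin s → α), (∀ j, bad (A j)) ∧ (∀ j, ∀ B ⊂ A j, ¬ bad B) ∧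
      (∀ j, A j ⊆ I) ∧ (∀ j, e j ∈ A j) ∧ (∀ i j, i < j → e i ∉ A j) := by
  induction s with
  | zero => exact ⟨Fin.elim0, Fin.elim0, fun j => j.elim0, fun j => j.elim0, fun j => j.elim0,
      fun j => j.elim0, fun j => j.elim0⟩
  | succ s ih =>
    obtain ⟨A, e, h1, h2, h3, h4, h5⟩ := ih (fun E hE => h E (by omega))
    obtain ⟨A0, hA0, hbad⟩ := h (Finset.univ.image e) (by
      have := Finset.card_image_le (s := (Finset.univ : Finset (Fin s))) (f := e)
      rw [Finset.card_univ, Fintype.card_fin] at this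
      omega)
    classical
    obtain ⟨A1, hA1, hmin⟩ : ∃ A1 : Finset α, (A1 ⊆ A0 ∧ bad A1) ∧ ∀ B ⊂ A1, ¬ bad B := by
      obtain ⟨A1, hA1, hm⟩ := Finset.exists_min_image (A0.powerset.filter bad) Finset.card
        ⟨A0, by simp [hbad]⟩
      rw [Finset.mem_filter, Finset.mem_powerset] at hA1
      refine ⟨A1, hA1, fun B hB hbB => ?_⟩
      have := hm B (by
        rw [Finset.mem_filter, Finset.mem_powerset]
        exact ⟨hB.subset.trans hA1.1, hbB⟩)
      exact absurd (Finset.card_lt_card hB) (by omega)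
    have hne : A1.Nonempty := by
      rw [Finset.nonempty_iff_ne_empty]
      rintro rfl
      exact hb hA1.2
    obtain ⟨e1, he1⟩ := hne
    refine ⟨Fin.snoc A A1, Fin.snoc e e1, fun j => ?_, fun j => ?_, fun j => ?_, fun j => ?_,
      fun i j hij => ?_⟩
    · refine Fin.lastCases ?_ (fun j => ?_) j
      · simpa using hA1.2
      · simpa using h1 j
    · refine Fin.lastCases ?_ (fun j => ?_) j
      · simpa using hmin
      · simpa using h2 j
    · refine Fin.lastCases ?_ (fun j => ?_) j
      · simpa using (hA1.1.trans hA0).trans Finset.sdiff_subset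
      · simpa using h3 j
    · refine Fin.lastCases ?_ (fun j => ?_) j
      · simpa using he1
      · simpa using h4 j
    · revert hij
      refine Fin.lastCases ?_ (fun j => ?_) j
      · intro hij
        obtain ⟨i, rfl⟩ : ∃ i' : Fin s, i = i'.castSucc := ⟨⟨i, hij⟩, rfl⟩
        simp only [Fin.snoc_castSucc, Fin.snoc_last]
        intro hmem
        have := (hA1.1.trans hA0) hmem
        rw [Finset.mem_sdiff] at this
        exact this.2 (Finset.mem_image_of_mem _ (Finset.mem_univ _))
      · intro hij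
        have hlt : (i : ℕ) < s := lt_trans hij j.2
        obtain ⟨i, rfl⟩ : ∃ i' : Fin s, i = i'.castSucc := ⟨⟨i, hlt⟩, rfl⟩
        simp only [Fin.snoc_castSucc]
        exact h5 i j hij

/-- A compositum of `s` fields of degree `≤ d` has degree `≤ d ^ s`. -/
theorem shortA_field (d s : ℕ) (Kf : Fin s → IntermediateField ℚ ℂ)
    (hfd : ∀ j, FiniteDimensional ℚ (Kf j)) (hr : ∀ j, Module.finrank ℚ (Kf j) ≤ d) :
    ∃ K : IntermediateField ℚ ℂ, FiniteDimensional ℚ K ∧ Module.finrank ℚ K ≤ d ^ s ∧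
      ∀ j, Kf j ≤ K := by
  induction s with
  | zero =>
    exact ⟨⊥, inferInstance, by rw [IntermediateField.finrank_bot, pow_zero], fun j => j.elim0⟩
  | succ s ih =>
    obtain ⟨K, h1, h2, h3⟩ := ih (fun j => Kf j.castSucc) (fun j => hfd _) (fun j => hr _)
    have := hfd (Fin.last s)
    refine ⟨K ⊔ Kf (Fin.last s), inferInstance, ?_, fun j => ?_⟩
    · refine (IntermediateField.finrank_sup_le _ _).trans ?_
      rw [pow_succ]
      exact Nat.mul_le_mul h2 (hr _)
    · refine Fin.lastCases ?_ (fun j => ?_) j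
      · exact le_sup_right
      · exact (h3 j).trans le_sup_left

/-- Values of polynomials of total degree `≤ D` at elements of `V` are in `V ^ D`. -/
theorem shortA_aeval {K K0 : IntermediateField ℚ ℂ} (hK : K0 ≤ K) (V : Submodule K ℂ)
    (hV : 1 ≤ V) {σ : Type*} (v : σ → ℂ) (hv : ∀ i, v i ∈ V) (P : MvPolynomial σ K0) (D : ℕ)
    (hP : P.totalDegree ≤ D) : aeval v P ∈ V ^ D := by
  classical
  rw [aeval_def, eval₂_eq]
  refine Submodule.sum_mem _ fun m hm => ?_
  have h1 : ∀ S : Finset σ, ∏ i ∈ S, v i ^ m i ∈ V ^ (∑ i ∈ S, m i) := by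
    intro S
    induction S using Finset.induction_on with
    | empty =>
      simp only [Finset.prod_empty, Finset.sum_empty, pow_zero]
      exact Submodule.one_le.1 le_rfl
    | insert i S hi ih =>
      rw [Finset.prod_insert hi, Finset.sum_insert hi, pow_add]
      exact Submodule.mul_mem_mul (Submodule.pow_mem_pow _ (hv i) _) ih
  have h2 : ∑ i ∈ m.support, m i ≤ D := (le_totalDegree hm).trans hP
  have h3 : ∏ i ∈ m.support, v i ^ m i ∈ V ^ D := (pow_le_pow_right' hV h2) (h1 _)
  have h4 := (V ^ D).smul_mem (⟨((coeff m P : K0) : ℂ), hK (coeff m P).2⟩ : K) h3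
  exact h4

/-- Adjoining a list of free elements. -/
theorem shortA_free {K : IntermediateField ℚ ℂ} {D t M : ℕ} {V : Submodule K ℂ}
    (h : Tower K D t M V) (l : List ℂ) :
    ∃ V' : Submodule K ℂ, Tower K D (t + l.length) M V' ∧ V ≤ V' ∧ ∀ z ∈ l, z ∈ V' := by
  induction l with
  | nil => exact ⟨V, h, le_rfl, by simp⟩
  | cons z l ih =>
    obtain ⟨V', h1, h2, h3⟩ := ih
    refine ⟨V' ⊔ Submodule.span K {z}, Tower.free z h1, h2.trans le_sup_left, ?_⟩
    intro w hw
    rcases List.mem_cons.1 hw with rfl | hw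
    · exact (le_sup_right : _ ≤ V' ⊔ Submodule.span K {w}) (Submodule.mem_span_singleton_self w)
    · exact (le_sup_left : V' ≤ _) (h3 w hw)

end MP60829e.GF
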