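import Pool.Agent.Lib.MP_60829e_nt.GF.Gthm
import Pool.Agent.Lib.MP_60829e_nt.GF.AlgT
import Pool.Agent.Lib.MP_60829e_nt.GF.Good
import Pool.Agent.Lib.MP_60829e_nt.GF.ShortA

/-!
# THEOREM S (short intervals)
-/

namespace MP60829e.GF
open MvPolynomial

/-- The degree coming from ALGT. -/
def hS (n k D d : ℕ) : ℕ :=
  d ^ (k + 2) * D ^ (k + 2) * ((n * (k + 2)) * (D + 1) ^ (k + 2) + 1) ^ (n * (k + 2))

/-- The exponent of Theorem S. -/
def KS (n k D d : ℕ) : ℕ := KG (n * (k + 2)) (hS n k D d)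

/-- The logarithms of the elements of a finite set of natural numbers. -/
noncomputable def lgs (A : Finset ℕ) : A → ℂ := fun a => (Real.log (a : ℕ) : ℂ)

/-- Greedy choice: if for every `E` with at most `k + 1` elements there is a bad `A` in `I \ E`, there are minimal bad sets
`A_1, ..., A_(k+2)` and `e_j ∈ A_j` with `e_i ∉ A_j` for `i < j`. -/
theorem exists_chain {α : Type*} [DecidableEq α] (I : Finset α) (bad : Finset α → Prop) (hb : ¬ bad ∅)
    (s : ℕ) (h : ∀ E : Finset α, E.card < s → ∃ A ⊆ I \ E, bad A) :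
    ∃ (A : Fin s → Finset α) (e : Fin s → α), (∀ j, bad (A j)) ∧ (∀ j, ∀ B ⊂ A j, ¬ bad B) ∧
      (∀ j, A j ⊆ I) ∧ (∀ j, e j ∈ A j) ∧ (∀ i j, i < j → e i ∉ A j) :=
  shortA_chain I bad hb s h

/-- The elements chosen are distinct. -/
private theorem e_inj {α : Type*} {s : ℕ} (A : Fin s → Finset α) (e : Fin s → α)
    (he : ∀ j, e j ∈ A j) (hlt : ∀ i j, i < j → e i ∉ A j) : Function.Injective e := by
  intro i j hij
  rcases lt_trichotomy i j with h | h | h
  · exact absurd (hij ▸ he j) (hlt i j h)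
  · exact h
  · exact absurd (hij ▸ he i) (hlt j i h)

/-- The relation for one bad set. -/
private theorem root_of_min {k d D : ℕ} (θ : Fin k → ℂ) (A : Finset ℕ) (e0 : ℕ) (he : e0 ∈ A)
    (hbad : ¬ Good d D θ (lgs A)) (hmin : Good d D θ (lgs (A.erase e0))) :
    ∃ (K : IntermediateField ℚ ℂ) (e : ℕ) (Q : ℕ → MvPolynomial (Fin k ⊕ ↥(A.erase e0)) K),
      FiniteDimensional ℚ K ∧ Module.finrank ℚ K ≤ d ∧ 1 ≤ e ∧ e ≤ D ∧
      (∀ j, (Q j).totalDegree ≤ D) ∧
      aeval (Sum.elim θ (lgs (A.erase e0))) (Q e) ≠ 0 ∧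
      ∑ j ∈ Finset.range (e + 1), aeval (Sum.elim θ (lgs (A.erase e0))) (Q j)
        * (Real.log e0 : ℂ) ^ j = 0 := by
  classical
  let f : {i : A // i ≠ ⟨e0, he⟩} → ↥(A.erase e0) := fun i =>
    ⟨i.1.1, Finset.mem_erase.2 ⟨fun h => i.2 (Subtype.ext h), i.1.2⟩⟩
  have hf : Function.Injective f := fun i j hij => by
    apply Subtype.ext; apply Subtype.ext
    exact congrArg (fun z : ↥(A.erase e0) => (z : ℕ)) hij
  have hl : (fun i : {i : A // i ≠ ⟨e0, he⟩} => lgs A i) = lgs (A.erase e0) ∘ f := rfl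
  obtain ⟨K, e, Q, h1, h2, h3, h4, h5, h6, h7⟩ := exists_root (lgs A) ⟨e0, he⟩ hbad (by
    rw [hl]; exact hmin.comp f hf)
  have hs : (Sum.elim θ (fun i : {i : A // i ≠ ⟨e0, he⟩} => lgs A i))
      = Sum.elim θ (lgs (A.erase e0)) ∘ Sum.map id f := by
    rw [hl]
    funext i
    rcases i with i | i <;> rfl
  refine ⟨K, e, fun j => rename (Sum.map id f) (Q j), h1, h2, h3, h4, fun j => ?_, ?_, ?_⟩
  · exact (totalDegree_rename_le _ _).trans (h5 j)
  · rw [aeval_rename, ← hs]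
    exact h6
  · rw [← h7]
    refine Finset.sum_congr rfl fun j _ => ?_
    rw [aeval_rename, ← hs]
    rfl

/-- The union of the bad sets generates a tower with `k + |U| - s` free elements and `s` algebraic ones. -/
theorem exists_tower {n k d D s : ℕ} (θ : Fin k → ℂ) (A : Fin s → Finset ℕ) (e : Fin s → ℕ)
    (hbad : ∀ j, ¬ Good d D θ (lgs (A j))) (hmin : ∀ j, ∀ B ⊂ A j, Good d D θ (lgs B))
    (he : ∀ j, e j ∈ A j) (hlt : ∀ i j, i < j → e i ∉ A j) (hD : 1 ≤ D) :
    ∃ (K : IntermediateField ℚ ℂ) (V : Submodule K ℂ), FiniteDimensional ℚ K ∧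
      Module.finrank ℚ K ≤ d ^ s ∧
      Tower K D (k + ((Finset.univ.biUnion A).card - s)) s V ∧
      ∀ u ∈ Finset.univ.biUnion A, (Real.log (u : ℕ) : ℂ) ∈ V := by
  classical
  have hroot := fun j => root_of_min θ (A j) (e j) (he j) (hbad j)
    (hmin j _ (Finset.erase_ssubset (he j)))
  choose Kf ε Q hfd hr he1 heD hdeg hne hrel using hroot
  obtain ⟨K, hK1, hK2, hK3⟩ := shortA_field d s Kf hfd hr
  have hinj := e_inj A e he hlt
  set U := Finset.univ.biUnion A with hU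
  set S := Finset.univ.image e with hS
  have hScard : S.card = s := by
    rw [hS, Finset.card_image_of_injective _ hinj, Finset.card_univ, Fintype.card_fin]
  have hSU : S ⊆ U := by
    intro z hz
    rw [hS, Finset.mem_image] at hz
    obtain ⟨j, -, rfl⟩ := hz
    exact Finset.mem_biUnion.2 ⟨j, Finset.mem_univ _, he j⟩
  -- the free part
  obtain ⟨V0, hT0, -, hθ⟩ := shortA_free (Tower.base (K := K) (D := D)) (List.ofFn θ)
  obtain ⟨V1, hT1, h01, hlog⟩ := shortA_free hT0 ((U \ S).toList.map fun u : ℕ => (Real.log u : ℂ))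
  have hlen : 0 + (List.ofFn θ).length + ((U \ S).toList.map fun u : ℕ => (Real.log u : ℂ)).length
      = k + (U.card - s) := by
    rw [List.length_ofFn, List.length_map, Finset.length_toList, Finset.card_sdiff_of_subset hSU,
      hScard, zero_add]
  rw [hlen] at hT1
  have hθ1 : ∀ i, θ i ∈ V1 := fun i => h01 (hθ _ (by rw [List.mem_ofFn]; exact ⟨i, rfl⟩))
  have hlog1 : ∀ u ∈ U \ S, (Real.log (u : ℕ) : ℂ) ∈ V1 := fun u hu =>
    hlog _ (List.mem_map.2 ⟨u, Finset.mem_toList.2 hu, rfl⟩)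
  -- the algebraic part
  have key : ∀ m ≤ s, ∃ V : Submodule K ℂ, Tower K D (k + (U.card - s)) m V ∧ V1 ≤ V ∧
      ∀ j : Fin s, s - m ≤ j → (Real.log (e j : ℕ) : ℂ) ∈ V := by
    intro m
    induction m with
    | zero =>
      intro _
      exact ⟨V1, hT1, le_rfl, fun j hj => absurd j.2 (by omega)⟩
    | succ m ih =>
      intro hm
      obtain ⟨V, hT, hV, hmem⟩ := ih (by omega)
      let j0 : Fin s := ⟨s - (m + 1), by omega⟩
      have hv : ∀ i, Sum.elim θ (lgs ((A j0).erase (e j0))) i ∈ V := by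
        rintro (i | u)
        · exact hV (hθ1 i)
        · have hu := Finset.mem_erase.1 u.2
          show (Real.log ((u : ℕ) : ℝ) : ℂ) ∈ V
          by_cases huS : (u : ℕ) ∈ S
          · rw [hS, Finset.mem_image] at huS
            obtain ⟨i, -, hi⟩ := huS
            rw [← hi]
            refine hmem i ?_
            have h1 : ¬ i < j0 := fun h => hlt i j0 h (hi ▸ hu.2)
            have h2 : i ≠ j0 := fun h => hu.1 (by rw [← hi, h])
            have h3 : (j0 : ℕ) < i := lt_of_le_of_ne (not_lt.1 h1) (fun h => h2 (Fin.ext h.symm))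
            have h4 : (j0 : ℕ) = s - (m + 1) := rfl
            omega
          · exact hV (hlog1 _ (Finset.mem_sdiff.2
              ⟨Finset.mem_biUnion.2 ⟨j0, Finset.mem_univ _, hu.2⟩, huS⟩))
      refine ⟨V ⊔ Submodule.span K {(Real.log (e j0 : ℕ) : ℂ)},
        Tower.alg _ (ε j0)
          (fun j => aeval (Sum.elim θ (lgs ((A j0).erase (e j0)))) (Q j0 j))
          (he1 j0) (heD j0)
          (fun j _ => shortA_aeval (hK3 j0) V hT.one_le _ hv _ D (hdeg j0 j))
          (hne j0) (hrel j0) hT, hV.trans le_sup_left, ?_⟩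
      intro j hj
      by_cases hjj : j = j0
      · rw [hjj]
        exact (le_sup_right : _ ≤ V ⊔ Submodule.span K {(Real.log (e j0 : ℕ) : ℂ)})
          (Submodule.mem_span_singleton_self _)
      · refine (le_sup_left : V ≤ _) (hmem j ?_)
        have h4 : (j0 : ℕ) = s - (m + 1) := rfl
        have h5 : (j : ℕ) ≠ j0 := fun h => hjj (Fin.ext h)
        omega
  obtain ⟨V, hT, hV, hmem⟩ := key s le_rfl
  refine ⟨K, V, hK1, hK2, hT, fun u hu => ?_⟩
  by_cases huS : u ∈ S
  · rw [hS, Finset.mem_image] at huS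
    obtain ⟨i, -, hi⟩ := huS
    rw [← hi]
    exact hmem i (by omega)
  · exact hV (hlog1 u (Finset.mem_sdiff.2 ⟨hu, huS⟩))

private theorem KG_mono_left (N N' H : ℕ) (h : N ≤ N') : KG N H ≤ KG N' H := by
  unfold KG
  exact Nat.mul_le_mul (Nat.mul_le_mul le_rfl (Nat.pow_le_pow_left h 3))
    (Nat.pow_le_pow_right (by omega) (by omega))

/-- THEOREM S. -/
theorem theoremS (n k D d : ℕ) (hn : 1 ≤ n) (hD : 1 ≤ D) (hd : 1 ≤ d) (h : ℕ) (hh : 1 ≤ h) (x : ℕ)
    (hx : (4 * h) ^ KS n k D d ≤ x) (θ : Fin k → ℂ) :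
    ∃ E : Finset ℕ, E.card ≤ k + 1 ∧
      ∀ A ⊆ Finset.Icc x (x + h) \ E, A.card ≤ n → Good d D θ (lgs A) := by
  classical
  by_contra hcon
  have hx1 : 1 ≤ x := le_trans (Nat.one_le_pow _ _ (by omega)) hx
  obtain ⟨A, e, hbad, hmin, hAI, he, hlt⟩ := exists_chain (Finset.Icc x (x + h))
    (fun A => A.card ≤ n ∧ ¬ Good d D θ (lgs A)) (fun hb => hb.2 (Good.empty θ _)) (k + 2) (by
      intro E hE
      by_contra hno
      refine hcon ⟨E, by omega, fun A hA hAn => ?_⟩
      by_contra hg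
      exact hno ⟨A, hA, hAn, hg⟩)
  have hmin' : ∀ j, ∀ B ⊂ A j, Good d D θ (lgs B) := by
    intro j B hB
    by_contra hg
    exact hmin j B hB ⟨(Finset.card_le_card hB.subset).trans (hbad j).1, hg⟩
  obtain ⟨K, V, hfd, hK, hT, hlog⟩ := exists_tower (n := n) θ A e (fun j => (hbad j).2) hmin' he hlt hD
  have hinj := e_inj A e he hlt
  set U := Finset.univ.biUnion A with hU
  have hUI : ∀ u ∈ U, x ≤ u ∧ u ≤ x + h := by
    intro u hu
    rw [hU, Finset.mem_biUnion] at hu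
    obtain ⟨j, -, hj⟩ := hu
    exact Finset.mem_Icc.1 (hAI j hj)
  have hcard1 : k + 2 ≤ U.card := by
    have h1 : (Finset.univ.image e).card = k + 2 := by
      rw [Finset.card_image_of_injective _ hinj, Finset.card_univ, Fintype.card_fin]
    rw [← h1]
    refine Finset.card_le_card fun z hz => ?_
    rw [Finset.mem_image] at hz
    obtain ⟨j, -, rfl⟩ := hz
    exact Finset.mem_biUnion.2 ⟨j, Finset.mem_univ _, he j⟩
  have hcard2 : U.card ≤ n * (k + 2) := by
    refine Finset.card_biUnion_le.trans ((Finset.sum_le_card_nsmul _ _ n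
      (fun j _ => (hbad j).1)).trans ?_)
    rw [Finset.card_univ, Fintype.card_fin, smul_eq_mul, mul_comm]
  set u0 := e 0 with hu0
  have hu0U : u0 ∈ U := Finset.mem_biUnion.2 ⟨0, Finset.mem_univ _, he 0⟩
  set t := k + (U.card - (k + 2)) with ht
  have htU : (U.erase u0).card = t + 1 := by
    rw [Finset.card_erase_of_mem hu0U]
    omega
  let g : Fin (t + 1) → ↥(U.erase u0) := (Finset.equivFinOfCardEq htU).symm
  have hg : Function.Injective g := (Finset.equivFinOfCardEq htU).symm.injective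
  have hgU : ∀ i, (g i : ℕ) ∈ U ∧ (g i : ℕ) ≠ u0 := fun i =>
    ⟨(Finset.mem_erase.1 (g i).2).2, (Finset.mem_erase.1 (g i).2).1⟩
  let a : Fin (t + 1) → ℤ := fun i => ((g i : ℕ) : ℤ) - (u0 : ℤ)
  set H := hS n k D d with hH
  have hH1 : d ^ (k + 2) * D ^ (k + 2) * ((t + 1) * (D + 1) ^ (k + 2) + 1) ^ t ≤ H := by
    rw [hH]
    unfold hS
    refine Nat.mul_le_mul le_rfl ?_
    have h1 : (t + 1) * (D + 1) ^ (k + 2) + 1 ≤ (n * (k + 2)) * (D + 1) ^ (k + 2) + 1 :=
      Nat.add_le_add_right (Nat.mul_le_mul_right _ (by omega)) 1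
    exact (Nat.pow_le_pow_left h1 t).trans (Nat.pow_le_pow_right (by omega) (by omega))
  have hH2 : 1 ≤ H := by
    refine le_trans ?_ hH1
    have h1 : 0 < d ^ (k + 2) := Nat.pow_pos (by omega)
    have h2 : 0 < D ^ (k + 2) := Nat.pow_pos (by omega)
    have h3 : 0 < ((t + 1) * (D + 1) ^ (k + 2) + 1) ^ t := Nat.pow_pos (by omega)
    exact Nat.mul_pos (Nat.mul_pos h1 h2) h3
  have hxu : ((4 * h : ℕ) : ℤ) ^ KG (t + 1) H ≤ (u0 : ℤ) := by
    have h1 : (4 * h) ^ KG (t + 1) H ≤ u0 := by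
      refine le_trans ?_ (hx.trans (hUI u0 hu0U).1)
      exact Nat.pow_le_pow_right (by omega) (KG_mono_left _ _ _ (by omega))
    exact_mod_cast h1
  have hG := theoremG (t + 1) H (by omega) hH2 h hh a
    (fun i => sub_ne_zero.2 (by exact_mod_cast (hgU i).2))
    (fun i j hij => hg (Subtype.ext (by
      have : ((g i : ℕ) : ℤ) = ((g j : ℕ) : ℤ) := by
        have := hij
        simp only [a] at this
        linarith
      exact_mod_cast this)))
    (fun i => by
      have h1 := hUI _ (hgU i).1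
      have h2 := hUI _ hu0U
      simp only [a]
      rw [abs_le]
      constructor <;> omega) (u0 : ℤ) hxu
  have hu0pos : (0 : ℝ) < (u0 : ℝ) := by
    have := (hUI u0 hu0U).1
    exact_mod_cast (by omega : 0 < u0)
  have hreal : ∀ i, Real.log (1 + ((a i : ℤ) : ℝ) / ((u0 : ℤ) : ℝ))
      = Real.log (g i : ℕ) - Real.log u0 := by
    intro i
    have hgpos : (0 : ℝ) < ((g i : ℕ) : ℝ) := by
      have := (hUI _ (hgU i).1).1
      exact_mod_cast (by omega : 0 < (g i : ℕ))
    rw [← Real.log_div hgpos.ne' hu0pos.ne']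
    congr 1
    simp only [a]
    push_cast
    field_simp
    ring
  refine algt hT (d ^ (k + 2)) H hK hH1
    (fun i => (Real.log (g i : ℕ) : ℂ) - (Real.log u0 : ℂ))
    (fun i => V.sub_mem (hlog _ (hgU i).1) (hlog _ hu0U)) ?_
  have hmap := hG.map' ((Complex.ofRealAm.toLinearMap).restrictScalars ℚ) (by
    rw [LinearMap.ker_eq_bot]
    exact Complex.ofReal_injective)
  have heq : (fun α : Fin (t + 1) → Fin (H + 1) =>
      ∏ i, ((Real.log (g i : ℕ) : ℂ) - (Real.log u0 : ℂ)) ^ (α i : ℕ))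
      = ⇑((Complex.ofRealAm.toLinearMap).restrictScalars ℚ) ∘
        (fun ν : Fin (t + 1) → Fin (H + 1) =>
          ∏ i, Real.log (1 + ((a i : ℤ) : ℝ) / ((u0 : ℤ) : ℝ)) ^ (ν i : ℕ)) := by
    funext α
    show _ = ((∏ i, Real.log (1 + ((a i : ℤ) : ℝ) / ((u0 : ℤ) : ℝ)) ^ (α i : ℕ) : ℝ) : ℂ)
    rw [Complex.ofReal_prod]
    refine Finset.prod_congr rfl fun i _ => ?_
    rw [Complex.ofReal_pow, hreal i, Complex.ofReal_sub]
  rw [heq]
  exact hmap

end MP60829e.GF
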