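import Pool.Agent.Lib.MP_60829e_nt.GF.WronB
import Pool.Agent.Lib.MP_60829e_nt.GF.Ord
import Pool.Agent.Lib.MP_60829e_nt.GF.Sys
import Pool.Agent.Lib.MP_60829e_nt.GF.Quot

/-!
# The forms span (G2 of the blueprint)
-/

namespace MP60829e.GF
open Polynomial
open scoped Matrix

/-- the image of a horizontal section under a map of systems is horizontal -/
private theorem Span_hor {n : ℕ} {ι ι' : Type*} [Fintype ι] [Fintype ι'] (a : Fin n → ℤ)
    (M : Fin n → Matrix ι ι ℚ) (M' : Fin n → Matrix ι' ι' ℚ) (P : Matrix ι' ι ℚ)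
    (hMP : ∀ i, M' i * P = P * M i) (z0 c : ℚ) (u : ι → PowerSeries ℚ) (hu : Hor a M z0 c u) :
    Hor a M' z0 c (fun b' => ∑ b, PowerSeries.C (P b' b) * u b) := by
  intro b'
  have h1 : ∀ i, ∑ b'', PowerSeries.C (M' i b' b'') * ∑ b, PowerSeries.C (P b'' b) * u b =
      ∑ b, PowerSeries.C (P b' b) * ∑ b2, PowerSeries.C (M i b b2) * u b2 := by
    intro i
    have h2 : ∀ b, ∑ b'', PowerSeries.C (M' i b' b'') * PowerSeries.C (P b'' b) =
        ∑ b1, PowerSeries.C (P b' b1) * PowerSeries.C (M i b1 b) := by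
      intro b
      have h3 := congrFun (congrFun (hMP i) b') b
      rw [Matrix.mul_apply, Matrix.mul_apply] at h3
      have h4 := congrArg (PowerSeries.C (R := ℚ)) h3
      simpa only [map_sum, map_mul] using h4
    simp only [Finset.mul_sum]
    rw [Finset.sum_comm]
    conv_rhs => rw [Finset.sum_comm]
    refine Finset.sum_congr rfl fun b _ => ?_
    have h5 := h2 b
    simp only [← mul_assoc]
    rw [← Finset.sum_mul, h5, Finset.sum_mul]
  have h6 : PowerSeries.derivative ℚ (∑ b, PowerSeries.C (P b' b) * u b) =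
      ∑ b, PowerSeries.C (P b' b) * PowerSeries.derivative ℚ (u b) := by
    rw [map_sum]
    refine Finset.sum_congr rfl fun b _ => ?_
    rw [Derivation.leibniz, PowerSeries.derivative_C, smul_zero, add_zero, smul_eq_mul]
  have h7 : ∀ b, aeval (zz z0 c) (T a) * (PowerSeries.C (P b' b) *
      PowerSeries.derivative ℚ (u b)) = PowerSeries.C (P b' b) * (PowerSeries.C c *
        ∑ i, aeval (zz z0 c) (C (a i : ℚ) * Ti a i) *
          ∑ b2, PowerSeries.C (M i b b2) * u b2) := by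
    intro b
    rw [← hu b]
    ring
  calc aeval (zz z0 c) (T a) * PowerSeries.derivative ℚ (∑ b, PowerSeries.C (P b' b) * u b)
      = ∑ b, PowerSeries.C (P b' b) * (PowerSeries.C c *
        ∑ i, aeval (zz z0 c) (C (a i : ℚ) * Ti a i) *
          ∑ b2, PowerSeries.C (M i b b2) * u b2) := by
        rw [h6, Finset.mul_sum]
        exact Finset.sum_congr rfl fun b _ => h7 b
    _ = PowerSeries.C c * ∑ i, aeval (zz z0 c) (C (a i : ℚ) * Ti a i) *
          ∑ b, PowerSeries.C (P b' b) * ∑ b2, PowerSeries.C (M i b b2) * u b2 := by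
        simp only [Finset.mul_sum (Finset.univ : Finset (Fin n))]
        rw [Finset.sum_comm]
        refine Finset.sum_congr rfl fun i _ => ?_
        rw [Finset.mul_sum, Finset.mul_sum]
        refine Finset.sum_congr rfl fun b _ => ?_
        ring
    _ = PowerSeries.C c * ∑ i, aeval (zz z0 c) (C (a i : ℚ) * Ti a i) *
          ∑ b'', PowerSeries.C (M' i b' b'') * ∑ b, PowerSeries.C (P b'' b) * u b := by
        congr 1
        exact Finset.sum_congr rfl fun i _ => by rw [h1 i]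

/-- above `z = s` the value of a polynomial is the polynomial -/
private theorem Span_zz (p : ℚ[X]) : aeval (zz 0 1) p = (p : PowerSeries ℚ) := by
  have h1 : zz 0 1 = PowerSeries.X := by
    unfold zz
    rw [map_zero, map_one, zero_add, one_mul]
  rw [h1]
  have h2 : (aeval (PowerSeries.X : PowerSeries ℚ) : ℚ[X] →ₐ[ℚ] PowerSeries ℚ) =
      Polynomial.coeToPowerSeries.algHom ℚ := by
    refine Polynomial.algHom_ext ?_
    rw [aeval_X, Polynomial.coeToPowerSeries.algHom_apply, Polynomial.coe_X, PowerSeries.map_X]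
  rw [h2, Polynomial.coeToPowerSeries.algHom_apply, Algebra.algebraMap_self, PowerSeries.map_id]
  rfl

private theorem Span_RR {n D : ℕ} (a : Fin n → ℤ) (F : (Fin n → Fin (D + 1)) → ℚ[X]) :
    pr 0 1 F (uc (fun i => lg (a i)) (Pi.single 0 1)) = RR a F := by
  unfold pr RR
  refine Finset.sum_congr rfl fun μ _ => ?_
  rw [Span_zz, uc_single]

private theorem Span_hor0 {n D : ℕ} (a : Fin n → ℤ) (κ : (Fin n → Fin (D + 1)) → ℚ) :
    Hor a (Mc n D) 0 1 (uc (fun i => lg (a i)) κ) :=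
  uc_hor a 0 1 _ (fun i => lg_hor0 a i) κ

/-- `(*)` holds for the concrete system: `exists_quot` with `κ_0 = δ_0` (not in `K` by `Mc_cyclic` and `F ≠ 0`), the horizontal
section `u = uc (lg a) δ_0` above `z = s`, `u' = P u` is horizontal for `M'` with `⟨F', u'⟩ = ⟨F, u⟩ = RR a F`, so
`X^(σ - (r-1)) ∣ det' ≠ 0` of degree `≤ r N + n r^2`; if `r < m` this contradicts `h1`; so `r = card`. -/
theorem star {n D : ℕ} (a : Fin n → ℤ) (ha : ∀ i, a i ≠ 0) (hinj : Function.Injective a)
    (F : (Fin n → Fin (D + 1)) → ℚ[X]) (hF : F ≠ 0) (N σ : ℕ) (hN : ∀ μ, (F μ).natDegree ≤ N)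
    (hσ : (PowerSeries.X : PowerSeries ℚ) ^ σ ∣ RR a F)
    (h1 : ((D + 1) ^ n - 1) * N + n * ((D + 1) ^ n) ^ 2 + (D + 1) ^ n ≤ σ)
    (κ : (Fin n → Fin (D + 1)) → ℚ) (hκ : ∀ i, Mc n D i *ᵥ κ = 0)
    (hκF : (∑ b, C (κ b) * F b) = 0) : κ = 0 := by
  classical
  -- a word
  obtain ⟨w0, hw0⟩ : ∃ w0 : List (Fin n), ∑ b, C (((w0.map (Mc n D)).prod *ᵥ
      (Pi.single 0 1 : (Fin n → Fin (D + 1)) → ℚ)) b) * F b ≠ 0 := by
    by_contra hcon
    have hcon' : ∀ w : List (Fin n), ∑ b, C (((w.map (Mc n D)).prod *ᵥ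
      (Pi.single 0 1 : (Fin n → Fin (D + 1)) → ℚ)) b) * F b = 0 := by
      intro w
      by_contra hw
      exact hcon ⟨w, hw⟩
    let K : Submodule ℚ ((Fin n → Fin (D + 1)) → ℚ) :=
      { carrier := {κ | ∀ w : List (Fin n), ∑ b, C (((w.map (Mc n D)).prod *ᵥ κ) b) * F b = 0}
        add_mem' := fun {κ κ'} hκ hκ' w => by
          simp only [Matrix.mulVec_add, Pi.add_apply, map_add, add_mul, Finset.sum_add_distrib]
          rw [hκ w, hκ' w, add_zero]
        zero_mem' := fun w => by simp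
        smul_mem' := fun c κ hκ w => by
          simp only [Matrix.mulVec_smul, Pi.smul_apply, smul_eq_mul, map_mul, mul_assoc]
          rw [← Finset.mul_sum, hκ w, mul_zero] }
    have hK : K = ⊤ := by
      refine Mc_cyclic n D K (fun i κ hκ w => ?_) hcon'
      have h2 := hκ (w ++ [i])
      rw [List.map_append, List.prod_append, List.map_singleton, List.prod_singleton,
        ← Matrix.mulVec_mulVec] at h2
      exact h2
    refine hF (funext fun b => ?_)
    have h2 : (Pi.single b 1 : (Fin n → Fin (D + 1)) → ℚ) ∈ K := by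
      rw [hK]
      trivial
    have h3 := h2 []
    rw [List.map_nil, List.prod_nil, Matrix.one_mulVec, Finset.sum_eq_single b] at h3
    · rw [Pi.single_eq_same, C_1, one_mul] at h3
      exact h3
    · intro b' _ hb
      rw [Pi.single_eq_of_ne hb, C_0, zero_mul]
    · intro h
      exact absurd (Finset.mem_univ b) h
  obtain ⟨r, M', F', P, hr, hMP, hFP, hM', hN', hP0, hst, himp⟩ :=
    exists_quot (Mc n D) (n * D + 1) (Mc_words n D) F N hN _ w0 hw0
  have hcard : Fintype.card (Fin n → Fin (D + 1)) = (D + 1) ^ n := by simp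
  rw [hcard] at hr himp
  have hrm : r = (D + 1) ^ n := by
    by_contra hne
    have hlt : r < (D + 1) ^ n := lt_of_le_of_ne hr hne
    have hdet := det_ne_zero a ha hinj M' (n * D + 1) hM' F' hst
    set u := uc (D := D) (fun i => lg (a i)) (Pi.single 0 1) with hu
    have hu' := Span_hor a (Mc n D) M' P hMP 0 1 u (Span_hor0 a _)
    obtain ⟨b, hb⟩ := Function.ne_iff.1 hP0
    have hb' : PowerSeries.constantCoeff (∑ b', PowerSeries.C (P b b') * u b') ≠ 0 := by
      have h2 : PowerSeries.constantCoeff (∑ b', PowerSeries.C (P b b') * u b') =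
          (P *ᵥ (Pi.single 0 1 : (Fin n → Fin (D + 1)) → ℚ)) b := by
        rw [map_sum, Matrix.mulVec, dotProduct]
        refine Finset.sum_congr rfl fun b' _ => ?_
        rw [map_mul, PowerSeries.constantCoeff_C, hu, uc_const _ (fun i => lg_const _)]
      rw [h2]
      exact hb
    have hpr : pr 0 1 F' (fun b' => ∑ b, PowerSeries.C (P b' b) * u b) = RR a F := by
      rw [← Span_RR a F, ← hu]
      unfold pr
      simp only [Finset.mul_sum]
      rw [Finset.sum_comm]
      refine Finset.sum_congr rfl fun b _ => ?_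
      rw [hFP b, map_sum, Finset.sum_mul]
      refine Finset.sum_congr rfl fun b' _ => ?_
      rw [map_mul, Polynomial.aeval_C]
      change _ = PowerSeries.C (P b' b) * _ * _
      ring
    have hdvd := pow_dvd_det a M' F' 0 1 one_ne_zero _ hu' b hb' σ (by rw [hpr]; exact hσ)
    have hdeg := Polynomial.natDegree_le_of_dvd hdvd hdet
    rw [Polynomial.natDegree_pow, Polynomial.natDegree_X_sub_C, mul_one] at hdeg
    have hdeg2 := natDegree_det_le a M' F' N hN'
    have h2 : r * N ≤ ((D + 1) ^ n - 1) * N := Nat.mul_le_mul_right _ (by omega)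
    have h3 : n * r ^ 2 ≤ n * ((D + 1) ^ n) ^ 2 :=
      Nat.mul_le_mul_left _ (Nat.pow_le_pow_left hr 2)
    omega
  exact himp hrm κ hκ hκF

/-- THE FORMS SPAN. Reindex the concrete system by `e : (Fin n → Fin (D+1)) ≃ Fin m`; `det_ne_zero` gives `Δ ≠ 0`;
`pow_dvd_det` at `0` with `u = uc (lg a) δ_0` and at `1/x` with `u = uc Λ κ` (order `≥ J + 1` because
`∑ κ_ν Wf ν = x^N ⟨F, uc Λ κ⟩`) give `X^(σ-(m-1)) (X - 1/x)^(J+1-(m-1)) ∣ Δ`, of degree `≤ m N + n m^2`,
contradicting `h2`. -/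
theorem span_forms {n D : ℕ} (a : Fin n → ℤ) (ha : ∀ i, a i ≠ 0) (hinj : Function.Injective a)
    (F : (Fin n → Fin (D + 1)) → ℚ[X]) (hF : F ≠ 0) (N σ J : ℕ) (hN : ∀ μ, (F μ).natDegree ≤ N)
    (hσ : (PowerSeries.X : PowerSeries ℚ) ^ σ ∣ RR a F)
    (h1 : ((D + 1) ^ n - 1) * N + n * ((D + 1) ^ n) ^ 2 + (D + 1) ^ n ≤ σ)
    (h2 : (D + 1) ^ n * N + n * ((D + 1) ^ n) ^ 2 + 2 * (D + 1) ^ n ≤ σ + J)
    (x : ℤ) (hx : x ≠ 0) (hxa : ∀ i, x + a i ≠ 0)
    (κ : (Fin n → Fin (D + 1)) → ℚ)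
    (hκ : ∀ j ≤ J, ∑ ν, κ ν * PowerSeries.coeff j (Wf a F N x ν) = 0) : κ = 0 := by
  classical
  by_contra hκ0
  have hstar := star a ha hinj F hF N σ hN hσ h1
  have hcard : Fintype.card (Fin n → Fin (D + 1)) = (D + 1) ^ n := by simp
  set m := (D + 1) ^ n with hm
  let e : (Fin n → Fin (D + 1)) ≃ Fin m := Fintype.equivFinOfCardEq hcard
  let M' : Fin n → Matrix (Fin m) (Fin m) ℚ := fun i => (Mc n D i).submatrix e.symm e.symm
  let F' : Fin m → ℚ[X] := fun b => F (e.symm b)
  have hM' : ∀ w : List (Fin n), w.length = n * D + 1 → (w.map M').prod = 0 := by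
    intro w hw
    have h3 : (w.map M').prod = ((w.map (Mc n D)).prod).submatrix e.symm e.symm := by
      clear hw
      induction w with
      | nil =>
        rw [List.map_nil, List.prod_nil, List.map_nil, List.prod_nil,
          Matrix.submatrix_one_equiv]
      | cons i t ih =>
        rw [List.map_cons, List.prod_cons, List.map_cons, List.prod_cons, ih,
          Matrix.submatrix_mul_equiv]
    rw [h3, Mc_words n D w hw, Matrix.submatrix_zero]
    rfl
  have hst : ∀ κ : Fin m → ℚ, (∀ i, M' i *ᵥ κ = 0) → (∑ b, C (κ b) * F' b) = 0 → κ = 0 := by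
    intro κ' hκ' hκF'
    have h3 : (fun b => κ' (e b)) = (0 : (Fin n → Fin (D + 1)) → ℚ) := by
      refine hstar _ (fun i => funext fun b => ?_) ?_
      · have h4 := congrFun (hκ' i) (e b)
        rw [Matrix.mulVec, dotProduct] at h4 ⊢
        rw [Pi.zero_apply] at h4 ⊢
        rw [← h4, ← Equiv.sum_comp e]
        refine Finset.sum_congr rfl fun b' _ => ?_
        change _ = Mc n D i (e.symm (e b)) (e.symm (e b')) * κ' (e b')
        rw [Equiv.symm_apply_apply, Equiv.symm_apply_apply]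
      · rw [← hκF', ← Equiv.sum_comp e]
        refine Finset.sum_congr rfl fun b' _ => ?_
        change _ = C (κ' (e b')) * F (e.symm (e b'))
        rw [Equiv.symm_apply_apply]
    funext b
    have h4 := congrFun h3 (e.symm b)
    simp only [Equiv.apply_symm_apply] at h4
    exact h4
  have hdet := det_ne_zero a ha hinj M' (n * D + 1) hM' F' hst
  -- horizontal sections
  have hhor : ∀ (z0 c : ℚ) (u : (Fin n → Fin (D + 1)) → PowerSeries ℚ), Hor a (Mc n D) z0 c u →
      Hor a M' z0 c (fun b => u (e.symm b)) := by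
    intro z0 c u hu b
    rw [hu (e.symm b)]
    congr 1
    refine Finset.sum_congr rfl fun i _ => ?_
    congr 1
    exact (Equiv.sum_comp e.symm fun b' =>
      PowerSeries.C (Mc n D i (e.symm b) b') * u b').symm
  have hpr : ∀ (z0 c : ℚ) (u : (Fin n → Fin (D + 1)) → PowerSeries ℚ),
      pr z0 c F' (fun b => u (e.symm b)) = pr z0 c F u := by
    intro z0 c u
    unfold pr
    exact Equiv.sum_comp e.symm fun b => aeval (zz z0 c) (F b) * u b
  -- at `0`
  have hdvd0 := pow_dvd_det a M' F' 0 1 one_ne_zero _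
    (hhor 0 1 _ (Span_hor0 a (Pi.single 0 1))) (e 0) (by
      rw [Equiv.symm_apply_apply, uc_const _ (fun i => lg_const _), Pi.single_eq_same]
      exact one_ne_zero) σ (by rw [hpr, Span_RR]; exact hσ)
  -- at `1 / x`
  have hxQ : (x : ℚ) ≠ 0 := Int.cast_ne_zero.2 hx
  have hqq : (qq a x : ℚ) ≠ 0 := by
    rw [Int.cast_ne_zero]
    exact Finset.prod_ne_zero_iff.2 fun i _ => hxa i
  have hc : (qq a x : ℚ) / x ≠ 0 := div_ne_zero hqq hxQ
  obtain ⟨μ, hμ⟩ := Function.ne_iff.1 hκ0
  set u1 := uc (fun i => lg (a i * qi a x i)) κ with hu1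
  have hor1 : Hor a (Mc n D) (1 / (x : ℚ)) ((qq a x : ℚ) / x) u1 :=
    uc_hor a _ _ _ (fun i => lg_hor1 a x hx i) κ
  have hWf : PowerSeries.C ((x : ℚ) ^ N) * pr (1 / (x : ℚ)) ((qq a x : ℚ) / x) F u1 =
      ∑ ν, PowerSeries.C (κ ν) * Wf a F N x ν := by
    unfold pr Wf
    rw [hu1]
    unfold uc
    simp only [Finset.mul_sum]
    rw [Finset.sum_comm]
    refine Finset.sum_congr rfl fun ν _ => Finset.sum_congr rfl fun b _ => ?_
    ring
  have hdvdW : (PowerSeries.X : PowerSeries ℚ) ^ (J + 1) ∣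
      pr (1 / (x : ℚ)) ((qq a x : ℚ) / x) F u1 := by
    have h3 : (PowerSeries.X : PowerSeries ℚ) ^ (J + 1) ∣
        PowerSeries.C ((x : ℚ) ^ N) * pr (1 / (x : ℚ)) ((qq a x : ℚ) / x) F u1 := by
      rw [hWf, PowerSeries.X_pow_dvd_iff]
      intro j hj
      rw [map_sum, ← hκ j (by omega)]
      refine Finset.sum_congr rfl fun ν _ => ?_
      rw [PowerSeries.coeff_C_mul]
    have h4 : PowerSeries.C (((x : ℚ) ^ N)⁻¹) * (PowerSeries.C ((x : ℚ) ^ N) *
        pr (1 / (x : ℚ)) ((qq a x : ℚ) / x) F u1) =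
          pr (1 / (x : ℚ)) ((qq a x : ℚ) / x) F u1 := by
      rw [← mul_assoc, ← map_mul, inv_mul_cancel₀ (pow_ne_zero _ hxQ), map_one, one_mul]
    rw [← h4]
    exact Dvd.dvd.mul_left h3 _
  have hdvd1 := pow_dvd_det a M' F' (1 / (x : ℚ)) ((qq a x : ℚ) / x) hc _
    (hhor _ _ u1 hor1) (e μ) (by
      rw [Equiv.symm_apply_apply, hu1, uc_const _ (fun i => lg_const _)]
      exact hμ) (J + 1) (by rw [hpr]; exact hdvdW)
  -- the degree
  have hcop : IsCoprime ((X - C (0 : ℚ)) ^ (σ - (m - 1)))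
      ((X - C (1 / (x : ℚ))) ^ (J + 1 - (m - 1))) := by
    refine IsCoprime.pow (Polynomial.isCoprime_X_sub_C_of_isUnit_sub ?_)
    rw [zero_sub, isUnit_iff_ne_zero]
    exact neg_ne_zero.2 (one_div_ne_zero hxQ)
  have hdvd := hcop.mul_dvd hdvd0 hdvd1
  have hdeg := Polynomial.natDegree_le_of_dvd hdvd hdet
  rw [Polynomial.natDegree_mul (pow_ne_zero _ (Polynomial.X_sub_C_ne_zero _))
    (pow_ne_zero _ (Polynomial.X_sub_C_ne_zero _)), Polynomial.natDegree_pow,
    Polynomial.natDegree_pow, Polynomial.natDegree_X_sub_C, Polynomial.natDegree_X_sub_C,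
    mul_one, mul_one] at hdeg
  have hdeg2 := natDegree_det_le a M' F' N (fun b => hN _)
  have hm1 : 1 ≤ m := Nat.one_le_pow _ _ (Nat.succ_pos D)
  have h3 : (m - 1) * N + N = m * N := by
    rw [← Nat.succ_mul]
    congr 1
    omega
  omega

end MP60829e.GF
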