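import Pool.Agent.Lib.MP_60829e_nt.GF.Res
import Mathlib.Data.Nat.Choose.Basic

/-!
# The concrete system on `{0..D}^n`: nilpotency and cyclicity
-/

namespace MP60829e.GF
open Polynomial
open scoped Matrix

private theorem SysA_val_sub_one {D : ℕ} (x : Fin (D + 1)) (hx : (x : ℕ) ≠ 0) :
    ((x - 1 : Fin (D + 1)) : ℕ) = (x : ℕ) - 1 := by
  have h1 : x ≠ 0 := by
    intro h
    exact hx (by rw [h]; rfl)
  exact Fin.val_sub_one_of_ne_zero h1

private theorem SysA_sum_update {n D : ℕ} (μ : Fin n → Fin (D + 1)) (i : Fin n)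
    (hx : (μ i : ℕ) ≠ 0) :
    ∑ j, ((Function.update μ i (μ i - 1) j : Fin (D + 1)) : ℕ) + 1 = ∑ j, (μ j : ℕ) := by
  classical
  rw [← Finset.add_sum_erase Finset.univ _ (Finset.mem_univ i),
    ← Finset.add_sum_erase Finset.univ (fun j => (μ j : ℕ)) (Finset.mem_univ i)]
  have h1 : ∑ j ∈ Finset.univ.erase i, ((Function.update μ i (μ i - 1) j : Fin (D + 1)) : ℕ)
      = ∑ j ∈ Finset.univ.erase i, (μ j : ℕ) := by
    refine Finset.sum_congr rfl fun j hj => ?_
    rw [Function.update_of_ne (Finset.ne_of_mem_erase hj)]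
  rw [h1, Function.update_self, SysA_val_sub_one _ hx]
  omega

private theorem SysA_words_entry (n D : ℕ) (w : List (Fin n)) :
    ∀ μ ν : Fin n → Fin (D + 1), ∑ j, (μ j : ℕ) < w.length →
      (w.map (Mc n D)).prod μ ν = 0 := by
  induction w with
  | nil => intro μ ν h; simp at h
  | cons i w ih =>
    intro μ ν h
    rw [List.map_cons, List.prod_cons, Matrix.mul_apply]
    refine Finset.sum_eq_zero fun ρ _ => ?_
    by_cases hρ : ρ = Function.update μ i (μ i - 1)
    · by_cases hx : (μ i : ℕ) = 0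
      · have : Mc n D i μ ρ = 0 := by
          simp [Mc, hx]
        rw [this, zero_mul]
      · have h1 := SysA_sum_update μ i hx
        have h2 : (w.map (Mc n D)).prod ρ ν = 0 := by
          apply ih
          rw [hρ]
          simp only [List.length_cons] at h
          omega
        rw [h2, mul_zero]
    · have : Mc n D i μ ρ = 0 := by
        simp [Mc, hρ]
      rw [this, zero_mul]

/-- All words of length `n D + 1` are `0`: `(M^w κ)_μ = 0` if `∑ μ_i < |w|`. -/
theorem Mc_words (n D : ℕ) (w : List (Fin n)) (hw : w.length = n * D + 1) :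
    (w.map (Mc n D)).prod = 0 := by
  ext μ ν
  rw [Matrix.zero_apply]
  apply SysA_words_entry
  have h1 : ∑ j, (μ j : ℕ) ≤ ∑ _j : Fin n, D :=
    Finset.sum_le_sum fun j _ => Nat.lt_succ_iff.mp (μ j).isLt
  simp only [Finset.sum_const, Finset.card_univ, Fintype.card_fin, smul_eq_mul] at h1
  omega

private theorem SysA_Mc_single (n D : ℕ) (i : Fin n) (b : Fin n → Fin (D + 1)) :
    Mc n D i *ᵥ (Pi.single (Function.update b i (b i - 1)) 1 : (Fin n → Fin (D + 1)) → ℚ)
      = ((b i : ℕ) : ℚ) • (Pi.single b 1 : (Fin n → Fin (D + 1)) → ℚ) := by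
  classical
  ext μ
  rw [Matrix.mulVec_single_one]
  simp only [Matrix.col_apply, Pi.smul_apply, smul_eq_mul, Mc, Matrix.of_apply]
  by_cases h : μ = b
  · subst h
    simp
  · rw [Pi.single_eq_of_ne h, mul_zero, if_neg]
    intro h2
    apply h
    funext j
    have h3 := congrFun h2 j
    by_cases hj : j = i
    · subst hj
      rw [Function.update_self, Function.update_self] at h3
      exact (sub_left_inj.mp h3).symm
    · rw [Function.update_of_ne hj, Function.update_of_ne hj] at h3
      exact h3.symm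

/-- A subspace stable under the `M_i` which contains `δ_0` is everything
(`M_i δ_b = (b_i + 1) δ_(b + e_i)` for `b_i < D`; induction on `∑ b_i`). -/
theorem Mc_cyclic (n D : ℕ) (K : Submodule ℚ ((Fin n → Fin (D + 1)) → ℚ))
    (hK : ∀ i, ∀ κ ∈ K, Mc n D i *ᵥ κ ∈ K) (h0 : (Pi.single 0 1 : (Fin n → Fin (D + 1)) → ℚ) ∈ K) :
    K = ⊤ := by
  classical
  have key : ∀ m : ℕ, ∀ b : Fin n → Fin (D + 1), ∑ j, (b j : ℕ) = m →
      (Pi.single b 1 : (Fin n → Fin (D + 1)) → ℚ) ∈ K := by
    intro m
    induction m with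
    | zero =>
      intro b hb
      have : b = 0 := by
        funext j
        have := (Finset.sum_eq_zero_iff.mp hb) j (Finset.mem_univ j)
        exact Fin.ext this
      rw [this]
      exact h0
    | succ m ih =>
      intro b hb
      have hex : ∃ i, (b i : ℕ) ≠ 0 := by
        by_contra hcon
        push Not at hcon
        rw [Finset.sum_eq_zero fun i _ => hcon i] at hb
        omega
      obtain ⟨i, hi⟩ := hex
      have h1 := SysA_sum_update b i hi
      have h2 := ih (Function.update b i (b i - 1)) (by omega)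
      have h3 := hK i _ h2
      rw [SysA_Mc_single] at h3
      have h4 : (((b i : ℕ) : ℚ)) ≠ 0 := by exact_mod_cast hi
      have h5 := K.smul_mem (((b i : ℕ) : ℚ))⁻¹ h3
      rwa [smul_smul, inv_mul_cancel₀ h4, one_smul] at h5
  rw [Submodule.eq_top_iff']
  intro κ
  have h1 : κ = ∑ b, κ b • (Pi.single b 1 : (Fin n → Fin (D + 1)) → ℚ) := by
    conv_lhs => rw [← Finset.univ_sum_single κ]
    refine Finset.sum_congr rfl fun b _ => ?_
    ext μ
    by_cases h : μ = b
    · subst h; simp
    · simp [Pi.single_eq_of_ne h]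
  rw [h1]
  exact K.sum_mem fun b _ => K.smul_mem _ (key _ b rfl)

end MP60829e.GF
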