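import Pool.Agent.Lib.MP_60829e_nt.GF.Defs
import Mathlib.Analysis.SpecialFunctions.Complex.Analytic
import Mathlib.Analysis.Calculus.IteratedDeriv.Lemmas
import Mathlib.Analysis.Analytic.Order

/-!
# Taylor coefficients at `0`
-/

namespace MP60829e.GF
open Polynomial

/-- `f` is analytic at `0` with Taylor series `p`. -/
def Tay (f : ℂ → ℂ) (p : PowerSeries ℂ) : Prop :=
  AnalyticAt ℂ f 0 ∧ ∀ j, iteratedDeriv j f 0 = (j.factorial : ℂ) * PowerSeries.coeff j p

theorem Tay.congr {f g : ℂ → ℂ} {p : PowerSeries ℂ} (hf : Tay f p) (h : f =ᶠ[nhds 0] g) :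
    Tay g p :=
  ⟨hf.1.congr h, fun j => by rw [← hf.2 j, h.iteratedDeriv_eq]⟩

theorem Tay.add {f g : ℂ → ℂ} {p q : PowerSeries ℂ} (hf : Tay f p) (hg : Tay g q) :
    Tay (fun s => f s + g s) (p + q) := by
  refine ⟨hf.1.add hg.1, fun j => ?_⟩
  rw [iteratedDeriv_fun_add hf.1.contDiffAt hg.1.contDiffAt, hf.2, hg.2, map_add, mul_add]

/-- Leibniz (`iteratedDeriv_fun_mul`). -/
theorem Tay.mul {f g : ℂ → ℂ} {p q : PowerSeries ℂ} (hf : Tay f p) (hg : Tay g q) :
    Tay (fun s => f s * g s) (p * q) := by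
  refine ⟨hf.1.mul hg.1, fun j => ?_⟩
  rw [iteratedDeriv_fun_mul hf.1.contDiffAt hg.1.contDiffAt, PowerSeries.coeff_mul,
    Finset.Nat.sum_antidiagonal_eq_sum_range_succ_mk, Finset.mul_sum]
  refine Finset.sum_congr rfl fun i hi => ?_
  have h1 : i ≤ j := Nat.lt_succ_iff.1 (Finset.mem_range.1 hi)
  have h2 : ((j.choose i : ℕ) : ℂ) * (i.factorial : ℂ) * ((j - i).factorial : ℂ) =
      (j.factorial : ℂ) := by
    exact_mod_cast Nat.choose_mul_factorial_mul_factorial h1
  rw [hf.2, hg.2, ← h2]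
  ring

theorem Tay.const (c : ℂ) : Tay (fun _ => c) (PowerSeries.C c) := by
  refine ⟨analyticAt_const, fun j => ?_⟩
  rw [iteratedDeriv_const, PowerSeries.coeff_C]
  split_ifs with h
  · rw [h, Nat.factorial_zero, Nat.cast_one, one_mul]
  · rw [mul_zero]

theorem Tay.id : Tay (fun s => s) PowerSeries.X := by
  refine ⟨analyticAt_id, fun j => ?_⟩
  rw [iteratedDeriv_fun_id_zero, PowerSeries.coeff_X]
  split_ifs with h
  · rw [h, Nat.factorial_one, Nat.cast_one, one_mul]
  · rw [mul_zero]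

theorem Tay.pow {f : ℂ → ℂ} {p : PowerSeries ℂ} (hf : Tay f p) (k : ℕ) :
    Tay (fun s => f s ^ k) (p ^ k) := by
  induction k with
  | zero =>
    have h := Tay.const 1
    simpa using h
  | succ k ih =>
    have h := ih.mul hf
    simpa only [pow_succ] using h

theorem Tay.sum {α : Type*} (s : Finset α) (f : α → ℂ → ℂ) (p : α → PowerSeries ℂ)
    (h : ∀ i ∈ s, Tay (f i) (p i)) : Tay (fun z => ∑ i ∈ s, f i z) (∑ i ∈ s, p i) := by
  classical
  induction s using Finset.induction_on with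
  | empty =>
    have h := Tay.const 0
    simpa using h
  | insert a s ha ih =>
    have h1 := (h a (Finset.mem_insert_self a s)).add
      (ih fun i hi => h i (Finset.mem_insert_of_mem hi))
    simpa only [Finset.sum_insert ha] using h1

theorem Tay.prod {α : Type*} (s : Finset α) (f : α → ℂ → ℂ) (p : α → PowerSeries ℂ)
    (h : ∀ i ∈ s, Tay (f i) (p i)) : Tay (fun z => ∏ i ∈ s, f i z) (∏ i ∈ s, p i) := by
  classical
  induction s using Finset.induction_on with
  | empty =>
    have h := Tay.const 1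
    simpa using h
  | insert a s ha ih =>
    have h1 := (h a (Finset.mem_insert_self a s)).mul
      (ih fun i hi => h i (Finset.mem_insert_of_mem hi))
    simpa only [Finset.prod_insert ha] using h1

theorem Tay.aevals {f : ℂ → ℂ} {p : PowerSeries ℂ} (hf : Tay f p) (G : ℚ[X]) :
    Tay (fun s => Polynomial.aeval (f s) G) (Polynomial.aeval p G) := by
  have h1 := Tay.sum (Finset.range (G.natDegree + 1))
    (fun i s => algebraMap ℚ ℂ (G.coeff i) * f s ^ i)
    (fun i => PowerSeries.C (algebraMap ℚ ℂ (G.coeff i)) * p ^ i)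
    (fun i _ => (Tay.const _).mul (hf.pow i))
  have h2 : (fun s => Polynomial.aeval (f s) G) =
      fun s => ∑ i ∈ Finset.range (G.natDegree + 1), algebraMap ℚ ℂ (G.coeff i) * f s ^ i := by
    funext s
    rw [aeval_eq_sum_range]
    exact Finset.sum_congr rfl fun i _ => Algebra.smul_def _ _
  have h3 : Polynomial.aeval p G =
      ∑ i ∈ Finset.range (G.natDegree + 1), PowerSeries.C (algebraMap ℚ ℂ (G.coeff i)) * p ^ i := by
    rw [aeval_eq_sum_range]
    refine Finset.sum_congr rfl fun i _ => ?_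
    rw [Algebra.smul_def, PowerSeries.algebraMap_apply]
  rw [h2, h3]
  exact h1

/-- Every analytic function has a Taylor series. -/
theorem tay_exists {f : ℂ → ℂ} (hf : AnalyticAt ℂ f 0) :
    Tay f (PowerSeries.mk fun j => iteratedDeriv j f 0 / (j.factorial : ℂ)) := by
  refine ⟨hf, fun j => ?_⟩
  rw [PowerSeries.coeff_mk, mul_div_cancel₀ _ (Nat.cast_ne_zero.2 j.factorial_ne_zero)]

theorem tay_unique {f : ℂ → ℂ} {p q : PowerSeries ℂ} (hp : Tay f p) (hq : Tay f q) : p = q := by
  ext j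
  have h1 := hp.2 j
  rw [hq.2 j] at h1
  exact (mul_left_cancel₀ (Nat.cast_ne_zero.2 j.factorial_ne_zero) h1).symm

/-- `log (1 + b s)` (`hasFPowerSeriesAt_clog_one_add` or by differentiating `(1 + b s) f' = b`). -/
theorem Tay.lgs (b : ℤ) :
    Tay (fun s => Complex.log (1 + b * s)) ((lg b).map (algebraMap ℚ ℂ)) := by
  have hmem : ∀ᶠ s : ℂ in nhds 0, 1 + (b : ℂ) * s ∈ Complex.slitPlane := by
    have hc : ContinuousAt (fun s : ℂ => 1 + (b : ℂ) * s) 0 := by fun_prop
    refine hc.eventually_mem (Complex.isOpen_slitPlane.mem_nhds ?_)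
    simp
  have hder : ∀ s : ℂ, 1 + (b : ℂ) * s ∈ Complex.slitPlane →
      HasDerivAt (fun s => Complex.log (1 + b * s)) ((b : ℂ) / (1 + b * s)) s := by
    intro s hs
    have h1 : HasDerivAt (fun s : ℂ => 1 + (b : ℂ) * s) (b : ℂ) s := by
      have h2 := ((hasDerivAt_id s).const_mul (b : ℂ)).const_add 1
      simpa using h2
    exact h1.clog hs
  have han : AnalyticAt ℂ (fun s : ℂ => Complex.log (1 + b * s)) 0 := by
    refine AnalyticAt.clog ?_ ?_
    · fun_prop
    · simp
  refine ⟨han, fun j => ?_⟩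
  rw [PowerSeries.coeff_map, lg, PowerSeries.coeff_mk]
  rcases j with _ | j
  · rw [iteratedDeriv_zero]
    simp
  -- the derivative
  have hg := tay_exists han.deriv
  obtain ⟨q, hq⟩ : ∃ q, q = PowerSeries.mk fun j =>
      iteratedDeriv j (deriv fun s : ℂ => Complex.log (1 + b * s)) 0 / (j.factorial : ℂ) := ⟨_, rfl⟩
  rw [← hq] at hg
  have h1 : Tay (fun s => (1 + (b : ℂ) * s) * deriv (fun s : ℂ => Complex.log (1 + b * s)) s)
      ((PowerSeries.C 1 + PowerSeries.C (b : ℂ) * PowerSeries.X) * q) :=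
    ((Tay.const 1).add ((Tay.const (b : ℂ)).mul Tay.id)).mul hg
  have h2 : Tay (fun s => (1 + (b : ℂ) * s) * deriv (fun s : ℂ => Complex.log (1 + b * s)) s)
      (PowerSeries.C (b : ℂ)) := by
    refine (Tay.const (b : ℂ)).congr ?_
    filter_upwards [hmem] with s hs
    rw [(hder s hs).deriv, mul_div_cancel₀ _ (Complex.slitPlane_ne_zero hs)]
  have h3 := tay_unique h1 h2
  have h4 : ∀ j, PowerSeries.coeff j q = (b : ℂ) * (-(b : ℂ)) ^ j := by
    intro j
    induction j with
    | zero =>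
      have h5 := congrArg (PowerSeries.coeff 0) h3
      rw [map_one, add_mul, one_mul, mul_assoc, map_add, PowerSeries.coeff_C_mul,
        PowerSeries.coeff_zero_X_mul, mul_zero, add_zero, PowerSeries.coeff_zero_C] at h5
      rw [h5, pow_zero, mul_one]
    | succ j ih =>
      have h5 := congrArg (PowerSeries.coeff (j + 1)) h3
      rw [map_one, add_mul, one_mul, mul_assoc, map_add, PowerSeries.coeff_C_mul,
        PowerSeries.coeff_succ_X_mul, PowerSeries.coeff_C_of_ne_zero (Nat.succ_ne_zero j), ih] at h5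
      rw [pow_succ]
      linear_combination h5
  rw [iteratedDeriv_succ', hg.2, h4, Nat.factorial_succ]
  push_cast
  rw [map_div₀, map_mul, map_pow, map_pow, map_neg, map_one, map_add, map_one, map_natCast,
    map_intCast]
  have h6 : ((j : ℂ) + 1) ≠ 0 := by exact_mod_cast Nat.succ_ne_zero j
  field_simp
  rw [neg_pow (b : ℂ) j]
  ring

/-- If the Taylor series is divisible by `X^k`, then `f = O(s^k)`. -/
theorem Tay.isBigO {f : ℂ → ℂ} {p : PowerSeries ℂ} (hf : Tay f p) (k : ℕ)
    (hk : (PowerSeries.X : PowerSeries ℂ) ^ k ∣ p) :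
    f =O[nhds 0] fun s => s ^ k := by
  have h1 : (k : ℕ∞) ≤ analyticOrderAt f 0 := by
    rw [natCast_le_analyticOrderAt_iff_iteratedDeriv_eq_zero hf.1]
    intro j hj
    rw [hf.2, PowerSeries.X_pow_dvd_iff.1 hk j hj, mul_zero]
  obtain ⟨g, hg, hfg⟩ := (natCast_le_analyticOrderAt hf.1).1 h1
  have h2 : g =O[nhds 0] fun _ => (1 : ℂ) := hg.continuousAt.isBigO_one ℂ
  have h3 : (fun s : ℂ => s ^ k * g s) =O[nhds 0] fun s => s ^ k * 1 :=
    (Asymptotics.isBigO_refl _ _).mul h2
  refine (Asymptotics.IsBigO.congr' h3 ?_ ?_)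
  · filter_upwards [hfg] with s hs
    rw [hs, sub_zero, smul_eq_mul]
  · exact Filter.Eventually.of_forall fun s => mul_one _

end MP60829e.GF
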