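import Pool.Agent.Lib.MP_60829e_nt.GF.Res
import Mathlib.LinearAlgebra.Matrix.ToLinearEquiv

/-!
# Nonvanishing of the Wronskian-type determinant (AL1)
-/

namespace MP60829e.GF
open Polynomial
open scoped Matrix

/-- Duality: `T (⟨D_j F, v⟩)' = ⟨D_(j+1) F, v⟩ + j T' ⟨D_j F, v⟩ + ⟨D_j F, Ds v⟩`. -/
theorem dual {n : ℕ} {ι : Type*} [Fintype ι] (a : Fin n → ℤ) (M : Fin n → Matrix ι ι ℚ)
    (F : ι → ℚ[X]) (v : ι → ℚ[X]) (j : ℕ) :
    T a * derivative (∑ b, Dn a M F j b * v b)
      = ∑ b, Dn a M F (j + 1) b * v b + (j : ℚ[X]) * derivative (T a) * ∑ b, Dn a M F j b * v b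
        + ∑ b, Dn a M F j b * Ds a M v b := by
  have hS : ∑ b, (∑ i, C (a i : ℚ) * Ti a i * ∑ b', C (M i b' b) * Dn a M F j b') * v b =
      ∑ b, Dn a M F j b * ∑ i, C (a i : ℚ) * Ti a i * ∑ b', C (M i b b') * v b' := by
    simp only [Finset.mul_sum, Finset.sum_mul]
    rw [Finset.sum_comm, Finset.sum_comm (γ := ι)]
    refine Finset.sum_congr rfl fun i _ => ?_
    rw [Finset.sum_comm]
    refine Finset.sum_congr rfl fun b _ => Finset.sum_congr rfl fun b' _ => ?_
    ring
  have h1 : ∑ b, Dn a M F (j + 1) b * v b = T a * ∑ b, derivative (Dn a M F j b) * v b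
      - (j : ℚ[X]) * derivative (T a) * ∑ b, Dn a M F j b * v b
      + ∑ b, (∑ i, C (a i : ℚ) * Ti a i * ∑ b', C (M i b' b) * Dn a M F j b') * v b := by
    rw [Finset.mul_sum, Finset.mul_sum, ← Finset.sum_sub_distrib, ← Finset.sum_add_distrib]
    refine Finset.sum_congr rfl fun b _ => ?_
    change (T a * derivative (Dn a M F j b) - (j : ℚ[X]) * derivative (T a) * Dn a M F j b
        + ∑ i, C (a i : ℚ) * Ti a i * ∑ b', C (M i b' b) * Dn a M F j b') * v b = _
    ring
  have h2 : ∑ b, Dn a M F j b * Ds a M v b = T a * ∑ b, Dn a M F j b * derivative (v b)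
      - ∑ b, Dn a M F j b * ∑ i, C (a i : ℚ) * Ti a i * ∑ b', C (M i b b') * v b' := by
    rw [Finset.mul_sum, ← Finset.sum_sub_distrib]
    refine Finset.sum_congr rfl fun b _ => ?_
    unfold Ds
    ring
  rw [h1, h2, hS, derivative_sum]
  simp only [derivative_mul, Finset.sum_add_distrib]
  ring

/-- `M^w v` -/
private noncomputable def Wron_W {n : ℕ} {ι : Type*} [Fintype ι] [DecidableEq ι]
    (M : Fin n → Matrix ι ι ℚ)
    (w : List (Fin n)) (v : ι → ℚ[X]) : ι → ℚ[X] := fun b =>
  ∑ b', C ((w.map M).prod b b') * v b'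

private theorem Wron_nil {n : ℕ} {ι : Type*} [Fintype ι] [DecidableEq ι]
    (M : Fin n → Matrix ι ι ℚ) (v : ι → ℚ[X]) : Wron_W M [] v = v := by
  funext b
  unfold Wron_W
  rw [List.map_nil, List.prod_nil, Finset.sum_eq_single b]
  · rw [Matrix.one_apply_eq, C_1, one_mul]
  · intro b' _ hb
    rw [Matrix.one_apply_ne (Ne.symm hb), C_0, zero_mul]
  · intro h
    exact absurd (Finset.mem_univ b) h

private theorem Wron_append {n : ℕ} {ι : Type*} [Fintype ι] [DecidableEq ι]
    (M : Fin n → Matrix ι ι ℚ) (w w' : List (Fin n)) (v : ι → ℚ[X]) :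
    Wron_W M (w ++ w') v = Wron_W M w (Wron_W M w' v) := by
  funext b
  unfold Wron_W
  rw [List.map_append, List.prod_append]
  simp only [Matrix.mul_apply, map_sum, map_mul, Finset.sum_mul, Finset.mul_sum]
  rw [Finset.sum_comm]
  refine Finset.sum_congr rfl fun x _ => Finset.sum_congr rfl fun y _ => ?_
  rw [mul_assoc]

private theorem Wron_key {n : ℕ} {ι : Type*} [Fintype ι] [DecidableEq ι] (a : Fin n → ℤ)
    (M : Fin n → Matrix ι ι ℚ) (v : ι → ℚ[X]) (g : ℚ[X])
    (h : ∀ b, g * Ds a M v b = T a * derivative g * v b) (w : List (Fin n)) (b : ι) :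
    g * (T a * derivative (Wron_W M w v b)
        - ∑ i, C (a i : ℚ) * Ti a i * Wron_W M (w ++ [i]) v b)
      = T a * derivative g * Wron_W M w v b := by
  have h1 : ∀ i, Wron_W M (w ++ [i]) v b =
      ∑ b', C ((w.map M).prod b b') * ∑ b'', C (M i b' b'') * v b'' := by
    intro i
    rw [Wron_append]
    unfold Wron_W
    simp only [List.map_cons, List.map_nil, List.prod_cons, List.prod_nil, mul_one]
  have h3 : ∑ i, C (a i : ℚ) * Ti a i * Wron_W M (w ++ [i]) v b =
      ∑ b', C ((w.map M).prod b b') * ∑ i, C (a i : ℚ) * Ti a i *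
        ∑ b'', C (M i b' b'') * v b'' := by
    rw [Finset.sum_congr rfl fun i _ => by rw [h1 i]]
    simp only [Finset.mul_sum (Finset.univ : Finset (Fin n))]
    rw [Finset.sum_comm]
    refine Finset.sum_congr rfl fun i _ => ?_
    rw [Finset.mul_sum]
    refine Finset.sum_congr rfl fun b' _ => ?_
    ring
  have h5 : derivative (Wron_W M w v b) =
      ∑ b', C ((w.map M).prod b b') * derivative (v b') := by
    unfold Wron_W
    rw [derivative_sum]
    refine Finset.sum_congr rfl fun b' _ => ?_
    rw [derivative_C_mul]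
  rw [h5, h3]
  unfold Wron_W
  rw [Finset.mul_sum, ← Finset.sum_sub_distrib, Finset.mul_sum, Finset.mul_sum]
  refine Finset.sum_congr rfl fun b' _ => ?_
  have h6 := h b'
  unfold Ds at h6
  calc _ = C ((w.map M).prod b b') * (g * (T a * derivative (v b') - ∑ i, C (a i : ℚ) * Ti a i *
        ∑ b'', C (M i b' b'') * v b'')) := by ring
    _ = _ := by rw [h6]; ring

/-- HORIZONTAL LEMMA. If `v/g` is horizontal (`g (Ds v) = T g' v`) and all words of length `p` kill
`ℚ^ι`, then `v = κ g` with `κ` constant and `M_i κ = 0`.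
Proof: downward induction on `q`: for all words `w` of length `q + 1`, `M^w v = 0`. If it holds for all
words of length `q + 2` (true for `q + 2 ≥ p`), then for `|w| = q + 1`, `y = M^w v`: `g T y' = T g' y`, so
`y = c_w g` (`ode_const` for each coordinate). For `|w| = q`, `y = M^w v`:
`T (g y' - g' y) = g ∑ a_i T_i M^w M_i v = g^2 ∑ a_i T_i c_(w i)`, so `c_(w i) = 0` by `residue`, coordinate by
coordinate. (`M^w = (w.map M).prod`, `M^(w ++ [i]) = M^w M_i`.) At the end `M_i v = 0` for all `i` and
`g v' = g' v`, `v = κ g`. -/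
theorem hor {n : ℕ} {ι : Type*} [Fintype ι] [DecidableEq ι] (a : Fin n → ℤ) (ha : ∀ i, a i ≠ 0)
    (hinj : Function.Injective a) (M : Fin n → Matrix ι ι ℚ) (p : ℕ)
    (hM : ∀ w : List (Fin n), w.length = p → (w.map M).prod = 0)
    (v : ι → ℚ[X]) (g : ℚ[X]) (hg : g ≠ 0)
    (h : ∀ b, g * Ds a M v b = T a * derivative g * v b) :
    ∃ κ : ι → ℚ, (∀ b, v b = C (κ b) * g) ∧ ∀ i, M i *ᵥ κ = 0 := by
  have hT := T_ne_zero a
  have hkey := Wron_key a M v g h
  -- if the longer words vanish, the coordinates are constant multiples of `g`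
  have hode : ∀ w : List (Fin n), (∀ i, Wron_W M (w ++ [i]) v = 0) → ∀ b,
      ∃ c : ℚ, Wron_W M w v b = C c * g := by
    intro w hw b
    refine ode_const hg (mul_left_cancel₀ hT ?_)
    have h1 := hkey w b
    rw [Finset.sum_eq_zero (fun i _ => by rw [hw i, Pi.zero_apply, mul_zero]), sub_zero] at h1
    calc T a * (g * derivative (Wron_W M w v b))
        = g * (T a * derivative (Wron_W M w v b)) := by ring
      _ = T a * (derivative g * Wron_W M w v b) := by rw [h1]; ring
  have hall : ∀ d : ℕ, ∀ w : List (Fin n), p ≤ w.length + d → w ≠ [] → Wron_W M w v = 0 := by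
    intro d
    induction d with
    | zero =>
      intro w hw _
      rw [add_zero] at hw
      have h1 : (w.map M).prod = 0 := by
        rw [← List.take_append_drop p w, List.map_append, List.prod_append,
          hM _ (by rw [List.length_take, min_eq_left hw]), zero_mul]
      funext b
      unfold Wron_W
      rw [h1]
      simp
    | succ d ih =>
      intro w hw hne
      -- constants for all the words of the same length
      have hc : ∀ w' : List (Fin n), w'.length = w.length → ∀ b, ∃ c : ℚ,
          Wron_W M w' v b = C c * g := by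
        intro w' hw'
        refine hode w' fun i => ih _ ?_ (by simp)
        rw [List.length_append, List.length_singleton, hw']
        omega
      set u := w.dropLast with hu
      have hlen : u.length + 1 = w.length := by
        rw [hu, List.length_dropLast]
        have := List.length_pos_iff.2 hne
        omega
      have hwu : u ++ [w.getLast hne] = w := List.dropLast_append_getLast hne
      funext b
      choose c hc' using fun i => hc (u ++ [i]) (by
        rw [List.length_append, List.length_singleton, hlen]) b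
      have h1 := hkey u b
      have h2 : T a * (g * derivative (Wron_W M u v b) - derivative g * Wron_W M u v b)
          = g ^ 2 * ∑ i, C (a i : ℚ) * Ti a i * C (c i) := by
        have h3 : g ^ 2 * ∑ i, C (a i : ℚ) * Ti a i * C (c i) =
            g * ∑ i, C (a i : ℚ) * Ti a i * Wron_W M (u ++ [i]) v b := by
          rw [Finset.mul_sum, Finset.mul_sum]
          refine Finset.sum_congr rfl fun i _ => ?_
          rw [hc' i]
          ring
        rw [h3]
        have h4 : g * (T a * derivative (Wron_W M u v b)) -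
            g * ∑ i, C (a i : ℚ) * Ti a i * Wron_W M (u ++ [i]) v b =
              T a * derivative g * Wron_W M u v b := by
          rw [← h1]
          ring
        calc _ = g * (T a * derivative (Wron_W M u v b)) -
              T a * derivative g * Wron_W M u v b := by ring
          _ = _ := by rw [← h4]; ring
      have h5 := residue a ha hinj c hg h2 (w.getLast hne)
      have h6 := hc' (w.getLast hne)
      rw [hwu, h5, C_0, zero_mul] at h6
      rw [h6, Pi.zero_apply]
  have hone : ∀ i, Wron_W M [i] v = 0 := fun i => hall p [i] (by omega) (by simp)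
  have hv : ∀ b, ∃ c : ℚ, v b = C c * g := by
    intro b
    obtain ⟨c, hc⟩ := hode [] (fun i => by rw [List.nil_append]; exact hone i) b
    rw [Wron_nil] at hc
    exact ⟨c, hc⟩
  choose κ hκ using hv
  refine ⟨κ, hκ, fun i => funext fun b => ?_⟩
  have h1 := congrFun (hone i) b
  unfold Wron_W at h1
  simp only [List.map_cons, List.map_nil, List.prod_cons, List.prod_nil, mul_one,
    Pi.zero_apply] at h1
  have h2 : C ((M i *ᵥ κ) b) * g = 0 := by
    rw [← h1, Matrix.mulVec, dotProduct, map_sum, Finset.sum_mul]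
    refine Finset.sum_congr rfl fun b' _ => ?_
    rw [hκ b', C_mul, mul_assoc]
  exact C_eq_zero.1 ((mul_eq_zero.1 h2).resolve_right hg)

end MP60829e.GF
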