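import Pool.Agent.Lib.MP_60829e_nt.GF.Wron

/-!
# Nonvanishing of the Wronskian-type determinant (AL1), second half
-/

namespace MP60829e.GF
open Polynomial
open scoped Matrix

/-- `M^w v` -/
private noncomputable def WronB_W {n : ℕ} {ι : Type*} [Fintype ι] [DecidableEq ι]
    (M : Fin n → Matrix ι ι ℚ)
    (w : List (Fin n)) (v : ι → ℚ[X]) : ι → ℚ[X] := fun b =>
  ∑ b', C ((w.map M).prod b b') * v b'

private theorem WronB_nil {n : ℕ} {ι : Type*} [Fintype ι] [DecidableEq ι]
    (M : Fin n → Matrix ι ι ℚ) (v : ι → ℚ[X]) : WronB_W M [] v = v := by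
  funext b
  unfold WronB_W
  rw [List.map_nil, List.prod_nil, Finset.sum_eq_single b]
  · rw [Matrix.one_apply_eq, C_1, one_mul]
  · intro b' _ hb
    rw [Matrix.one_apply_ne (Ne.symm hb), C_0, zero_mul]
  · intro h
    exact absurd (Finset.mem_univ b) h

private theorem WronB_append {n : ℕ} {ι : Type*} [Fintype ι] [DecidableEq ι]
    (M : Fin n → Matrix ι ι ℚ) (w w' : List (Fin n)) (v : ι → ℚ[X]) :
    WronB_W M (w ++ w') v = WronB_W M w (WronB_W M w' v) := by
  funext b
  unfold WronB_W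
  rw [List.map_append, List.prod_append]
  simp only [Matrix.mul_apply, map_sum, map_mul, Finset.sum_mul, Finset.mul_sum]
  rw [Finset.sum_comm]
  refine Finset.sum_congr rfl fun x _ => Finset.sum_congr rfl fun y _ => ?_
  rw [mul_assoc]

private theorem WronB_zero {n : ℕ} {ι : Type*} [Fintype ι] [DecidableEq ι]
    (M : Fin n → Matrix ι ι ℚ) (w : List (Fin n)) : WronB_W M w 0 = 0 := by
  funext b
  unfold WronB_W
  simp

/-- `M^w (g (Ds v) - T g' v)` -/
private theorem WronB_step {n : ℕ} {ι : Type*} [Fintype ι] [DecidableEq ι] (a : Fin n → ℤ)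
    (M : Fin n → Matrix ι ι ℚ) (w : List (Fin n)) (v : ι → ℚ[X]) (g : ℚ[X])
    (hw : ∀ i, WronB_W M (w ++ [i]) v = 0) (b : ι) :
    WronB_W M w (g • Ds a M v - (T a * derivative g) • v) b
      = T a * (g * derivative (WronB_W M w v b) - derivative g * WronB_W M w v b) := by
  have h1 : ∀ i, ∑ b', C ((w.map M).prod b b') * ∑ b'', C (M i b' b'') * v b'' = 0 := by
    intro i
    have h2 := congrFun (hw i) b
    rw [WronB_append] at h2
    unfold WronB_W at h2
    simp only [List.map_cons, List.map_nil, List.prod_cons, List.prod_nil, mul_one] at h2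
    exact h2
  have h3 : ∑ b', C ((w.map M).prod b b') * ∑ i, C (a i : ℚ) * Ti a i *
      ∑ b'', C (M i b' b'') * v b'' = 0 := by
    simp only [Finset.mul_sum (Finset.univ : Finset (Fin n))]
    rw [Finset.sum_comm]
    refine Finset.sum_eq_zero fun i _ => ?_
    have h4 : ∀ b', C ((w.map M).prod b b') * (C (a i : ℚ) * Ti a i *
        ∑ b'', C (M i b' b'') * v b'') = C (a i : ℚ) * Ti a i *
          (C ((w.map M).prod b b') * ∑ b'', C (M i b' b'') * v b'') := fun b' => by ring
    rw [Finset.sum_congr rfl fun b' _ => h4 b', ← Finset.mul_sum, h1, mul_zero]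
  have h5 : derivative (WronB_W M w v b) =
      ∑ b', C ((w.map M).prod b b') * derivative (v b') := by
    unfold WronB_W
    rw [derivative_sum]
    refine Finset.sum_congr rfl fun b' _ => ?_
    rw [derivative_C_mul]
  rw [h5]
  unfold WronB_W
  have h6 : ∀ b', C ((w.map M).prod b b') * (g • Ds a M v - (T a * derivative g) • v) b' =
      T a * g * (C ((w.map M).prod b b') * derivative (v b'))
        - g * (C ((w.map M).prod b b') * ∑ i, C (a i : ℚ) * Ti a i *
          ∑ b'', C (M i b' b'') * v b'')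
        - T a * derivative g * (C ((w.map M).prod b b') * v b') := by
    intro b'
    rw [Pi.sub_apply, Pi.smul_apply, Pi.smul_apply, smul_eq_mul, smul_eq_mul]
    unfold Ds
    ring
  rw [Finset.sum_congr rfl fun b' _ => h6 b', Finset.sum_sub_distrib, Finset.sum_sub_distrib,
    ← Finset.mul_sum, ← Finset.mul_sum, ← Finset.mul_sum, h3]
  ring

/-- A nonzero `ℚ[X]`-submodule `A` of `ℚ[X]^ι`, stable under `Ds`, contains `κ g ≠ 0` with `κ` constant,
`M_i κ = 0` for all `i`, `g ≠ 0`.
Proof: `p` minimal such that `A` contains `v ≠ 0` with `M^w v = 0` for all words of length `p` (`p ≥ 1`);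
among these `v` one with the least number of pairs `(w, b)`, `|w| = p - 1`, with `(M^w v)_b ≠ 0`; by minimality
of `p` there is such a pair, `g := (M^w v)_b ≠ 0`. Then `v' := g (Ds v) - T g' v` is in `A`, killed by words of
length `p`, and `M^w v' = g T (M^w v)' - T g' (M^w v)` for `|w| = p - 1`, so its number of nonzero
pairs is smaller: `v' = 0`; apply `hor`. -/
theorem exists_const {n : ℕ} {ι : Type*} [Fintype ι] [DecidableEq ι] (a : Fin n → ℤ)
    (ha : ∀ i, a i ≠ 0) (hinj : Function.Injective a) (M : Fin n → Matrix ι ι ℚ) (p : ℕ)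
    (hM : ∀ w : List (Fin n), w.length = p → (w.map M).prod = 0)
    (A : Submodule ℚ[X] (ι → ℚ[X])) (hA : A ≠ ⊥) (hs : ∀ v ∈ A, Ds a M v ∈ A) :
    ∃ (κ : ι → ℚ) (g : ℚ[X]), κ ≠ 0 ∧ g ≠ 0 ∧ (fun b => C (κ b) * g) ∈ A ∧ ∀ i, M i *ᵥ κ = 0 := by
  classical
  -- the minimal length
  have hex : ∃ p, ∃ v ∈ A, v ≠ 0 ∧ ∀ w : List (Fin n), w.length = p → WronB_W M w v = 0 := by
    obtain ⟨v, hv, hv0⟩ := Submodule.exists_mem_ne_zero_of_ne_bot hA
    refine ⟨p, v, hv, hv0, fun w hw => ?_⟩
    funext b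
    unfold WronB_W
    rw [hM w hw]
    simp
  obtain ⟨v₀, hv₀A, hv₀0, hv₀w⟩ := Nat.find_spec hex
  have hmin := fun m (hm : m < Nat.find hex) => Nat.find_min hex hm
  have hp : Nat.find hex ≠ 0 := by
    intro h0
    have h1 := hv₀w [] (by rw [h0]; rfl)
    rw [WronB_nil] at h1
    exact hv₀0 h1
  obtain ⟨q, hq⟩ := Nat.exists_eq_succ_of_ne_zero hp
  rw [hq] at hv₀w
  have hq' : ∀ v ∈ A, v ≠ 0 → ∃ w : List (Fin n), w.length = q ∧ WronB_W M w v ≠ 0 := by
    intro v hv hv0
    by_contra hcon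
    refine hmin q (by omega) ⟨v, hv, hv0, fun w hw => ?_⟩
    by_contra h1
    exact hcon ⟨w, hw, h1⟩
  -- the number of nonzero coordinates
  let S : (ι → ℚ[X]) → Finset ((Fin q → Fin n) × ι) := fun v =>
    Finset.univ.filter fun x => WronB_W M (List.ofFn x.1) v x.2 ≠ 0
  have hex2 : ∃ m, ∃ v ∈ A, v ≠ 0 ∧
      (∀ w : List (Fin n), w.length = q + 1 → WronB_W M w v = 0) ∧ (S v).card = m :=
    ⟨_, v₀, hv₀A, hv₀0, hv₀w, rfl⟩
  obtain ⟨v, hvA, hv0, hvw, hvS⟩ := Nat.find_spec hex2
  have hmin2 := fun m (hm : m < Nat.find hex2) => Nat.find_min hex2 hm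
  obtain ⟨w, hw, hwv⟩ := hq' v hvA hv0
  obtain ⟨b, hb⟩ := Function.ne_iff.1 hwv
  rw [Pi.zero_apply] at hb
  set g : ℚ[X] := WronB_W M w v b with hg
  have hlong : ∀ w' : List (Fin n), w'.length = q + 1 → ∀ i, WronB_W M (w' ++ [i]) v = 0 := by
    intro w' hw' i
    cases w' with
    | nil => simp at hw'
    | cons c t =>
      have h1 : WronB_W M (t ++ [i]) v = 0 := hvw _ (by
        rw [List.length_append, List.length_singleton]
        simpa using hw')
      have h2 : (c :: t) ++ [i] = [c] ++ (t ++ [i]) := by simp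
      rw [h2, WronB_append, h1, WronB_zero]
  set v' : ι → ℚ[X] := g • Ds a M v - (T a * derivative g) • v with hv'
  have hv'A : v' ∈ A := A.sub_mem (A.smul_mem _ (hs v hvA)) (A.smul_mem _ hvA)
  have hv'w : ∀ w' : List (Fin n), w'.length = q + 1 → WronB_W M w' v' = 0 := by
    intro w' hw'
    funext b'
    rw [hv', WronB_step a M w' v g (hlong w' hw') b', hvw w' hw', Pi.zero_apply, derivative_zero,
      mul_zero, mul_zero, sub_zero, mul_zero]
  have hv'q : ∀ w' : List (Fin n), w'.length = q → ∀ b', WronB_W M w' v' b' =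
      T a * (g * derivative (WronB_W M w' v b') - derivative g * WronB_W M w' v b') := by
    intro w' hw' b'
    rw [hv']
    exact WronB_step a M w' v g (fun i => hvw _ (by
      rw [List.length_append, List.length_singleton, hw'])) b'
  have hv'0 : v' = 0 := by
    by_contra hne
    have hlt : (S v').card < (S v).card := by
      refine Finset.card_lt_card ?_
      have hwq : List.ofFn (fun i : Fin q => w.get (i.cast hw.symm)) = w := by
        refine List.ext_getElem (by simp [hw]) fun i h1 h2 => ?_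
        simp
      refine Finset.ssubset_iff_subset_ne.2 ⟨fun x hx => ?_, fun he => ?_⟩
      · rw [Finset.mem_filter] at hx ⊢
        refine ⟨Finset.mem_univ _, fun h1 => hx.2 ?_⟩
        rw [hv'q _ (List.length_ofFn), h1, derivative_zero, mul_zero, mul_zero, sub_zero,
          mul_zero]
      · have h1 : ((fun i : Fin q => w.get (i.cast hw.symm)), b) ∈ S v := by
          rw [Finset.mem_filter]
          refine ⟨Finset.mem_univ _, ?_⟩
          rw [hwq]
          exact hb
        rw [← he, Finset.mem_filter] at h1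
        refine h1.2 ?_
        rw [hwq, hv'q w hw b, ← hg]
        ring
    refine hmin2 _ (hvS ▸ hlt) ⟨v', hv'A, hne, hv'w, rfl⟩
  obtain ⟨κ, hκ, hκM⟩ := hor a ha hinj M p hM v g hb (fun b' => by
    have h1 := congrFun hv'0 b'
    rw [hv', Pi.sub_apply, Pi.smul_apply, Pi.smul_apply, smul_eq_mul, smul_eq_mul,
      Pi.zero_apply, sub_eq_zero] at h1
    exact h1)
  have hvκ : (fun b => C (κ b) * g) = v := funext fun b' => (hκ b').symm
  refine ⟨κ, g, ?_, hb, by rw [hvκ]; exact hvA, hκM⟩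
  rintro rfl
  refine hv0 (funext fun b' => ?_)
  rw [hκ b', Pi.zero_apply, C_0, zero_mul, Pi.zero_apply]

/-- (AL1). Proof: otherwise `w ᵥ* Wr = 0` with `w ≠ 0` (`Matrix.exists_vecMul_eq_zero_iff`); `k` = last index with
`w_k ≠ 0`; `A = {v : ∑ D_jF_b v_b = 0 for all j < k}`, nonzero because the matrix with rows `D_jF`, `j < k`, and
`0` for `j ≥ k` has determinant `0` (row `k` is `0`; `Matrix.exists_mulVec_eq_zero_iff`); on `A` also
`w_k ⟨D_kF, v⟩ = 0`, so `⟨D_kF,v⟩ = 0`, and by `dual` `A` is stable under `Ds`; every `v ∈ A` is killed by `F = D_0F`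
(if `k = 0` because `w_0 F = 0`). `exists_const` gives `κ g ∈ A`, so `∑ κ_b F_b = 0`, `M_i κ = 0`: `κ = 0` by `hF`. -/
theorem det_ne_zero {n r : ℕ} (a : Fin n → ℤ) (ha : ∀ i, a i ≠ 0) (hinj : Function.Injective a)
    (M : Fin n → Matrix (Fin r) (Fin r) ℚ) (p : ℕ)
    (hM : ∀ w : List (Fin n), w.length = p → (w.map M).prod = 0) (F : Fin r → ℚ[X])
    (hF : ∀ κ : Fin r → ℚ, (∀ i, M i *ᵥ κ = 0) → (∑ b, C (κ b) * F b) = 0 → κ = 0) :
    (Wr a M F).det ≠ 0 := by
  classical
  intro hdet
  obtain ⟨w, hw0, hw⟩ := Matrix.exists_vecMul_eq_zero_iff.2 hdet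
  obtain ⟨i₀, hi₀⟩ := Function.ne_iff.1 hw0
  have hne : (Finset.univ.filter fun i => w i ≠ 0).Nonempty :=
    ⟨i₀, Finset.mem_filter.2 ⟨Finset.mem_univ _, hi₀⟩⟩
  set k := (Finset.univ.filter fun i => w i ≠ 0).max' hne with hk
  have hwk : w k ≠ 0 := (Finset.mem_filter.1 (Finset.max'_mem _ hne)).2
  have hgt : ∀ j, k < j → w j = 0 := by
    intro j hj
    by_contra h1
    exact absurd (Finset.le_max' _ j (Finset.mem_filter.2 ⟨Finset.mem_univ _, h1⟩))
      (not_le.2 hj)
  let A : Submodule ℚ[X] (Fin r → ℚ[X]) :=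
    { carrier := {v | ∀ j : Fin r, j < k → ∑ b, Dn a M F (j : ℕ) b * v b = 0}
      add_mem' := fun {v v'} hv hv' j hj => by
        simp only [Pi.add_apply, mul_add, Finset.sum_add_distrib]
        rw [hv j hj, hv' j hj, add_zero]
      zero_mem' := fun j _ => by simp
      smul_mem' := fun c v hv j hj => by
        have h1 : ∀ b, Dn a M F (j : ℕ) b * (c • v) b = c * (Dn a M F (j : ℕ) b * v b) := by
          intro b
          rw [Pi.smul_apply, smul_eq_mul]
          ring
        rw [Finset.sum_congr rfl fun b _ => h1 b, ← Finset.mul_sum, hv j hj, mul_zero] }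
  have hAk : ∀ v ∈ A, ∑ b, Dn a M F (k : ℕ) b * v b = 0 := by
    intro v hv
    have h1 : ∑ j, w j * ∑ b, Dn a M F (j : ℕ) b * v b = 0 := by
      have h2 : (w ᵥ* Wr a M F) ⬝ᵥ v = 0 := by rw [hw, zero_dotProduct]
      rw [← Matrix.dotProduct_mulVec] at h2
      exact h2
    rw [Finset.sum_eq_single k] at h1
    · exact (mul_eq_zero.1 h1).resolve_left hwk
    · intro j _ hj
      rcases lt_or_gt_of_ne hj with h2 | h2
      · rw [hv j h2, mul_zero]
      · rw [hgt j h2, zero_mul]
    · intro h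
      exact absurd (Finset.mem_univ k) h
  have hA0 : A ≠ ⊥ := by
    have hd : (Matrix.of fun (j b : Fin r) => if j < k then Dn a M F (j : ℕ) b else 0).det = 0 :=
      Matrix.det_eq_zero_of_row_eq_zero k fun b => by
        rw [Matrix.of_apply, if_neg (lt_irrefl k)]
    obtain ⟨v, hv0, hv⟩ := Matrix.exists_mulVec_eq_zero_iff.2 hd
    intro hbot
    have hvA : v ∈ A := by
      intro j hj
      have h1 := congrFun hv j
      rw [Matrix.mulVec, dotProduct] at h1
      simp only [Matrix.of_apply, if_pos hj] at h1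
      exact h1
    rw [hbot, Submodule.mem_bot] at hvA
    exact hv0 hvA
  have hAs : ∀ v ∈ A, Ds a M v ∈ A := by
    intro v hv j hj
    have h1 := dual a M F v (j : ℕ)
    have h2 : ∑ b, Dn a M F ((j : ℕ) + 1) b * v b = 0 := by
      by_cases h3 : (j : ℕ) + 1 < k
      · exact hv ⟨(j : ℕ) + 1, lt_trans h3 k.2⟩ h3
      · have h4 : (j : ℕ) + 1 = k := by
          have : (j : ℕ) < k := hj
          omega
        rw [h4]
        exact hAk v hv
    rw [hv j hj, h2, derivative_zero, mul_zero, mul_zero, add_zero, zero_add] at h1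
    exact h1.symm
  obtain ⟨κ, g, hκ0, hg0, hκg, hκM⟩ := exists_const a ha hinj M p hM A hA0 hAs
  refine hκ0 (hF κ hκM ?_)
  have h1 : ∑ b, Dn a M F 0 b * (C (κ b) * g) = 0 := by
    by_cases h2 : (k : ℕ) = 0
    · have h3 := hAk _ hκg
      rw [h2] at h3
      exact h3
    · exact hκg ⟨0, k.pos⟩ (Nat.pos_of_ne_zero h2)
  have h2 : ∀ b, Dn a M F 0 b * (C (κ b) * g) = C (κ b) * F b * g := by
    intro b
    unfold Dn
    ring
  rw [Finset.sum_congr rfl fun b _ => h2 b, ← Finset.sum_mul] at h1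
  exact (mul_eq_zero.1 h1).resolve_right hg0

end MP60829e.GF
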